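import Mathlib
import Pool.Agent.H440R2.LFL2

/-!
# Least element of a cycle of a Collatz type recursion (coprime moduli)

The lower bound for `|b log q - a log p|` of `Pool.Agent.H440R2` (`lfl_core`) and the argument of
`Pool.Agent.H547R3.Sub.gcycle_min` (both of the starting library), for coprime integers
`p, q ≥ 2` in place of distinct primes.
-/

set_option autoImplicit false

open Finset Pool.Agent.H440R2

namespace Pool.Agent.Q205.RP

theorem abs_log_one_add {u : ℝ} (hu : |u| ≤ 1 / 2) : |Real.log (1 + u)| ≤ 2 * |u| := by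
  have h0 := abs_le.1 hu
  have h1 : 0 < 1 + u := by linarith
  rw [abs_le]
  constructor
  · have h2 := Real.one_sub_inv_le_log_of_pos h1
    have h3 : -(2 * |u|) ≤ 1 - (1 + u)⁻¹ := by
      have h4 : 1 - (1 + u)⁻¹ = u / (1 + u) := by field_simp; ring
      rw [h4, le_div_iff₀ h1]
      rcases abs_cases u with ⟨h, h'⟩ | ⟨h, h'⟩ <;> rw [h] <;> nlinarith
    linarith
  · have h2 := Real.log_le_sub_one_of_pos h1
    have := le_abs_self u
    have := abs_nonneg u
    linarith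

theorem lfl' (p q a b Y L : ℕ) (hp : 2 ≤ p) (hq : 2 ≤ q) (hpq : Nat.Coprime p q)
    (ha : 1 ≤ a) (hb : 1 ≤ b) (hY : 1 ≤ Y) (hL1 : 1 ≤ L)
    (hpY : Real.log p ≤ Y) (hqY : Real.log q ≤ Y)
    (hL : 8 * (1 + Real.log (290 * Y * L * (a + b))) ≤ L) :
    Real.exp (-(20880 * (Y:ℝ) ^ 2 * (L:ℝ) ^ 2)) < |b * Real.log q - a * Real.log p| := by
  obtain ⟨g, a', b', hg, hcop, rfl, rfl⟩ := Nat.exists_coprime' (m := a) (n := b)
    (Nat.gcd_pos_of_pos_left _ ha)
  have hg1 : (1:ℝ) ≤ g := by exact_mod_cast hg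
  have ha' : 1 ≤ a' := by
    rcases Nat.eq_zero_or_pos a' with h | h
    · simp [h] at ha
    · exact h
  have hb' : 1 ≤ b' := by
    rcases Nat.eq_zero_or_pos b' with h | h
    · simp [h] at hb
    · exact h
  have har : (1:ℝ) ≤ a' := by exact_mod_cast ha'
  have hbr : (1:ℝ) ≤ b' := by exact_mod_cast hb'
  have hYr : (1:ℝ) ≤ Y := by exact_mod_cast hY
  have hLr : (1:ℝ) ≤ L := by exact_mod_cast hL1
  have hred : |b' * Real.log q - a' * Real.log p| ≤
      |((b' * g : ℕ) : ℝ) * Real.log q - ((a' * g : ℕ) : ℝ) * Real.log p| := by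
    have : ((b' * g : ℕ) : ℝ) * Real.log q - ((a' * g : ℕ) : ℝ) * Real.log p
        = g * (b' * Real.log q - a' * Real.log p) := by push_cast; ring
    rw [this, abs_mul, Nat.abs_cast]
    exact le_mul_of_one_le_left (abs_nonneg _) hg1
  refine lt_of_lt_of_le ?_ hred
  have hL' : 8 * (1 + Real.log (290 * Y * L * (a' + b'))) ≤ L := by
    refine le_trans ?_ hL
    have h1 : Real.log (290 * Y * L * (a' + b')) ≤
        Real.log (290 * Y * L * (((a' * g : ℕ) : ℝ) + ((b' * g : ℕ) : ℝ))) := by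
      apply Real.log_le_log (by positivity)
      have h2 : (a' : ℝ) ≤ ((a' * g : ℕ) : ℝ) := by
        push_cast
        exact le_mul_of_one_le_right (by linarith) hg1
      have h3 : (b' : ℝ) ≤ ((b' * g : ℕ) : ℝ) := by
        push_cast
        exact le_mul_of_one_le_right (by linarith) hg1
      gcongr
    linarith
  by_cases hcase : 145 * Y * L ≤ a'
  · exact lfl_core p q a' b' Y L hp hq ha' hb' hcop hY hL1 hpY hqY hcase hL'
  · rw [not_le] at hcase
    have hne : p ^ a' ≠ q ^ b' := by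
      intro h
      have h1 : Nat.Coprime (p ^ a') (q ^ b') := hpq.pow _ _
      rw [← h, Nat.coprime_self] at h1
      have h2 : 1 < p ^ a' := Nat.one_lt_pow (by omega) (by omega)
      omega
    have h1 := liouville_log (p ^ a') (q ^ b') (Nat.one_le_pow _ _ (by omega))
      (Nat.one_le_pow _ _ (by omega)) hne
    push_cast at h1
    rw [Real.log_pow, Real.log_pow] at h1
    refine lt_of_lt_of_le ?_ h1
    have hp0 : (0:ℝ) < p := by
      have : (2:ℝ) ≤ p := by exact_mod_cast hp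
      linarith
    have h2 : (p:ℝ) ^ a' = Real.exp (a' * Real.log p) := by
      rw [Real.exp_nat_mul, Real.exp_log hp0]
    rw [h2, one_div, mul_inv, ← Real.exp_neg]
    have h3 : Real.exp (-1) ≤ (2:ℝ)⁻¹ := by
      rw [Real.exp_neg]
      apply inv_anti₀ (by norm_num)
      have := Real.add_one_le_exp (1:ℝ)
      linarith
    have h4 : Real.exp (-1) * Real.exp (-(a' * Real.log p)) ≤ (2:ℝ)⁻¹ * Real.exp (-(a' * Real.log p)) :=
      mul_le_mul_of_nonneg_right h3 (Real.exp_pos _).le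
    refine lt_of_lt_of_le ?_ h4
    rw [← Real.exp_add, Real.exp_lt_exp]
    have h5 : (a':ℝ) * Real.log p ≤ a' * Y := by
      apply mul_le_mul_of_nonneg_left hpY (by linarith)
    have h6 : (a':ℝ) ≤ 145 * Y * L := by exact_mod_cast hcase.le
    have h7 : (a':ℝ) * Y ≤ 145 * Y * L * Y := mul_le_mul_of_nonneg_right h6 (by linarith)
    have h8 : (145:ℝ) * Y * L * Y ≤ 145 * (Y^2 * L^2) := by
      have : (L:ℝ) ≤ L^2 := by nlinarith
      have h9 : (0:ℝ) ≤ Y^2 := by positivity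
      nlinarith [mul_le_mul_of_nonneg_left this h9]
    have h10 : (1:ℝ) ≤ Y^2 * L^2 :=
      one_le_mul_of_one_le_of_one_le (one_le_pow₀ hYr) (one_le_pow₀ hLr)
    nlinarith

/-- logarithmic size along the recursion -/
lemma gsum_logs {p q : ℕ} (hp : 1 ≤ p) (hq : 1 ≤ q) (x : ℕ → ℤ) (e : ℕ → ℕ) (r : ℕ → ℤ)
    {ρ X : ℝ} (hρ : 0 ≤ ρ) (hX : 0 < X) (hρX : 2 * ρ ≤ X)
    (hrec : ∀ j, (p : ℤ) * x (j + 1) = (q : ℤ) ^ e j * x j + r j ∧ |(r j : ℝ)| ≤ ρ)
    (hmin : ∀ j, X ≤ |(x j : ℝ)|) (n : ℕ) :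
    |Real.log |(x n : ℝ)| - Real.log |(x 0 : ℝ)| -
      (((∑ j ∈ range n, e j : ℕ) : ℝ) * Real.log q - n * Real.log p)| ≤ n * (2 * ρ / X) := by
  have hp0 : (0 : ℝ) < p := by exact_mod_cast hp
  have hq0 : (0 : ℝ) < q := by exact_mod_cast hq
  have hq1 : (1 : ℝ) ≤ q := by exact_mod_cast hq
  induction n with
  | zero => simp
  | succ n ih =>
    obtain ⟨hrec1, hr⟩ := hrec n
    have hy0 : 0 < |(x n : ℝ)| := lt_of_lt_of_le hX (hmin n)
    have hy0' : 0 < |(x (n + 1) : ℝ)| := lt_of_lt_of_le hX (hmin (n + 1))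
    have hqe : (1 : ℝ) ≤ (q : ℝ) ^ e n := one_le_pow₀ hq1
    have hqe0 : (0 : ℝ) < (q : ℝ) ^ e n := by positivity
    have hyne : (x n : ℝ) ≠ 0 := abs_pos.1 hy0
    set u : ℝ := (r n : ℝ) / ((q : ℝ) ^ e n * x n) with hu
    have hul : |u| ≤ ρ / X := by
      rw [hu, abs_div, abs_mul, abs_of_pos hqe0]
      apply div_le_div₀ hρ hr hX
      calc X ≤ |(x n : ℝ)| := hmin n
        _ ≤ (q : ℝ) ^ e n * |(x n : ℝ)| := le_mul_of_one_le_left hy0.le hqe
    have hρX' : ρ / X ≤ 1 / 2 := by rw [div_le_div_iff₀ hX (by norm_num)]; linarith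
    have hu2 : |u| ≤ 1 / 2 := hul.trans hρX'
    have h3 : (p : ℝ) * (x (n + 1) : ℝ) = (q : ℝ) ^ e n * x n + r n := by exact_mod_cast hrec1
    have h4 : (p : ℝ) * (x (n + 1) : ℝ) = (q : ℝ) ^ e n * x n * (1 + u) := by
      rw [h3, hu]; field_simp
    have h1u : 0 < 1 + u := by have := (abs_le.1 hu2).1; linarith
    have h5 : Real.log p + Real.log |(x (n + 1) : ℝ)| = e n * Real.log q +
        Real.log |(x n : ℝ)| + Real.log (1 + u) := by
      rw [← Real.log_pow, ← Real.log_mul hp0.ne' hy0'.ne',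
        ← Real.log_mul hqe0.ne' hy0.ne', ← Real.log_mul (by positivity) h1u.ne']
      congr 1
      have h6 : |(p : ℝ) * (x (n + 1) : ℝ)| = |(q : ℝ) ^ e n * x n * (1 + u)| := by rw [h4]
      rw [abs_mul, abs_mul, abs_mul, abs_of_pos hp0, abs_of_pos hqe0, abs_of_pos h1u] at h6
      exact h6
    have h7 := abs_log_one_add hu2
    have h8 : Real.log |(x (n + 1) : ℝ)| - Real.log |(x 0 : ℝ)| -
        (((∑ j ∈ range (n + 1), e j : ℕ) : ℝ) * Real.log q - ((n + 1 : ℕ) : ℝ) * Real.log p) =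
        (Real.log |(x n : ℝ)| - Real.log |(x 0 : ℝ)| -
          (((∑ j ∈ range n, e j : ℕ) : ℝ) * Real.log q - n * Real.log p)) + Real.log (1 + u) := by
      rw [Finset.sum_range_succ]
      push_cast
      linarith
    rw [h8]
    refine (abs_add_le _ _).trans ?_
    have h9 : |Real.log (1 + u)| ≤ 2 * ρ / X := by
      calc _ ≤ 2 * |u| := h7
        _ ≤ 2 * (ρ / X) := by linarith
        _ = 2 * ρ / X := by ring
    have h10 : ((n + 1 : ℕ) : ℝ) * (2 * ρ / X) = n * (2 * ρ / X) + 2 * ρ / X := by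
      push_cast
      ring
    rw [h10]
    linarith

/-- bound for the least absolute value in a cycle -/
theorem cyc_min {p q : ℕ} (hp : 2 ≤ p) (hq : 2 ≤ q) (hpq : Nat.Coprime p q) (E : ℕ) :
    ∃ B : ℝ, 0 < B ∧ ∀ (x : ℕ → ℤ) (e : ℕ → ℕ) (r : ℕ → ℤ) (ρ : ℝ) (P : ℕ), 1 ≤ ρ → 1 ≤ P →
      (∀ j, (p : ℤ) * x (j + 1) = (q : ℤ) ^ e j * x j + r j ∧ e j ≤ E ∧ |(r j : ℝ)| ≤ ρ) →
      x P = x 0 → (∀ j, |x 0| ≤ |x j|) →
      Real.log (|(x 0 : ℝ)| + ρ) ≤ Real.log ρ + B * (1 + Real.log P) ^ 2 := by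
  set Y : ℕ := ⌈Real.log p⌉₊ + ⌈Real.log q⌉₊ + 1 with hY
  have hY1 : 1 ≤ Y := by omega
  have hYR : (1 : ℝ) ≤ Y := by exact_mod_cast hY1
  have hlp0 : 0 < Real.log p := Real.log_pos (by exact_mod_cast (show 1 < p by omega))
  have hlq0 : 0 < Real.log q := Real.log_pos (by exact_mod_cast (show 1 < q by omega))
  have hpY : Real.log p ≤ Y := by
    have h1 := Nat.le_ceil (Real.log p)
    rw [hY]; push_cast
    have : (0 : ℝ) ≤ (⌈Real.log q⌉₊ : ℝ) := Nat.cast_nonneg _
    linarith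
  have hqY : Real.log q ≤ Y := by
    have h1 := Nat.le_ceil (Real.log q)
    rw [hY]; push_cast
    have : (0 : ℝ) ≤ (⌈Real.log p⌉₊ : ℝ) := Nat.cast_nonneg _
    linarith
  set K : ℝ := 16 * (1 + Real.log (4640 * Y * (E + 1))) with hK
  have hE0 : (0 : ℝ) ≤ E := Nat.cast_nonneg _
  have hlogY : 0 ≤ Real.log (4640 * Y * (E + 1)) := Real.log_nonneg (by nlinarith)
  have hK16 : 16 ≤ K := by rw [hK]; linarith
  set B0 : ℝ := 20880 * (Y : ℝ) ^ 2 * (K + 1) ^ 2 with hB0
  have hB00 : 0 < B0 := by rw [hB0]; positivity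
  have hl2 : Real.log 2 ≤ 1 := by have := Real.log_two_lt_d9; linarith
  have hlp2 : Real.log 2 ≤ Real.log p := Real.log_le_log (by norm_num) (by exact_mod_cast hp)
  have hl2' : (1 : ℝ) / 2 ≤ Real.log 2 := by have := Real.log_two_gt_d9; linarith
  refine ⟨B0 + 4, by positivity, fun x e r ρ P hρ hP hrec hper hmin => ?_⟩
  have hPR : (1 : ℝ) ≤ P := by exact_mod_cast hP
  have hP0 : (0 : ℝ) < P := by linarith
  have hlogP : 0 ≤ Real.log P := Real.log_nonneg hPR
  have hsq : 1 + Real.log P ≤ (1 + Real.log P) ^ 2 := by nlinarith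
  have hρ0 : 0 < ρ := by linarith
  set X : ℝ := |(x 0 : ℝ)| with hX
  have hX0 : 0 ≤ X := abs_nonneg _
  -- it is enough to bound `X`
  have hfin : ∀ Z : ℝ, 1 ≤ Z → X ≤ ρ * Z → Real.log (X + ρ) ≤ Real.log ρ + 1 + Real.log Z := by
    intro Z hZ h
    have h1 : X + ρ ≤ ρ * (2 * Z) := by nlinarith
    have h2 : Real.log (X + ρ) ≤ Real.log (ρ * (2 * Z)) := Real.log_le_log (by positivity) h1
    rw [Real.log_mul hρ0.ne' (by positivity), Real.log_mul (by norm_num) (by positivity)] at h2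
    linarith
  have hsmall : X ≤ ρ * 8 → Real.log (X + ρ) ≤ Real.log ρ + (B0 + 4) * (1 + Real.log P) ^ 2 := by
    intro h
    have h1 := hfin 8 (by norm_num) h
    have h2 : Real.log 8 ≤ 3 := by
      have : Real.log 8 = 3 * Real.log 2 := by
        rw [show (8 : ℝ) = 2 ^ 3 by norm_num, Real.log_pow]; norm_num
      rw [this]; linarith
    have h3 : 4 ≤ (B0 + 4) * (1 + Real.log P) ^ 2 := by nlinarith
    linarith
  rcases le_or_gt X (ρ * 8) with h8 | h8
  · exact hsmall h8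
  have hXpos : 0 < X := by linarith
  have hminR : ∀ j, X ≤ |(x j : ℝ)| := fun j => by
    rw [hX]; exact_mod_cast hmin j
  have h1 := gsum_logs (by omega) (by omega) x e r hρ0.le hXpos (by linarith)
    (fun j => ⟨(hrec j).1, (hrec j).2.2⟩) hminR P
  rw [hper, sub_self, zero_sub, abs_neg] at h1
  set N := ∑ j ∈ range P, e j with hN
  have hNE : N ≤ E * P := by
    have := Finset.sum_le_card_nsmul (range P) e E (fun j _ => (hrec j).2.1)
    rw [Finset.card_range, smul_eq_mul] at this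
    rw [Nat.mul_comm]
    exact this
  have hNER : (N : ℝ) ≤ E * P := by exact_mod_cast hNE
  rcases Nat.eq_zero_or_pos N with hN0 | hN1
  · -- `N = 0`
    exfalso
    rw [hN0] at h1
    have h2 : |((0 : ℕ) : ℝ) * Real.log q - P * Real.log p| = P * Real.log p := by
      rw [Nat.cast_zero, zero_mul, zero_sub, abs_neg, abs_of_nonneg (by positivity)]
    rw [h2] at h1
    have h3 : Real.log p ≤ 2 * ρ / X := le_of_mul_le_mul_left h1 hP0
    rw [le_div_iff₀ hXpos] at h3
    nlinarith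
  · set L : ℕ := ⌈K * (1 + Real.log P)⌉₊ with hL
    have hKp : 16 ≤ K * (1 + Real.log P) := by nlinarith
    have hLge : K * (1 + Real.log P) ≤ L := Nat.le_ceil _
    have hL16 : (16 : ℝ) ≤ L := by linarith
    have hL1 : 1 ≤ L := by
      have : (1 : ℝ) ≤ L := by linarith
      exact_mod_cast this
    have hLle : (L : ℝ) ≤ (K + 1) * (1 + Real.log P) := by
      have := Nat.ceil_lt_add_one (show (0 : ℝ) ≤ K * (1 + Real.log P) by linarith)
      rw [← hL] at this
      linarith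
    have hlfl := lfl' p q P N Y L hp hq hpq hP hN1 hY1 hL1 hpY hqY (by
      have hL0 : (0 : ℝ) < L := by linarith
      have h5 : Real.log (L / 16) ≤ L / 16 - 1 := Real.log_le_sub_one_of_pos (by positivity)
      have h6 : Real.log (290 * Y * L * ((P : ℝ) + N)) ≤
          Real.log (4640 * Y * (E + 1) * (L / 16) * P) := by
        apply Real.log_le_log (by positivity)
        have h7 : (0 : ℝ) < 290 * Y * L := by positivity
        have h8 : (P : ℝ) + N ≤ (E + 1) * P := by linarith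
        calc 290 * (Y : ℝ) * L * ((P : ℝ) + N) ≤ 290 * Y * L * ((E + 1) * P) :=
              mul_le_mul_of_nonneg_left h8 h7.le
          _ = 4640 * Y * (E + 1) * (L / 16) * P := by ring
      have h6' : Real.log (4640 * Y * (E + 1) * (L / 16) * P) =
          Real.log (4640 * Y * (E + 1)) + Real.log (L / 16) + Real.log P := by
        rw [Real.log_mul (by positivity) (by positivity), Real.log_mul (by positivity)
          (by positivity)]
      rw [h6'] at h6
      have h7 : K * (1 + Real.log P) ≥ 16 * (1 + Real.log (4640 * Y * (E + 1))) +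
          16 * Real.log P := by
        rw [hK]
        nlinarith
      linarith)
    have h10 : (L : ℝ) ^ 2 ≤ (K + 1) ^ 2 * (1 + Real.log P) ^ 2 := by
      rw [← mul_pow]
      exact pow_le_pow_left₀ (by positivity) hLle 2
    have h11 : Real.exp (-(B0 * (1 + Real.log P) ^ 2)) ≤
        Real.exp (-(20880 * (Y : ℝ) ^ 2 * (L : ℝ) ^ 2)) := by
      apply Real.exp_le_exp.2
      have : 20880 * (Y : ℝ) ^ 2 * (L : ℝ) ^ 2 ≤
          20880 * (Y : ℝ) ^ 2 * ((K + 1) ^ 2 * (1 + Real.log P) ^ 2) :=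
        mul_le_mul_of_nonneg_left h10 (by positivity)
      rw [hB0]
      linarith
    have h12 := (h11.trans hlfl.le).trans h1
    rw [Real.exp_neg, mul_div_assoc', le_div_iff₀ hXpos, inv_mul_le_iff₀ (Real.exp_pos _)] at h12
    have h13 : X ≤ ρ * (2 * P * Real.exp (B0 * (1 + Real.log P) ^ 2)) := by linarith
    have hexp1 : 1 ≤ Real.exp (B0 * (1 + Real.log P) ^ 2) := Real.one_le_exp (by positivity)
    have h14 := hfin _ (by nlinarith) h13
    rw [Real.log_mul (by positivity) (Real.exp_pos _).ne', Real.log_exp,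
      Real.log_mul (by norm_num) hP0.ne'] at h14
    rw [add_mul]
    nlinarith

end Pool.Agent.Q205.RP
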