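import Mathlib

/-!
# Random maps of the integers: words, sites, and the bound by counting words

`ω : ℤ → Fin d` has independent uniform coordinates. For `G : ℤ → Fin d → ℤ` the random map is
`x ↦ G x (ω x)`. An event about the first `k` different places visited by the trajectory of `x` has
at most the probability (number of words of length `k` with the property) / `d ^ k`.
-/

set_option autoImplicit false

open MeasureTheory Finset

namespace Pool.Agent.Q205.RP

variable {d : ℕ}

/-- The law of independent uniform choices from `{0, …, d-1}`, one for each integer. -/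
noncomputable def P (d : ℕ) [NeZero d] : Measure (ℤ → Fin d) :=
  Measure.infinitePi (fun _ : ℤ => (PMF.uniformOfFintype (Fin d)).toMeasure)

instance [NeZero d] : IsProbabilityMeasure (P d) := by
  unfold P
  infer_instance

/-- the random map -/
def Tn (G : ℤ → Fin d → ℤ) (ω : ℤ → Fin d) (x : ℤ) : ℤ := G x (ω x)

theorem cyl [NeZero d] (S : Finset ℤ) (g : ℤ → Fin d) :
    P d {ω | ∀ s ∈ S, ω s = g s} = ((d : ENNReal)⁻¹) ^ S.card := by
  have h1 : {ω : ℤ → Fin d | ∀ s ∈ S, ω s = g s} = (S : Set ℤ).pi (fun s => {g s}) := by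
    ext ω
    simp [Set.mem_pi]
  rw [h1, P, Measure.infinitePi_pi _ (fun i _ => measurableSet_singleton _)]
  rw [Finset.prod_congr rfl (fun i _ => ?_), Finset.prod_const]
  rw [PMF.toMeasure_apply_singleton _ _ (measurableSet_singleton _), PMF.uniformOfFintype_apply,
    Fintype.card_fin]

/-- words of length `k` -/
def wd (d : ℕ) : ℕ → Finset (List (Fin d))
  | 0 => {[]}
  | k + 1 => ((Finset.univ : Finset (Fin d)) ×ˢ wd d k).image (fun p => p.1 :: p.2)

theorem mem_wd {k : ℕ} {w : List (Fin d)} : w ∈ wd d k ↔ w.length = k := by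
  induction k generalizing w with
  | zero => simp [wd, List.length_eq_zero_iff]
  | succ k ih =>
    unfold wd
    rw [mem_image]
    constructor
    · rintro ⟨⟨a, v⟩, h, rfl⟩
      rw [mem_product] at h
      simp [ih.1 h.2]
    · intro h
      cases w with
      | nil => simp at h
      | cons a v =>
        refine ⟨(a, v), ?_, rfl⟩
        rw [mem_product]
        exact ⟨mem_univ _, ih.2 (by simpa using h)⟩

theorem sum_wd_succ {M : Type*} [AddCommMonoid M] (k : ℕ) (f : List (Fin d) → M) :
    ∑ w ∈ wd d (k + 1), f w = ∑ c : Fin d, ∑ w ∈ wd d k, f (c :: w) := by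
  rw [show wd d (k + 1) =
    ((Finset.univ : Finset (Fin d)) ×ˢ wd d k).image (fun p => p.1 :: p.2) from rfl,
    sum_image, sum_product]
  rintro ⟨a, v⟩ _ ⟨b, w⟩ _ h
  simp only [List.cons.injEq] at h
  exact Prod.ext h.1 h.2

theorem card_wd (k : ℕ) : (wd d k).card = d ^ k := by
  induction k with
  | zero => simp [wd]
  | succ k ih =>
    have h := sum_wd_succ (d := d) k (fun _ => 1)
    simp only [sum_const, smul_eq_mul, mul_one, card_univ, Fintype.card_fin] at h
    rw [h, ih, pow_succ]
    ring

/-- the end of the path from `x` along `w` -/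
def run (G : ℤ → Fin d → ℤ) : ℤ → List (Fin d) → ℤ
  | x, [] => x
  | x, c :: w => run G (G x c) w

/-- the places left by the path from `x` along `w` (the end is not included) -/
def sites (G : ℤ → Fin d → ℤ) : ℤ → List (Fin d) → List ℤ
  | _, [] => []
  | x, c :: w => x :: sites G (G x c) w

/-- the word read by the trajectory of `x` in the first `k` steps -/
def word (G : ℤ → Fin d → ℤ) (ω : ℤ → Fin d) : ℤ → ℕ → List (Fin d)
  | _, 0 => []
  | x, k + 1 => ω x :: word G ω (G x (ω x)) k

theorem length_word (G : ℤ → Fin d → ℤ) (ω : ℤ → Fin d) (x : ℤ) (k : ℕ) :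
    (word G ω x k).length = k := by
  induction k generalizing x with
  | zero => rfl
  | succ k ih => simp [word, ih]

theorem run_word (G : ℤ → Fin d → ℤ) (ω : ℤ → Fin d) (x : ℤ) (k : ℕ) :
    run G x (word G ω x k) = (Tn G ω)^[k] x := by
  induction k generalizing x with
  | zero => rfl
  | succ k ih =>
    rw [word, run, ih, Function.iterate_succ_apply]
    rfl

theorem length_sites (G : ℤ → Fin d → ℤ) (x : ℤ) (w : List (Fin d)) :
    (sites G x w).length = w.length := by
  induction w generalizing x with
  | nil => rfl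
  | cons c w ih => simp [sites, ih]

theorem sites_word (G : ℤ → Fin d → ℤ) (ω : ℤ → Fin d) (x : ℤ) (k : ℕ) :
    sites G x (word G ω x k) = (List.range k).map (fun j => (Tn G ω)^[j] x) := by
  induction k generalizing x with
  | zero => rfl
  | succ k ih =>
    rw [word, sites, ih, List.range_succ_eq_map, List.map_cons, List.map_map]
    simp only [Function.iterate_zero, id_eq, List.cons.injEq, true_and]
    apply List.map_congr_left
    intro j _
    simp only [Function.comp, Nat.succ_eq_add_one, Function.iterate_succ_apply]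
    rfl

theorem agree (G : ℤ → Fin d → ℤ) {ω ω' : ℤ → Fin d} {x : ℤ} {k : ℕ}
    (h : word G ω x k = word G ω' x k) :
    ∀ s ∈ sites G x (word G ω' x k), ω s = ω' s := by
  induction k generalizing x with
  | zero => simp [word, sites]
  | succ k ih =>
    simp only [word, List.cons.injEq] at h
    obtain ⟨h1, h2⟩ := h
    rw [h1] at h2
    intro s hs
    simp only [word, sites, List.mem_cons] at hs
    rcases hs with rfl | hs
    · exact h1
    · exact ih h2 s hs

/-- probability of following a given word -/
theorem follow_le [NeZero d] (G : ℤ → Fin d → ℤ) (x : ℤ) (k : ℕ) (w : List (Fin d))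
    (hn : (sites G x w).Nodup) (hw : w.length = k) :
    P d {ω | word G ω x k = w} ≤ ((d : ENNReal)⁻¹) ^ k := by
  rcases Set.eq_empty_or_nonempty {ω : ℤ → Fin d | word G ω x k = w} with h | ⟨ω', h'⟩
  · rw [h, measure_empty]
    exact zero_le
  · have h1 : word G ω' x k = w := h'
    have h2 : {ω : ℤ → Fin d | word G ω x k = w} ⊆
        {ω | ∀ s ∈ (sites G x w).toFinset, ω s = ω' s} := by
      intro ω hω s hs
      rw [List.mem_toFinset] at hs
      have h3 : word G ω x k = word G ω' x k := by rw [h1]; exact hω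
      apply agree G h3
      rw [h1]
      exact hs
    refine (measure_mono h2).trans (le_of_eq ?_)
    rw [cyl, List.toFinset_card_of_nodup hn, length_sites, hw]

/-- **The bound by counting words.** -/
theorem meas_le [NeZero d] (G : ℤ → Fin d → ℤ) (x : ℤ) (k : ℕ) (Q : List (Fin d) → Prop)
    [DecidablePred Q] :
    P d {ω | (sites G x (word G ω x k)).Nodup ∧ Q (word G ω x k)} ≤
      (((wd d k).filter (fun w => (sites G x w).Nodup ∧ Q w)).card : ENNReal) *
        ((d : ENNReal)⁻¹) ^ k := by
  have h1 : {ω : ℤ → Fin d | (sites G x (word G ω x k)).Nodup ∧ Q (word G ω x k)} ⊆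
      ⋃ w ∈ (wd d k).filter (fun w => (sites G x w).Nodup ∧ Q w),
        {ω | word G ω x k = w} := by
    intro ω hω
    simp only [Set.mem_iUnion, Set.mem_ofPred_eq, exists_prop, mem_filter]
    exact ⟨word G ω x k, ⟨mem_wd.2 (length_word G ω x k), hω⟩, rfl⟩
  refine (measure_mono h1).trans ((measure_biUnion_finset_le _ _).trans ?_)
  calc ∑ w ∈ (wd d k).filter (fun w => (sites G x w).Nodup ∧ Q w), P d {ω | word G ω x k = w}
      ≤ ∑ _w ∈ (wd d k).filter (fun w => (sites G x w).Nodup ∧ Q w), ((d : ENNReal)⁻¹) ^ k := by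
        apply Finset.sum_le_sum
        intro w hw
        rw [mem_filter] at hw
        exact follow_le G x k w hw.2.1 (mem_wd.1 hw.1)
    _ = _ := by rw [Finset.sum_const, nsmul_eq_mul]

/-- the same with real numbers -/
theorem meas_le_real [NeZero d] (G : ℤ → Fin d → ℤ) (x : ℤ) (k : ℕ) (Q : List (Fin d) → Prop)
    [DecidablePred Q] {B : ℝ}
    (hB : (((wd d k).filter (fun w => (sites G x w).Nodup ∧ Q w)).card : ℝ) ≤ B * (d : ℝ) ^ k) :
    P d {ω | (sites G x (word G ω x k)).Nodup ∧ Q (word G ω x k)} ≤ ENNReal.ofReal B := by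
  refine (meas_le G x k Q).trans ?_
  have hd : (0 : ℝ) < d := by
    have := NeZero.pos d
    exact_mod_cast this
  have hdk : (0 : ℝ) < (d : ℝ) ^ k := by positivity
  have h1 : (((wd d k).filter (fun w => (sites G x w).Nodup ∧ Q w)).card : ENNReal) =
      ENNReal.ofReal (((wd d k).filter (fun w => (sites G x w).Nodup ∧ Q w)).card : ℝ) := by
    rw [ENNReal.ofReal_natCast]
  have h2 : ((d : ENNReal)⁻¹) ^ k = ENNReal.ofReal (((d : ℝ) ^ k)⁻¹) := by
    rw [ENNReal.ofReal_inv_of_pos hdk, ENNReal.ofReal_pow hd.le, ENNReal.ofReal_natCast,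
      ENNReal.inv_pow]
  rw [h1, h2, ← ENNReal.ofReal_mul (Nat.cast_nonneg _)]
  apply ENNReal.ofReal_le_ofReal
  rw [← div_eq_mul_inv, div_le_iff₀ hdk]
  exact hB

/-- **Exponential functionals.** -/
theorem master (G : ℤ → Fin d → ℤ) (V u : ℤ → ℝ) (hu : ∀ x, 0 < u x)
    (h : ∀ x, ∑ c, V (G x c) ≤ u x * V x) (k : ℕ) (x : ℤ) :
    ∑ w ∈ wd d k, V (run G x w) / ((sites G x w).map u).prod ≤ V x := by
  induction k generalizing x with
  | zero => simp [wd, run, sites]
  | succ k ih =>
    rw [sum_wd_succ]
    simp only [run, sites, List.map_cons, List.prod_cons]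
    have h1 : ∀ c : Fin d, ∑ w ∈ wd d k, V (run G (G x c) w) /
        (u x * ((sites G (G x c) w).map u).prod) ≤ V (G x c) / u x := by
      intro c
      have h2 : ∑ w ∈ wd d k, V (run G (G x c) w) / (u x * ((sites G (G x c) w).map u).prod) =
          (∑ w ∈ wd d k, V (run G (G x c) w) / ((sites G (G x c) w).map u).prod) / u x := by
        rw [Finset.sum_div]
        apply Finset.sum_congr rfl
        intro w _
        rw [mul_comm (u x), div_mul_eq_div_div]
      rw [h2]
      exact div_le_div_of_nonneg_right (ih _) (hu x).le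
    refine (Finset.sum_le_sum (fun c _ => h1 c)).trans ?_
    rw [← Finset.sum_div, div_le_iff₀ (hu x), mul_comm]
    exact h x

end Pool.Agent.Q205.RP
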