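import Mathlib
import Pool.Agent.Q205.RP.Basic

/-!
# Counting words with a Lyapunov function
-/

set_option autoImplicit false

open MeasureTheory Finset

namespace Pool.Agent.Q205.RP

variable {d : ℕ}

/-- the weight function used in the exponential functional -/
noncomputable def uu (G : ℤ → Fin d → ℤ) (V : ℤ → ℝ) (κ : ℝ) (x : ℤ) : ℝ :=
  max κ ((∑ c, V (G x c)) / V x)

theorem uu_spec (G : ℤ → Fin d → ℤ) (V : ℤ → ℝ) (κ : ℝ) (hV : ∀ x, 0 < V x) (x : ℤ) :
    ∑ c, V (G x c) ≤ uu G V κ x * V x := by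
  have h1 : (∑ c, V (G x c)) / V x ≤ uu G V κ x := le_max_right _ _
  rwa [div_le_iff₀ (hV x)] at h1

theorem uu_pos (G : ℤ → Fin d → ℤ) (V : ℤ → ℝ) {κ : ℝ} (hκ : 0 < κ) (x : ℤ) :
    0 < uu G V κ x := lt_max_of_lt_left hκ

theorem uu_good (G : ℤ → Fin d → ℤ) (V : ℤ → ℝ) (κ : ℝ) (hV : ∀ x, 0 < V x) {x : ℤ}
    (h : ∑ c, V (G x c) ≤ κ * V x) : uu G V κ x = κ := by
  apply max_eq_left
  rwa [div_le_iff₀ (hV x)]

/-- words all of whose sites are good -/
theorem good_sum (G : ℤ → Fin d → ℤ) (V : ℤ → ℝ) {κ : ℝ} (hκ : 0 < κ) (hV : ∀ x, 0 < V x)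
    (g : ℤ → Prop) (h : ∀ x, g x → ∑ c, V (G x c) ≤ κ * V x) (k : ℕ) (x : ℤ)
    (Q : List (Fin d) → Prop) [DecidablePred Q] (hQ : ∀ w, Q w → ∀ s ∈ sites G x w, g s) :
    ∑ w ∈ (wd d k).filter Q, V (run G x w) ≤ κ ^ k * V x := by
  have h1 := master G V (uu G V κ) (uu_pos G V hκ) (uu_spec G V κ hV) k x
  have h2 : ∑ w ∈ (wd d k).filter Q, V (run G x w) / κ ^ k ≤ V x := by
    refine le_trans ?_ h1
    calc ∑ w ∈ (wd d k).filter Q, V (run G x w) / κ ^ k
        = ∑ w ∈ (wd d k).filter Q, V (run G x w) / ((sites G x w).map (uu G V κ)).prod := by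
          apply Finset.sum_congr rfl
          intro w hw
          rw [mem_filter] at hw
          congr 1
          rw [List.map_congr_left (g := fun _ => κ)
            (fun s hs => uu_good G V κ hV (h s (hQ w hw.2 s hs)))]
          rw [List.map_const', List.prod_replicate, length_sites, mem_wd.1 hw.1]
      _ ≤ _ := by
          apply Finset.sum_le_sum_of_subset_of_nonneg (filter_subset _ _)
          intro w _ _
          apply div_nonneg (hV _).le
          apply List.prod_nonneg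
          intro y hy
          rw [List.mem_map] at hy
          obtain ⟨s, _, rfl⟩ := hy
          exact (uu_pos G V hκ s).le
  rw [← Finset.sum_div, div_le_iff₀ (by positivity)] at h2
  linarith

theorem one_le_prod_real {ι : Type*} (A : Finset ι) (f : ι → ℝ) (h : ∀ s, 1 ≤ f s) :
    1 ≤ ∏ s ∈ A, f s := by
  have h1 := Finset.prod_le_prod (s := A) (f := fun _ => (1 : ℝ)) (g := f)
    (fun _ _ => zero_le_one) (fun s _ => h s)
  simpa using h1

/-- a product over distinct sites, the bad ones lying in a finite set -/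
theorem prod_nodup_le (u : ℤ → ℝ) {κ : ℝ} (hκ : 0 < κ) (hu : ∀ x, κ ≤ u x) (A : Finset ℤ)
    (hA : ∀ x, x ∉ A → u x = κ) (l : List ℤ) (hl : l.Nodup) :
    (l.map u).prod ≤ (∏ s ∈ A, (u s / κ)) * κ ^ l.length := by
  have h1 : (l.map u).prod = ∏ s ∈ l.toFinset, u s := by
    rw [List.prod_toFinset u hl]
  have h2 : l.length = l.toFinset.card := (List.toFinset_card_of_nodup hl).symm
  rw [h1, h2]
  have h3 : ∏ s ∈ l.toFinset, u s = (∏ s ∈ l.toFinset, (u s / κ)) * κ ^ l.toFinset.card := by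
    rw [← Finset.prod_const, ← Finset.prod_mul_distrib]
    apply Finset.prod_congr rfl
    intro s _
    field_simp
  rw [h3]
  apply mul_le_mul_of_nonneg_right _ (by positivity)
  have h4 : ∏ s ∈ l.toFinset, (u s / κ) = ∏ s ∈ l.toFinset ∩ A, (u s / κ) := by
    symm
    apply Finset.prod_subset inter_subset_left
    intro s hs hs'
    have : s ∉ A := fun h => hs' (mem_inter.2 ⟨hs, h⟩)
    rw [hA s this, div_self hκ.ne']
  rw [h4]
  have h5 : ∀ s, 1 ≤ u s / κ := fun s => by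
    rw [le_div_iff₀ hκ, one_mul]; exact hu s
  calc ∏ s ∈ l.toFinset ∩ A, (u s / κ) ≤ (∏ s ∈ l.toFinset ∩ A, (u s / κ)) *
        ∏ s ∈ A \ (l.toFinset ∩ A), (u s / κ) := by
        apply le_mul_of_one_le_right
        · exact Finset.prod_nonneg (fun s _ => by linarith [h5 s])
        · exact one_le_prod_real _ _ h5
    _ = ∏ s ∈ A, (u s / κ) := by
        rw [mul_comm]
        exact Finset.prod_sdiff inter_subset_right

/-- the constant in the next bound -/
noncomputable def cA (G : ℤ → Fin d → ℤ) (V : ℤ → ℝ) (κ : ℝ) (A : Finset ℤ) : ℝ :=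
  ∏ s ∈ A, (uu G V κ s / κ)

theorem cA_ge (G : ℤ → Fin d → ℤ) (V : ℤ → ℝ) {κ : ℝ} (hκ : 0 < κ) (A : Finset ℤ) :
    1 ≤ cA G V κ A := by
  apply one_le_prod_real
  intro s
  rw [le_div_iff₀ hκ, one_mul]
  exact le_max_left _ _

/-- words with distinct sites, the bad sites lying in a finite set -/
theorem nodup_sum (G : ℤ → Fin d → ℤ) (V : ℤ → ℝ) {κ : ℝ} (hκ : 0 < κ) (hV : ∀ x, 0 < V x)
    (A : Finset ℤ) (h : ∀ x, x ∉ A → ∑ c, V (G x c) ≤ κ * V x) (k : ℕ) (x : ℤ)
    (Q : List (Fin d) → Prop) [DecidablePred Q] (hQ : ∀ w, Q w → (sites G x w).Nodup) :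
    ∑ w ∈ (wd d k).filter Q, V (run G x w) ≤ cA G V κ A * κ ^ k * V x := by
  have h1 := master G V (uu G V κ) (uu_pos G V hκ) (uu_spec G V κ hV) k x
  have hc := cA_ge G V hκ A
  have h2 : ∑ w ∈ (wd d k).filter Q, V (run G x w) / (cA G V κ A * κ ^ k) ≤ V x := by
    refine le_trans ?_ h1
    refine le_trans (Finset.sum_le_sum (g := fun w =>
      V (run G x w) / ((sites G x w).map (uu G V κ)).prod) ?_) ?_
    · intro w hw
      rw [mem_filter] at hw
      have h3 := prod_nodup_le (uu G V κ) hκ (fun x => le_max_left _ _) A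
        (fun x hx => uu_good G V κ hV (h x hx)) (sites G x w) (hQ w hw.2)
      rw [length_sites, mem_wd.1 hw.1] at h3
      apply div_le_div_of_nonneg_left (hV _).le _ h3
      apply List.prod_pos
      intro y hy
      rw [List.mem_map] at hy
      obtain ⟨s, _, rfl⟩ := hy
      exact uu_pos G V hκ s
    · apply Finset.sum_le_sum_of_subset_of_nonneg (filter_subset _ _)
      intro w _ _
      apply div_nonneg (hV _).le
      apply List.prod_nonneg
      intro y hy
      rw [List.mem_map] at hy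
      obtain ⟨s, _, rfl⟩ := hy
      exact (uu_pos G V hκ s).le
  rw [← Finset.sum_div, div_le_iff₀ (by positivity)] at h2
  linarith

/-- the number of words with distinct sites -/
theorem nodup_card (G : ℤ → Fin d → ℤ) (V : ℤ → ℝ) {κ : ℝ} (hκ : 0 < κ) (hV : ∀ x, 1 ≤ V x)
    (A : Finset ℤ) (h : ∀ x, x ∉ A → ∑ c, V (G x c) ≤ κ * V x) (k : ℕ) (x : ℤ)
    (Q : List (Fin d) → Prop) [DecidablePred Q] (hQ : ∀ w, Q w → (sites G x w).Nodup) :
    (((wd d k).filter Q).card : ℝ) ≤ cA G V κ A * κ ^ k * V x := by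
  refine le_trans ?_ (nodup_sum G V hκ (fun x => by linarith [hV x]) A h k x Q hQ)
  rw [Finset.card_eq_sum_ones, Nat.cast_sum]
  apply Finset.sum_le_sum
  intro w _
  simpa using hV _

/-- the probability that the first `k` places are different -/
theorem distinct_le [NeZero d] (G : ℤ → Fin d → ℤ) (V : ℤ → ℝ) {ρ : ℝ} (hρ : 0 < ρ)
    (hV : ∀ x, 1 ≤ V x) (A : Finset ℤ) (h : ∀ x, x ∉ A → ∑ c, V (G x c) ≤ (d * ρ) * V x)
    (k : ℕ) (x : ℤ) :
    P d {ω | (sites G x (word G ω x k)).Nodup} ≤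
      ENNReal.ofReal (cA G V (d * ρ) A * V x * ρ ^ k) := by
  classical
  have hd : (0 : ℝ) < d := by
    have := NeZero.pos d
    exact_mod_cast this
  have h1 := meas_le_real G x k (fun _ => True) (B := cA G V (d * ρ) A * V x * ρ ^ k) (by
    refine (nodup_card G V (by positivity) hV A h k x
      (fun w => (sites G x w).Nodup ∧ True) (fun w hw => hw.1)).trans (le_of_eq ?_)
    rw [mul_pow]
    ring)
  simpa using h1

/-- **Closed paths** among good sites. -/
theorem closed_card (G : ℤ → Fin d → ℤ) (V : ℤ → ℝ) {κ : ℝ} (hκ : 0 < κ) (hV : ∀ x, 0 < V x)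
    (g : ℤ → Prop) (h : ∀ x, g x → ∑ c, V (G x c) ≤ κ * V x) (k : ℕ) (x : ℤ)
    (Q : List (Fin d) → Prop) [DecidablePred Q] (hQ : ∀ w, Q w → ∀ s ∈ sites G x w, g s)
    (hQ' : ∀ w, Q w → run G x w = x) :
    (((wd d k).filter Q).card : ℝ) ≤ κ ^ k := by
  have h1 := good_sum G V hκ hV g h k x Q hQ
  have h2 : ∑ w ∈ (wd d k).filter Q, V (run G x w) = ((wd d k).filter Q).card * V x := by
    rw [Finset.sum_congr rfl (fun w hw => by rw [hQ' w (mem_filter.1 hw).2]),
      Finset.sum_const, nsmul_eq_mul]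
  rw [h2] at h1
  exact le_of_mul_le_mul_right h1 (hV x)

end Pool.Agent.Q205.RP
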