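import Mathlib
import Pool.Agent.Q205.RP.Count

/-!
# Power functions as Lyapunov functions for maps with prescribed slopes
-/

set_option autoImplicit false

open MeasureTheory Finset Filter Topology

namespace Pool.Agent.Q205.RP

variable {d : ℕ}

/-- For every `x` the numbers `|G x c|` are, up to order and up to an error `B`, the numbers
`a i * |x|`. -/
def Slopes (G : ℤ → Fin d → ℤ) (a : Fin d → ℝ) (B : ℝ) : Prop :=
  ∀ x, ∃ σ : Equiv.Perm (Fin d), ∀ c, |(|(G x c : ℝ)| - a (σ c) * |(x : ℝ)|)| ≤ B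

/-- the power function -/
noncomputable def VV (s : ℝ) (x : ℤ) : ℝ := (1 + |(x : ℝ)|) ^ s

theorem VV_pos (s : ℝ) (x : ℤ) : 0 < VV s x := by
  unfold VV
  positivity

theorem VV_ge {s : ℝ} (hs : 0 ≤ s) (x : ℤ) : 1 ≤ VV s x := by
  unfold VV
  exact Real.one_le_rpow (by linarith [abs_nonneg (x : ℝ)]) hs

theorem tends_ratio {a : ℝ} (ha : 0 < a) (e s : ℝ) :
    Tendsto (fun t : ℝ => ((1 + a * t + e) / (1 + t)) ^ s) atTop (𝓝 (a ^ s)) := by
  have h1 : Tendsto (fun t : ℝ => a + (1 + e - a) / (1 + t)) atTop (𝓝 (a + 0)) := by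
    apply Tendsto.add tendsto_const_nhds
    apply Tendsto.div_atTop tendsto_const_nhds
    exact tendsto_atTop_add_const_left _ _ tendsto_id
  rw [add_zero] at h1
  have h2 : Tendsto (fun t : ℝ => (1 + a * t + e) / (1 + t)) atTop (𝓝 a) := by
    apply h1.congr'
    filter_upwards [eventually_gt_atTop (0 : ℝ)] with t ht
    field_simp
    ring
  exact h2.rpow_const (Or.inl ha.ne')

/-- **Drift.** -/
theorem drift (G : ℤ → Fin d → ℤ) (a : Fin d → ℝ) (B : ℝ) (hG : Slopes G a B)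
    (ha : ∀ i, 0 < a i) (s κ : ℝ) (hκ : ∑ i, a i ^ s < κ) :
    ∃ N : ℕ, ∀ x : ℤ, (N : ℤ) < |x| → ∑ c, VV s (G x c) ≤ κ * VV s x := by
  have h1 : Tendsto (fun t : ℝ => ∑ i, max (((1 + a i * t + B) / (1 + t)) ^ s)
      (((1 + a i * t + (-B)) / (1 + t)) ^ s)) atTop (𝓝 (∑ i, max (a i ^ s) (a i ^ s))) := by
    apply tendsto_finsetSum
    intro i _
    exact (tends_ratio (ha i) B s).max (tends_ratio (ha i) (-B) s)
  simp only [max_self] at h1
  have h2 : ∀ᶠ t : ℝ in atTop, ∑ i, max (((1 + a i * t + B) / (1 + t)) ^ s)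
      (((1 + a i * t + (-B)) / (1 + t)) ^ s) < κ := h1.eventually (gt_mem_nhds hκ)
  have h3 : ∀ᶠ t : ℝ in atTop, ∀ i, 0 < 1 + a i * t + (-B) := by
    rw [eventually_all]
    intro i
    have : Tendsto (fun t : ℝ => a i * t) atTop atTop := tendsto_id.const_mul_atTop (ha i)
    filter_upwards [this.eventually_gt_atTop B] with t ht
    linarith
  obtain ⟨t₀, ht₀⟩ := eventually_atTop.1 ((h2.and h3).and (eventually_ge_atTop (0 : ℝ)))
  refine ⟨⌈t₀⌉₊, fun x hx => ?_⟩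
  have hxR : t₀ ≤ |(x : ℝ)| := by
    have h4 : t₀ ≤ (⌈t₀⌉₊ : ℝ) := Nat.le_ceil _
    have h5 : ((⌈t₀⌉₊ : ℤ) : ℝ) < ((|x| : ℤ) : ℝ) := by exact_mod_cast hx
    push_cast at h5
    linarith
  obtain ⟨⟨h4, h5⟩, h6⟩ := ht₀ _ hxR
  obtain ⟨σ, hσ⟩ := hG x
  have h7 : ∀ c, VV s (G x c) ≤
      max (((1 + a (σ c) * |(x : ℝ)| + B) / (1 + |(x : ℝ)|)) ^ s)
      (((1 + a (σ c) * |(x : ℝ)| + (-B)) / (1 + |(x : ℝ)|)) ^ s) * VV s x := by
    intro c
    have h8 := abs_le.1 (hσ c)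
    have h9 := h5 (σ c)
    have h10 : (0 : ℝ) < 1 + |(x : ℝ)| := by positivity
    have hp1 : 0 ≤ (1 + a (σ c) * |(x : ℝ)| + B) := by linarith
    rw [max_mul_of_nonneg _ _ (VV_pos s x).le]
    rcases le_total 0 s with hs | hs
    · apply le_max_of_le_left
      unfold VV
      rw [← Real.mul_rpow (by positivity) h10.le, div_mul_cancel₀ _ h10.ne']
      apply Real.rpow_le_rpow (by positivity) _ hs
      linarith
    · apply le_max_of_le_right
      unfold VV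
      rw [← Real.mul_rpow (by positivity) h10.le, div_mul_cancel₀ _ h10.ne']
      apply Real.rpow_le_rpow_of_nonpos h9 _ hs
      linarith
  set F : Fin d → ℝ := fun i => max (((1 + a i * |(x : ℝ)| + B) / (1 + |(x : ℝ)|)) ^ s)
      (((1 + a i * |(x : ℝ)| + (-B)) / (1 + |(x : ℝ)|)) ^ s) with hF
  calc ∑ c, VV s (G x c) ≤ ∑ c, F (σ c) * VV s x := Finset.sum_le_sum (fun c _ => h7 c)
    _ = (∑ i, F i) * VV s x := by
        rw [← Finset.sum_mul]
        congr 1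
        exact Equiv.sum_comp σ F
    _ ≤ κ * VV s x := mul_le_mul_of_nonneg_right h4.le (VV_pos s x).le

/-- If the product of the slopes is less than `1`, a small power decreases on average. -/
theorem exists_exponent (a : Fin d → ℝ) (ha : ∀ i, 0 < a i) (hprod : ∏ i, a i < 1) :
    ∃ s : ℝ, 0 < s ∧ s ≤ 1 ∧ ∑ i, a i ^ s < d := by
  have hlog : ∑ i, Real.log (a i) < 0 := by
    rw [← Real.log_prod (fun i _ => (ha i).ne')]
    exact Real.log_neg (Finset.prod_pos (fun i _ => ha i)) hprod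
  have h1 : HasDerivAt (fun s : ℝ => ∑ i, a i ^ s) (∑ i, a i ^ (0 : ℝ) * Real.log (a i)) 0 := by
    apply HasDerivAt.fun_sum
    intro i _
    exact (Real.hasStrictDerivAt_const_rpow (ha i) 0).hasDerivAt
  simp only [Real.rpow_zero, one_mul] at h1
  have h2 : Tendsto (slope (fun s : ℝ => ∑ i, a i ^ s) 0) (𝓝[>] 0)
      (𝓝 (∑ i, Real.log (a i))) := by
    have := hasDerivAt_iff_tendsto_slope.1 h1
    exact this.mono_left (nhdsWithin_mono _ (fun x hx => ne_of_gt hx))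
  have h3 : ∀ᶠ s : ℝ in 𝓝[>] 0, slope (fun s : ℝ => ∑ i, a i ^ s) 0 s < 0 :=
    h2.eventually (gt_mem_nhds hlog)
  have h4 : ∀ᶠ s : ℝ in 𝓝[>] 0, s < 1 := by
    apply mem_nhdsWithin_of_mem_nhds
    exact gt_mem_nhds one_pos
  obtain ⟨s, ⟨h5, h6⟩, h7⟩ := ((h3.and h4).and self_mem_nhdsWithin).exists
  refine ⟨s, h7, h6.le, ?_⟩
  rw [slope_def_field, sub_zero, div_neg_iff] at h5
  have h8 : (0 : ℝ) < s := h7
  rcases h5 with ⟨_, h⟩ | ⟨h, _⟩
  · linarith
  · simp only [Real.rpow_zero, sum_const, card_univ, Fintype.card_fin, nsmul_eq_mul,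
      mul_one] at h
    linarith

/-- If the product of the slopes is greater than `1`, a small negative power decreases. -/
theorem exists_exponent_neg (a : Fin d → ℝ) (ha : ∀ i, 0 < a i)
    (hprod : 1 < ∏ i, a i) : ∃ s : ℝ, 0 < s ∧ s ≤ 1 ∧ ∑ i, a i ^ (-s) < d := by
  obtain ⟨s, h1, h2, h3⟩ := exists_exponent (fun i => (a i)⁻¹) (fun i => inv_pos.2 (ha i))
    (by rw [Finset.prod_inv_distrib]; exact inv_lt_one_of_one_lt₀ hprod)
  refine ⟨s, h1, h2, ?_⟩
  refine lt_of_le_of_lt (le_of_eq ?_) h3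
  apply Finset.sum_congr rfl
  intro i _
  rw [Real.rpow_neg (ha i).le, Real.inv_rpow (ha i).le]

end Pool.Agent.Q205.RP
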