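import Mathlib
import Pool.Agent.Q205.RP.Drift

/-!
# Almost every map: eventual periodicity within logarithmic time
-/

set_option autoImplicit false

open MeasureTheory Finset Filter Topology

namespace Pool.Agent.Q205.RP

variable {d : ℕ}

theorem nodup_iff (G : ℤ → Fin d → ℤ) (ω : ℤ → Fin d) (x : ℤ) (k : ℕ) :
    (sites G x (word G ω x k)).Nodup ↔
      ∀ i < k, ∀ j < k, (Tn G ω)^[i] x = (Tn G ω)^[j] x → i = j := by
  rw [sites_word, List.nodup_map_iff_inj_on List.nodup_range]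
  simp only [List.mem_range]

theorem exists_of_not_nodup (G : ℤ → Fin d → ℤ) (ω : ℤ → Fin d) (x : ℤ) (k : ℕ)
    (h : ¬ (sites G x (word G ω x k)).Nodup) :
    ∃ i j, i < j ∧ j < k ∧ (Tn G ω)^[i] x = (Tn G ω)^[j] x := by
  rw [nodup_iff] at h
  push Not at h
  obtain ⟨i, hi, j, hj, h1, h2⟩ := h
  rcases lt_or_gt_of_ne h2 with h3 | h3
  · exact ⟨i, j, h3, hj, h1⟩
  · exact ⟨j, i, h3, hi, h1.symm⟩

theorem summable_two_add {b : ℝ} (hb : 1 < b) :
    Summable (fun x : ℤ => (2 + |(x : ℝ)|) ^ (-b)) := by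
  have h1 := Real.summable_abs_int_rpow hb
  have h2 : Summable (fun x : ℤ => if x = 0 then (1 : ℝ) else 0) := by
    apply summable_of_ne_finset_zero (s := {0})
    intro x hx
    rw [if_neg]
    simpa using hx
  apply Summable.of_nonneg_of_le (fun x => by positivity) _ (h1.add h2)
  intro x
  by_cases hx : x = 0
  · subst hx
    simp only [Int.cast_zero, abs_zero, add_zero, if_true]
    have h3 : (2 : ℝ) ^ (-b) ≤ 1 := Real.rpow_le_one_of_one_le_of_nonpos (by norm_num) (by linarith)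
    have h4 : (0 : ℝ) ≤ (0 : ℝ) ^ (-b) := Real.rpow_nonneg le_rfl _
    linarith
  · rw [if_neg hx, add_zero]
    have h3 : (0 : ℝ) < |(x : ℝ)| := abs_pos.2 (by exact_mod_cast hx)
    exact Real.rpow_le_rpow_of_nonpos h3 (by linarith) (by linarith)

/-- Borel–Cantelli -/
theorem bc {ι Ω : Type*} [Countable ι] [MeasurableSpace Ω] {μ : Measure Ω} (E : ι → Set Ω)
    (f : ι → ℝ) (hf : Summable f) (h : ∀ i, μ (E i) ≤ ENNReal.ofReal (f i)) :
    ∀ᵐ ω ∂μ, {i | ω ∈ E i}.Finite := by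
  apply ae_finite_setOfPred_mem
  exact ne_top_of_le_ne_top hf.tsum_ofReal_ne_top (ENNReal.tsum_le_tsum h)

/-- a set whose measure is below `c * ρ ^ k` for all `k` -/
theorem null_of_geom {Ω : Type*} [MeasurableSpace Ω] {μ : Measure Ω} (E : Set Ω) (c ρ : ℝ)
    (h0 : 0 ≤ ρ) (h1 : ρ < 1) (h : ∀ k : ℕ, μ E ≤ ENNReal.ofReal (c * ρ ^ k)) : μ E = 0 := by
  have h2 : Tendsto (fun k : ℕ => ENNReal.ofReal (c * ρ ^ k)) atTop (𝓝 (ENNReal.ofReal (c * 0))) :=
    ENNReal.tendsto_ofReal ((tendsto_pow_atTop_nhds_zero_of_lt_one h0 h1).const_mul c)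
  rw [mul_zero, ENNReal.ofReal_zero] at h2
  exact le_antisymm (ge_of_tendsto' h2 h) zero_le

/-- the finite set of integers of absolute value at most `N` -/
noncomputable def ball (N : ℕ) : Finset ℤ := Finset.Icc (-(N : ℤ)) N

theorem mem_ball {N : ℕ} {x : ℤ} : x ∈ ball N ↔ |x| ≤ N := by
  rw [ball, Finset.mem_Icc, abs_le]

theorem rpow_decay {ρ C t : ℝ} (hρ : 0 < ρ) (hρ1 : ρ < 1) (ht : 0 < t) :
    ρ ^ ⌈C * Real.log t⌉₊ ≤ t ^ (C * Real.log ρ) := by
  have h1 : C * Real.log t ≤ (⌈C * Real.log t⌉₊ : ℝ) := Nat.le_ceil _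
  rw [← Real.rpow_natCast, Real.rpow_def_of_pos hρ, Real.rpow_def_of_pos ht]
  apply Real.exp_le_exp.2
  have h2 := Real.log_neg hρ hρ1
  nlinarith

/-- for all but finitely many `x` the trajectory meets itself within `C log (2 + |x|)` steps -/
theorem loop_ae [NeZero d] (G : ℤ → Fin d → ℤ) (s κ : ℝ) (hs : 0 < s) (hκ0 : 0 < κ) (hκ : κ < d)
    (N : ℕ) (h : ∀ x : ℤ, (N : ℤ) < |x| → ∑ c, VV s (G x c) ≤ κ * VV s x) (C : ℝ)
    (hC1 : s + C * Real.log (κ / d) < -1) :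
    ∀ᵐ ω ∂P d, {x : ℤ | ¬ ∃ i j : ℕ, i < j ∧ (j : ℝ) ≤ C * Real.log (2 + |(x : ℝ)|) ∧
      (Tn G ω)^[i] x = (Tn G ω)^[j] x}.Finite := by
  have hd : (0 : ℝ) < d := by
    have := NeZero.pos d
    exact_mod_cast this
  set ρ : ℝ := κ / d with hρ
  have hρ0 : 0 < ρ := div_pos hκ0 hd
  have hρ1 : ρ < 1 := by rw [hρ, div_lt_one hd]; exact hκ
  have hκρ : κ = d * ρ := by rw [hρ]; field_simp
  set c := cA G (VV s) (d * ρ) (ball N) with hc
  have hc0 : 0 < c := lt_of_lt_of_le one_pos (cA_ge G (VV s) (by positivity) _)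
  have h1 := bc (μ := P d) (fun x : ℤ => {ω | (sites G x
    (word G ω x ⌈C * Real.log (2 + |(x : ℝ)|)⌉₊)).Nodup})
    (fun x => c * (2 + |(x : ℝ)|) ^ (-(-(s + C * Real.log ρ))))
    ((summable_two_add (b := -(s + C * Real.log ρ)) (by linarith)).mul_left c) (by
      intro x
      refine (distinct_le G (VV s) hρ0 (VV_ge hs.le) (ball N) (fun x hx => ?_) _ x).trans ?_
      · rw [← hκρ]
        apply h
        rw [mem_ball, not_le] at hx
        exact hx
      · apply ENNReal.ofReal_le_ofReal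
        rw [← hc, mul_assoc]
        apply mul_le_mul_of_nonneg_left _ hc0.le
        have h2 : (0 : ℝ) < 2 + |(x : ℝ)| := by positivity
        rw [neg_neg, Real.rpow_add h2]
        apply mul_le_mul _ (rpow_decay hρ0 hρ1 h2) (by positivity) (by positivity)
        unfold VV
        apply Real.rpow_le_rpow (by positivity) (by linarith) hs.le)
  filter_upwards [h1] with ω hω
  apply hω.subset
  intro x hx
  by_contra hcon
  apply hx
  obtain ⟨i, j, h2, h3, h4⟩ := exists_of_not_nodup G ω x _ hcon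
  refine ⟨i, j, h2, ?_, h4⟩
  have := Nat.lt_ceil.1 h3
  exact this.le

/-- every trajectory is eventually periodic -/
theorem evper_ae [NeZero d] (G : ℤ → Fin d → ℤ) (V : ℤ → ℝ) (κ : ℝ) (hV : ∀ x, 1 ≤ V x)
    (hκ0 : 0 < κ) (hκ : κ < d) (N : ℕ)
    (h : ∀ x : ℤ, (N : ℤ) < |x| → ∑ c, V (G x c) ≤ κ * V x) :
    ∀ᵐ ω ∂P d, ∀ x : ℤ, ∃ i j : ℕ, i < j ∧ (Tn G ω)^[i] x = (Tn G ω)^[j] x := by
  have hd : (0 : ℝ) < d := by
    have := NeZero.pos d
    exact_mod_cast this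
  set ρ : ℝ := κ / d with hρ
  have hρ0 : 0 < ρ := div_pos hκ0 hd
  have hρ1 : ρ < 1 := by rw [hρ, div_lt_one hd]; exact hκ
  have hκρ : κ = d * ρ := by rw [hρ]; field_simp
  rw [ae_all_iff]
  intro x
  have h1 : P d {ω | ∀ k, (sites G x (word G ω x k)).Nodup} = 0 := by
    apply null_of_geom _ (cA G V (d * ρ) (ball N) * V x) ρ hρ0.le hρ1
    intro k
    refine (measure_mono (fun ω hω => ?_)).trans (distinct_le G V hρ0 hV (ball N)
      (fun x hx => ?_) k x)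
    · exact hω k
    · rw [← hκρ]
      apply h
      rw [mem_ball, not_le] at hx
      exact hx
  have h2 : ∀ᵐ ω ∂P d, ¬ ∀ k, (sites G x (word G ω x k)).Nodup := by
    rw [ae_iff]
    simpa using h1
  filter_upwards [h2] with ω hω
  push Not at hω
  obtain ⟨k, hk⟩ := hω
  obtain ⟨i, j, h3, _, h4⟩ := exists_of_not_nodup G ω x _ hk
  exact ⟨i, j, h3, h4⟩

/-- a deterministic step: from finitely many exceptions to all `x` -/
theorem all_of_finite (f : ℤ → ℤ) (C : ℝ)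
    (h1 : {x : ℤ | ¬ ∃ i j : ℕ, i < j ∧ (j : ℝ) ≤ C * Real.log (2 + |(x : ℝ)|) ∧
      f^[i] x = f^[j] x}.Finite)
    (h2 : ∀ x : ℤ, ∃ i j : ℕ, i < j ∧ f^[i] x = f^[j] x) :
    ∃ K : ℝ, ∀ x : ℤ, ∃ i j : ℕ, i < j ∧ (j : ℝ) ≤ K * Real.log (2 + |(x : ℝ)|) ∧
      f^[i] x = f^[j] x := by
  choose i j hij hf using h2
  obtain ⟨M, hM⟩ : ∃ M : ℕ, ∀ x ∈ h1.toFinset, j x ≤ M :=
    ⟨h1.toFinset.sup j, fun x hx => Finset.le_sup hx⟩
  have hl2 : 0 < Real.log 2 := Real.log_pos (by norm_num)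
  refine ⟨max C (M / Real.log 2), fun x => ?_⟩
  have hlx : Real.log 2 ≤ Real.log (2 + |(x : ℝ)|) :=
    Real.log_le_log (by norm_num) (by linarith [abs_nonneg (x : ℝ)])
  by_cases hx : x ∈ h1.toFinset
  · refine ⟨i x, j x, hij x, ?_, hf x⟩
    have h3 : (j x : ℝ) ≤ M := by exact_mod_cast hM x hx
    calc (j x : ℝ) ≤ M := h3
      _ = (M / Real.log 2) * Real.log 2 := by field_simp
      _ ≤ (M / Real.log 2) * Real.log (2 + |(x : ℝ)|) :=
          mul_le_mul_of_nonneg_left hlx (by positivity)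
      _ ≤ _ := mul_le_mul_of_nonneg_right (le_max_right _ _) (by linarith)
  · rw [Set.Finite.mem_toFinset] at hx
    simp only [Set.mem_ofPred_eq, not_not] at hx
    obtain ⟨i', j', h3, h4, h5⟩ := hx
    refine ⟨i', j', h3, h4.trans ?_, h5⟩
    exact mul_le_mul_of_nonneg_right (le_max_left _ _) (by linarith)

theorem mem_periodicPts_of_eq (f : ℤ → ℤ) {x : ℤ} {i j : ℕ} (hij : i < j)
    (h : f^[i] x = f^[j] x) : f^[i] x ∈ Function.periodicPts f := by
  refine ⟨j - i, by omega, ?_⟩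
  rw [Function.IsPeriodicPt, Function.IsFixedPt, ← Function.iterate_add_apply,
    show j - i + i = j by omega]
  exact h.symm

end Pool.Agent.Q205.RP
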