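import Mathlib
import Pool.Agent.Q205.RP.Traj
import Pool.Agent.Q205.RP.Cyc

/-!
# Almost every map has finitely many cycles
-/

set_option autoImplicit false

open MeasureTheory Finset Filter Topology

namespace Pool.Agent.Q205.RP

variable {d : ℕ}

/-- `p G(x,c) = q^e x + r` with bounded `e` and `r` -/
def Rec (G : ℤ → Fin d → ℤ) (p q E : ℕ) (R : ℝ) : Prop :=
  ∀ x c, ∃ (e : ℕ) (r : ℤ), (p : ℤ) * G x c = (q : ℤ) ^ e * x + r ∧ e ≤ E ∧ |(r : ℝ)| ≤ R

/-- `x` is a point of least absolute value of a cycle of length at least `ℓ` -/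
def LongMin (f : ℤ → ℤ) (x : ℤ) (ℓ : ℕ) : Prop :=
  ∃ P : ℕ, ℓ ≤ P ∧ 1 ≤ P ∧ (∀ i < P, ∀ j < P, f^[i] x = f^[j] x → i = j) ∧ f^[P] x = x ∧
    ∀ j, |x| ≤ |f^[j] x|

theorem longMin_le [NeZero d] (G : ℤ → Fin d → ℤ) (V : ℤ → ℝ) {ρ : ℝ} (hρ0 : 0 < ρ) (hρ1 : ρ < 1)
    (hV : ∀ x, 0 < V x) (x : ℤ)
    (h : ∀ y : ℤ, |x| ≤ |y| → ∑ c, V (G y c) ≤ (d * ρ) * V y) (ℓ : ℕ) :
    P d {ω | LongMin (Tn G ω) x ℓ} ≤ ENNReal.ofReal (ρ ^ ℓ * (1 - ρ)⁻¹) := by
  classical
  have hd : (0 : ℝ) < d := by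
    have := NeZero.pos d
    exact_mod_cast this
  set Q : List (Fin d) → Prop := fun w => (∀ s ∈ sites G x w, |x| ≤ |s|) ∧ run G x w = x with hQ
  have h1 : {ω | LongMin (Tn G ω) x ℓ} ⊆ ⋃ n : ℕ,
      {ω | (sites G x (word G ω x (ℓ + n))).Nodup ∧ Q (word G ω x (ℓ + n))} := by
    intro ω hω
    obtain ⟨p, hp1, hp2, hp3, hp4, hp5⟩ := hω
    rw [Set.mem_iUnion]
    refine ⟨p - ℓ, ?_⟩
    rw [Set.mem_ofPred_eq, show ℓ + (p - ℓ) = p by omega]
    refine ⟨(nodup_iff G ω x p).2 hp3, ?_, ?_⟩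
    · intro s hs
      rw [sites_word, List.mem_map] at hs
      obtain ⟨j, _, rfl⟩ := hs
      exact hp5 j
    · rw [run_word]
      exact hp4
  refine (measure_mono h1).trans ((measure_iUnion_le _).trans ?_)
  have h2 : ∀ n : ℕ, P d {ω | (sites G x (word G ω x (ℓ + n))).Nodup ∧
      Q (word G ω x (ℓ + n))} ≤ ENNReal.ofReal (ρ ^ ℓ * ρ ^ n) := by
    intro n
    apply meas_le_real
    refine (closed_card G V (κ := d * ρ) (by positivity) hV (fun y => |x| ≤ |y|) h (ℓ + n) x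
      (fun w => (sites G x w).Nodup ∧ Q w) (fun w hw => hw.2.1) (fun w hw => hw.2.2)).trans
      (le_of_eq ?_)
    rw [mul_pow, pow_add ρ]
    ring
  refine (ENNReal.tsum_le_tsum h2).trans (le_of_eq ?_)
  have h3 : Summable (fun n : ℕ => ρ ^ ℓ * ρ ^ n) :=
    (summable_geometric_of_lt_one hρ0.le hρ1).mul_left _
  rw [← ENNReal.ofReal_tsum_of_nonneg (fun n => by positivity) h3, tsum_mul_left,
    tsum_geometric_of_lt_one hρ0.le hρ1]

/-- comparison of logarithms -/
theorem log_compare {B R C : ℝ} (hB : 0 < B) (hR : 1 ≤ R) (hC : 0 < C) :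
    ∃ T : ℕ, ∀ t : ℝ, (T : ℝ) ≤ t → ∀ P : ℝ, 1 ≤ P → P ≤ C * Real.log (2 + t) →
      Real.log R + B * (1 + Real.log P) ^ 2 < Real.log (t + R) := by
  have h1 : ∀ᶠ y : ℝ in atTop, ‖Real.log y ^ 2‖ ≤ (1 / (8 * B * (Real.exp 1 * C))) * ‖(id y : ℝ)‖ :=
    (Real.isLittleO_pow_log_id_atTop (n := 2)).def (by positivity)
  have h2 : Tendsto (fun t : ℝ => Real.log (2 + t)) atTop atTop :=
    Real.tendsto_log_atTop.comp (tendsto_atTop_add_const_left _ _ tendsto_id)
  have h3 : Tendsto (fun t : ℝ => Real.exp 1 * C * Real.log (2 + t)) atTop atTop :=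
    h2.const_mul_atTop (by positivity)
  have h4 := h3.eventually h1
  have h5 := h2.eventually_gt_atTop (8 * (Real.log R + Real.log 2))
  have h6 := h2.eventually_gt_atTop (0 : ℝ)
  obtain ⟨t₀, ht₀⟩ := eventually_atTop.1 (((h4.and h5).and h6).and (eventually_ge_atTop (0 : ℝ)))
  refine ⟨⌈t₀⌉₊, fun t ht p hp1 hp2 => ?_⟩
  obtain ⟨⟨⟨h7, h8⟩, h9⟩, h10⟩ := ht₀ t ((Nat.le_ceil _).trans ht)
  set L := Real.log (2 + t) with hL
  have he := Real.exp_pos 1
  have h11 : 1 + Real.log p = Real.log (Real.exp 1 * p) := by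
    rw [Real.log_mul he.ne' (by linarith), Real.log_exp]
  have h12 : 1 + Real.log p ≤ Real.log (Real.exp 1 * C * L) := by
    rw [h11]
    apply Real.log_le_log (by positivity)
    rw [mul_assoc]
    exact mul_le_mul_of_nonneg_left hp2 he.le
  have h13 : 0 ≤ 1 + Real.log p := by
    have := Real.log_nonneg hp1
    linarith
  have h14 : (1 + Real.log p) ^ 2 ≤ Real.log (Real.exp 1 * C * L) ^ 2 :=
    pow_le_pow_left₀ h13 h12 2
  simp only [id, Real.norm_eq_abs] at h7
  rw [abs_of_nonneg (by positivity), abs_of_nonneg (by positivity)] at h7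
  have h15 : B * (1 + Real.log p) ^ 2 ≤ L / 8 := by
    calc B * (1 + Real.log p) ^ 2 ≤ B * (1 / (8 * B * (Real.exp 1 * C)) *
          (Real.exp 1 * C * L)) := mul_le_mul_of_nonneg_left (h14.trans h7) hB.le
      _ = L / 8 := by field_simp
  have h16 : L - Real.log 2 ≤ Real.log (t + R) := by
    rw [hL, ← Real.log_div (by linarith) (by norm_num)]
    apply Real.log_le_log (by linarith)
    linarith
  have h17 : 0 ≤ Real.log R := Real.log_nonneg hR
  have h18 : 0 < Real.log 2 := Real.log_pos (by norm_num)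
  nlinarith

/-- the periodic points, from those of least absolute value -/
theorem periodic_finite (f : ℤ → ℤ) (h : {x : ℤ | x ∈ Function.periodicPts f ∧
    ∀ j, |x| ≤ |f^[j] x|}.Finite) : (Function.periodicPts f).Finite := by
  have h1 : Function.periodicPts f ⊆ ⋃ y ∈ {x : ℤ | x ∈ Function.periodicPts f ∧
      ∀ j, |x| ≤ |f^[j] x|}, ((fun j => f^[j] y) '' (Set.Iio (Function.minimalPeriod f y))) := by
    intro x hx
    obtain ⟨i, hi, himin⟩ := Finset.exists_min_image (range (Function.minimalPeriod f x))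
      (fun i => |f^[i] x|) ⟨0, Finset.mem_range.2 (Function.minimalPeriod_pos_of_mem_periodicPts hx)⟩
    rw [Finset.mem_range] at hi
    have hper := Function.isPeriodicPt_minimalPeriod f x
    set p := Function.minimalPeriod f x with hp
    have hmod : ∀ j, f^[j] x = f^[j % p] x := fun j => by
      rw [hp, Function.iterate_mod_minimalPeriod_eq]
    have hy : f^[i] x ∈ Function.periodicPts f := by
      refine ⟨p, by omega, ?_⟩
      exact hper.apply_iterate i
    rw [Set.mem_iUnion₂]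
    refine ⟨f^[i] x, ⟨hy, fun j => ?_⟩, ?_⟩
    · rw [← Function.iterate_add_apply, hmod (j + i)]
      exact himin _ (Finset.mem_range.2 (Nat.mod_lt _ (by omega)))
    · rw [Set.mem_image]
      refine ⟨(p - i) % (Function.minimalPeriod f (f^[i] x)), ?_, ?_⟩
      · exact Nat.mod_lt _ (Function.minimalPeriod_pos_of_mem_periodicPts hy)
      · rw [Function.iterate_mod_minimalPeriod_eq, ← Function.iterate_add_apply,
          show p - i + i = p by omega]
        exact hper
  refine Set.Finite.subset ?_ h1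
  exact h.biUnion (fun y _ => (Set.finite_Iio _).image _)

/-- **Finitely many cycles for almost every map.** -/
theorem cycles_ae [NeZero d] (G : ℤ → Fin d → ℤ) (V : ℤ → ℝ) (κ : ℝ) (hV : ∀ x, 0 < V x)
    (hκ0 : 0 < κ) (hκ : κ < d) (N : ℕ)
    (h : ∀ x : ℤ, (N : ℤ) < |x| → ∑ c, V (G x c) ≤ κ * V x)
    {p q E : ℕ} {R : ℝ} (hp : 2 ≤ p) (hq : 2 ≤ q) (hpq : Nat.Coprime p q) (hR : 1 ≤ R)
    (hrec : Rec G p q E R) :
    ∀ᵐ ω ∂P d, (Function.periodicPts (Tn G ω)).Finite := by
  have hd : (0 : ℝ) < d := by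
    have := NeZero.pos d
    exact_mod_cast this
  set ρ : ℝ := κ / d with hρ
  have hρ0 : 0 < ρ := div_pos hκ0 hd
  have hρ1 : ρ < 1 := by rw [hρ, div_lt_one hd]; exact hκ
  have hκρ : κ = d * ρ := by rw [hρ]; field_simp
  have hlog : Real.log ρ < 0 := Real.log_neg hρ0 hρ1
  set C : ℝ := 2 / (-Real.log ρ) with hC
  have hC0 : 0 < C := by
    apply div_pos (by norm_num)
    linarith
  have hClog : C * Real.log ρ = -2 := by
    rw [hC]
    field_simp [hlog.ne]
  obtain ⟨B, hB0, hB⟩ := cyc_min hp hq hpq E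
  obtain ⟨T, hT⟩ := log_compare hB0 hR hC0
  -- Borel-Cantelli
  have h1 := bc (μ := P d) (fun x : ℤ => {ω | (N : ℤ) < |x| ∧
    LongMin (Tn G ω) x ⌈C * Real.log (2 + |(x : ℝ)|)⌉₊})
    (fun x => (1 - ρ)⁻¹ * (2 + |(x : ℝ)|) ^ (-2 : ℝ))
    ((summable_two_add (b := 2) (by norm_num)).mul_left _) (by
      intro x
      by_cases hx : (N : ℤ) < |x|
      · refine (measure_mono (fun ω hω => hω.2)).trans ((longMin_le G V hρ0 hρ1 hV x
          (fun y hy => ?_) _).trans ?_)
        · rw [← hκρ]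
          exact h y (lt_of_lt_of_le hx hy)
        · apply ENNReal.ofReal_le_ofReal
          rw [mul_comm]
          apply mul_le_mul_of_nonneg_left
          · rw [← hClog]
            exact rpow_decay hρ0 hρ1 (by positivity)
          · apply inv_nonneg.2
            linarith
      · simp [hx])
  filter_upwards [h1] with ω hω
  apply periodic_finite
  set f := Tn G ω with hf
  apply ((hω.union (ball N).finite_toSet).union (ball T).finite_toSet).subset
  rintro x ⟨hx1, hx2⟩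
  by_contra hcon
  simp only [Set.mem_union, not_or, SetLike.mem_coe, mem_ball, not_le] at hcon
  obtain ⟨⟨h2, h3⟩, h4⟩ := hcon
  have hP0 := Function.minimalPeriod_pos_of_mem_periodicPts hx1
  set k := Function.minimalPeriod f x with hk
  have hkper : f^[k] x = x := Function.isPeriodicPt_minimalPeriod f x
  have hkC : (k : ℝ) ≤ C * Real.log (2 + |(x : ℝ)|) := by
    by_contra hc
    rw [not_le] at hc
    apply h2
    refine ⟨h3, k, ?_, hP0, ?_, hkper, hx2⟩
    · exact Nat.ceil_le.2 hc.le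
    · intro i hi j hj hij
      exact Function.iterate_injOn_Iio_minimalPeriod hi hj hij
  have h5 := hT |(x : ℝ)| (by
    have : ((T : ℤ) : ℝ) ≤ ((|x| : ℤ) : ℝ) := by exact_mod_cast h4.le
    push_cast at this
    exact this) k (by exact_mod_cast hP0) hkC
  choose e r hre hE hr using hrec
  have h6 := hB (fun j => f^[j] x) (fun j => e (f^[j] x) (ω (f^[j] x)))
    (fun j => r (f^[j] x) (ω (f^[j] x))) R k hR hP0
    (fun j => ⟨by
      rw [Function.iterate_succ_apply']
      exact hre (f^[j] x) (ω (f^[j] x)), hE _ _, hr _ _⟩) hkper (fun j => hx2 j)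
  simp only [Function.iterate_zero, id_eq] at h6
  linarith

end Pool.Agent.Q205.RP
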