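import Mathlib
import Pool.Agent.Q205.RP.CycAE

/-!
# Generalized Collatz maps and their perturbations
-/

set_option autoImplicit false

open MeasureTheory Finset Filter Topology

namespace Pool.Agent.Q205.RP

variable {d : ℕ}

/-- the residue of an integer -/
def res (d : ℕ) [NeZero d] (x : ℤ) : Fin d :=
  ⟨(x % (d : ℤ)).toNat, by
    have h1 : (0 : ℤ) < d := by exact_mod_cast NeZero.pos d
    have h2 := Int.emod_nonneg x h1.ne'
    have h3 := Int.emod_lt_of_pos x h1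
    omega⟩

theorem res_cast [NeZero d] (x : ℤ) : (((res d x : Fin d) : ℕ) : ℤ) = x % (d : ℤ) := by
  have h1 : (0 : ℤ) < d := by exact_mod_cast NeZero.pos d
  have h2 := Int.emod_nonneg x h1.ne'
  simp only [res]
  omega

/-- the generalized Collatz map with multipliers `m` and remainders `r` -/
def gc [NeZero d] (m r : Fin d → ℤ) (x : ℤ) : ℤ := (m (res d x) * x - r (res d x)) / (d : ℤ)

/-- the slopes, up to a permutation depending on the place -/
def Lin (G : ℤ → Fin d → ℤ) (p : ℕ) (m : Fin d → ℤ) (R : ℝ) : Prop :=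
  ∀ x, ∃ σ : Equiv.Perm (Fin d), ∀ c, ∃ r : ℤ,
    (p : ℤ) * G x c = m (σ c) * x + r ∧ |(r : ℝ)| ≤ R

theorem slopes_of_lin {G : ℤ → Fin d → ℤ} {p : ℕ} (hp : 0 < p) {m : Fin d → ℤ} {R : ℝ}
    (h : Lin G p m R) : Slopes G (fun i => |(m i : ℝ)| / p) (R / p) := by
  have hpR : (0 : ℝ) < p := by exact_mod_cast hp
  intro x
  obtain ⟨σ, hσ⟩ := h x
  refine ⟨σ, fun c => ?_⟩
  obtain ⟨r, h1, h2⟩ := hσ c
  have h3 : (p : ℝ) * (G x c : ℝ) = m (σ c) * x + r := by exact_mod_cast h1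
  have h4 : (G x c : ℝ) = m (σ c) * x / p + r / p := by
    field_simp
    linarith
  have h5 : |(m (σ c) : ℝ)| / p * |(x : ℝ)| = |(m (σ c) : ℝ) * x / p| := by
    rw [abs_div, abs_mul, abs_of_pos hpR]
    ring
  simp only [h5]
  refine (abs_abs_sub_abs_le _ _).trans ?_
  rw [h4, add_sub_cancel_left, abs_div, abs_of_pos hpR]
  exact div_le_div_of_nonneg_right h2 hpR.le

theorem rec_of_lin {G : ℤ → Fin d → ℤ} {p q E : ℕ} {m : Fin d → ℤ} {R : ℝ}
    (h : Lin G p m R) (hm : ∀ i, ∃ e ≤ E, m i = (q : ℤ) ^ e) : Rec G p q E R := by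
  intro x c
  obtain ⟨σ, hσ⟩ := h x
  obtain ⟨r, h1, h2⟩ := hσ c
  obtain ⟨e, he, h3⟩ := hm (σ c)
  refine ⟨e, r, ?_, he, h2⟩
  rw [← h3]
  exact h1

theorem res_add_inj [NeZero d] (x : ℤ) :
    Function.Injective (fun c : Fin d => res d (x + ((c : ℕ) : ℤ))) := by
  intro c c' h
  simp only at h
  have h1 : (x + ((c : ℕ) : ℤ)) % (d : ℤ) = (x + ((c' : ℕ) : ℤ)) % (d : ℤ) := by
    rw [← res_cast, ← res_cast, h]
  have h2 : ((c : ℕ) : ℤ) % (d : ℤ) = ((c' : ℕ) : ℤ) % (d : ℤ) := by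
    have := (Int.emod_emod_of_dvd _ (dvd_refl (d : ℤ)) : (x + ((c : ℕ) : ℤ)) % d % d = _)
    have h3 : (x + ((c : ℕ) : ℤ)) ≡ (x + ((c' : ℕ) : ℤ)) [ZMOD d] := h1
    exact Int.ModEq.add_left_cancel' x h3
  rw [Int.emod_eq_of_lt (by positivity) (by exact_mod_cast c.2),
    Int.emod_eq_of_lt (by positivity) (by exact_mod_cast c'.2)] at h2
  exact Fin.ext (by exact_mod_cast h2)

/-- a bound for the remainders -/
noncomputable def RR (m r : Fin d → ℤ) : ℝ := 1 + ∑ i, (|(m i : ℝ)| * d + |(r i : ℝ)|)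

theorem RR_ge (m r : Fin d → ℤ) : 1 ≤ RR m r := by
  unfold RR
  have : 0 ≤ ∑ i, (|(m i : ℝ)| * d + |(r i : ℝ)|) := Finset.sum_nonneg (fun i _ => by positivity)
  linarith

theorem lin_gc [NeZero d] (m r : Fin d → ℤ) (hr : ∀ i : Fin d, (d : ℤ) ∣ m i * ((i : ℕ) : ℤ) - r i) :
    Lin (fun x c => gc m r (x + ((c : ℕ) : ℤ))) d m (RR m r) := by
  intro x
  refine ⟨Equiv.ofBijective _ (Finite.injective_iff_bijective.1 (res_add_inj x)), fun c => ?_⟩
  rw [Equiv.ofBijective_apply]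
  set i := res d (x + ((c : ℕ) : ℤ)) with hi
  refine ⟨m i * ((c : ℕ) : ℤ) - r i, ?_, ?_⟩
  · simp only [gc]
    rw [← hi]
    have h1 : (d : ℤ) ∣ m i * (x + ((c : ℕ) : ℤ)) - r i := by
      have h2 : (((i : Fin d) : ℕ) : ℤ) = (x + ((c : ℕ) : ℤ)) % (d : ℤ) := by rw [hi, res_cast]
      have h3 : (d : ℤ) ∣ (x + ((c : ℕ) : ℤ)) - ((i : ℕ) : ℤ) := by
        rw [h2]
        exact Int.dvd_self_sub_emod
      have h4 := dvd_add (hr i) (Dvd.dvd.mul_left h3 (m i))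
      have h5 : m i * (x + ((c : ℕ) : ℤ)) - r i =
        (m i * ((i : ℕ) : ℤ) - r i) + m i * ((x + ((c : ℕ) : ℤ)) - ((i : ℕ) : ℤ)) := by ring
      rw [h5]
      exact h4
    rw [Int.mul_ediv_cancel' h1]
    ring
  · push_cast
    refine (abs_sub _ _).trans ?_
    have h1 : |(m i : ℝ) * ((c : ℕ) : ℝ)| ≤ |(m i : ℝ)| * d := by
      rw [abs_mul, Nat.abs_cast]
      apply mul_le_mul_of_nonneg_left _ (abs_nonneg _)
      exact_mod_cast c.2.le
    have h2 : |(m i : ℝ)| * d + |(r i : ℝ)| ≤ ∑ i, (|(m i : ℝ)| * d + |(r i : ℝ)|) :=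
      Finset.single_le_sum (f := fun i => |(m i : ℝ)| * d + |(r i : ℝ)|)
        (fun i _ => by positivity) (mem_univ i)
    unfold RR
    linarith

/-- all the conclusions in the contracting case -/
theorem main_contracting [NeZero d] (G : ℤ → Fin d → ℤ) {m : Fin d → ℤ} {R : ℝ}
    (hm : ∀ i, m i ≠ 0) (hG : Lin G d m R) (hprod : ∏ i, |(m i : ℝ)| < (d : ℝ) ^ d) :
    ∀ᵐ ω ∂P d, ∃ K : ℝ, ∀ x : ℤ, ∃ i j : ℕ, i < j ∧ (j : ℝ) ≤ K * Real.log (2 + |(x : ℝ)|) ∧
      (Tn G ω)^[i] x = (Tn G ω)^[j] x := by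
  have hd : (0 : ℝ) < d := by
    have := NeZero.pos d
    exact_mod_cast this
  have ha : ∀ i, (0 : ℝ) < |(m i : ℝ)| / d := fun i =>
    div_pos (abs_pos.2 (by exact_mod_cast hm i)) hd
  obtain ⟨s, hs0, hs1, hs⟩ := exists_exponent (fun i => |(m i : ℝ)| / d) ha (by
    rw [Finset.prod_div_distrib, Finset.prod_const, card_univ, Fintype.card_fin,
      div_lt_one (by positivity)]
    exact hprod)
  obtain ⟨κ, hκ1, hκ2⟩ := exists_between hs
  have hκ0 : 0 < κ := lt_of_le_of_lt (Finset.sum_nonneg (fun i _ => by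
    exact Real.rpow_nonneg (ha i).le _)) hκ1
  obtain ⟨N, hN⟩ := drift G _ _ (slopes_of_lin (NeZero.pos d) hG) ha s κ hκ1
  have hlog : Real.log (κ / d) < 0 := Real.log_neg (div_pos hκ0 hd) (by rwa [div_lt_one hd])
  have h1 := loop_ae G s κ hs0 hκ0 hκ2 N hN ((s + 2) / (-Real.log (κ / d))) (by
    have : (s + 2) / (-Real.log (κ / d)) * Real.log (κ / d) = -(s + 2) := by
      field_simp [hlog.ne]
    rw [this]
    linarith)
  have h2 := evper_ae G (VV s) κ (VV_ge hs0.le) hκ0 hκ2 N hN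
  filter_upwards [h1, h2] with ω hω1 hω2
  exact all_of_finite _ _ hω1 hω2

/-- finitely many cycles in the contracting and in the expanding case -/
theorem main_cycles [NeZero d] (G : ℤ → Fin d → ℤ) {m : Fin d → ℤ} {R : ℝ} {q E : ℕ}
    (hd2 : 2 ≤ d) (hq : 2 ≤ q) (hdq : Nat.Coprime d q) (hm : ∀ i, ∃ e ≤ E, m i = (q : ℤ) ^ e)
    (hR : 1 ≤ R) (hG : Lin G d m R) (hprod : ∏ i, |(m i : ℝ)| ≠ (d : ℝ) ^ d) :
    ∀ᵐ ω ∂P d, (Function.periodicPts (Tn G ω)).Finite := by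
  have hd : (0 : ℝ) < d := by
    have := NeZero.pos d
    exact_mod_cast this
  have hm0 : ∀ i, m i ≠ 0 := fun i => by
    obtain ⟨e, _, he⟩ := hm i
    rw [he]
    have : (q : ℤ) ≠ 0 := by
      have : q ≠ 0 := by omega
      exact_mod_cast this
    exact pow_ne_zero _ this
  have ha : ∀ i, (0 : ℝ) < |(m i : ℝ)| / d := fun i =>
    div_pos (abs_pos.2 (by exact_mod_cast hm0 i)) hd
  have hpr : ∏ i, (|(m i : ℝ)| / d) = (∏ i, |(m i : ℝ)|) / (d : ℝ) ^ d := by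
    rw [Finset.prod_div_distrib, Finset.prod_const, card_univ, Fintype.card_fin]
  obtain ⟨s, hs⟩ : ∃ s : ℝ, ∑ i, (|(m i : ℝ)| / d) ^ s < d := by
    rcases lt_or_gt_of_ne hprod with h | h
    · obtain ⟨s, _, _, hs⟩ := exists_exponent (fun i => |(m i : ℝ)| / d) ha (by
        rw [hpr, div_lt_one (by positivity)]
        exact h)
      exact ⟨s, hs⟩
    · obtain ⟨s, _, _, hs⟩ := exists_exponent_neg (fun i => |(m i : ℝ)| / d) ha (by
        rw [hpr, lt_div_iff₀ (by positivity), one_mul]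
        exact h)
      exact ⟨-s, hs⟩
  obtain ⟨κ, hκ1, hκ2⟩ := exists_between hs
  have hκ0 : 0 < κ := lt_of_le_of_lt (Finset.sum_nonneg (fun i _ => by
    exact Real.rpow_nonneg (ha i).le _)) hκ1
  obtain ⟨N, hN⟩ := drift G _ _ (slopes_of_lin (NeZero.pos d) hG) ha s κ hκ1
  exact cycles_ae G (VV s) κ (VV_pos s) hκ0 hκ2 N hN hd2 hq hdq hR (rec_of_lin hG hm)

/-- the map with `x ↦ x / 2` for even `x` and `x ↦ (a x + b) / 2` for odd `x` -/
def tab (a b x : ℤ) : ℤ := if x % 2 = 0 then x / 2 else (a * x + b) / 2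

theorem tab_eq (a b x : ℤ) : tab a b x = gc (d := 2) ![1, a] ![0, -b] x := by
  unfold tab gc
  have h1 := res_cast (d := 2) x
  push_cast at h1
  split_ifs with h
  · have h2 : res 2 x = 0 := by
      apply Fin.ext
      rw [h] at h1
      simp only [Fin.isValue, Fin.val_zero]
      omega
    rw [h2]
    simp
  · have h3 : x % 2 = 1 := by omega
    have h2 : res 2 x = 1 := by
      apply Fin.ext
      rw [h3] at h1
      simp only [Fin.isValue, Fin.val_one]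
      omega
    rw [h2]
    simp

theorem lin_tab {a b : ℤ} (ha : a % 2 = 1) (hb : b % 2 = 1) :
    Lin (fun (x : ℤ) (c : Fin 2) => tab a b (x + ((c : ℕ) : ℤ))) 2 ![1, a]
      (RR ![1, a] ![0, -b]) := by
  have h1 := lin_gc (d := 2) ![1, a] ![0, -b] (by
    intro i
    fin_cases i
    · simp
    · simp only [Nat.cast_ofNat, Fin.mk_one, Fin.isValue, Matrix.cons_val_one, Matrix.cons_val_fin_one,
        Nat.cast_one, mul_one, sub_neg_eq_add]
      omega)
  simp only [tab_eq]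
  exact h1

end Pool.Agent.Q205.RP
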