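import Mathlib
import Pool.Agent.Q205.RP.GC

/-!
# Concatenation of words; lengths of closed paths
-/

set_option autoImplicit false

open MeasureTheory Finset Filter Topology

namespace Pool.Agent.Q205.RP

variable {d : ℕ}

theorem sum_wd_add {M : Type*} [AddCommMonoid M] (j m : ℕ) (f : List (Fin d) → M) :
    ∑ w ∈ wd d (j + m), f w = ∑ u ∈ wd d j, ∑ v ∈ wd d m, f (u ++ v) := by
  induction j generalizing f with
  | zero => simp [wd]
  | succ j ih =>
    rw [show j + 1 + m = (j + m) + 1 by ring, sum_wd_succ, sum_wd_succ]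
    apply Finset.sum_congr rfl
    intro c _
    rw [ih]
    simp

theorem run_append (G : ℤ → Fin d → ℤ) (x : ℤ) (u v : List (Fin d)) :
    run G x (u ++ v) = run G (run G x u) v := by
  induction u generalizing x with
  | nil => rfl
  | cons c u ih => simp [run, ih]

theorem sites_append (G : ℤ → Fin d → ℤ) (x : ℤ) (u v : List (Fin d)) :
    sites G x (u ++ v) = sites G x u ++ sites G (run G x u) v := by
  induction u generalizing x with
  | nil => rfl
  | cons c u ih => simp [run, sites, ih]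

/-- `d ^ k` times the end of a path is a product of multipliers times its start, up to
`R * k * Λ ^ k` -/
theorem run_expand (G : ℤ → Fin d → ℤ) {p : ℕ} {m : Fin d → ℤ} {R : ℝ} (hG : Lin G p m R)
    {Λ : ℝ} (hΛ : 1 ≤ Λ) (hΛp : (p : ℝ) ≤ Λ) (hΛm : ∀ i, |(m i : ℝ)| ≤ Λ) (hR : 0 ≤ R)
    (w : List (Fin d)) (x : ℤ) :
    ∃ σ : List (Fin d), σ.length = w.length ∧
      |(p : ℝ) ^ w.length * (run G x w : ℝ) - ((σ.map m).prod : ℤ) * (x : ℝ)| ≤
        w.length * R * Λ ^ w.length := by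
  induction w generalizing x with
  | nil => exact ⟨[], rfl, by simp [run]⟩
  | cons c w ih =>
    obtain ⟨τ, hτ⟩ := hG x
    obtain ⟨r, h1, h2⟩ := hτ c
    obtain ⟨σ, h3, h4⟩ := ih (G x c)
    have h5 : (p : ℝ) * (G x c : ℝ) = m (τ c) * x + r := by exact_mod_cast h1
    refine ⟨τ c :: σ, by simp [h3], ?_⟩
    set M : ℝ := (((σ.map m).prod : ℤ) : ℝ) with hM
    have hMle : |M| ≤ Λ ^ w.length := by
      rw [hM, ← h3]
      clear hM h3 h4
      induction σ with
      | nil => simp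
      | cons a σ ih' =>
        simp only [List.map_cons, List.prod_cons, List.length_cons, Int.cast_mul, abs_mul,
          pow_succ]
        rw [mul_comm (Λ ^ _)]
        exact mul_le_mul (hΛm a) ih' (abs_nonneg _) (by linarith)
    have hk : ((c :: w).length : ℕ) = w.length + 1 := rfl
    have hrun : run G x (c :: w) = run G (G x c) w := rfl
    rw [hk, hrun]
    simp only [List.map_cons, List.prod_cons, Int.cast_mul]
    rw [← hM]
    have h6 : (p : ℝ) ^ (w.length + 1) * (run G (G x c) w : ℝ) - (m (τ c) : ℝ) * M * x =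
        p * ((p : ℝ) ^ w.length * (run G (G x c) w : ℝ) - M * (G x c : ℝ)) + M * r := by
      have : (m (τ c) : ℝ) * x = p * (G x c : ℝ) - r := by linarith
      have h7 : (m (τ c) : ℝ) * M * x = M * (p * (G x c : ℝ) - r) := by rw [← this]; ring
      rw [h7]
      ring
    rw [h6]
    refine (abs_add_le _ _).trans ?_
    rw [abs_mul, abs_mul, Nat.abs_cast]
    have h8 : (p : ℝ) * |(p : ℝ) ^ w.length * (run G (G x c) w : ℝ) - M * (G x c : ℝ)| ≤
        Λ * (w.length * R * Λ ^ w.length) :=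
      mul_le_mul hΛp h4 (abs_nonneg _) (by linarith)
    have h9 : |M| * |(r : ℝ)| ≤ Λ ^ w.length * R :=
      mul_le_mul hMle h2 (abs_nonneg _) (by positivity)
    have h10 : Λ ^ w.length * R ≤ Λ ^ (w.length + 1) * R := by
      apply mul_le_mul_of_nonneg_right _ hR
      exact pow_le_pow_right₀ hΛ (Nat.le_succ _)
    push_cast
    rw [pow_succ] at h10 ⊢
    nlinarith

/-- a closed path of length `k ≥ 1` starts at a point of absolute value at most `Γ ^ k` -/
theorem closed_len (G : ℤ → Fin d → ℤ) {m : Fin d → ℤ} {R : ℝ} (hd : 2 ≤ d) (hG : Lin G d m R)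
    (hcop : ∀ i, IsCoprime (m i) (d : ℤ)) (hR : 0 ≤ R) :
    ∃ Γ : ℝ, 1 < Γ ∧ ∀ (x : ℤ) (w : List (Fin d)), w ≠ [] → run G x w = x →
      |(x : ℝ)| ≤ Γ ^ w.length := by
  set Λ : ℝ := 1 + d + ∑ i, |(m i : ℝ)| with hΛ
  have hs : 0 ≤ ∑ i, |(m i : ℝ)| := Finset.sum_nonneg (fun i _ => abs_nonneg _)
  have hd0 : (0 : ℝ) ≤ d := Nat.cast_nonneg _
  have hΛ1 : 1 ≤ Λ := by rw [hΛ]; linarith
  have hΛd : (d : ℝ) ≤ Λ := by rw [hΛ]; linarith
  have hΛm : ∀ i, |(m i : ℝ)| ≤ Λ := fun i => by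
    have : |(m i : ℝ)| ≤ ∑ i, |(m i : ℝ)| :=
      Finset.single_le_sum (f := fun i => |(m i : ℝ)|) (fun i _ => abs_nonneg _) (mem_univ i)
    rw [hΛ]; linarith
  refine ⟨2 * (1 + R) * Λ, by nlinarith, fun x w hw hrun => ?_⟩
  obtain ⟨σ, h1, h2⟩ := run_expand G hG hΛ1 hΛd hΛm hR w x
  rw [hrun] at h2
  set k := w.length with hk
  have hk1 : 1 ≤ k := by
    rw [hk]
    exact List.length_pos_iff.2 hw
  set M : ℤ := (σ.map m).prod with hM
  have hMcop : IsCoprime M (d : ℤ) := by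
    rw [hM]
    clear hM h1 h2
    induction σ with
    | nil => simpa using isCoprime_one_left
    | cons a σ ih =>
      rw [List.map_cons, List.prod_cons]
      exact (hcop a).mul_left ih
  have hne : ((d : ℤ) ^ k - M) ≠ 0 := by
    intro h
    have h3 : M = (d : ℤ) ^ k := by linarith
    rw [h3] at hMcop
    have h4 : (d : ℤ) ∣ (d : ℤ) ^ k := dvd_pow_self _ (by omega)
    have h5 : IsUnit (d : ℤ) := hMcop.isUnit_of_dvd' h4 (dvd_refl _)
    rw [Int.isUnit_iff] at h5
    omega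
  have h3 : (1 : ℝ) ≤ |((d : ℝ) ^ k - M)| := by
    have : (1 : ℤ) ≤ |(d : ℤ) ^ k - M| := Int.one_le_abs hne
    exact_mod_cast this
  have h4 : |(d : ℝ) ^ k * x - M * x| = |((d : ℝ) ^ k - M)| * |(x : ℝ)| := by
    rw [← sub_mul, abs_mul]
  rw [h4] at h2
  have h5 : |(x : ℝ)| ≤ k * R * Λ ^ k := by
    have := le_mul_of_one_le_left (abs_nonneg (x : ℝ)) h3
    linarith
  refine h5.trans ?_
  rw [mul_pow, mul_pow]
  apply mul_le_mul_of_nonneg_right _ (by positivity)
  have h6 : (k : ℝ) ≤ 2 ^ k := by exact_mod_cast (Nat.lt_two_pow_self (n := k)).le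
  have h7 : R ≤ (1 + R) ^ k := by
    calc R ≤ (1 + R) := by linarith
      _ = (1 + R) ^ 1 := (pow_one _).symm
      _ ≤ (1 + R) ^ k := pow_le_pow_right₀ (by linarith) hk1
  exact mul_le_mul h6 h7 hR (by positivity)

end Pool.Agent.Q205.RP
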