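import Mathlib

/-!
# Averages over the odd integers of functions close to a multiple of the logarithm
-/

set_option autoImplicit false

open Finset Filter Topology

namespace Pool.Agent.Q205.RP

/-- the odd numbers up to `X` -/
def oddsUpTo (X : ℕ) : Finset ℕ := (range (X + 1)).filter (fun n => n % 2 = 1)

theorem card_oddsUpTo (X : ℕ) : (oddsUpTo X).card = (X + 1) / 2 := by
  induction X with
  | zero => simp [oddsUpTo]
  | succ X ih =>
    unfold oddsUpTo at ih ⊢
    rw [Finset.range_add_one, Finset.filter_insert]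
    split_ifs with h
    · rw [Finset.card_insert_of_notMem (by simp), ih]
      omega
    · rw [ih]
      omega

theorem sum_log_gap (X : ℕ) :
    ∑ n ∈ range (X + 1), (Real.log (2 + (X : ℝ)) - Real.log (2 + (n : ℝ))) ≤ X + 2 := by
  induction X with
  | zero => simp
  | succ X ih =>
    rw [Finset.sum_range_succ]
    have h1 : ∑ n ∈ range (X + 1), (Real.log (2 + ((X + 1 : ℕ) : ℝ)) - Real.log (2 + (n : ℝ))) =
        ∑ n ∈ range (X + 1), (Real.log (2 + (X : ℝ)) - Real.log (2 + (n : ℝ))) +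
          (X + 1) * (Real.log (2 + ((X + 1 : ℕ) : ℝ)) - Real.log (2 + (X : ℝ))) := by
      simp only [Finset.sum_sub_distrib, Finset.sum_const, card_range, nsmul_eq_mul]
      push_cast
      ring
    rw [h1]
    have h2 : Real.log (2 + ((X + 1 : ℕ) : ℝ)) - Real.log (2 + (X : ℝ)) ≤ 1 / (2 + (X : ℝ)) := by
      rw [← Real.log_div (by positivity) (by positivity)]
      have h3 : (2 + ((X + 1 : ℕ) : ℝ)) / (2 + (X : ℝ)) = 1 + 1 / (2 + (X : ℝ)) := by
        push_cast
        field_simp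
        ring
      rw [h3]
      have := Real.log_le_sub_one_of_pos (show (0 : ℝ) < 1 + 1 / (2 + (X : ℝ)) by positivity)
      linarith
    have h4 : ((X : ℝ) + 1) * (Real.log (2 + ((X + 1 : ℕ) : ℝ)) - Real.log (2 + (X : ℝ))) ≤ 1 := by
      calc ((X : ℝ) + 1) * (Real.log (2 + ((X + 1 : ℕ) : ℝ)) - Real.log (2 + (X : ℝ)))
          ≤ ((X : ℝ) + 1) * (1 / (2 + (X : ℝ))) := mul_le_mul_of_nonneg_left h2 (by positivity)
        _ ≤ 1 := by
          rw [mul_one_div, div_le_one (by positivity)]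
          linarith
    push_cast at *
    linarith

theorem sum_log_odd (X : ℕ) :
    ((oddsUpTo X).card : ℝ) * Real.log (2 + (X : ℝ)) - (X + 2) ≤
      ∑ n ∈ oddsUpTo X, Real.log (2 + (n : ℝ)) := by
  have h1 : ∑ n ∈ oddsUpTo X, (Real.log (2 + (X : ℝ)) - Real.log (2 + (n : ℝ))) ≤
      ∑ n ∈ range (X + 1), (Real.log (2 + (X : ℝ)) - Real.log (2 + (n : ℝ))) := by
    apply Finset.sum_le_sum_of_subset_of_nonneg (filter_subset _ _)
    intro n hn _
    have h2 : (n : ℝ) ≤ X := by
      rw [Finset.mem_range] at hn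
      exact_mod_cast (by omega : n ≤ X)
    have := Real.log_le_log (show (0 : ℝ) < 2 + n by positivity) (by linarith : (2 : ℝ) + n ≤ 2 + X)
    linarith
  have h2 := sum_log_gap X
  rw [Finset.sum_sub_distrib, Finset.sum_const, nsmul_eq_mul] at h1
  linarith

theorem tendsto_u : Tendsto (fun X : ℕ => Real.log (2 + (X : ℝ)) / Real.log X) atTop (𝓝 1) := by
  have h1 : Tendsto (fun X : ℕ => Real.log (X : ℝ)) atTop atTop :=
    Real.tendsto_log_atTop.comp tendsto_natCast_atTop_atTop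
  have h2 : Tendsto (fun X : ℕ => 1 + Real.log 3 / Real.log X) atTop (𝓝 (1 + 0)) :=
    tendsto_const_nhds.add (tendsto_const_nhds.div_atTop h1)
  rw [add_zero] at h2
  apply tendsto_of_tendsto_of_tendsto_of_le_of_le' tendsto_const_nhds h2
  · filter_upwards [h1.eventually_gt_atTop 0, eventually_gt_atTop 0] with X hX hX0
    have hX0' : (0 : ℝ) < X := by exact_mod_cast hX0
    rw [le_div_iff₀ hX, one_mul]
    exact Real.log_le_log hX0' (by linarith)
  · filter_upwards [h1.eventually_gt_atTop 0, eventually_gt_atTop 0] with X hX hX0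
    have hX0' : (1 : ℝ) ≤ X := by exact_mod_cast hX0
    rw [div_le_iff₀ hX, add_mul, one_mul, div_mul_cancel₀ _ hX.ne',
      ← Real.log_mul (by positivity) (by norm_num)]
    exact Real.log_le_log (by positivity) (by linarith)

theorem tendsto_v : Tendsto (fun X : ℕ => 2 * ((oddsUpTo X).card : ℝ) / X) atTop (𝓝 1) := by
  have h0 : Tendsto (fun X : ℕ => (1 : ℝ) / X) atTop (𝓝 0) := tendsto_one_div_atTop_nhds_zero_nat
  have h1 : Tendsto (fun X : ℕ => 1 + (1 : ℝ) / X) atTop (𝓝 (1 + 0)) :=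
    tendsto_const_nhds.add h0
  rw [add_zero] at h1
  apply tendsto_of_tendsto_of_tendsto_of_le_of_le' tendsto_const_nhds h1
  · filter_upwards [eventually_gt_atTop 0] with X hX0
    have hX0' : (0 : ℝ) < X := by exact_mod_cast hX0
    rw [le_div_iff₀ hX0', one_mul, card_oddsUpTo]
    exact_mod_cast (by omega : X ≤ 2 * ((X + 1) / 2))
  · filter_upwards [eventually_gt_atTop 0] with X hX0
    have hX0' : (0 : ℝ) < X := by exact_mod_cast hX0
    rw [div_le_iff₀ hX0', add_mul, one_mul, div_mul_cancel₀ _ hX0'.ne', card_oddsUpTo]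
    exact_mod_cast (by omega : 2 * ((X + 1) / 2) ≤ X + 1)

theorem tendsto_z : Tendsto (fun X : ℕ => 2 * ((X : ℝ) + 2) / (X * Real.log X)) atTop (𝓝 0) := by
  have h1 : Tendsto (fun X : ℕ => Real.log (X : ℝ)) atTop atTop :=
    Real.tendsto_log_atTop.comp tendsto_natCast_atTop_atTop
  have h2 : Tendsto (fun X : ℕ => 6 / Real.log (X : ℝ)) atTop (𝓝 0) :=
    tendsto_const_nhds.div_atTop h1
  apply tendsto_of_tendsto_of_tendsto_of_le_of_le' tendsto_const_nhds h2
  · filter_upwards [h1.eventually_gt_atTop 0] with X hX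
    positivity
  · filter_upwards [h1.eventually_gt_atTop 0, eventually_gt_atTop 0] with X hX hX0
    have hX0' : (1 : ℝ) ≤ X := by exact_mod_cast hX0
    rw [div_le_div_iff₀ (by positivity) hX]
    nlinarith

theorem tendsto_w (C δ : ℝ) (hδ : 0 < δ) :
    Tendsto (fun X : ℕ => C * (2 + (X : ℝ)) ^ (1 - δ) / X) atTop (𝓝 0) := by
  have h1 : Tendsto (fun X : ℕ => |C| * 3 ^ (|1 - δ|) * (X : ℝ) ^ (-δ)) atTop
      (𝓝 (|C| * 3 ^ (|1 - δ|) * 0)) :=
    ((tendsto_rpow_neg_atTop hδ).comp tendsto_natCast_atTop_atTop).const_mul _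
  rw [mul_zero] at h1
  apply squeeze_zero_norm' _ h1
  filter_upwards [eventually_gt_atTop 0] with X hX0
  have hX0' : (1 : ℝ) ≤ X := by exact_mod_cast hX0
  have hXp : (0 : ℝ) < X := by linarith
  rw [Real.norm_eq_abs, abs_div, abs_mul, abs_of_pos hXp,
    abs_of_pos (show (0 : ℝ) < (2 + (X : ℝ)) ^ (1 - δ) by positivity)]
  have h2 : (2 + (X : ℝ)) ^ (1 - δ) ≤ 3 ^ (|1 - δ|) * (X : ℝ) ^ (1 - δ) := by
    rcases le_total 0 (1 - δ) with h | h
    · rw [abs_of_nonneg h, ← Real.mul_rpow (by norm_num) hXp.le]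
      apply Real.rpow_le_rpow (by positivity) (by linarith) h
    · have h3 : (2 + (X : ℝ)) ^ (1 - δ) ≤ (X : ℝ) ^ (1 - δ) :=
        Real.rpow_le_rpow_of_nonpos hXp (by linarith) h
      have h4 : (1 : ℝ) ≤ 3 ^ (|1 - δ|) := Real.one_le_rpow (by norm_num) (abs_nonneg _)
      have h5 : (0 : ℝ) < (X : ℝ) ^ (1 - δ) := by positivity
      nlinarith
  have h6 : (X : ℝ) ^ (1 - δ) = (X : ℝ) ^ (-δ) * X := by
    nth_rewrite 3 [← Real.rpow_one (X : ℝ)]
    rw [← Real.rpow_add hXp]
    congr 1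
    ring
  rw [div_le_iff₀ hXp]
  calc |C| * (2 + (X : ℝ)) ^ (1 - δ) ≤ |C| * (3 ^ (|1 - δ|) * (X : ℝ) ^ (1 - δ)) :=
        mul_le_mul_of_nonneg_left h2 (abs_nonneg _)
    _ = _ := by rw [h6]; ring

/-- **Averages.** -/
theorem average (h : ℕ → ℝ) (c K : ℝ) (hc : 0 ≤ c)
    (hK : ∀ n, n % 2 = 1 → 0 ≤ h n ∧ h n ≤ K * Real.log (2 + (n : ℝ)))
    (hdens : ∀ ε : ℝ, 0 < ε → ∃ C δ : ℝ, 0 < δ ∧ ∀ X : ℕ, (((oddsUpTo X).filter (fun n : ℕ =>
      ε * Real.log (2 + (n : ℝ)) < |h n - c * Real.log (2 + (n : ℝ))|)).card : ℝ) ≤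
        C * (2 + (X : ℝ)) ^ (1 - δ)) :
    Tendsto (fun X : ℕ => (2 / (X : ℝ) * ∑ n ∈ oddsUpTo X, h n) / Real.log X) atTop (𝓝 c) := by
  classical
  have h1log : Tendsto (fun X : ℕ => Real.log (X : ℝ)) atTop atTop :=
    Real.tendsto_log_atTop.comp tendsto_natCast_atTop_atTop
  have hK0 : 0 ≤ K := by
    have h1 := hK 1 (by norm_num)
    have h2 : 0 < Real.log (2 + ((1 : ℕ) : ℝ)) := Real.log_pos (by norm_num)
    by_contra hcon
    rw [not_le] at hcon
    have := mul_neg_of_neg_of_pos hcon h2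
    linarith [h1.1, h1.2]
  -- both bounds
  have key : ∀ ε : ℝ, 0 < ε → ∃ C δ : ℝ, 0 < δ ∧ ∀ X : ℕ, 0 < X → 0 < Real.log X →
      (2 / (X : ℝ) * ∑ n ∈ oddsUpTo X, h n) / Real.log X ≤
        (c + ε) * (2 * ((oddsUpTo X).card : ℝ) / X) * (Real.log (2 + (X : ℝ)) / Real.log X) +
        2 * K * (C * (2 + (X : ℝ)) ^ (1 - δ) / X) * (Real.log (2 + (X : ℝ)) / Real.log X) ∧
      (c - ε) * (2 * ((oddsUpTo X).card : ℝ) / X) * (Real.log (2 + (X : ℝ)) / Real.log X) -
        2 * c * (C * (2 + (X : ℝ)) ^ (1 - δ) / X) * (Real.log (2 + (X : ℝ)) / Real.log X) -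
        c * (2 * ((X : ℝ) + 2) / (X * Real.log X)) ≤
      (2 / (X : ℝ) * ∑ n ∈ oddsUpTo X, h n) / Real.log X := by
    intro ε hε
    obtain ⟨C, δ, hδ, hD⟩ := hdens ε hε
    refine ⟨C, δ, hδ, fun X hX0 hlX => ?_⟩
    have hXp : (0 : ℝ) < X := by exact_mod_cast hX0
    set M := Real.log (2 + (X : ℝ)) with hM
    have hM0 : 0 < M := Real.log_pos (by linarith)
    set B := (oddsUpTo X).filter (fun n : ℕ =>
      ε * Real.log (2 + (n : ℝ)) < |h n - c * Real.log (2 + (n : ℝ))|) with hB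
    have hBle : (B.card : ℝ) ≤ C * (2 + (X : ℝ)) ^ (1 - δ) := hD X
    have hlog : ∀ n ∈ oddsUpTo X, 0 ≤ Real.log (2 + (n : ℝ)) ∧ Real.log (2 + (n : ℝ)) ≤ M := by
      intro n hn
      have h2 : (n : ℝ) ≤ X := by
        have := Finset.mem_range.1 (mem_filter.1 hn).1
        exact_mod_cast (by omega : n ≤ X)
      refine ⟨Real.log_nonneg (by linarith [(Nat.cast_nonneg n : (0 : ℝ) ≤ n)]), ?_⟩
      exact Real.log_le_log (by positivity) (by linarith)
    have hsplit : ∀ f : ℝ, ∑ n ∈ oddsUpTo X, (if n ∈ B then f else 0) = B.card * f := by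
      intro f
      rw [← Finset.sum_filter, Finset.sum_const, nsmul_eq_mul]
      congr 2
      rw [Finset.filter_mem_eq_inter, Finset.inter_eq_right.2 (filter_subset _ _)]
    have hup : ∑ n ∈ oddsUpTo X, h n ≤ (c + ε) * M * (oddsUpTo X).card + B.card * (K * M) := by
      have h2 : ∀ n ∈ oddsUpTo X, h n ≤ (c + ε) * M + (if n ∈ B then K * M else 0) := by
        intro n hn
        obtain ⟨h3, h4⟩ := hlog n hn
        obtain ⟨h5, h6⟩ := hK n (mem_filter.1 hn).2
        by_cases hb : n ∈ B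
        · rw [if_pos hb]
          have h7 : K * Real.log (2 + (n : ℝ)) ≤ K * M := mul_le_mul_of_nonneg_left h4 hK0
          have h8 : 0 ≤ (c + ε) * M := by positivity
          linarith
        · rw [if_neg hb]
          have h7 : |h n - c * Real.log (2 + (n : ℝ))| ≤ ε * Real.log (2 + (n : ℝ)) := by
            by_contra hcon
            rw [not_le] at hcon
            exact hb (mem_filter.2 ⟨hn, hcon⟩)
          have h8 := (abs_le.1 h7).2
          have h9 : (c + ε) * Real.log (2 + (n : ℝ)) ≤ (c + ε) * M :=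
            mul_le_mul_of_nonneg_left h4 (by linarith)
          linarith
      refine (Finset.sum_le_sum h2).trans (le_of_eq ?_)
      rw [Finset.sum_add_distrib, hsplit, Finset.sum_const, nsmul_eq_mul]
      ring
    have hlow : c * ((oddsUpTo X).card * M - (X + 2)) - ε * M * (oddsUpTo X).card -
        B.card * (c * M) ≤ ∑ n ∈ oddsUpTo X, h n := by
      have h2 : ∀ n ∈ oddsUpTo X, c * Real.log (2 + (n : ℝ)) - ε * M -
          (if n ∈ B then c * M else 0) ≤ h n := by
        intro n hn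
        obtain ⟨h3, h4⟩ := hlog n hn
        obtain ⟨h5, h6⟩ := hK n (mem_filter.1 hn).2
        by_cases hb : n ∈ B
        · rw [if_pos hb]
          have h7 : c * Real.log (2 + (n : ℝ)) ≤ c * M := mul_le_mul_of_nonneg_left h4 hc
          have h8 : 0 ≤ ε * M := by positivity
          linarith
        · rw [if_neg hb]
          have h7 : |h n - c * Real.log (2 + (n : ℝ))| ≤ ε * Real.log (2 + (n : ℝ)) := by
            by_contra hcon
            rw [not_le] at hcon
            exact hb (mem_filter.2 ⟨hn, hcon⟩)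
          have h8 := (abs_le.1 h7).1
          have h9 : ε * Real.log (2 + (n : ℝ)) ≤ ε * M :=
            mul_le_mul_of_nonneg_left h4 hε.le
          linarith
      refine le_trans ?_ (Finset.sum_le_sum h2)
      rw [Finset.sum_sub_distrib, Finset.sum_sub_distrib, hsplit, Finset.sum_const, nsmul_eq_mul,
        ← Finset.mul_sum]
      have h3 := sum_log_odd X
      have h4 := mul_le_mul_of_nonneg_left h3 hc
      rw [← hM] at h4
      linarith
    have hXl : 0 < (X : ℝ) * Real.log X := by positivity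
    have hF : (2 / (X : ℝ) * ∑ n ∈ oddsUpTo X, h n) / Real.log X =
        2 * (∑ n ∈ oddsUpTo X, h n) / (X * Real.log X) := by
      field_simp
    rw [hF]
    constructor
    · have h2 : (c + ε) * (2 * ((oddsUpTo X).card : ℝ) / X) * (M / Real.log X) +
          2 * K * (C * (2 + (X : ℝ)) ^ (1 - δ) / X) * (M / Real.log X) =
          2 * ((c + ε) * M * (oddsUpTo X).card + (C * (2 + (X : ℝ)) ^ (1 - δ)) * (K * M)) /
            (X * Real.log X) := by
        field_simp
      rw [h2]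
      apply div_le_div_of_nonneg_right _ hXl.le
      have h3 : (B.card : ℝ) * (K * M) ≤ (C * (2 + (X : ℝ)) ^ (1 - δ)) * (K * M) :=
        mul_le_mul_of_nonneg_right hBle (by positivity)
      linarith
    · have h2 : (c - ε) * (2 * ((oddsUpTo X).card : ℝ) / X) * (M / Real.log X) -
          2 * c * (C * (2 + (X : ℝ)) ^ (1 - δ) / X) * (M / Real.log X) -
          c * (2 * ((X : ℝ) + 2) / (X * Real.log X)) =
          2 * (c * ((oddsUpTo X).card * M - (X + 2)) - ε * M * (oddsUpTo X).card -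
            (C * (2 + (X : ℝ)) ^ (1 - δ)) * (c * M)) / (X * Real.log X) := by
        field_simp
        ring
      rw [h2]
      apply div_le_div_of_nonneg_right _ hXl.le
      have h3 : (B.card : ℝ) * (c * M) ≤ (C * (2 + (X : ℝ)) ^ (1 - δ)) * (c * M) :=
        mul_le_mul_of_nonneg_right hBle (by positivity)
      linarith
  rw [tendsto_order]
  constructor
  · intro a ha
    obtain ⟨C, δ, hδ, hkey⟩ := key ((c - a) / 2) (by linarith)
    have hl : Tendsto (fun X : ℕ => (c - (c - a) / 2) * (2 * ((oddsUpTo X).card : ℝ) / X) *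
        (Real.log (2 + (X : ℝ)) / Real.log X) -
        2 * c * (C * (2 + (X : ℝ)) ^ (1 - δ) / X) * (Real.log (2 + (X : ℝ)) / Real.log X) -
        c * (2 * ((X : ℝ) + 2) / (X * Real.log X))) atTop
        (𝓝 ((c - (c - a) / 2) * 1 * 1 - 2 * c * 0 * 1 - c * 0)) :=
      (((tendsto_v.const_mul _).mul tendsto_u).sub
        (((tendsto_w C δ hδ).const_mul _).mul tendsto_u)).sub (tendsto_z.const_mul c)
    have hlt : a < (c - (c - a) / 2) * 1 * 1 - 2 * c * 0 * 1 - c * 0 := by linarith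
    filter_upwards [hl.eventually (lt_mem_nhds hlt), h1log.eventually_gt_atTop 0,
      eventually_gt_atTop 0] with X hX hX1 hX2
    exact hX.trans_le (hkey X hX2 hX1).2
  · intro b hb
    obtain ⟨C, δ, hδ, hkey⟩ := key ((b - c) / 2) (by linarith)
    have hl : Tendsto (fun X : ℕ => (c + (b - c) / 2) * (2 * ((oddsUpTo X).card : ℝ) / X) *
        (Real.log (2 + (X : ℝ)) / Real.log X) +
        2 * K * (C * (2 + (X : ℝ)) ^ (1 - δ) / X) * (Real.log (2 + (X : ℝ)) / Real.log X)) atTop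
        (𝓝 ((c + (b - c) / 2) * 1 * 1 + 2 * K * 0 * 1)) :=
      ((tendsto_v.const_mul _).mul tendsto_u).add
        (((tendsto_w C δ hδ).const_mul _).mul tendsto_u)
    have hlt : (c + (b - c) / 2) * 1 * 1 + 2 * K * 0 * 1 < b := by linarith
    filter_upwards [hl.eventually (gt_mem_nhds hlt), h1log.eventually_gt_atTop 0,
      eventually_gt_atTop 0] with X hX hX1 hX2
    exact (hkey X hX2 hX1).1.trans_lt hX

end Pool.Agent.Q205.RP
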