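import Mathlib
import Pool.Agent.Q205.RP.Append

/-!
# Exact probabilities of words; two words; the second moment method
-/

set_option autoImplicit false

open MeasureTheory Finset Filter Topology

namespace Pool.Agent.Q205.RP

variable {d : ℕ}

theorem word_take (G : ℤ → Fin d → ℤ) (ω : ℤ → Fin d) (x : ℤ) (j n : ℕ) :
    (word G ω x (j + n)).take j = word G ω x j := by
  induction j generalizing x with
  | zero => simp [word]
  | succ j ih =>
    rw [show j + 1 + n = (j + n) + 1 by ring]
    simp only [word, List.take_succ_cons, List.cons.injEq, true_and]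
    exact ih _

theorem agree' (G : ℤ → Fin d → ℤ) {ω ω' : ℤ → Fin d} {x : ℤ} {k : ℕ}
    (h : ∀ s ∈ sites G x (word G ω' x k), ω s = ω' s) : word G ω x k = word G ω' x k := by
  induction k generalizing x with
  | zero => rfl
  | succ k ih =>
    simp only [word, sites, List.mem_cons, forall_eq_or_imp] at h
    obtain ⟨h1, h2⟩ := h
    simp only [word, List.cons.injEq]
    refine ⟨h1, ?_⟩
    rw [h1]
    exact ih h2

theorem exists_env [NeZero d] (G : ℤ → Fin d → ℤ) (x : ℤ) (w : List (Fin d))
    (hn : (sites G x w).Nodup) : ∃ ω : ℤ → Fin d, word G ω x w.length = w := by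
  induction w generalizing x with
  | nil => exact ⟨fun _ => 0, rfl⟩
  | cons c w ih =>
    simp only [sites, List.nodup_cons] at hn
    obtain ⟨ω, hω⟩ := ih (G x c) hn.2
    refine ⟨Function.update ω x c, ?_⟩
    simp only [List.length_cons, word, Function.update_self, List.cons.injEq, true_and]
    have h1 : word G (Function.update ω x c) (G x c) w.length = word G ω (G x c) w.length := by
      apply agree'
      intro s hs
      rw [hω] at hs
      have : s ≠ x := by
        rintro rfl
        exact hn.1 hs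
      rw [Function.update_of_ne this]
    rw [h1, hω]

theorem word_set (G : ℤ → Fin d → ℤ) (x : ℤ) (k : ℕ) {w : List (Fin d)} {ω' : ℤ → Fin d}
    (h : word G ω' x k = w) :
    {ω : ℤ → Fin d | word G ω x k = w} = {ω | ∀ s ∈ (sites G x w).toFinset, ω s = ω' s} := by
  ext ω
  simp only [Set.mem_ofPred_eq, List.mem_toFinset]
  constructor
  · intro hω s hs
    have h3 : word G ω x k = word G ω' x k := by rw [h]; exact hω
    apply agree G h3
    rw [h]
    exact hs
  · intro hω
    rw [← h]
    apply agree'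
    intro s hs
    rw [h] at hs
    exact hω s hs

theorem measurable_word (G : ℤ → Fin d → ℤ) (x : ℤ) (k : ℕ) (w : List (Fin d)) :
    MeasurableSet {ω : ℤ → Fin d | word G ω x k = w} := by
  rcases Set.eq_empty_or_nonempty {ω : ℤ → Fin d | word G ω x k = w} with h | ⟨ω', h'⟩
  · rw [h]
    exact MeasurableSet.empty
  · rw [word_set G x k h']
    have : {ω : ℤ → Fin d | ∀ s ∈ (sites G x w).toFinset, ω s = ω' s} =
        ⋂ s ∈ (sites G x w).toFinset, {ω : ℤ → Fin d | ω s = ω' s} := by
      ext ω
      simp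
    rw [this]
    apply Finset.measurableSet_biInter
    intro s _
    have h2 : {ω : ℤ → Fin d | ω s = ω' s} = (fun ω : ℤ → Fin d => ω s) ⁻¹' {ω' s} := by
      ext ω
      simp
    rw [h2]
    exact (measurable_pi_apply s) (measurableSet_singleton (ω' s))

/-- the probability of a word with distinct sites -/
theorem follow_eq [NeZero d] (G : ℤ → Fin d → ℤ) (x : ℤ) {k : ℕ} {w : List (Fin d)}
    (hn : (sites G x w).Nodup) (hw : w.length = k) :
    P d {ω | word G ω x k = w} = ((d : ENNReal)⁻¹) ^ k := by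
  obtain ⟨ω', h'⟩ := exists_env G x w hn
  rw [hw] at h'
  rw [word_set G x k h', cyl, List.toFinset_card_of_nodup hn, length_sites, hw]

/-- events given by a property of words -/
theorem word_event (G : ℤ → Fin d → ℤ) (x : ℤ) (k : ℕ) (Q : List (Fin d) → Prop)
    [DecidablePred Q] : {ω : ℤ → Fin d | Q (word G ω x k)} =
      ⋃ w ∈ (wd d k).filter Q, {ω | word G ω x k = w} := by
  ext ω
  simp only [Set.mem_ofPred_eq, Set.mem_iUnion, mem_filter, exists_prop]
  constructor
  · intro h
    exact ⟨_, ⟨mem_wd.2 (length_word G ω x k), h⟩, rfl⟩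
  · rintro ⟨w, ⟨_, h⟩, rfl⟩
    exact h

theorem measurable_event (G : ℤ → Fin d → ℤ) (x : ℤ) (k : ℕ) (Q : List (Fin d) → Prop)
    [DecidablePred Q] : MeasurableSet {ω : ℤ → Fin d | Q (word G ω x k)} := by
  rw [word_event]
  exact Finset.measurableSet_biUnion _ (fun w _ => measurable_word G x k w)

/-- the probability of such an event, if the words have distinct sites -/
theorem event_eq [NeZero d] (G : ℤ → Fin d → ℤ) (x : ℤ) (k : ℕ) (Q : List (Fin d) → Prop)
    [DecidablePred Q] (hQ : ∀ w, Q w → (sites G x w).Nodup) :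
    (P d).real {ω | Q (word G ω x k)} = (((wd d k).filter Q).card : ℝ) * ((d : ℝ)⁻¹) ^ k := by
  have h1 : P d {ω | Q (word G ω x k)} =
      (((wd d k).filter Q).card : ENNReal) * ((d : ENNReal)⁻¹) ^ k := by
    rw [word_event, measure_biUnion_finset]
    · rw [Finset.sum_congr rfl (fun w hw => follow_eq G x (hQ w (mem_filter.1 hw).2)
        (mem_wd.1 (mem_filter.1 hw).1)), Finset.sum_const, nsmul_eq_mul]
    · intro w _ w' _ hne
      rw [Function.onFun, Set.disjoint_left]
      intro ω h1 h2
      exact hne (h1.symm.trans h2)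
    · intro w _
      exact measurable_word G x k w
  have hd : (0 : ℝ) < d := by
    have := NeZero.pos d
    exact_mod_cast this
  rw [measureReal_def, h1, ENNReal.toReal_mul, ENNReal.toReal_pow, ENNReal.toReal_inv]
  simp

/-- the probability of two words with distinct sites -/
theorem pair_le [NeZero d] (G : ℤ → Fin d → ℤ) (x x' : ℤ) (k k' : ℕ) (w w' : List (Fin d))
    (hn : (sites G x w ++ sites G x' w').Nodup) (hw : w.length = k) (hw' : w'.length = k') :
    P d {ω | word G ω x k = w ∧ word G ω x' k' = w'} ≤ ((d : ENNReal)⁻¹) ^ (k + k') := by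
  rcases Set.eq_empty_or_nonempty {ω : ℤ → Fin d | word G ω x k = w ∧ word G ω x' k' = w'} with
    h | ⟨ω', h1, h2⟩
  · rw [h, measure_empty]
    exact zero_le
  · have h3 : {ω : ℤ → Fin d | word G ω x k = w ∧ word G ω x' k' = w'} ⊆
        {ω | ∀ s ∈ (sites G x w ++ sites G x' w').toFinset, ω s = ω' s} := by
      rintro ω ⟨h4, h5⟩ s hs
      rw [List.mem_toFinset, List.mem_append] at hs
      rcases hs with hs | hs
      · apply agree G (h4.trans h1.symm)
        rw [h1]
        exact hs
      · apply agree G (h5.trans h2.symm)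
        rw [h2]
        exact hs
    refine (measure_mono h3).trans (le_of_eq ?_)
    rw [cyl, List.toFinset_card_of_nodup hn, List.length_append, length_sites, length_sites, hw,
      hw']

/-- **The second moment method.** -/
theorem second_moment {Ω ι : Type*} [MeasurableSpace Ω] {μ : Measure Ω} [IsProbabilityMeasure μ]
    (F : Finset ι) (A : ι → Set Ω) (hA : ∀ i, MeasurableSet (A i)) {m R : ℝ} (hm : 0 < m)
    (h1 : ∑ i ∈ F, μ.real (A i) = m) (h2 : ∑ i ∈ F, ∑ j ∈ F, μ.real (A i ∩ A j) ≤ m ^ 2 + R) :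
    μ.real {ω | ∀ i ∈ F, ω ∉ A i} ≤ R / m ^ 2 := by
  classical
  set N : Ω → ℝ := fun ω => ∑ i ∈ F, (A i).indicator (fun _ => (1 : ℝ)) ω with hN
  have hint : ∀ B : Set Ω, MeasurableSet B → Integrable (B.indicator (fun _ => (1 : ℝ))) μ :=
    fun B hB => (integrable_const (1 : ℝ)).indicator hB
  have hval : ∀ B : Set Ω, MeasurableSet B →
      ∫ ω, B.indicator (fun _ => (1 : ℝ)) ω ∂μ = μ.real B := by
    intro B hB
    rw [integral_indicator_const _ hB, smul_eq_mul, mul_one]
  have hind : ∀ (B C : Set Ω) (ω : Ω), B.indicator (fun _ => (1 : ℝ)) ω *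
      C.indicator (fun _ => (1 : ℝ)) ω = (B ∩ C).indicator (fun _ => (1 : ℝ)) ω := by
    intro B C ω
    by_cases hB : ω ∈ B
    · by_cases hC : ω ∈ C
      · rw [Set.indicator_of_mem hB, Set.indicator_of_mem hC, Set.indicator_of_mem (Set.mem_inter hB hC),
          mul_one]
      · rw [Set.indicator_of_notMem hC, Set.indicator_of_notMem
          (fun h => hC (Set.mem_of_mem_inter_right h)), mul_zero]
    · rw [Set.indicator_of_notMem hB, Set.indicator_of_notMem
        (fun h => hB (Set.mem_of_mem_inter_left h)), zero_mul]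
  have hsq : ∀ ω, (N ω - m) ^ 2 = (∑ i ∈ F, ∑ j ∈ F, (A i ∩ A j).indicator (fun _ => (1 : ℝ)) ω) -
      2 * m * (∑ i ∈ F, (A i).indicator (fun _ => (1 : ℝ)) ω) + m ^ 2 := by
    intro ω
    have h3 : N ω ^ 2 = ∑ i ∈ F, ∑ j ∈ F, (A i ∩ A j).indicator (fun _ => (1 : ℝ)) ω := by
      rw [hN, pow_two, Finset.sum_mul_sum]
      apply Finset.sum_congr rfl
      intro i _
      apply Finset.sum_congr rfl
      intro j _
      exact hind _ _ _
    rw [← h3]
    ring
  have hi1 : Integrable (fun ω => ∑ i ∈ F, ∑ j ∈ F,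
      (A i ∩ A j).indicator (fun _ => (1 : ℝ)) ω) μ := by
    apply integrable_finsetSum
    intro i _
    apply integrable_finsetSum
    intro j _
    exact hint _ ((hA i).inter (hA j))
  have hi2 : Integrable (fun ω => ∑ i ∈ F, (A i).indicator (fun _ => (1 : ℝ)) ω) μ := by
    apply integrable_finsetSum
    intro i _
    exact hint _ (hA i)
  have hi3 : Integrable (fun ω => (N ω - m) ^ 2) μ := by
    have : (fun ω => (N ω - m) ^ 2) = fun ω =>
        (∑ i ∈ F, ∑ j ∈ F, (A i ∩ A j).indicator (fun _ => (1 : ℝ)) ω) -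
        2 * m * (∑ i ∈ F, (A i).indicator (fun _ => (1 : ℝ)) ω) + m ^ 2 := funext hsq
    rw [this]
    exact (hi1.sub (hi2.const_mul _)).add (integrable_const _)
  have hE : ∫ ω, (N ω - m) ^ 2 ∂μ ≤ R := by
    have e1 : ∫ ω, (N ω - m) ^ 2 ∂μ = ∑ i ∈ F, ∑ j ∈ F, μ.real (A i ∩ A j) - 2 * m * m + m ^ 2 := by
      rw [integral_congr_ae (ae_of_all _ hsq)]
      have e2 := integral_add (hi1.sub (hi2.const_mul (2 * m))) (integrable_const (m ^ 2) (μ := μ))
      have e3 := integral_sub hi1 (hi2.const_mul (2 * m))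
      have e4 : ∫ ω, ∑ i ∈ F, ∑ j ∈ F, (A i ∩ A j).indicator (fun _ => (1 : ℝ)) ω ∂μ =
          ∑ i ∈ F, ∑ j ∈ F, μ.real (A i ∩ A j) := by
        rw [integral_finsetSum _ (fun i _ => integrable_finsetSum _ (fun j _ =>
            hint _ ((hA i).inter (hA j))))]
        apply Finset.sum_congr rfl
        intro i _
        rw [integral_finsetSum _ (fun j _ => hint _ ((hA i).inter (hA j)))]
        apply Finset.sum_congr rfl
        intro j _
        exact hval _ ((hA i).inter (hA j))
      have e5 : ∫ ω, 2 * m * ∑ i ∈ F, (A i).indicator (fun _ => (1 : ℝ)) ω ∂μ = 2 * m * m := by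
        rw [integral_const_mul, integral_finsetSum _ (fun i _ => hint _ (hA i)),
            Finset.sum_congr rfl (fun i _ => hval _ (hA i)), h1]
      have e6 : ∫ _ω, m ^ 2 ∂μ = m ^ 2 := by simp
      rw [← e4, ← e5, ← e3]
      rw [e6] at e2
      exact e2
    rw [e1]
    linarith
  set Z : Set Ω := {ω | ∀ i ∈ F, ω ∉ A i} with hZ
  have hZm : MeasurableSet Z := by
    have : Z = ⋂ i ∈ F, (A i)ᶜ := by
      ext ω
      simp [hZ]
    rw [this]
    exact Finset.measurableSet_biInter _ (fun i _ => (hA i).compl)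
  have h3 : m ^ 2 * μ.real Z ≤ ∫ ω, (N ω - m) ^ 2 ∂μ := by
    have e1 : m ^ 2 * μ.real Z = ∫ ω, m ^ 2 * Z.indicator (fun _ => (1 : ℝ)) ω ∂μ := by
      rw [integral_const_mul, hval Z hZm]
    rw [e1]
    apply integral_mono ((hint Z hZm).const_mul _) hi3
    intro ω
    simp only
    by_cases hω : ω ∈ Z
    · have h4 : N ω = 0 := by
        rw [hN]
        apply Finset.sum_eq_zero
        intro i hi
        rw [Set.indicator_of_notMem (hω i hi)]
      rw [Set.indicator_of_mem hω, h4]
      apply le_of_eq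
      ring
    · rw [Set.indicator_of_notMem hω, mul_zero]
      positivity
  rw [le_div_iff₀ (by positivity), mul_comm]
  exact h3.trans hE

end Pool.Agent.Q205.RP
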