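import Mathlib
import Pool.Agent.Q205.RP.Append

/-!
# The expanding case: most trajectories do not close
-/

set_option autoImplicit false

open MeasureTheory Finset Filter Topology

namespace Pool.Agent.Q205.RP

variable {d : ℕ}

/-- the trajectory of `x` closes -/
def Closes (f : ℤ → ℤ) (x : ℤ) : Prop := ∃ i j : ℕ, i < j ∧ f^[i] x = f^[j] x

/-- the first closing: either before that the trajectory visits the ball, or not -/
theorem closes_cases (f : ℤ → ℤ) (N : ℕ) {x : ℤ} (h : Closes f x) :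
    (∃ i, (∀ a < i, ∀ b < i, f^[a] x = f^[b] x → a = b) ∧ (∀ a < i, (N : ℤ) < |f^[a] x|) ∧
      |f^[i] x| ≤ N) ∨
    (∃ j m, (∀ a < j + (m + 1), ∀ b < j + (m + 1), f^[a] x = f^[b] x → a = b) ∧
      (∀ a < j + (m + 1), (N : ℤ) < |f^[a] x|) ∧ f^[j + (m + 1)] x = f^[j] x) := by
  classical
  have h0 : ∃ k, ∃ j < k, f^[j] x = f^[k] x := by
    obtain ⟨i, j, h1, h2⟩ := h
    exact ⟨j, i, h1, h2⟩
  set k := Nat.find h0 with hk
  obtain ⟨j, hj, hjk⟩ := Nat.find_spec h0
  rw [← hk] at hj hjk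
  have hinj : ∀ a < k, ∀ b < k, f^[a] x = f^[b] x → a = b := by
    intro a ha b hb hab
    by_contra hne
    rcases lt_or_gt_of_ne hne with h1 | h1
    · exact Nat.find_min h0 hb ⟨a, h1, hab⟩
    · exact Nat.find_min h0 ha ⟨b, h1, hab.symm⟩
  by_cases hlow : ∃ i, i < k ∧ |f^[i] x| ≤ N
  · left
    set i := Nat.find hlow with hi
    obtain ⟨hik, hiN⟩ := Nat.find_spec hlow
    rw [← hi] at hik hiN
    refine ⟨i, fun a ha b hb => hinj a (by omega) b (by omega), fun a ha => ?_, hiN⟩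
    by_contra hcon
    rw [not_lt] at hcon
    exact Nat.find_min hlow ha ⟨by omega, hcon⟩
  · right
    push Not at hlow
    refine ⟨j, k - j - 1, ?_, ?_, ?_⟩
    · rw [show j + (k - j - 1 + 1) = k by omega]
      exact hinj
    · rw [show j + (k - j - 1 + 1) = k by omega]
      exact hlow
    · rw [show j + (k - j - 1 + 1) = k by omega]
      exact hjk.symm

/-- number of words that go down to the ball -/
theorem descend_card (G : ℤ → Fin d → ℤ) {θ κ : ℝ} (hθ : 0 < θ) (hκ : 0 < κ) (N : ℕ)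
    (h : ∀ x : ℤ, (N : ℤ) < |x| → ∑ c, VV (-θ) (G x c) ≤ κ * VV (-θ) x) (x : ℤ) (i : ℕ)
    (Q : List (Fin d) → Prop) [DecidablePred Q]
    (hQ : ∀ w, Q w → ∀ s ∈ sites G x w, (N : ℤ) < |s|) (hQ' : ∀ w, Q w → |run G x w| ≤ N) :
    (((wd d i).filter Q).card : ℝ) ≤ (1 + (N : ℝ)) ^ θ * κ ^ i * VV (-θ) x := by
  have h1 := good_sum G (VV (-θ)) hκ (VV_pos _) (fun y => (N : ℤ) < |y|) h i x Q hQ
  have h2 : (((wd d i).filter Q).card : ℝ) * (1 + (N : ℝ)) ^ (-θ) ≤
      ∑ w ∈ (wd d i).filter Q, VV (-θ) (run G x w) := by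
    rw [← nsmul_eq_mul, ← Finset.sum_const]
    apply Finset.sum_le_sum
    intro w hw
    unfold VV
    apply Real.rpow_le_rpow_of_nonpos (by positivity) _ (by linarith)
    have h3 : ((|run G x w| : ℤ) : ℝ) ≤ ((N : ℤ) : ℝ) := by
      exact_mod_cast hQ' w (mem_filter.1 hw).2
    push_cast at h3
    linarith
  have h3 : (0 : ℝ) < (1 + (N : ℝ)) ^ θ := by positivity
  have h4 : (1 + (N : ℝ)) ^ (-θ) * (1 + (N : ℝ)) ^ θ = 1 := by
    rw [← Real.rpow_add (by positivity)]
    simp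
  calc (((wd d i).filter Q).card : ℝ) =
      (((wd d i).filter Q).card : ℝ) * (1 + (N : ℝ)) ^ (-θ) * (1 + (N : ℝ)) ^ θ := by
        rw [mul_assoc, h4, mul_one]
    _ ≤ (κ ^ i * VV (-θ) x) * (1 + (N : ℝ)) ^ θ :=
        mul_le_mul_of_nonneg_right (h2.trans h1) h3.le
    _ = _ := by ring

/-- number of words that return to an earlier place without visiting the ball -/
theorem return_card (G : ℤ → Fin d → ℤ) (V : ℤ → ℝ) {θ κ κ' Γ : ℝ} (hθ : 0 < θ) (hκ : 0 < κ)
    (hκ' : 0 < κ') (hΓ : 1 < Γ) (N : ℕ) (hV : ∀ x, 0 < V x)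
    (h1 : ∀ x : ℤ, (N : ℤ) < |x| → ∑ c, V (G x c) ≤ κ * V x)
    (h2 : ∀ x : ℤ, (N : ℤ) < |x| → ∑ c, VV (-θ) (G x c) ≤ κ' * VV (-θ) x)
    (h3 : ∀ (x : ℤ) (w : List (Fin d)), w ≠ [] → run G x w = x → |(x : ℝ)| ≤ Γ ^ w.length)
    (x : ℤ) (j m : ℕ) (hm : 1 ≤ m)
    (Q : List (Fin d) → Prop) [DecidablePred Q]
    (hQ : ∀ w, Q w → ∀ s ∈ sites G x w, (N : ℤ) < |s|)
    (hQ' : ∀ w, Q w → run G x w = run G x (w.take j)) :
    (((wd d (j + m)).filter Q).card : ℝ) ≤ 2 ^ θ * (κ * Γ ^ θ) ^ m * κ' ^ j * VV (-θ) x := by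
  classical
  have hΓ0 : 0 < Γ := by linarith
  rw [Finset.card_filter]
  push_cast
  rw [sum_wd_add]
  have h4 : ∀ u ∈ wd d j, ∑ v ∈ wd d m, (if Q (u ++ v) then (1 : ℝ) else 0) ≤
      if (∀ s ∈ sites G x u, (N : ℤ) < |s|) then
        2 ^ θ * (κ * Γ ^ θ) ^ m * VV (-θ) (run G x u) else 0 := by
    intro u hu
    have hul : u.length = j := mem_wd.1 hu
    by_cases hgood : ∀ s ∈ sites G x u, (N : ℤ) < |s|
    · rw [if_pos hgood]
      set y := run G x u with hy
      have h5 : ∑ v ∈ wd d m, (if Q (u ++ v) then (1 : ℝ) else 0) =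
          (((wd d m).filter (fun v => Q (u ++ v))).card : ℝ) := by
        rw [Finset.card_filter]
        push_cast
        rfl
      rw [h5]
      have hclosed : ∀ v, Q (u ++ v) → run G y v = y := by
        intro v hv
        have h6 := hQ' _ hv
        rw [run_append, ← hul, List.take_left, ← hy] at h6
        exact h6
      by_cases hne : ((wd d m).filter (fun v => Q (u ++ v))).card = 0
      · rw [hne]
        have := VV_pos (-θ) y
        have h7 : (0 : ℝ) ≤ 2 ^ θ * (κ * Γ ^ θ) ^ m * VV (-θ) y := by positivity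
        simpa using h7
      · obtain ⟨v₀, hv₀⟩ := Finset.card_pos.1 (Nat.pos_of_ne_zero hne)
        rw [mem_filter] at hv₀
        have hlen : v₀.length = m := mem_wd.1 hv₀.1
        have h6 := h3 y v₀ (by
          intro h
          rw [h] at hlen
          simp at hlen
          omega) (hclosed v₀ hv₀.2)
        rw [hlen] at h6
        have h7 := closed_card G V hκ hV (fun z => (N : ℤ) < |z|) h1 m y
          (fun v => Q (u ++ v)) (fun v hv s hs => hQ _ hv s (by
            rw [sites_append]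
            exact List.mem_append_right _ hs)) hclosed
        refine h7.trans ?_
        have h8 : 1 + |(y : ℝ)| ≤ 2 * Γ ^ m := by
          have : (1 : ℝ) ≤ Γ ^ m := one_le_pow₀ hΓ.le
          linarith
        have h9 : 1 ≤ (2 * Γ ^ m) ^ θ * VV (-θ) y := by
          unfold VV
          rw [Real.rpow_neg (by positivity), ← div_eq_mul_inv, le_div_iff₀ (by positivity),
            one_mul]
          exact Real.rpow_le_rpow (by positivity) h8 hθ.le
        have h10 : (2 * Γ ^ m) ^ θ = 2 ^ θ * (Γ ^ θ) ^ m := by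
          rw [Real.mul_rpow (by norm_num) (by positivity)]
          congr 1
          rw [← Real.rpow_natCast, ← Real.rpow_natCast, ← Real.rpow_mul hΓ0.le,
            ← Real.rpow_mul hΓ0.le, mul_comm]
        calc κ ^ m = κ ^ m * 1 := (mul_one _).symm
          _ ≤ κ ^ m * ((2 * Γ ^ m) ^ θ * VV (-θ) y) :=
              mul_le_mul_of_nonneg_left h9 (by positivity)
          _ = 2 ^ θ * (κ * Γ ^ θ) ^ m * VV (-θ) y := by rw [h10, mul_pow]; ring
    · rw [if_neg hgood]
      apply le_of_eq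
      apply Finset.sum_eq_zero
      intro v _
      rw [if_neg]
      intro hv
      apply hgood
      intro s hs
      apply hQ _ hv
      rw [sites_append]
      exact List.mem_append_left _ hs
  refine (Finset.sum_le_sum h4).trans ?_
  rw [← Finset.sum_filter, ← Finset.mul_sum]
  have h5 := good_sum G (VV (-θ)) hκ' (VV_pos _) (fun y => (N : ℤ) < |y|) h2 j x
    (fun u => ∀ s ∈ sites G x u, (N : ℤ) < |s|) (fun w hw => hw)
  calc _ ≤ 2 ^ θ * (κ * Γ ^ θ) ^ m * (κ' ^ j * VV (-θ) x) :=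
        mul_le_mul_of_nonneg_left h5 (by positivity)
    _ = _ := by ring

/-- **In the expanding case the trajectory of `x` closes with probability `O(|x|^(-θ))`.** -/
theorem closes_le [NeZero d] (G : ℤ → Fin d → ℤ) (V : ℤ → ℝ) {θ κ κ' Γ : ℝ} (hθ : 0 < θ)
    (hκ : 0 < κ) (hκ' : 0 < κ') (hκd : κ' < d) (hΓ : 1 < Γ) (hκΓ : κ * Γ ^ θ < d) (N : ℕ)
    (hV : ∀ x, 0 < V x)
    (h1 : ∀ x : ℤ, (N : ℤ) < |x| → ∑ c, V (G x c) ≤ κ * V x)
    (h2 : ∀ x : ℤ, (N : ℤ) < |x| → ∑ c, VV (-θ) (G x c) ≤ κ' * VV (-θ) x)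
    (h3 : ∀ (x : ℤ) (w : List (Fin d)), w ≠ [] → run G x w = x → |(x : ℝ)| ≤ Γ ^ w.length) :
    ∃ C : ℝ, 0 < C ∧ ∀ x : ℤ, P d {ω | Closes (Tn G ω) x} ≤ ENNReal.ofReal (C * VV (-θ) x) := by
  classical
  have hd : (0 : ℝ) < d := by
    have := NeZero.pos d
    exact_mod_cast this
  set ρ : ℝ := κ' / d with hρ
  have hρ0 : 0 < ρ := div_pos hκ' hd
  have hρ1 : ρ < 1 := by rw [hρ, div_lt_one hd]; exact hκd
  have hκρ : κ' = ρ * d := by rw [hρ]; field_simp
  set η : ℝ := κ * Γ ^ θ / d with hη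
  have hη0 : 0 < η := by rw [hη]; positivity
  have hη1 : η < 1 := by rw [hη, div_lt_one hd]; exact hκΓ
  have hκη : κ * Γ ^ θ = η * d := by rw [hη]; field_simp
  have hs1 : Summable (fun i : ℕ => (1 + (N : ℝ)) ^ θ * ρ ^ i) :=
    (summable_geometric_of_lt_one hρ0.le hρ1).mul_left _
  have hs2 : Summable (fun q : ℕ × ℕ => ρ ^ q.1 * (2 ^ θ * η * η ^ q.2)) :=
    (summable_geometric_of_lt_one hρ0.le hρ1).mul_of_nonneg
      ((summable_geometric_of_lt_one hη0.le hη1).mul_left _) (fun i => by positivity)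
      (fun i => by positivity)
  set C1 : ℝ := ∑' i : ℕ, (1 + (N : ℝ)) ^ θ * ρ ^ i with hC1
  set C2 : ℝ := ∑' q : ℕ × ℕ, ρ ^ q.1 * (2 ^ θ * η * η ^ q.2) with hC2
  have hC10 : 0 ≤ C1 := tsum_nonneg (fun i => by positivity)
  have hC20 : 0 ≤ C2 := tsum_nonneg (fun i => by positivity)
  refine ⟨C1 + C2 + 1, by positivity, fun x => ?_⟩
  have hVx := VV_pos (-θ) x
  -- the two families of events
  set QA : List (Fin d) → Prop := fun w => (∀ s ∈ sites G x w, (N : ℤ) < |s|) ∧
    |run G x w| ≤ N with hQA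
  set QB : ℕ → List (Fin d) → Prop := fun j w => (∀ s ∈ sites G x w, (N : ℤ) < |s|) ∧
    run G x w = run G x (w.take j) with hQB
  have hcover : {ω | Closes (Tn G ω) x} ⊆
      (⋃ i : ℕ, {ω | (sites G x (word G ω x i)).Nodup ∧ QA (word G ω x i)}) ∪
      (⋃ q : ℕ × ℕ, {ω | (sites G x (word G ω x (q.1 + (q.2 + 1)))).Nodup ∧
        QB q.1 (word G ω x (q.1 + (q.2 + 1)))}) := by
    intro ω hω
    rcases closes_cases (Tn G ω) N hω with ⟨i, h4, h5, h6⟩ | ⟨j, m, h4, h5, h6⟩
    · left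
      rw [Set.mem_iUnion]
      refine ⟨i, (nodup_iff G ω x i).2 h4, ?_, ?_⟩
      · intro s hs
        rw [sites_word, List.mem_map] at hs
        obtain ⟨a, ha, rfl⟩ := hs
        exact h5 a (List.mem_range.1 ha)
      · rw [run_word]
        exact h6
    · right
      rw [Set.mem_iUnion]
      refine ⟨(j, m), (nodup_iff G ω x _).2 h4, ?_, ?_⟩
      · intro s hs
        rw [sites_word, List.mem_map] at hs
        obtain ⟨a, ha, rfl⟩ := hs
        exact h5 a (List.mem_range.1 ha)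
      · have h7 : (word G ω x (j + (m + 1))).take j = word G ω x j := by
          clear h4 h5 h6 hω
          generalize m + 1 = n
          induction j generalizing x with
          | zero => simp [word]
          | succ j ih =>
            rw [show j + 1 + n = (j + n) + 1 by ring]
            simp only [word, List.take_succ_cons, List.cons.injEq, true_and]
            exact ih _ (VV_pos _ _) rfl rfl
        simp only
        rw [h7, run_word, run_word]
        exact h6
  refine (measure_mono hcover).trans ((measure_union_le _ _).trans ?_)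
  have hA : P d (⋃ i : ℕ, {ω | (sites G x (word G ω x i)).Nodup ∧ QA (word G ω x i)}) ≤
      ENNReal.ofReal (C1 * VV (-θ) x) := by
    refine (measure_iUnion_le _).trans ?_
    rw [hC1, ← tsum_mul_right, ENNReal.ofReal_tsum_of_nonneg (fun i => by positivity)
      (hs1.mul_right _)]
    apply ENNReal.tsum_le_tsum
    intro i
    apply meas_le_real
    refine (descend_card G hθ hκ' N h2 x i (fun w => (sites G x w).Nodup ∧ QA w)
      (fun w hw => hw.2.1) (fun w hw => hw.2.2)).trans (le_of_eq ?_)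
    rw [hκρ, mul_pow]
    ring
  have hB : P d (⋃ q : ℕ × ℕ, {ω | (sites G x (word G ω x (q.1 + (q.2 + 1)))).Nodup ∧
        QB q.1 (word G ω x (q.1 + (q.2 + 1)))}) ≤ ENNReal.ofReal (C2 * VV (-θ) x) := by
    refine (measure_iUnion_le _).trans ?_
    rw [hC2, ← tsum_mul_right, ENNReal.ofReal_tsum_of_nonneg (fun i => by positivity)
      (hs2.mul_right _)]
    apply ENNReal.tsum_le_tsum
    intro q
    apply meas_le_real
    refine (return_card G V hθ hκ hκ' hΓ N hV h1 h2 h3 x q.1 (q.2 + 1) (by omega)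
      (fun w => (sites G x w).Nodup ∧ QB q.1 w)
      (fun w hw => hw.2.1) (fun w hw => hw.2.2)).trans (le_of_eq ?_)
    rw [hκη, hκρ, mul_pow, mul_pow, pow_add, pow_succ, pow_succ]
    ring
  refine (add_le_add hA hB).trans ?_
  rw [← ENNReal.ofReal_add (by positivity) (by positivity)]
  apply ENNReal.ofReal_le_ofReal
  nlinarith

end Pool.Agent.Q205.RP
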