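import Mathlib
import Pool.Agent.Q205.RP.Expand

/-!
# The expanding case: exceptional sets of power size
-/

set_option autoImplicit false

open MeasureTheory Finset Filter Topology

namespace Pool.Agent.Q205.RP

variable {d : ℕ}

theorem eventually_exponent (a : Fin d → ℝ) (ha : ∀ i, 0 < a i) (hprod : ∏ i, a i < 1) :
    ∀ᶠ s : ℝ in 𝓝[>] 0, ∑ i, a i ^ s < d := by
  have hlog : ∑ i, Real.log (a i) < 0 := by
    rw [← Real.log_prod (fun i _ => (ha i).ne')]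
    exact Real.log_neg (Finset.prod_pos (fun i _ => ha i)) hprod
  have h1 : HasDerivAt (fun s : ℝ => ∑ i, a i ^ s) (∑ i, a i ^ (0 : ℝ) * Real.log (a i)) 0 := by
    apply HasDerivAt.fun_sum
    intro i _
    exact (Real.hasStrictDerivAt_const_rpow (ha i) 0).hasDerivAt
  simp only [Real.rpow_zero, one_mul] at h1
  have h2 : Tendsto (slope (fun s : ℝ => ∑ i, a i ^ s) 0) (𝓝[>] 0)
      (𝓝 (∑ i, Real.log (a i))) := by
    have := hasDerivAt_iff_tendsto_slope.1 h1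
    exact this.mono_left (nhdsWithin_mono _ (fun x hx => ne_of_gt hx))
  have h3 : ∀ᶠ s : ℝ in 𝓝[>] 0, slope (fun s : ℝ => ∑ i, a i ^ s) 0 s < 0 :=
    h2.eventually (gt_mem_nhds hlog)
  filter_upwards [h3, self_mem_nhdsWithin] with s h5 h8
  rw [slope_def_field, sub_zero, div_neg_iff] at h5
  have h9 : (0 : ℝ) < s := h8
  rcases h5 with ⟨_, h⟩ | ⟨h, _⟩
  · linarith
  · simp only [Real.rpow_zero, sum_const, card_univ, Fintype.card_fin, nsmul_eq_mul,
      mul_one] at h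
    linarith

theorem main_expanding [NeZero d] (G : ℤ → Fin d → ℤ) {m : Fin d → ℤ} {R : ℝ} (hd2 : 2 ≤ d)
    (hcop : ∀ i, IsCoprime (m i) (d : ℤ)) (hR : 0 ≤ R) (hG : Lin G d m R)
    (hprod : (d : ℝ) ^ d < ∏ i, |(m i : ℝ)|) :
    ∃ θ C : ℝ, 0 < θ ∧ θ ≤ 1 ∧ 0 < C ∧
      ∀ x : ℤ, P d {ω | Closes (Tn G ω) x} ≤ ENNReal.ofReal (C * VV (-θ) x) := by
  have hd : (0 : ℝ) < d := by
    have := NeZero.pos d
    exact_mod_cast this
  have hm0 : ∀ i, m i ≠ 0 := fun i h => by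
    have h1 := hcop i
    rw [h, isCoprime_zero_left, Int.isUnit_iff] at h1
    omega
  have ha : ∀ i, (0 : ℝ) < |(m i : ℝ)| / d := fun i =>
    div_pos (abs_pos.2 (by exact_mod_cast hm0 i)) hd
  have hpr : ∏ i, (|(m i : ℝ)| / d) = (∏ i, |(m i : ℝ)|) / (d : ℝ) ^ d := by
    rw [Finset.prod_div_distrib, Finset.prod_const, card_univ, Fintype.card_fin]
  have hpr1 : ∏ i, (|(m i : ℝ)| / d)⁻¹ < 1 := by
    rw [Finset.prod_inv_distrib, hpr]
    apply inv_lt_one_of_one_lt₀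
    rw [lt_div_iff₀ (by positivity), one_mul]
    exact hprod
  have hev := eventually_exponent (fun i => (|(m i : ℝ)| / d)⁻¹) (fun i => inv_pos.2 (ha i)) hpr1
  have hneg : ∀ s : ℝ, ∑ i, ((|(m i : ℝ)| / d)⁻¹) ^ s = ∑ i, (|(m i : ℝ)| / d) ^ (-s) := by
    intro s
    apply Finset.sum_congr rfl
    intro i _
    rw [Real.rpow_neg (ha i).le, Real.inv_rpow (ha i).le]
  obtain ⟨s, hs, hs0⟩ := (hev.and self_mem_nhdsWithin).exists
  rw [hneg] at hs
  obtain ⟨κ, hκ1, hκ2⟩ := exists_between hs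
  have hκ0 : 0 < κ := lt_of_le_of_lt (Finset.sum_nonneg (fun i _ => by
    exact Real.rpow_nonneg (ha i).le _)) hκ1
  obtain ⟨Γ, hΓ1, hΓ⟩ := closed_len G hd2 hG hcop hR
  have hΓ0 : 0 < Γ := by linarith
  -- a small exponent
  have hsm : ∀ᶠ θ : ℝ in 𝓝[>] 0, κ * Γ ^ θ < d := by
    have h1 : Tendsto (fun θ : ℝ => κ * Γ ^ θ) (𝓝 0) (𝓝 (κ * Γ ^ (0 : ℝ))) :=
      ((Real.continuousAt_const_rpow hΓ0.ne').tendsto).const_mul κ
    rw [Real.rpow_zero, mul_one] at h1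
    exact (h1.mono_left nhdsWithin_le_nhds).eventually (gt_mem_nhds hκ2)
  have hle1 : ∀ᶠ θ : ℝ in 𝓝[>] 0, θ < 1 := by
    apply mem_nhdsWithin_of_mem_nhds
    exact gt_mem_nhds one_pos
  obtain ⟨θ, ⟨⟨h1, h2⟩, h3⟩, h4⟩ := (((hev.and hsm).and hle1).and self_mem_nhdsWithin).exists
  rw [hneg] at h1
  obtain ⟨κ', hκ'1, hκ'2⟩ := exists_between h1
  have hκ'0 : 0 < κ' := lt_of_le_of_lt (Finset.sum_nonneg (fun i _ => by
    exact Real.rpow_nonneg (ha i).le _)) hκ'1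
  obtain ⟨N1, hN1⟩ := drift G _ _ (slopes_of_lin (NeZero.pos d) hG) ha (-s) κ hκ1
  obtain ⟨N2, hN2⟩ := drift G _ _ (slopes_of_lin (NeZero.pos d) hG) ha (-θ) κ' hκ'1
  obtain ⟨C, hC0, hC⟩ := closes_le G (VV (-s)) h4 hκ0 hκ'0 hκ'2 hΓ1 h2 (max N1 N2)
    (VV_pos _) (fun x hx => hN1 x (lt_of_le_of_lt (by exact_mod_cast le_max_left _ _) hx))
    (fun x hx => hN2 x (lt_of_le_of_lt (by exact_mod_cast le_max_right _ _) hx)) hΓ
  exact ⟨θ, C, h4, h3.le, hC0, hC⟩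

/-- events of small probability hold for few integers -/
theorem count_ae {Ω : Type*} [MeasurableSpace Ω] {μ : Measure Ω} [IsProbabilityMeasure μ]
    (E : ℤ → Set Ω) {C θ : ℝ} (hC : 0 < C) (hθ : 0 < θ) (hθ1 : θ ≤ 1)
    (hE : ∀ x, μ (E x) ≤ ENNReal.ofReal (C * VV (-θ) x)) :
    ∀ᵐ ω ∂μ, ∃ K : ℝ, ∀ X : ℕ, ({x : ℤ | |x| ≤ X ∧ ω ∈ E x}.ncard : ℝ) ≤
      K * (2 + (X : ℝ)) ^ (1 - θ / 2) := by
  classical
  set wt : ℤ → ℝ := fun x => (2 + |(x : ℝ)|) ^ (-(1 - θ / 2)) with hwt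
  set W : Ω → ENNReal := fun ω => ∑' x : ℤ,
    (toMeasurable μ (E x)).indicator (fun _ => ENNReal.ofReal (wt x)) ω with hW
  have hmeas : ∀ x : ℤ, Measurable ((toMeasurable μ (E x)).indicator
      (fun _ : Ω => ENNReal.ofReal (wt x))) := fun x =>
    measurable_const.indicator (measurableSet_toMeasurable _ _)
  have hWm : Measurable W := Measurable.ennreal_tsum hmeas
  have hint : ∫⁻ ω, W ω ∂μ ≠ ⊤ := by
    rw [hW, lintegral_tsum (fun x => (hmeas x).aemeasurable)]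
    have h1 : ∀ x : ℤ, ∫⁻ ω, (toMeasurable μ (E x)).indicator
        (fun _ => ENNReal.ofReal (wt x)) ω ∂μ ≤
        ENNReal.ofReal (C * 2 ^ θ * (2 + |(x : ℝ)|) ^ (-(1 + θ / 2))) := by
      intro x
      rw [lintegral_indicator_const (measurableSet_toMeasurable _ _), measure_toMeasurable]
      refine (mul_le_mul_right (hE x) _).trans ?_
      rw [← ENNReal.ofReal_mul (by positivity)]
      apply ENNReal.ofReal_le_ofReal
      have h2 : VV (-θ) x ≤ 2 ^ θ * (2 + |(x : ℝ)|) ^ (-θ) := by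
        unfold VV
        rw [Real.rpow_neg (by positivity), Real.rpow_neg (by positivity), ← div_eq_mul_inv,
          le_div_iff₀ (by positivity), inv_mul_le_iff₀ (by positivity),
          ← Real.mul_rpow (by positivity) (by norm_num)]
        apply Real.rpow_le_rpow (by positivity) _ hθ.le
        linarith [abs_nonneg (x : ℝ)]
      have h3 : (2 + |(x : ℝ)|) ^ (-(1 + θ / 2)) = wt x * (2 + |(x : ℝ)|) ^ (-θ) := by
        rw [hwt, ← Real.rpow_add (by positivity)]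
        congr 1
        ring
      rw [h3]
      have h4 : 0 ≤ wt x := by rw [hwt]; positivity
      calc wt x * (C * VV (-θ) x) ≤ wt x * (C * (2 ^ θ * (2 + |(x : ℝ)|) ^ (-θ))) := by
            apply mul_le_mul_of_nonneg_left _ h4
            exact mul_le_mul_of_nonneg_left h2 hC.le
        _ = _ := by ring
    refine ne_top_of_le_ne_top ?_ (ENNReal.tsum_le_tsum h1)
    exact ((summable_two_add (b := 1 + θ / 2) (by linarith)).mul_left _).tsum_ofReal_ne_top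
  filter_upwards [ae_lt_top hWm hint] with ω hω
  refine ⟨(W ω).toReal, fun X => ?_⟩
  set S : Finset ℤ := (ball X).filter (fun x => ω ∈ E x) with hS
  have hset : {x : ℤ | |x| ≤ X ∧ ω ∈ E x} = (S : Set ℤ) := by
    ext x
    simp [hS, mem_ball]
  rw [hset, Set.ncard_coe_finset]
  have h1 : ∑ x ∈ S, ENNReal.ofReal (wt x) ≤ W ω := by
    have h2 : ∑ x ∈ S, ENNReal.ofReal (wt x) = ∑ x ∈ S, (toMeasurable μ (E x)).indicator
        (fun _ => ENNReal.ofReal (wt x)) ω := by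
      apply Finset.sum_congr rfl
      intro x hx
      rw [hS, mem_filter] at hx
      rw [Set.indicator_of_mem (subset_toMeasurable μ (E x) hx.2)]
    rw [h2, hW]
    exact ENNReal.sum_le_tsum S
  have h2 : ∑ x ∈ S, wt x ≤ (W ω).toReal := by
    rw [← ENNReal.ofReal_sum_of_nonneg (fun x _ => by rw [hwt]; positivity)] at h1
    rw [← ENNReal.toReal_ofReal (Finset.sum_nonneg (fun x _ => by
      show 0 ≤ wt x
      rw [hwt]; positivity) : 0 ≤ ∑ x ∈ S, wt x)]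
    exact ENNReal.toReal_mono hω.ne h1
  have h3 : (S.card : ℝ) * (2 + (X : ℝ)) ^ (-(1 - θ / 2)) ≤ ∑ x ∈ S, wt x := by
    rw [← nsmul_eq_mul, ← Finset.sum_const]
    apply Finset.sum_le_sum
    intro x hx
    rw [hS, mem_filter, mem_ball] at hx
    rw [hwt]
    apply Real.rpow_le_rpow_of_nonpos (by positivity) _ (by linarith)
    have : ((|x| : ℤ) : ℝ) ≤ ((X : ℤ) : ℝ) := by exact_mod_cast hx.1
    push_cast at this
    linarith
  have h4 : (2 + (X : ℝ)) ^ (-(1 - θ / 2)) * (2 + (X : ℝ)) ^ (1 - θ / 2) = 1 := by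
    rw [← Real.rpow_add (by positivity)]
    simp
  calc (S.card : ℝ) = (S.card : ℝ) * (2 + (X : ℝ)) ^ (-(1 - θ / 2)) *
        (2 + (X : ℝ)) ^ (1 - θ / 2) := by rw [mul_assoc, h4, mul_one]
    _ ≤ (W ω).toReal * (2 + (X : ℝ)) ^ (1 - θ / 2) :=
        mul_le_mul_of_nonneg_right (h3.trans h2) (by positivity)

end Pool.Agent.Q205.RP
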