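import Mathlib
import Pool.Agent.Q205.RP.Expand2

/-!
# Counting words with letter weights
-/

set_option autoImplicit false

open MeasureTheory Finset Filter Topology

namespace Pool.Agent.Q205.RP

variable {d : ℕ}

/-- the product of the weights of the letters along the path from `x` -/
def lw (G : ℤ → Fin d → ℤ) (χ : ℤ → Fin d → ℝ) : ℤ → List (Fin d) → ℝ
  | _, [] => 1
  | x, c :: w => χ x c * lw G χ (G x c) w

theorem lw_pos (G : ℤ → Fin d → ℤ) (χ : ℤ → Fin d → ℝ) (hχ : ∀ x c, 0 < χ x c) (x : ℤ)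
    (w : List (Fin d)) : 0 < lw G χ x w := by
  induction w generalizing x with
  | nil => exact one_pos
  | cons c w ih => exact mul_pos (hχ _ _) (ih _)

theorem master_lw (G : ℤ → Fin d → ℤ) (χ : ℤ → Fin d → ℝ) (hχ : ∀ x c, 0 < χ x c)
    (V u : ℤ → ℝ) (hu : ∀ x, 0 < u x)
    (h : ∀ x, ∑ c, χ x c * V (G x c) ≤ u x * V x) (k : ℕ) (x : ℤ) :
    ∑ w ∈ wd d k, lw G χ x w * V (run G x w) / ((sites G x w).map u).prod ≤ V x := by
  induction k generalizing x with
  | zero => simp [wd, run, sites, lw]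
  | succ k ih =>
    rw [sum_wd_succ]
    simp only [run, sites, lw, List.map_cons, List.prod_cons]
    have h1 : ∀ c : Fin d, ∑ w ∈ wd d k, χ x c * lw G χ (G x c) w * V (run G (G x c) w) /
        (u x * ((sites G (G x c) w).map u).prod) ≤ χ x c * V (G x c) / u x := by
      intro c
      have h2 : ∑ w ∈ wd d k, χ x c * lw G χ (G x c) w * V (run G (G x c) w) /
          (u x * ((sites G (G x c) w).map u).prod) =
          (χ x c / u x) * ∑ w ∈ wd d k, lw G χ (G x c) w * V (run G (G x c) w) /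
            ((sites G (G x c) w).map u).prod := by
        rw [Finset.mul_sum]
        apply Finset.sum_congr rfl
        intro w _
        rw [div_mul_div_comm, mul_assoc]
      rw [h2]
      calc (χ x c / u x) * ∑ w ∈ wd d k, lw G χ (G x c) w * V (run G (G x c) w) /
            ((sites G (G x c) w).map u).prod ≤ (χ x c / u x) * V (G x c) :=
            mul_le_mul_of_nonneg_left (ih _) (div_pos (hχ _ _) (hu _)).le
        _ = _ := by ring
    refine (Finset.sum_le_sum (fun c _ => h1 c)).trans ?_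
    rw [← Finset.sum_div, div_le_iff₀ (hu x), mul_comm]
    exact h x

/-- the weight function used in the exponential functional -/
noncomputable def uw (G : ℤ → Fin d → ℤ) (χ : ℤ → Fin d → ℝ) (V : ℤ → ℝ) (κ : ℝ) (x : ℤ) : ℝ :=
  max κ ((∑ c, χ x c * V (G x c)) / V x)

theorem uw_spec (G : ℤ → Fin d → ℤ) (χ : ℤ → Fin d → ℝ) (V : ℤ → ℝ) (κ : ℝ) (hV : ∀ x, 0 < V x)
    (x : ℤ) : ∑ c, χ x c * V (G x c) ≤ uw G χ V κ x * V x := by
  have h1 : (∑ c, χ x c * V (G x c)) / V x ≤ uw G χ V κ x := le_max_right _ _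
  rwa [div_le_iff₀ (hV x)] at h1

theorem uw_pos (G : ℤ → Fin d → ℤ) (χ : ℤ → Fin d → ℝ) (V : ℤ → ℝ) {κ : ℝ} (hκ : 0 < κ) (x : ℤ) :
    0 < uw G χ V κ x := lt_max_of_lt_left hκ

theorem uw_good (G : ℤ → Fin d → ℤ) (χ : ℤ → Fin d → ℝ) (V : ℤ → ℝ) (κ : ℝ) (hV : ∀ x, 0 < V x)
    {x : ℤ} (h : ∑ c, χ x c * V (G x c) ≤ κ * V x) : uw G χ V κ x = κ := by
  apply max_eq_left
  rwa [div_le_iff₀ (hV x)]

/-- words all of whose sites are good -/
theorem good_sum_lw (G : ℤ → Fin d → ℤ) (χ : ℤ → Fin d → ℝ) (hχ : ∀ x c, 0 < χ x c) (V : ℤ → ℝ)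
    {κ : ℝ} (hκ : 0 < κ) (hV : ∀ x, 0 < V x)
    (g : ℤ → Prop) (h : ∀ x, g x → ∑ c, χ x c * V (G x c) ≤ κ * V x) (k : ℕ) (x : ℤ)
    (Q : List (Fin d) → Prop) [DecidablePred Q] (hQ : ∀ w, Q w → ∀ s ∈ sites G x w, g s) :
    ∑ w ∈ (wd d k).filter Q, lw G χ x w * V (run G x w) ≤ κ ^ k * V x := by
  have h1 := master_lw G χ hχ V (uw G χ V κ) (uw_pos G χ V hκ) (uw_spec G χ V κ hV) k x
  have h2 : ∑ w ∈ (wd d k).filter Q, lw G χ x w * V (run G x w) / κ ^ k ≤ V x := by
    refine le_trans ?_ h1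
    calc ∑ w ∈ (wd d k).filter Q, lw G χ x w * V (run G x w) / κ ^ k
        = ∑ w ∈ (wd d k).filter Q, lw G χ x w * V (run G x w) /
            ((sites G x w).map (uw G χ V κ)).prod := by
          apply Finset.sum_congr rfl
          intro w hw
          rw [mem_filter] at hw
          congr 1
          rw [List.map_congr_left (g := fun _ => κ)
            (fun s hs => uw_good G χ V κ hV (h s (hQ w hw.2 s hs)))]
          rw [List.map_const', List.prod_replicate, length_sites, mem_wd.1 hw.1]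
      _ ≤ _ := by
          apply Finset.sum_le_sum_of_subset_of_nonneg (filter_subset _ _)
          intro w _ _
          apply div_nonneg (mul_pos (lw_pos G χ hχ _ _) (hV _)).le
          apply List.prod_nonneg
          intro y hy
          rw [List.mem_map] at hy
          obtain ⟨s, _, rfl⟩ := hy
          exact (uw_pos G χ V hκ s).le
  rw [← Finset.sum_div, div_le_iff₀ (by positivity)] at h2
  linarith

/-- the constant in the next bound -/
noncomputable def cW (G : ℤ → Fin d → ℤ) (χ : ℤ → Fin d → ℝ) (V : ℤ → ℝ) (κ : ℝ)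
    (A : Finset ℤ) : ℝ :=
  ∏ s ∈ A, (uw G χ V κ s / κ)

theorem cW_ge (G : ℤ → Fin d → ℤ) (χ : ℤ → Fin d → ℝ) (V : ℤ → ℝ) {κ : ℝ} (hκ : 0 < κ)
    (A : Finset ℤ) : 1 ≤ cW G χ V κ A := by
  apply one_le_prod_real
  intro s
  rw [le_div_iff₀ hκ, one_mul]
  exact le_max_left _ _

/-- words with distinct sites, the bad sites lying in a finite set -/
theorem nodup_sum_lw (G : ℤ → Fin d → ℤ) (χ : ℤ → Fin d → ℝ) (hχ : ∀ x c, 0 < χ x c) (V : ℤ → ℝ)
    {κ : ℝ} (hκ : 0 < κ) (hV : ∀ x, 0 < V x)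
    (A : Finset ℤ) (h : ∀ x, x ∉ A → ∑ c, χ x c * V (G x c) ≤ κ * V x) (k : ℕ) (x : ℤ)
    (Q : List (Fin d) → Prop) [DecidablePred Q] (hQ : ∀ w, Q w → (sites G x w).Nodup) :
    ∑ w ∈ (wd d k).filter Q, lw G χ x w * V (run G x w) ≤ cW G χ V κ A * κ ^ k * V x := by
  have h1 := master_lw G χ hχ V (uw G χ V κ) (uw_pos G χ V hκ) (uw_spec G χ V κ hV) k x
  have hc := cW_ge G χ V hκ A
  have h2 : ∑ w ∈ (wd d k).filter Q, lw G χ x w * V (run G x w) / (cW G χ V κ A * κ ^ k) ≤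
      V x := by
    refine le_trans ?_ h1
    refine le_trans (Finset.sum_le_sum (g := fun w =>
      lw G χ x w * V (run G x w) / ((sites G x w).map (uw G χ V κ)).prod) ?_) ?_
    · intro w hw
      rw [mem_filter] at hw
      have h3 := prod_nodup_le (uw G χ V κ) hκ (fun x => le_max_left _ _) A
        (fun x hx => uw_good G χ V κ hV (h x hx)) (sites G x w) (hQ w hw.2)
      rw [length_sites, mem_wd.1 hw.1] at h3
      apply div_le_div_of_nonneg_left (mul_pos (lw_pos G χ hχ _ _) (hV _)).le _ h3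
      apply List.prod_pos
      intro y hy
      rw [List.mem_map] at hy
      obtain ⟨s, _, rfl⟩ := hy
      exact uw_pos G χ V hκ s
    · apply Finset.sum_le_sum_of_subset_of_nonneg (filter_subset _ _)
      intro w _ _
      apply div_nonneg (mul_pos (lw_pos G χ hχ _ _) (hV _)).le
      apply List.prod_nonneg
      intro y hy
      rw [List.mem_map] at hy
      obtain ⟨s, _, rfl⟩ := hy
      exact (uw_pos G χ V hκ s).le
  rw [← Finset.sum_div, div_le_iff₀ (by positivity)] at h2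
  linarith

/-- slopes and weights, up to a permutation depending on the place -/
def SlopesW (G : ℤ → Fin d → ℤ) (χ : ℤ → Fin d → ℝ) (a lam : Fin d → ℝ) (B : ℝ) : Prop :=
  ∀ x, ∃ σ : Equiv.Perm (Fin d), ∀ c, |(|(G x c : ℝ)| - a (σ c) * |(x : ℝ)|)| ≤ B ∧
    χ x c = lam (σ c)

/-- **Drift.** -/
theorem driftW (G : ℤ → Fin d → ℤ) (χ : ℤ → Fin d → ℝ) (a lam : Fin d → ℝ) (B : ℝ)
    (hG : SlopesW G χ a lam B) (ha : ∀ i, 0 < a i) (hl : ∀ i, 0 < lam i) (s κ : ℝ)
    (hκ : ∑ i, lam i * a i ^ s < κ) :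
    ∃ N : ℕ, ∀ x : ℤ, (N : ℤ) < |x| → ∑ c, χ x c * VV s (G x c) ≤ κ * VV s x := by
  have h1 : Tendsto (fun t : ℝ => ∑ i, lam i * max (((1 + a i * t + B) / (1 + t)) ^ s)
      (((1 + a i * t + (-B)) / (1 + t)) ^ s)) atTop
      (𝓝 (∑ i, lam i * max (a i ^ s) (a i ^ s))) := by
    apply tendsto_finsetSum
    intro i _
    exact ((tends_ratio (ha i) B s).max (tends_ratio (ha i) (-B) s)).const_mul _
  simp only [max_self] at h1
  have h2 : ∀ᶠ t : ℝ in atTop, ∑ i, lam i * max (((1 + a i * t + B) / (1 + t)) ^ s)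
      (((1 + a i * t + (-B)) / (1 + t)) ^ s) < κ := h1.eventually (gt_mem_nhds hκ)
  have h3 : ∀ᶠ t : ℝ in atTop, ∀ i, 0 < 1 + a i * t + (-B) := by
    rw [eventually_all]
    intro i
    have : Tendsto (fun t : ℝ => a i * t) atTop atTop := tendsto_id.const_mul_atTop (ha i)
    filter_upwards [this.eventually_gt_atTop B] with t ht
    linarith
  obtain ⟨t₀, ht₀⟩ := eventually_atTop.1 ((h2.and h3).and (eventually_ge_atTop (0 : ℝ)))
  refine ⟨⌈t₀⌉₊, fun x hx => ?_⟩
  have hxR : t₀ ≤ |(x : ℝ)| := by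
    have h4 : t₀ ≤ (⌈t₀⌉₊ : ℝ) := Nat.le_ceil _
    have h5 : ((⌈t₀⌉₊ : ℤ) : ℝ) < ((|x| : ℤ) : ℝ) := by exact_mod_cast hx
    push_cast at h5
    linarith
  obtain ⟨⟨h4, h5⟩, h6⟩ := ht₀ _ hxR
  obtain ⟨σ, hσ⟩ := hG x
  set F : Fin d → ℝ := fun i => lam i * max (((1 + a i * |(x : ℝ)| + B) / (1 + |(x : ℝ)|)) ^ s)
      (((1 + a i * |(x : ℝ)| + (-B)) / (1 + |(x : ℝ)|)) ^ s) with hF
  have h7 : ∀ c, χ x c * VV s (G x c) ≤ F (σ c) * VV s x := by
    intro c
    have h8 := abs_le.1 (hσ c).1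
    have h9 := h5 (σ c)
    have h10 : (0 : ℝ) < 1 + |(x : ℝ)| := by positivity
    have hp1 : 0 ≤ (1 + a (σ c) * |(x : ℝ)| + B) := by linarith
    rw [(hσ c).2, hF]
    simp only
    rw [mul_assoc]
    apply mul_le_mul_of_nonneg_left _ (hl _).le
    rw [max_mul_of_nonneg _ _ (VV_pos s x).le]
    rcases le_total 0 s with hs | hs
    · apply le_max_of_le_left
      unfold VV
      rw [← Real.mul_rpow (by positivity) h10.le, div_mul_cancel₀ _ h10.ne']
      apply Real.rpow_le_rpow (by positivity) _ hs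
      linarith
    · apply le_max_of_le_right
      unfold VV
      rw [← Real.mul_rpow (by positivity) h10.le, div_mul_cancel₀ _ h10.ne']
      apply Real.rpow_le_rpow_of_nonpos h9 _ hs
      linarith
  calc ∑ c, χ x c * VV s (G x c) ≤ ∑ c, F (σ c) * VV s x := Finset.sum_le_sum (fun c _ => h7 c)
    _ = (∑ i, F i) * VV s x := by
        rw [← Finset.sum_mul]
        congr 1
        exact Equiv.sum_comp σ F
    _ ≤ κ * VV s x := mul_le_mul_of_nonneg_right h4.le (VV_pos s x).le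

end Pool.Agent.Q205.RP
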