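import Mathlib
import Pool.Agent.Q205.RP.Weighted

/-!
# The number of multiplications along a trajectory of the perturbed `3x+1` map: two tails
-/

set_option autoImplicit false

open MeasureTheory Finset Filter Topology

namespace Pool.Agent.Q205.RP

/-- the `3x+1` map as a map with letters -/
def G3 (x : ℤ) (c : Fin 2) : ℤ := tab 3 1 (x + ((c : ℕ) : ℤ))

/-- the number of multiplications along a word -/
def odds : ℤ → List (Fin 2) → ℕ
  | _, [] => 0
  | x, c :: w => (if (x + ((c : ℕ) : ℤ)) % 2 = 0 then 0 else 1) + odds (G3 x c) w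

/-- the letter weights -/
noncomputable def chi (l : ℝ) (x : ℤ) (c : Fin 2) : ℝ :=
  if (x + ((c : ℕ) : ℤ)) % 2 = 0 then 1 else l

theorem chi_pos {l : ℝ} (hl : 0 < l) (x : ℤ) (c : Fin 2) : 0 < chi l x c := by
  unfold chi
  split_ifs
  · exact one_pos
  · exact hl

theorem lw_chi (l : ℝ) (x : ℤ) (w : List (Fin 2)) : lw G3 (chi l) x w = l ^ odds x w := by
  induction w generalizing x with
  | nil => simp [lw, odds]
  | cons c w ih =>
    unfold lw odds
    rw [ih, pow_add]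
    congr 1
    unfold chi
    split_ifs <;> simp

theorem two_G3_even {x : ℤ} {c : Fin 2} (h : (x + ((c : ℕ) : ℤ)) % 2 = 0) :
    2 * G3 x c = x + ((c : ℕ) : ℤ) := by
  unfold G3 tab
  rw [if_pos h]
  omega

theorem two_G3_odd {x : ℤ} {c : Fin 2} (h : ¬ (x + ((c : ℕ) : ℤ)) % 2 = 0) :
    2 * G3 x c = 3 * (x + ((c : ℕ) : ℤ)) + 1 := by
  unfold G3 tab
  rw [if_neg h]
  omega

theorem slopesW_G3 (l : ℝ) : SlopesW G3 (chi l) ![1 / 2, 3 / 2] ![1, l] 2 := by
  have hE : ∀ (x : ℤ) (c : Fin 2), (x + ((c : ℕ) : ℤ)) % 2 = 0 →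
      |(|(G3 x c : ℝ)| - 1 / 2 * |(x : ℝ)|)| ≤ 2 ∧ chi l x c = 1 := by
    intro x c h
    refine ⟨?_, by unfold chi; rw [if_pos h]⟩
    have h1 := two_G3_even h
    have h2 : (2 : ℝ) * (G3 x c : ℝ) = x + ((c : ℕ) : ℝ) := by exact_mod_cast h1
    have hc0 : (0 : ℝ) ≤ ((c : ℕ) : ℝ) := Nat.cast_nonneg _
    have hc1 : ((c : ℕ) : ℝ) ≤ 1 := by
      have := c.2
      exact_mod_cast (by omega : (c : ℕ) ≤ 1)
    have h3 : 1 / 2 * |(x : ℝ)| = |(x : ℝ) / 2| := by
      rw [abs_div, abs_of_pos (show (0 : ℝ) < 2 by norm_num)]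
      ring
    rw [h3]
    refine (abs_abs_sub_abs_le _ _).trans ?_
    rw [abs_le]
    constructor <;> linarith
  have hO : ∀ (x : ℤ) (c : Fin 2), ¬ (x + ((c : ℕ) : ℤ)) % 2 = 0 →
      |(|(G3 x c : ℝ)| - 3 / 2 * |(x : ℝ)|)| ≤ 2 ∧ chi l x c = l := by
    intro x c h
    refine ⟨?_, by unfold chi; rw [if_neg h]⟩
    have h1 := two_G3_odd h
    have h2 : (2 : ℝ) * (G3 x c : ℝ) = 3 * (x + ((c : ℕ) : ℝ)) + 1 := by exact_mod_cast h1
    have hc0 : (0 : ℝ) ≤ ((c : ℕ) : ℝ) := Nat.cast_nonneg _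
    have hc1 : ((c : ℕ) : ℝ) ≤ 1 := by
      have := c.2
      exact_mod_cast (by omega : (c : ℕ) ≤ 1)
    have h3 : 3 / 2 * |(x : ℝ)| = |3 / 2 * (x : ℝ)| := by
      rw [abs_mul, abs_of_pos (show (0 : ℝ) < 3 / 2 by norm_num)]
    rw [h3]
    refine (abs_abs_sub_abs_le _ _).trans ?_
    rw [abs_le]
    constructor <;> linarith
  intro x
  rcases Int.emod_two_eq_zero_or_one x with hx | hx
  · refine ⟨Equiv.refl _, fun c => ?_⟩
    fin_cases c
    · simpa using hE x 0 (by simpa using hx)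
    · have := hO x 1 (by
        simp only [Fin.isValue, Fin.val_one, Nat.cast_one]
        omega)
      simpa using this
  · refine ⟨Equiv.swap 0 1, fun c => ?_⟩
    fin_cases c
    · have := hO x 0 (by
        simp only [Fin.isValue, Fin.val_zero, Nat.cast_zero, add_zero]
        omega)
      simpa using this
    · have := hE x 1 (by
        simp only [Fin.isValue, Fin.val_one, Nat.cast_one]
        omega)
      simpa using this

/-- a union of events with geometrically decreasing bounds -/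
theorem union_geom {Ω : Type*} [MeasurableSpace Ω] {μ : Measure Ω} (E : ℕ → Set Ω) {r B : ℝ}
    (hr0 : 0 ≤ r) (hr1 : r < 1) (hB : 0 ≤ B) (h : ∀ t, μ (E t) ≤ ENNReal.ofReal (r ^ t * B)) :
    μ (⋃ t, E t) ≤ ENNReal.ofReal ((1 - r)⁻¹ * B) := by
  refine (measure_iUnion_le _).trans ((ENNReal.tsum_le_tsum h).trans (le_of_eq ?_))
  have hsum : Summable (fun t : ℕ => r ^ t * B) :=
    (summable_geometric_of_lt_one hr0 hr1).mul_right _
  rw [← ENNReal.ofReal_tsum_of_nonneg (fun n => by positivity) hsum, tsum_mul_right,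
    tsum_geometric_of_lt_one hr0 hr1]

theorem log43_pos : 0 < Real.log (4 / 3) := Real.log_pos (by norm_num)

theorem exp_mul_log {l x : ℝ} (hx : 0 < x) : Real.exp (l * Real.log x) = x ^ l := by
  rw [Real.rpow_def_of_pos hx, mul_comm]

/-- **Upper tail.** -/
theorem upper_le {L : ℝ} (hL : 1 / Real.log (4 / 3) < L) :
    ∃ C δ : ℝ, 0 < C ∧ 0 < δ ∧ δ ≤ 1 ∧ ∀ x : ℤ,
      P 2 {ω | ∃ t, (sites G3 x (word G3 ω x t)).Nodup ∧
        L * Real.log (2 + |(x : ℝ)|) ≤ odds x (word G3 ω x t)} ≤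
      ENNReal.ofReal (C * VV (-δ) x) := by
  classical
  have hl43 := log43_pos
  have hL0 : 0 < L := lt_trans (by positivity) hL
  obtain ⟨a, ha1, ha2⟩ : ∃ a : ℝ, 1 / L < a ∧ a < Real.log (4 / 3) := by
    apply _root_.exists_between
    rw [div_lt_iff₀ hL0]
    rw [div_lt_iff₀ hl43] at hL
    linarith
  have ha0 : 0 < a := lt_trans (by positivity) ha1
  have haL : 1 < a * L := by
    rw [div_lt_iff₀ hL0] at ha1
    exact ha1
  have hexp : Real.exp a < 4 / 3 := by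
    rw [← Real.exp_log (show (0 : ℝ) < 4 / 3 by norm_num)]
    exact Real.exp_lt_exp.2 ha2
  have hea := Real.exp_pos a
  obtain ⟨s, hs0, hs1, hs⟩ := exists_exponent (d := 2) ![1 / 2, 3 / 2 * Real.exp a] (fun i => by
    fin_cases i
    · simp
    · simp only [Fin.mk_one, Fin.isValue, Matrix.cons_val_one, Matrix.cons_val_fin_one]
      positivity) (by
    rw [Fin.prod_univ_two]
    simp only [Fin.isValue, Matrix.cons_val_zero, Matrix.cons_val_one, Matrix.cons_val_fin_one]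
    linarith)
  rw [Fin.sum_univ_two] at hs
  simp only [Fin.isValue, Matrix.cons_val_zero, Matrix.cons_val_one, Matrix.cons_val_fin_one,
    Nat.cast_ofNat] at hs
  set l : ℝ := Real.exp (a * s) with hl
  have hl0 : 0 < l := Real.exp_pos _
  have hl1 : 1 ≤ l := Real.one_le_exp (by positivity)
  have hlw : ∑ i : Fin 2, (![1, l] : Fin 2 → ℝ) i * (![1 / 2, 3 / 2] : Fin 2 → ℝ) i ^ s < 2 := by
    rw [Fin.sum_univ_two]
    simp only [Fin.isValue, Matrix.cons_val_zero, Matrix.cons_val_one, Matrix.cons_val_fin_one,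
      one_mul]
    have h1 : l * (3 / 2 : ℝ) ^ s = (3 / 2 * Real.exp a) ^ s := by
      rw [Real.mul_rpow (by norm_num) hea.le, hl, ← Real.exp_mul]
      ring
    rw [h1]
    exact hs
  obtain ⟨κ, hκ1, hκ2⟩ := exists_between hlw
  have hκ0 : 0 < κ := lt_trans (by
    rw [Fin.sum_univ_two]
    simp only [Fin.isValue, Matrix.cons_val_zero, Matrix.cons_val_one, Matrix.cons_val_fin_one]
    positivity) hκ1
  obtain ⟨N, hN⟩ := driftW G3 (chi l) _ _ 2 (slopesW_G3 l) (fun i => by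
    fin_cases i <;> simp) (fun i => by
    fin_cases i
    · simp
    · simpa using hl0) s κ hκ1
  set c := cW G3 (chi l) (VV s) κ (ball N) with hc
  have hc0 : 0 < c := lt_of_lt_of_le one_pos (cW_ge _ _ _ hκ0 _)
  have hr : 0 < (1 - κ / 2)⁻¹ := inv_pos.2 (by linarith)
  set δ' : ℝ := s * (a * L - 1) with hδ'
  have hδ'0 : 0 < δ' := mul_pos hs0 (by linarith)
  refine ⟨(1 - κ / 2)⁻¹ * c, min δ' 1, by positivity, lt_min hδ'0 one_pos, min_le_right _ _,
    fun x => ?_⟩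
  have hx2 : (0 : ℝ) < 2 + |(x : ℝ)| := by positivity
  have hx1 : (1 : ℝ) ≤ 2 + |(x : ℝ)| := by linarith [abs_nonneg (x : ℝ)]
  have hlim : c * (VV s x * (2 + |(x : ℝ)|) ^ (-(a * s * L))) ≤ c * VV (-(min δ' 1)) x := by
    apply mul_le_mul_of_nonneg_left _ hc0.le
    calc VV s x * (2 + |(x : ℝ)|) ^ (-(a * s * L))
        ≤ (2 + |(x : ℝ)|) ^ s * (2 + |(x : ℝ)|) ^ (-(a * s * L)) := by
          apply mul_le_mul_of_nonneg_right _ (by positivity)
          unfold VV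
          exact Real.rpow_le_rpow (by positivity) (by linarith) hs0.le
      _ = (2 + |(x : ℝ)|) ^ (-δ') := by
          rw [← Real.rpow_add hx2]
          congr 1
          rw [hδ']
          ring
      _ ≤ (2 + |(x : ℝ)|) ^ (-(min δ' 1)) :=
          Real.rpow_le_rpow_of_exponent_le hx1 (neg_le_neg (min_le_left _ _))
      _ ≤ VV (-(min δ' 1)) x := by
          unfold VV
          apply Real.rpow_le_rpow_of_nonpos (by positivity) (by linarith)
          have := lt_min hδ'0 one_pos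
          linarith
  have hcover : {ω | ∃ t, (sites G3 x (word G3 ω x t)).Nodup ∧
        L * Real.log (2 + |(x : ℝ)|) ≤ odds x (word G3 ω x t)} =
      ⋃ t : ℕ, {ω | (sites G3 x (word G3 ω x t)).Nodup ∧
        L * Real.log (2 + |(x : ℝ)|) ≤ odds x (word G3 ω x t)} := by
    ext ω
    simp
  rw [hcover]
  refine (union_geom (μ := P 2) (fun t : ℕ => {ω | (sites G3 x (word G3 ω x t)).Nodup ∧
        L * Real.log (2 + |(x : ℝ)|) ≤ odds x (word G3 ω x t)}) (r := κ / 2)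
        (B := c * VV (-(min δ' 1)) x) (by positivity)
    (by linarith) (by have := VV_pos (-(min δ' 1)) x; positivity) ?_).trans (le_of_eq (by ring_nf))
  intro t
  apply meas_le_real G3 x t (fun w => L * Real.log (2 + |(x : ℝ)|) ≤ odds x w)
  have h1 := nodup_sum_lw G3 (chi l) (chi_pos hl0) (VV s) hκ0 (VV_pos s) (ball N)
    (fun y hy => by
      rw [mem_ball, not_le] at hy
      exact hN y hy) t x
    (fun w => (sites G3 x w).Nodup ∧ L * Real.log (2 + |(x : ℝ)|) ≤ odds x w) (fun w hw => hw.1)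
  have h2 : ((((wd 2 t).filter (fun w => (sites G3 x w).Nodup ∧
      L * Real.log (2 + |(x : ℝ)|) ≤ odds x w)).card : ℕ) : ℝ) * (2 + |(x : ℝ)|) ^ (a * s * L) ≤
      ∑ w ∈ (wd 2 t).filter (fun w => (sites G3 x w).Nodup ∧
      L * Real.log (2 + |(x : ℝ)|) ≤ odds x w), lw G3 (chi l) x w * VV s (run G3 x w) := by
    rw [← nsmul_eq_mul, ← Finset.sum_const]
    apply Finset.sum_le_sum
    intro w hw
    have hw2 := (mem_filter.1 hw).2.2
    rw [lw_chi]
    calc (2 + |(x : ℝ)|) ^ (a * s * L) = Real.exp (a * s * (L * Real.log (2 + |(x : ℝ)|))) := by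
          rw [← exp_mul_log hx2]
          ring_nf
      _ ≤ Real.exp (a * s * odds x w) := by
          apply Real.exp_le_exp.2
          exact mul_le_mul_of_nonneg_left hw2 (by positivity)
      _ = l ^ odds x w := by
          rw [hl, ← Real.exp_nat_mul]
          ring_nf
      _ ≤ l ^ odds x w * VV s (run G3 x w) :=
          le_mul_of_one_le_right (by positivity) (VV_ge hs0.le _)
  have h3 : (2 + |(x : ℝ)|) ^ (a * s * L) * (2 + |(x : ℝ)|) ^ (-(a * s * L)) = 1 := by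
    rw [← Real.rpow_add hx2]
    simp
  have h4 : ((((wd 2 t).filter (fun w => (sites G3 x w).Nodup ∧
      L * Real.log (2 + |(x : ℝ)|) ≤ odds x w)).card : ℕ) : ℝ) =
      ((((wd 2 t).filter (fun w => (sites G3 x w).Nodup ∧
      L * Real.log (2 + |(x : ℝ)|) ≤ odds x w)).card : ℕ) : ℝ) * (2 + |(x : ℝ)|) ^ (a * s * L) *
        (2 + |(x : ℝ)|) ^ (-(a * s * L)) := by
    rw [mul_assoc, h3, mul_one]
  have h5 : (0 : ℝ) < (2 + |(x : ℝ)|) ^ (-(a * s * L)) := by positivity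
  rw [h4]
  calc _ ≤ c * κ ^ t * VV s x * (2 + |(x : ℝ)|) ^ (-(a * s * L)) :=
        mul_le_mul_of_nonneg_right (h2.trans h1) h5.le
    _ = κ ^ t * (c * (VV s x * (2 + |(x : ℝ)|) ^ (-(a * s * L)))) := by ring
    _ ≤ κ ^ t * (c * VV (-(min δ' 1)) x) := mul_le_mul_of_nonneg_left hlim (by positivity)
    _ = _ := by
        rw [div_pow]
        push_cast
        field_simp

/-- **Lower tail.** -/
theorem lower_le {L : ℝ} (hL0 : 0 < L) (hL : L < 1 / Real.log (4 / 3)) :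
    ∃ (C δ ρ : ℝ) (N : ℕ), 0 < C ∧ 0 < δ ∧ δ ≤ 1 ∧ 0 < ρ ∧ ∀ x : ℤ,
      P 2 {ω | ∃ t, (∀ s ∈ sites G3 x (word G3 ω x t), N + (2 + |(x : ℝ)|) ^ ρ < |(s : ℝ)|) ∧
        (sites G3 x (word G3 ω x t)).Nodup ∧
        |(run G3 x (word G3 ω x t) : ℝ)| ≤ N + (2 + |(x : ℝ)|) ^ ρ ∧
        odds x (word G3 ω x t) ≤ L * Real.log (2 + |(x : ℝ)|)} ≤
      ENNReal.ofReal (C * VV (-δ) x) := by
  classical
  have hl43 := log43_pos
  obtain ⟨b, hb1, hb2⟩ : ∃ b : ℝ, Real.log (4 / 3) < b ∧ b < 1 / L := by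
    apply _root_.exists_between
    rw [lt_div_iff₀ hL0]
    rw [lt_div_iff₀ hl43] at hL
    linarith
  have hb0 : 0 < b := hl43.trans hb1
  have hbL : b * L < 1 := by
    rw [lt_div_iff₀ hL0] at hb2
    exact hb2
  have hexp : 4 / 3 < Real.exp b := by
    rw [← Real.exp_log (show (0 : ℝ) < 4 / 3 by norm_num)]
    exact Real.exp_lt_exp.2 hb1
  have heb := Real.exp_pos b
  obtain ⟨θ, hθ0, hθ1, hθ⟩ := exists_exponent_neg (d := 2) ![1 / 2, 3 / 2 * Real.exp b] (fun i => by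
    fin_cases i
    · simp
    · simp only [Fin.mk_one, Fin.isValue, Matrix.cons_val_one, Matrix.cons_val_fin_one]
      positivity) (by
    rw [Fin.prod_univ_two]
    simp only [Fin.isValue, Matrix.cons_val_zero, Matrix.cons_val_one, Matrix.cons_val_fin_one]
    linarith)
  rw [Fin.sum_univ_two] at hθ
  simp only [Fin.isValue, Matrix.cons_val_zero, Matrix.cons_val_one, Matrix.cons_val_fin_one,
    Nat.cast_ofNat] at hθ
  set l : ℝ := Real.exp (-(b * θ)) with hl
  have hl0 : 0 < l := Real.exp_pos _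
  have hlw : ∑ i : Fin 2, (![1, l] : Fin 2 → ℝ) i * (![1 / 2, 3 / 2] : Fin 2 → ℝ) i ^ (-θ) <
      2 := by
    rw [Fin.sum_univ_two]
    simp only [Fin.isValue, Matrix.cons_val_zero, Matrix.cons_val_one, Matrix.cons_val_fin_one,
      one_mul]
    have h1 : l * (3 / 2 : ℝ) ^ (-θ) = (3 / 2 * Real.exp b) ^ (-θ) := by
      rw [Real.mul_rpow (by norm_num) heb.le, hl, ← Real.exp_mul]
      ring_nf
    rw [h1]
    exact hθ
  obtain ⟨κ, hκ1, hκ2⟩ := exists_between hlw
  have hκ0 : 0 < κ := lt_trans (by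
    rw [Fin.sum_univ_two]
    simp only [Fin.isValue, Matrix.cons_val_zero, Matrix.cons_val_one, Matrix.cons_val_fin_one]
    positivity) hκ1
  obtain ⟨N, hN⟩ := driftW G3 (chi l) _ _ 2 (slopesW_G3 l) (fun i => by
    fin_cases i <;> simp) (fun i => by
    fin_cases i
    · simp
    · simpa using hl0) (-θ) κ hκ1
  have hr : 0 < (1 - κ / 2)⁻¹ := inv_pos.2 (by linarith)
  set ρ : ℝ := (1 - b * L) / 2 with hρ
  have hρ0 : 0 < ρ := by rw [hρ]; linarith
  have hρ1 : ρ ≤ 1 := by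
    have : 0 < b * L := mul_pos hb0 hL0
    rw [hρ]; linarith
  set C : ℝ := ((2 + N : ℝ) * 2) ^ θ with hC
  have hC0 : 0 < C := by rw [hC]; positivity
  refine ⟨(1 - κ / 2)⁻¹ * C, θ * ρ, ρ, N, by positivity, by positivity,
    mul_le_one₀ hθ1 hρ0.le hρ1, hρ0, fun x => ?_⟩
  have hx2 : (0 : ℝ) < 2 + |(x : ℝ)| := by positivity
  have hx1 : (1 : ℝ) ≤ 2 + |(x : ℝ)| := by linarith [abs_nonneg (x : ℝ)]
  set M : ℝ := N + (2 + |(x : ℝ)|) ^ ρ with hM
  have hM0 : 0 < M := by positivity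
  have hMle : 1 + M ≤ (2 + N) * (2 + |(x : ℝ)|) ^ ρ := by
    have h1 : (1 : ℝ) ≤ (2 + |(x : ℝ)|) ^ ρ := Real.one_le_rpow hx1 hρ0.le
    have h2 : (0 : ℝ) ≤ N := Nat.cast_nonneg _
    rw [hM]
    nlinarith
  have hMθ : (1 + M) ^ θ ≤ (2 + (N : ℝ)) ^ θ * (2 + |(x : ℝ)|) ^ (ρ * θ) := by
    calc (1 + M) ^ θ ≤ ((2 + N) * (2 + |(x : ℝ)|) ^ ρ) ^ θ :=
          Real.rpow_le_rpow (by positivity) hMle hθ0.le
      _ = _ := by
          rw [Real.mul_rpow (by positivity) (by positivity), ← Real.rpow_mul hx2.le]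
  have hVVle : VV (-θ) x ≤ 2 ^ θ * (2 + |(x : ℝ)|) ^ (-θ) := by
    unfold VV
    rw [Real.rpow_neg (by positivity), Real.rpow_neg (by positivity), ← div_eq_mul_inv,
      le_div_iff₀ (by positivity), inv_mul_le_iff₀ (by positivity),
      ← Real.mul_rpow (by positivity) (by norm_num)]
    apply Real.rpow_le_rpow (by positivity) _ hθ0.le
    linarith [abs_nonneg (x : ℝ)]
  have hlim : VV (-θ) x * ((2 + |(x : ℝ)|) ^ (b * θ * L) * (1 + M) ^ θ) ≤
      C * VV (-(θ * ρ)) x := by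
    calc VV (-θ) x * ((2 + |(x : ℝ)|) ^ (b * θ * L) * (1 + M) ^ θ)
        ≤ (2 ^ θ * (2 + |(x : ℝ)|) ^ (-θ)) * ((2 + |(x : ℝ)|) ^ (b * θ * L) *
          ((2 + (N : ℝ)) ^ θ * (2 + |(x : ℝ)|) ^ (ρ * θ))) := by
          apply mul_le_mul hVVle _ (by positivity) (by positivity)
          exact mul_le_mul_of_nonneg_left hMθ (by positivity)
      _ = C * ((2 + |(x : ℝ)|) ^ (-θ) * (2 + |(x : ℝ)|) ^ (b * θ * L) *
          (2 + |(x : ℝ)|) ^ (ρ * θ)) := by
          rw [hC, Real.mul_rpow (by positivity) (by norm_num)]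
          ring
      _ = C * (2 + |(x : ℝ)|) ^ (-(θ * ρ)) := by
          rw [← Real.rpow_add hx2, ← Real.rpow_add hx2]
          congr 2
          rw [hρ]
          ring
      _ ≤ C * VV (-(θ * ρ)) x := by
          apply mul_le_mul_of_nonneg_left _ hC0.le
          unfold VV
          apply Real.rpow_le_rpow_of_nonpos (by positivity) (by linarith)
          have : 0 < θ * ρ := by positivity
          linarith
  set Q : List (Fin 2) → Prop := fun w => (∀ s ∈ sites G3 x w, M < |(s : ℝ)|) ∧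
    |(run G3 x w : ℝ)| ≤ M ∧ odds x w ≤ L * Real.log (2 + |(x : ℝ)|) with hQ
  have hcover : {ω | ∃ t, (∀ s ∈ sites G3 x (word G3 ω x t), M < |(s : ℝ)|) ∧
        (sites G3 x (word G3 ω x t)).Nodup ∧ |(run G3 x (word G3 ω x t) : ℝ)| ≤ M ∧
        odds x (word G3 ω x t) ≤ L * Real.log (2 + |(x : ℝ)|)} ⊆
      ⋃ t : ℕ, {ω | (sites G3 x (word G3 ω x t)).Nodup ∧ Q (word G3 ω x t)} := by
    rintro ω ⟨t, h1, h2, h3, h4⟩
    rw [Set.mem_iUnion]
    exact ⟨t, h2, h1, h3, h4⟩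
  refine (measure_mono hcover).trans ?_
  refine (union_geom (μ := P 2) (fun t : ℕ => {ω | (sites G3 x (word G3 ω x t)).Nodup ∧
        Q (word G3 ω x t)}) (r := κ / 2)
        (B := C * VV (-(θ * ρ)) x) (by positivity)
    (by linarith) (by have := VV_pos (-(θ * ρ)) x; positivity) ?_).trans (le_of_eq (by ring_nf))
  intro t
  apply meas_le_real G3 x t Q
  have h1 := good_sum_lw G3 (chi l) (chi_pos hl0) (VV (-θ)) hκ0 (VV_pos _)
    (fun y => M < |(y : ℝ)|)
    (fun y hy => by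
      apply hN y
      have h2 : ((N : ℤ) : ℝ) < ((|y| : ℤ) : ℝ) := by
        push_cast
        have : (0 : ℝ) < (2 + |(x : ℝ)|) ^ ρ := by positivity
        rw [hM] at hy
        linarith
      exact_mod_cast h2) t x
    (fun w => (sites G3 x w).Nodup ∧ Q w) (fun w hw => hw.2.1)
  have h2 : ((((wd 2 t).filter (fun w => (sites G3 x w).Nodup ∧ Q w)).card : ℕ) : ℝ) *
      ((2 + |(x : ℝ)|) ^ (-(b * θ * L)) * (1 + M) ^ (-θ)) ≤
      ∑ w ∈ (wd 2 t).filter (fun w => (sites G3 x w).Nodup ∧ Q w),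
        lw G3 (chi l) x w * VV (-θ) (run G3 x w) := by
    rw [← nsmul_eq_mul, ← Finset.sum_const]
    apply Finset.sum_le_sum
    intro w hw
    obtain ⟨_, _, hw2, hw3⟩ := (mem_filter.1 hw).2
    rw [lw_chi]
    apply mul_le_mul
    · calc (2 + |(x : ℝ)|) ^ (-(b * θ * L)) =
          Real.exp (-(b * θ) * (L * Real.log (2 + |(x : ℝ)|))) := by
            rw [← exp_mul_log hx2]
            ring_nf
        _ ≤ Real.exp (-(b * θ) * odds x w) := by
            apply Real.exp_le_exp.2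
            have : 0 < b * θ := by positivity
            nlinarith
        _ = l ^ odds x w := by
            rw [hl, ← Real.exp_nat_mul]
            ring_nf
    · unfold VV
      apply Real.rpow_le_rpow_of_nonpos (by positivity) _ (by linarith)
      linarith
    · positivity
    · positivity
  have h3 : ((2 + |(x : ℝ)|) ^ (-(b * θ * L)) * (1 + M) ^ (-θ)) *
      ((2 + |(x : ℝ)|) ^ (b * θ * L) * (1 + M) ^ θ) = 1 := by
    have e1 : (2 + |(x : ℝ)|) ^ (-(b * θ * L)) * (2 + |(x : ℝ)|) ^ (b * θ * L) = 1 := by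
      rw [← Real.rpow_add hx2]; simp
    have e2 : (1 + M) ^ (-θ) * (1 + M) ^ θ = 1 := by
      rw [← Real.rpow_add (by positivity)]; simp
    calc _ = ((2 + |(x : ℝ)|) ^ (-(b * θ * L)) * (2 + |(x : ℝ)|) ^ (b * θ * L)) *
          ((1 + M) ^ (-θ) * (1 + M) ^ θ) := by ring
      _ = 1 := by rw [e1, e2, one_mul]
  have h5 : (0 : ℝ) < (2 + |(x : ℝ)|) ^ (b * θ * L) * (1 + M) ^ θ := by positivity
  calc ((((wd 2 t).filter (fun w => (sites G3 x w).Nodup ∧ Q w)).card : ℕ) : ℝ)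
      = ((((wd 2 t).filter (fun w => (sites G3 x w).Nodup ∧ Q w)).card : ℕ) : ℝ) *
        ((2 + |(x : ℝ)|) ^ (-(b * θ * L)) * (1 + M) ^ (-θ)) *
        ((2 + |(x : ℝ)|) ^ (b * θ * L) * (1 + M) ^ θ) := by rw [mul_assoc, h3, mul_one]
    _ ≤ κ ^ t * VV (-θ) x * ((2 + |(x : ℝ)|) ^ (b * θ * L) * (1 + M) ^ θ) :=
        mul_le_mul_of_nonneg_right (h2.trans h1) h5.le
    _ = κ ^ t * (VV (-θ) x * ((2 + |(x : ℝ)|) ^ (b * θ * L) * (1 + M) ^ θ)) := by ring
    _ ≤ κ ^ t * (C * VV (-(θ * ρ)) x) := mul_le_mul_of_nonneg_left hlim (by positivity)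
    _ = _ := by
        rw [div_pow]
        push_cast
        field_simp

end Pool.Agent.Q205.RP
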