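import Mathlib
import Pool.Agent.Q205.RP.Weighted
import Pool.Agent.Q205.RP.Height

/-!
# The `3x+1` map with its argument perturbed by a number in `{0, …, 5}`
-/

set_option autoImplicit false

open MeasureTheory Finset Filter Topology

namespace Pool.Agent.Q205.RP

/-- the `3x+1` map with six letters -/
def G6 (x : ℤ) (c : Fin 6) : ℤ := tab 3 1 (x + ((c : ℕ) : ℤ))

theorem two_G6_even {x : ℤ} {c : Fin 6} (h : (x + ((c : ℕ) : ℤ)) % 2 = 0) :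
    2 * G6 x c = x + ((c : ℕ) : ℤ) := by
  unfold G6 tab
  rw [if_pos h]
  omega

theorem two_G6_odd {x : ℤ} {c : Fin 6} (h : ¬ (x + ((c : ℕ) : ℤ)) % 2 = 0) :
    2 * G6 x c = 3 * (x + ((c : ℕ) : ℤ)) + 1 := by
  unfold G6 tab
  rw [if_neg h]
  omega

/-- sums over the six letters of a function of the parity -/
theorem sum_parity (x : ℤ) (A B : ℝ) :
    ∑ c : Fin 6, (if (x + ((c : ℕ) : ℤ)) % 2 = 0 then A else B) = 3 * A + 3 * B := by
  rw [Fin.sum_univ_six]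
  rcases Int.emod_two_eq_zero_or_one x with h | h
  · have e0 : (x + (((0 : Fin 6) : ℕ) : ℤ)) % 2 = 0 := by
      have : ((0 : Fin 6) : ℕ) = 0 := rfl
      rw [this]; omega
    have e1 : ¬ (x + (((1 : Fin 6) : ℕ) : ℤ)) % 2 = 0 := by
      have : ((1 : Fin 6) : ℕ) = 1 := rfl
      rw [this]; omega
    have e2 : (x + (((2 : Fin 6) : ℕ) : ℤ)) % 2 = 0 := by
      have : ((2 : Fin 6) : ℕ) = 2 := rfl
      rw [this]; omega
    have e3 : ¬ (x + (((3 : Fin 6) : ℕ) : ℤ)) % 2 = 0 := by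
      have : ((3 : Fin 6) : ℕ) = 3 := rfl
      rw [this]; omega
    have e4 : (x + (((4 : Fin 6) : ℕ) : ℤ)) % 2 = 0 := by
      have : ((4 : Fin 6) : ℕ) = 4 := rfl
      rw [this]; omega
    have e5 : ¬ (x + (((5 : Fin 6) : ℕ) : ℤ)) % 2 = 0 := by
      have : ((5 : Fin 6) : ℕ) = 5 := rfl
      rw [this]; omega
    rw [if_pos e0, if_neg e1, if_pos e2, if_neg e3, if_pos e4, if_neg e5]
    ring
  · have e0 : ¬ (x + (((0 : Fin 6) : ℕ) : ℤ)) % 2 = 0 := by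
      have : ((0 : Fin 6) : ℕ) = 0 := rfl
      rw [this]; omega
    have e1 : (x + (((1 : Fin 6) : ℕ) : ℤ)) % 2 = 0 := by
      have : ((1 : Fin 6) : ℕ) = 1 := rfl
      rw [this]; omega
    have e2 : ¬ (x + (((2 : Fin 6) : ℕ) : ℤ)) % 2 = 0 := by
      have : ((2 : Fin 6) : ℕ) = 2 := rfl
      rw [this]; omega
    have e3 : (x + (((3 : Fin 6) : ℕ) : ℤ)) % 2 = 0 := by
      have : ((3 : Fin 6) : ℕ) = 3 := rfl
      rw [this]; omega
    have e4 : ¬ (x + (((4 : Fin 6) : ℕ) : ℤ)) % 2 = 0 := by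
      have : ((4 : Fin 6) : ℕ) = 4 := rfl
      rw [this]; omega
    have e5 : (x + (((5 : Fin 6) : ℕ) : ℤ)) % 2 = 0 := by
      have : ((5 : Fin 6) : ℕ) = 5 := rfl
      rw [this]; omega
    rw [if_neg e0, if_pos e1, if_neg e2, if_pos e3, if_neg e4, if_pos e5]
    ring

/-- the letter weights -/
noncomputable def chi6 (l₀ l₁ : ℝ) (x : ℤ) (c : Fin 6) : ℝ :=
  if (x + ((c : ℕ) : ℤ)) % 2 = 0 then l₀ else l₁

theorem chi6_pos {l₀ l₁ : ℝ} (h₀ : 0 < l₀) (h₁ : 0 < l₁) (x : ℤ) (c : Fin 6) :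
    0 < chi6 l₀ l₁ x c := by
  unfold chi6
  split_ifs
  · exact h₀
  · exact h₁

theorem sum_chi6 (l₀ l₁ : ℝ) (x : ℤ) : ∑ c : Fin 6, chi6 l₀ l₁ x c = 3 * l₀ + 3 * l₁ :=
  sum_parity x l₀ l₁

theorem letter_bounds (c : Fin 6) : (0 : ℝ) ≤ ((c : ℕ) : ℝ) ∧ ((c : ℕ) : ℝ) ≤ 5 := by
  refine ⟨Nat.cast_nonneg _, ?_⟩
  have := c.2
  exact_mod_cast (by omega : (c : ℕ) ≤ 5)

theorem even_size {x : ℤ} {c : Fin 6} (h : (x + ((c : ℕ) : ℤ)) % 2 = 0) :
    |(|(G6 x c : ℝ)| - 1 / 2 * |(x : ℝ)|)| ≤ 8 := by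
  have h1 := two_G6_even h
  have h2 : (2 : ℝ) * (G6 x c : ℝ) = x + ((c : ℕ) : ℝ) := by exact_mod_cast h1
  obtain ⟨hc0, hc1⟩ := letter_bounds c
  have h3 : 1 / 2 * |(x : ℝ)| = |(x : ℝ) / 2| := by
    rw [abs_div, abs_of_pos (show (0 : ℝ) < 2 by norm_num)]
    ring
  rw [h3]
  refine (abs_abs_sub_abs_le _ _).trans ?_
  rw [abs_le]
  constructor <;> linarith

theorem odd_size {x : ℤ} {c : Fin 6} (h : ¬ (x + ((c : ℕ) : ℤ)) % 2 = 0) :
    |(|(G6 x c : ℝ)| - 3 / 2 * |(x : ℝ)|)| ≤ 8 := by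
  have h1 := two_G6_odd h
  have h2 : (2 : ℝ) * (G6 x c : ℝ) = 3 * (x + ((c : ℕ) : ℝ)) + 1 := by exact_mod_cast h1
  obtain ⟨hc0, hc1⟩ := letter_bounds c
  have h3 : 3 / 2 * |(x : ℝ)| = |3 / 2 * (x : ℝ)| := by
    rw [abs_mul, abs_of_pos (show (0 : ℝ) < 3 / 2 by norm_num)]
  rw [h3]
  refine (abs_abs_sub_abs_le _ _).trans ?_
  rw [abs_le]
  constructor <;> linarith

/-- **Drift** for the six letter model. -/
theorem drift6 {l₀ l₁ : ℝ} (h₀ : 0 < l₀) (h₁ : 0 < l₁) (s κ : ℝ)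
    (hκ : 3 * (l₀ * (1 / 2) ^ s + l₁ * (3 / 2) ^ s) < κ) :
    ∃ N : ℕ, ∀ x : ℤ, (N : ℤ) < |x| → ∑ c, chi6 l₀ l₁ x c * VV s (G6 x c) ≤ κ * VV s x := by
  set F : ℝ → ℝ → ℝ := fun a t => max (((1 + a * t + 8) / (1 + t)) ^ s)
      (((1 + a * t + (-8)) / (1 + t)) ^ s) with hF
  have hT : ∀ a : ℝ, 0 < a → Tendsto (F a) atTop (𝓝 (a ^ s)) := by
    intro a ha
    have := (tends_ratio ha 8 s).max (tends_ratio ha (-8) s)
    rwa [max_self] at this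
  have h1 : Tendsto (fun t : ℝ => 3 * (l₀ * F (1 / 2) t) + 3 * (l₁ * F (3 / 2) t)) atTop
      (𝓝 (3 * (l₀ * (1 / 2) ^ s) + 3 * (l₁ * (3 / 2) ^ s))) :=
    (((hT _ (by norm_num)).const_mul l₀).const_mul 3).add
      (((hT _ (by norm_num)).const_mul l₁).const_mul 3)
  have h2 := h1.eventually (gt_mem_nhds (show 3 * (l₀ * (1 / 2) ^ s) + 3 * (l₁ * (3 / 2) ^ s) < κ by
    linarith))
  obtain ⟨t₀, ht₀⟩ := eventually_atTop.1 (h2.and (eventually_gt_atTop (20 : ℝ)))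
  refine ⟨⌈t₀⌉₊, fun x hx => ?_⟩
  have hxR : t₀ ≤ |(x : ℝ)| := by
    have h4 : t₀ ≤ (⌈t₀⌉₊ : ℝ) := Nat.le_ceil _
    have h5 : ((⌈t₀⌉₊ : ℤ) : ℝ) < ((|x| : ℤ) : ℝ) := by exact_mod_cast hx
    push_cast at h5
    linarith
  obtain ⟨h4, h6⟩ := ht₀ _ hxR
  have h10 : (0 : ℝ) < 1 + |(x : ℝ)| := by positivity
  have key : ∀ (a : ℝ) (y : ℤ), 1 / 2 ≤ a → |(|(y : ℝ)| - a * |(x : ℝ)|)| ≤ 8 →
      VV s y ≤ F a |(x : ℝ)| * VV s x := by
    intro a y ha hy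
    have h8 := abs_le.1 hy
    have h9 : 0 < 1 + a * |(x : ℝ)| + (-8) := by nlinarith
    rw [hF]
    simp only
    rw [max_mul_of_nonneg _ _ (VV_pos s x).le]
    rcases le_total 0 s with hs | hs
    · apply le_max_of_le_left
      unfold VV
      rw [← Real.mul_rpow (div_nonneg (by linarith) h10.le) h10.le, div_mul_cancel₀ _ h10.ne']
      apply Real.rpow_le_rpow (by positivity) _ hs
      linarith
    · apply le_max_of_le_right
      unfold VV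
      rw [← Real.mul_rpow (div_nonneg h9.le h10.le) h10.le, div_mul_cancel₀ _ h10.ne']
      apply Real.rpow_le_rpow_of_nonpos h9 _ hs
      linarith
  calc ∑ c, chi6 l₀ l₁ x c * VV s (G6 x c)
      ≤ ∑ c : Fin 6, (if (x + ((c : ℕ) : ℤ)) % 2 = 0 then l₀ * F (1 / 2) |(x : ℝ)|
          else l₁ * F (3 / 2) |(x : ℝ)|) * VV s x := by
        apply Finset.sum_le_sum
        intro c _
        unfold chi6
        split_ifs with h
        · rw [mul_assoc]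
          exact mul_le_mul_of_nonneg_left (key _ _ le_rfl (even_size h)) h₀.le
        · rw [mul_assoc]
          exact mul_le_mul_of_nonneg_left (key _ _ (by norm_num) (odd_size h)) h₁.le
    _ = (3 * (l₀ * F (1 / 2) |(x : ℝ)|) + 3 * (l₁ * F (3 / 2) |(x : ℝ)|)) * VV s x := by
        rw [← Finset.sum_mul, sum_parity]
    _ ≤ κ * VV s x := mul_le_mul_of_nonneg_right h4.le (VV_pos s x).le

/-- the same without weights -/
theorem drift6' (s κ : ℝ) (hκ : 3 * ((1 / 2) ^ s + (3 / 2) ^ s) < κ) :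
    ∃ N : ℕ, ∀ x : ℤ, (N : ℤ) < |x| → ∑ c, VV s (G6 x c) ≤ κ * VV s x := by
  obtain ⟨N, hN⟩ := drift6 one_pos one_pos s κ (by linarith)
  refine ⟨N, fun x hx => ?_⟩
  refine le_trans (le_of_eq ?_) (hN x hx)
  apply Finset.sum_congr rfl
  intro c _
  unfold chi6
  split_ifs <;> ring

theorem rec_G6 : Rec G6 2 3 1 32 := by
  intro x c
  have hc : ((c : ℕ) : ℤ) ≤ 5 := by
    have := c.2
    omega
  have hc0 : (0 : ℤ) ≤ ((c : ℕ) : ℤ) := by positivity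
  by_cases h : (x + ((c : ℕ) : ℤ)) % 2 = 0
  · refine ⟨0, ((c : ℕ) : ℤ), ?_, by norm_num, ?_⟩
    · push_cast
      rw [two_G6_even h]
      ring
    · have h1 : |((c : ℕ) : ℤ)| ≤ 32 := by
        rw [abs_le]
        constructor <;> omega
      exact_mod_cast h1
  · refine ⟨1, 3 * ((c : ℕ) : ℤ) + 1, ?_, le_rfl, ?_⟩
    · push_cast
      rw [two_G6_odd h]
      ring
    · have h1 : |3 * ((c : ℕ) : ℤ) + 1| ≤ 32 := by
        rw [abs_le]
        constructor <;> omega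
      exact_mod_cast h1

/-- `2 ^ k` times the end of a path is `3 ^ e` times its start, up to `32 k 3 ^ k` -/
theorem run_expand6 (w : List (Fin 6)) (x : ℤ) :
    ∃ e : ℕ, |(2 : ℝ) ^ w.length * (run G6 x w : ℝ) - (3 : ℝ) ^ e * (x : ℝ)| ≤
        w.length * 32 * 3 ^ w.length := by
  have key : ∀ (w : List (Fin 6)) (x : ℤ), ∃ e : ℕ, e ≤ w.length ∧
      |(2 : ℝ) ^ w.length * (run G6 x w : ℝ) - (3 : ℝ) ^ e * (x : ℝ)| ≤
        w.length * 32 * 3 ^ w.length := by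
    intro w
    induction w with
    | nil => intro x; exact ⟨0, le_rfl, by simp [run]⟩
    | cons c w ih =>
      intro x
      obtain ⟨e₁, r, h1, h2, h3⟩ := rec_G6 x c
      obtain ⟨e₂, h4, h5⟩ := ih (G6 x c)
      refine ⟨e₂ + e₁, by simp only [List.length_cons]; omega, ?_⟩
      have h6 : (2 : ℝ) * (G6 x c : ℝ) = 3 ^ e₁ * x + r := by exact_mod_cast h1
      have hrun : run G6 x (c :: w) = run G6 (G6 x c) w := rfl
      rw [hrun, List.length_cons]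
      have h7 : (2 : ℝ) ^ (w.length + 1) * (run G6 (G6 x c) w : ℝ) - (3 : ℝ) ^ (e₂ + e₁) * x =
          2 * ((2 : ℝ) ^ w.length * (run G6 (G6 x c) w : ℝ) - 3 ^ e₂ * (G6 x c : ℝ)) +
            3 ^ e₂ * r := by
        have : (3 : ℝ) ^ e₁ * x = 2 * (G6 x c : ℝ) - r := by linarith
        have h8 : (3 : ℝ) ^ (e₂ + e₁) * x = 3 ^ e₂ * (2 * (G6 x c : ℝ) - r) := by
          rw [← this, pow_add]
          ring
        rw [h8, pow_succ]
        ring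
      rw [h7]
      refine (abs_add_le _ _).trans ?_
      rw [abs_mul, abs_mul, abs_of_pos (show (0 : ℝ) < 2 by norm_num),
        abs_of_pos (show (0 : ℝ) < 3 ^ e₂ by positivity)]
      have h8 : (3 : ℝ) ^ e₂ * |(r : ℝ)| ≤ 3 ^ w.length * 32 :=
        mul_le_mul (pow_le_pow_right₀ (by norm_num) h4) h3 (abs_nonneg _) (by positivity)
      have h9 : (0 : ℝ) < 3 ^ w.length := by positivity
      push_cast
      rw [pow_succ]
      nlinarith
  obtain ⟨e, _, h⟩ := key w x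
  exact ⟨e, h⟩

/-- a closed path of length `k ≥ 1` starts at a point of absolute value at most `192 ^ k` -/
theorem closed_len6 (x : ℤ) (w : List (Fin 6)) (hw : w ≠ []) (hrun : run G6 x w = x) :
    |(x : ℝ)| ≤ 192 ^ w.length := by
  obtain ⟨e, he⟩ := run_expand6 w x
  rw [hrun] at he
  have hk1 : 1 ≤ w.length := List.length_pos_iff.2 hw
  have hne : ((2 : ℤ) ^ w.length - 3 ^ e) ≠ 0 := by
    intro h
    have h3 : (2 : ℤ) ∣ 3 ^ e := by
      have : (3 : ℤ) ^ e = 2 ^ w.length := by linarith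
      rw [this]
      exact dvd_pow_self _ (by omega)
    have h4 := Int.prime_two.dvd_of_dvd_pow h3
    omega
  have h3 : (1 : ℝ) ≤ |((2 : ℝ) ^ w.length - 3 ^ e)| := by
    have : (1 : ℤ) ≤ |(2 : ℤ) ^ w.length - 3 ^ e| := Int.one_le_abs hne
    exact_mod_cast this
  have h4 : |(2 : ℝ) ^ w.length * x - 3 ^ e * x| = |((2 : ℝ) ^ w.length - 3 ^ e)| * |(x : ℝ)| := by
    rw [← sub_mul, abs_mul]
  rw [h4] at he
  have h5 : |(x : ℝ)| ≤ w.length * 32 * 3 ^ w.length := by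
    have := le_mul_of_one_le_left (abs_nonneg (x : ℝ)) h3
    linarith
  refine h5.trans ?_
  have h6 : (w.length : ℝ) ≤ 2 ^ w.length := by exact_mod_cast (Nat.lt_two_pow_self (n := w.length)).le
  have h7 : (32 : ℝ) ≤ 32 ^ w.length := by
    calc (32 : ℝ) = 32 ^ 1 := (pow_one _).symm
      _ ≤ 32 ^ w.length := pow_le_pow_right₀ (by norm_num) hk1
  have h8 : (192 : ℝ) ^ w.length = 2 ^ w.length * 32 ^ w.length * 3 ^ w.length := by
    rw [← mul_pow, ← mul_pow]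
    norm_num
  rw [h8]
  apply mul_le_mul_of_nonneg_right _ (by positivity)
  exact mul_le_mul h6 h7 (by norm_num) (by positivity)

/-- exponents for weighted means -/
theorem exists_exponent_w {q₀ q₁ a₀ a₁ : ℝ} (hq : q₀ + q₁ = 1) (ha₀ : 0 < a₀)
    (ha₁ : 0 < a₁) (hlog : q₀ * Real.log a₀ + q₁ * Real.log a₁ < 0) :
    ∃ s : ℝ, 0 < s ∧ s ≤ 1 ∧ q₀ * a₀ ^ s + q₁ * a₁ ^ s < 1 := by
  have h1 : HasDerivAt (fun s : ℝ => q₀ * a₀ ^ s + q₁ * a₁ ^ s)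
      (q₀ * (a₀ ^ (0 : ℝ) * Real.log a₀) + q₁ * (a₁ ^ (0 : ℝ) * Real.log a₁)) 0 :=
    ((Real.hasStrictDerivAt_const_rpow ha₀ 0).hasDerivAt.const_mul q₀).add
      ((Real.hasStrictDerivAt_const_rpow ha₁ 0).hasDerivAt.const_mul q₁)
  simp only [Real.rpow_zero, one_mul] at h1
  have h2 : Tendsto (slope (fun s : ℝ => q₀ * a₀ ^ s + q₁ * a₁ ^ s) 0) (𝓝[>] 0)
      (𝓝 (q₀ * Real.log a₀ + q₁ * Real.log a₁)) := by
    have := hasDerivAt_iff_tendsto_slope.1 h1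
    exact this.mono_left (nhdsWithin_mono _ (fun x hx => ne_of_gt hx))
  have h3 : ∀ᶠ s : ℝ in 𝓝[>] 0, slope (fun s : ℝ => q₀ * a₀ ^ s + q₁ * a₁ ^ s) 0 s < 0 :=
    h2.eventually (gt_mem_nhds hlog)
  have h4 : ∀ᶠ s : ℝ in 𝓝[>] 0, s < 1 := by
    apply mem_nhdsWithin_of_mem_nhds
    exact gt_mem_nhds one_pos
  obtain ⟨s, ⟨h5, h6⟩, h7⟩ := ((h3.and h4).and self_mem_nhdsWithin).exists
  refine ⟨s, h7, h6.le, ?_⟩
  rw [slope_def_field, sub_zero, div_neg_iff] at h5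
  have h8 : (0 : ℝ) < s := h7
  rcases h5 with ⟨_, h⟩ | ⟨h, _⟩
  · linarith
  · simp only [Real.rpow_zero, mul_one] at h
    linarith

end Pool.Agent.Q205.RP
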