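import Mathlib
import Pool.Agent.Q205.RP.Exact

/-!
# Pairs of trajectories
-/

set_option autoImplicit false

open MeasureTheory Finset Filter Topology

namespace Pool.Agent.Q205.RP

variable {d : ℕ}

theorem pair_le_real [NeZero d] (G : ℤ → Fin d → ℤ) (x x' : ℤ) (k k' : ℕ) (w w' : List (Fin d))
    (hn : (sites G x w ++ sites G x' w').Nodup) (hw : w.length = k) (hw' : w'.length = k') :
    (P d).real {ω | word G ω x k = w ∧ word G ω x' k' = w'} ≤ ((d : ℝ)⁻¹) ^ k * ((d : ℝ)⁻¹) ^ k' := by
  have h1 := pair_le G x x' k k' w w' hn hw hw'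
  have hd : (d : ENNReal)⁻¹ ≠ ⊤ := by
    have h2 := NeZero.pos d
    apply ENNReal.inv_ne_top.2
    exact_mod_cast h2.ne'
  have h2 := ENNReal.toReal_mono (ENNReal.pow_ne_top hd) h1
  rw [ENNReal.toReal_pow, ENNReal.toReal_inv, ENNReal.toReal_natCast] at h2
  rw [← pow_add]
  exact h2

/-- **Pairs.** Either the two trajectories do not meet, or the second one joins the first one. -/
theorem pair_event [NeZero d] (G : ℤ → Fin d → ℤ) (T : ℕ) (Cls Pre : ℤ → List (Fin d) → Prop)
    [∀ n, DecidablePred (Cls n)] [∀ n, DecidablePred (Pre n)]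
    (h1 : ∀ n w, Cls n w → (sites G n w).Nodup)
    (h2 : ∀ n w, Cls n w → w.length = T → ∀ j < T, Pre n (w.take j)) (n n' : ℤ) :
    (P d).real ({ω | Cls n (word G ω n T)} ∩ {ω | Cls n' (word G ω n' T)}) ≤
      (P d).real {ω | Cls n (word G ω n T)} * (P d).real {ω | Cls n' (word G ω n' T)} +
      ∑ w ∈ (wd d T).filter (Cls n), ((d : ℝ)⁻¹) ^ T * ∑ i ∈ range T, ∑ j ∈ range T,
        ((d : ℝ)⁻¹) ^ j * (((wd d j).filter (fun u => Pre n' u ∧
          run G n' u = run G n (w.take i))).card : ℝ) := by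
  classical
  set D : Finset (List (Fin d) × List (Fin d)) :=
    (((wd d T).filter (Cls n)) ×ˢ ((wd d T).filter (Cls n'))).filter
      (fun p => (sites G n p.1 ++ sites G n' p.2).Nodup) with hD
  set J : List (Fin d) → ℕ → ℕ → Finset (List (Fin d)) := fun w i j =>
    (wd d j).filter (fun u => (Pre n' u ∧ run G n' u = run G n (w.take i)) ∧
      (sites G n w ++ sites G n' u).Nodup) with hJ
  have hcover : ({ω : ℤ → Fin d | Cls n (word G ω n T)} ∩ {ω | Cls n' (word G ω n' T)}) ⊆
      (⋃ p ∈ D, {ω | word G ω n T = p.1 ∧ word G ω n' T = p.2}) ∪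
      (⋃ w ∈ (wd d T).filter (Cls n), ⋃ i ∈ range T, ⋃ j ∈ range T, ⋃ u ∈ J w i j,
        {ω | word G ω n T = w ∧ word G ω n' j = u}) := by
    rintro ω ⟨hω1, hω2⟩
    simp only [Set.mem_ofPred_eq] at hω1 hω2
    set f := Tn G ω with hf
    set w := word G ω n T with hw
    set w' := word G ω n' T with hw'
    have hwl : w.length = T := length_word G ω n T
    have hwl' : w'.length = T := length_word G ω n' T
    have hwm : w ∈ (wd d T).filter (Cls n) := mem_filter.2 ⟨mem_wd.2 hwl, hω1⟩
    have hnd := h1 n w hω1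
    have hnd' := h1 n' w' hω2
    by_cases hmeet : ∃ j, j < T ∧ f^[j] n' ∈ sites G n w
    · right
      set j := Nat.find hmeet with hj
      obtain ⟨hjT, hjm⟩ := Nat.find_spec hmeet
      rw [← hj] at hjT hjm
      have hmin : ∀ a < j, f^[a] n' ∉ sites G n w := by
        intro a ha hc
        exact Nat.find_min hmeet ha ⟨by omega, hc⟩
      rw [hw, sites_word, List.mem_map] at hjm
      obtain ⟨i, hi, hij⟩ := hjm
      rw [List.mem_range] at hi
      simp only [Set.mem_iUnion, exists_prop]
      have htk : w.take i = word G ω n i := by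
        rw [hw, show T = i + (T - i) by omega, word_take]
      have htk' : w'.take j = word G ω n' j := by
        rw [hw', show T = j + (T - j) by omega, word_take]
      refine ⟨w, hwm, i, Finset.mem_range.2 hi, j, Finset.mem_range.2 hjT, word G ω n' j, ?_,
        rfl, rfl⟩
      rw [hJ]
      simp only [mem_filter]
      refine ⟨mem_wd.2 (length_word G ω n' j), ⟨?_, ?_⟩, ?_⟩
      · rw [← htk']
        exact h2 n' w' hω2 hwl' j hjT
      · rw [htk, run_word, run_word]
        exact hij.symm
      · rw [List.nodup_append]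
        refine ⟨hnd, ?_, ?_⟩
        · rw [nodup_iff]
          intro a ha b hb hab
          exact (nodup_iff G ω n' T).1 hnd' a (by omega) b (by omega) hab
        · intro s hs s' hs' hss
          rw [sites_word, List.mem_map] at hs'
          obtain ⟨a, ha, hs'⟩ := hs'
          rw [List.mem_range] at ha
          apply hmin a ha
          rw [hs', ← hss]
          exact hs
    · left
      simp only [Set.mem_iUnion, exists_prop]
      refine ⟨(w, w'), ?_, rfl, rfl⟩
      rw [hD, mem_filter, mem_product]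
      refine ⟨⟨hwm, mem_filter.2 ⟨mem_wd.2 hwl', hω2⟩⟩, ?_⟩
      rw [List.nodup_append]
      refine ⟨hnd, hnd', ?_⟩
      intro s hs s' hs' hss
      simp only at hs'
      rw [hw', sites_word, List.mem_map] at hs'
      obtain ⟨a, ha, hs'⟩ := hs'
      rw [List.mem_range] at ha
      apply hmeet
      refine ⟨a, ha, ?_⟩
      rw [hs', ← hss]
      exact hs
  have hfin : ∀ s : Set (ℤ → Fin d), (P d) s ≠ ⊤ := fun s => measure_ne_top _ _
  refine (measureReal_mono hcover (hfin _)).trans ((measureReal_union_le _ _).trans ?_)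
  have hdpos : (0 : ℝ) ≤ (d : ℝ)⁻¹ := by positivity
  apply add_le_add
  · rw [event_eq G n T (Cls n) (h1 n), event_eq G n' T (Cls n') (h1 n')]
    refine (measureReal_biUnion_finset_le _ _).trans ?_
    have h3 : ∀ p ∈ D, (P d).real {ω | word G ω n T = p.1 ∧ word G ω n' T = p.2} ≤
        ((d : ℝ)⁻¹) ^ T * ((d : ℝ)⁻¹) ^ T := by
      intro p hp
      rw [hD, mem_filter, mem_product, mem_filter, mem_filter] at hp
      exact pair_le_real G n n' T T p.1 p.2 hp.2 (mem_wd.1 hp.1.1.1) (mem_wd.1 hp.1.2.1)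
    refine (Finset.sum_le_sum h3).trans ?_
    rw [Finset.sum_const, nsmul_eq_mul]
    have h4 : (D.card : ℝ) ≤ (((wd d T).filter (Cls n)).card : ℝ) *
        (((wd d T).filter (Cls n')).card : ℝ) := by
      have := Finset.card_filter_le (((wd d T).filter (Cls n)) ×ˢ ((wd d T).filter (Cls n')))
        (fun p => (sites G n p.1 ++ sites G n' p.2).Nodup)
      rw [Finset.card_product] at this
      exact_mod_cast this
    calc (D.card : ℝ) * (((d : ℝ)⁻¹) ^ T * ((d : ℝ)⁻¹) ^ T) ≤
        ((((wd d T).filter (Cls n)).card : ℝ) * (((wd d T).filter (Cls n')).card : ℝ)) *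
          (((d : ℝ)⁻¹) ^ T * ((d : ℝ)⁻¹) ^ T) :=
          mul_le_mul_of_nonneg_right h4 (by positivity)
      _ = _ := by ring
  · refine (measureReal_biUnion_finset_le _ _).trans ?_
    apply Finset.sum_le_sum
    intro w hw
    rw [mem_filter] at hw
    rw [Finset.mul_sum]
    refine (measureReal_biUnion_finset_le _ _).trans ?_
    apply Finset.sum_le_sum
    intro i _
    rw [Finset.mul_sum]
    refine (measureReal_biUnion_finset_le _ _).trans ?_
    apply Finset.sum_le_sum
    intro j _
    refine (measureReal_biUnion_finset_le _ _).trans ?_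
    have h3 : ∀ u ∈ J w i j, (P d).real {ω | word G ω n T = w ∧ word G ω n' j = u} ≤
        ((d : ℝ)⁻¹) ^ T * ((d : ℝ)⁻¹) ^ j := by
      intro u hu
      rw [hJ] at hu
      simp only [mem_filter] at hu
      exact pair_le_real G n n' T j w u hu.2.2 (mem_wd.1 hw.1) (mem_wd.1 hu.1)
    refine (Finset.sum_le_sum h3).trans ?_
    rw [Finset.sum_const, nsmul_eq_mul]
    have h4 : ((J w i j).card : ℝ) ≤ (((wd d j).filter (fun u => Pre n' u ∧
        run G n' u = run G n (w.take i))).card : ℝ) := by
      have : (J w i j).card ≤ ((wd d j).filter (fun u => Pre n' u ∧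
        run G n' u = run G n (w.take i))).card := by
        apply Finset.card_le_card
        intro u hu
        rw [hJ] at hu
        simp only [mem_filter] at hu ⊢
        exact ⟨hu.1, hu.2.1⟩
      exact_mod_cast this
    calc ((J w i j).card : ℝ) * (((d : ℝ)⁻¹) ^ T * ((d : ℝ)⁻¹) ^ j) ≤
        (((wd d j).filter (fun u => Pre n' u ∧
          run G n' u = run G n (w.take i))).card : ℝ) * (((d : ℝ)⁻¹) ^ T * ((d : ℝ)⁻¹) ^ j) :=
          mul_le_mul_of_nonneg_right h4 (by positivity)
      _ = _ := by ring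

/-- The second moment method for trajectories: `H` bounds, for every place `v` on a path of the
class, the mean number of prefixes of paths from `F` to `v`. -/
theorem some_path [NeZero d] (G : ℤ → Fin d → ℤ) (T : ℕ) (Cls Pre : ℤ → List (Fin d) → Prop)
    [∀ n, DecidablePred (Cls n)] [∀ n, DecidablePred (Pre n)]
    (h1 : ∀ n w, Cls n w → (sites G n w).Nodup)
    (h2 : ∀ n w, Cls n w → w.length = T → ∀ j < T, Pre n (w.take j)) (F : Finset ℤ) {H m : ℝ}
    (hm0 : 0 < m) (hm : ∑ n ∈ F, (((wd d T).filter (Cls n)).card : ℝ) * ((d : ℝ)⁻¹) ^ T = m)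
    (hH : ∀ n ∈ F, ∀ w ∈ (wd d T).filter (Cls n), ∀ i < T, ∑ n' ∈ F, ∑ j ∈ range T,
      ((d : ℝ)⁻¹) ^ j * (((wd d j).filter (fun u => Pre n' u ∧
          run G n' u = run G n (w.take i))).card : ℝ) ≤ H) :
    (P d).real {ω | ∀ n ∈ F, ¬ Cls n (word G ω n T)} ≤ (1 + T * H) / m := by
  classical
  set A : ℤ → Set (ℤ → Fin d) := fun n => {ω | Cls n (word G ω n T)} with hA
  have hp : ∀ n, (P d).real (A n) = (((wd d T).filter (Cls n)).card : ℝ) * ((d : ℝ)⁻¹) ^ T :=
    fun n => event_eq G n T (Cls n) (h1 n)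
  have hmA : ∑ n ∈ F, (P d).real (A n) = m := by
    rw [← hm]
    exact Finset.sum_congr rfl (fun n _ => hp n)
  have hp0 : ∀ n, 0 ≤ (P d).real (A n) := fun n => measureReal_nonneg
  have hpairs : ∑ n ∈ F, ∑ n' ∈ F, (P d).real (A n ∩ A n') ≤ m ^ 2 + m * (1 + T * H) := by
    have h3 : ∀ n ∈ F, ∑ n' ∈ F, (P d).real (A n ∩ A n') ≤
        (P d).real (A n) * m + (P d).real (A n) * (1 + T * H) := by
      intro n hn
      have h4 : ∀ n' ∈ F, (P d).real (A n ∩ A n') ≤
          (if n' = n then (P d).real (A n) else 0) + (P d).real (A n) * (P d).real (A n') +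
          ∑ w ∈ (wd d T).filter (Cls n), ((d : ℝ)⁻¹) ^ T * ∑ i ∈ range T, ∑ j ∈ range T,
            ((d : ℝ)⁻¹) ^ j * (((wd d j).filter (fun u => Pre n' u ∧
              run G n' u = run G n (w.take i))).card : ℝ) := by
        intro n' _
        have h5 := pair_event G T Cls Pre h1 h2 n n'
        have h6 : 0 ≤ (if n' = n then (P d).real (A n) else 0) := by
          split_ifs
          · exact hp0 n
          · exact le_rfl
        linarith
      refine (Finset.sum_le_sum h4).trans ?_
      rw [Finset.sum_add_distrib, Finset.sum_add_distrib, Finset.sum_ite_eq' F, if_pos hn,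
        ← Finset.mul_sum, hmA]
      have h5 : ∑ n' ∈ F, ∑ w ∈ (wd d T).filter (Cls n), ((d : ℝ)⁻¹) ^ T *
          ∑ i ∈ range T, ∑ j ∈ range T, ((d : ℝ)⁻¹) ^ j * (((wd d j).filter (fun u => Pre n' u ∧
              run G n' u = run G n (w.take i))).card : ℝ) ≤ (P d).real (A n) * (T * H) := by
        rw [Finset.sum_comm]
        have h6 : ∀ w ∈ (wd d T).filter (Cls n), ∑ n' ∈ F, ((d : ℝ)⁻¹) ^ T *
            ∑ i ∈ range T, ∑ j ∈ range T, ((d : ℝ)⁻¹) ^ j * (((wd d j).filter (fun u =>
              Pre n' u ∧ run G n' u = run G n (w.take i))).card : ℝ) ≤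
            ((d : ℝ)⁻¹) ^ T * (T * H) := by
          intro w hw
          rw [← Finset.mul_sum]
          apply mul_le_mul_of_nonneg_left _ (by positivity)
          rw [Finset.sum_comm]
          have h7 : ∀ i ∈ range T, ∑ n' ∈ F, ∑ j ∈ range T, ((d : ℝ)⁻¹) ^ j *
              (((wd d j).filter (fun u => Pre n' u ∧ run G n' u = run G n (w.take i))).card : ℝ) ≤
              H := fun i hi => hH n hn w hw i (Finset.mem_range.1 hi)
          refine (Finset.sum_le_sum h7).trans (le_of_eq ?_)
          rw [Finset.sum_const, card_range, nsmul_eq_mul]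
        refine (Finset.sum_le_sum h6).trans (le_of_eq ?_)
        rw [Finset.sum_const, nsmul_eq_mul, hp n]
        ring
      linarith
    refine (Finset.sum_le_sum h3).trans (le_of_eq ?_)
    rw [Finset.sum_add_distrib, ← Finset.sum_mul, ← Finset.sum_mul, hmA]
    ring
  have h3 := second_moment (μ := P d) F A (fun n => measurable_event G n T (Cls n)) hm0 hmA hpairs
  refine h3.trans (le_of_eq ?_)
  field_simp

end Pool.Agent.Q205.RP
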