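import Mathlib
import Pool.Agent.Q205.RP.Six
import Pool.Agent.Q205.RP.Exact

/-!
# Sums over words with tilted weights
-/

set_option autoImplicit false

open MeasureTheory Finset Filter Topology

namespace Pool.Agent.Q205.RP

variable {d : ℕ}

theorem lw_append (G : ℤ → Fin d → ℤ) (χ : ℤ → Fin d → ℝ) (x : ℤ) (u v : List (Fin d)) :
    lw G χ x (u ++ v) = lw G χ x u * lw G χ (run G x u) v := by
  induction u generalizing x with
  | nil => simp [lw, run]
  | cons c u ih => simp [lw, run, ih, mul_assoc]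

theorem lw_sum_one (G : ℤ → Fin d → ℤ) (χ : ℤ → Fin d → ℝ) (hχ : ∀ x, ∑ c, χ x c = 1) (k : ℕ)
    (x : ℤ) : ∑ w ∈ wd d k, lw G χ x w = 1 := by
  induction k generalizing x with
  | zero => simp [wd, lw]
  | succ k ih =>
    rw [sum_wd_succ]
    simp only [lw]
    rw [← hχ x]
    apply Finset.sum_congr rfl
    intro c _
    rw [← Finset.mul_sum, ih, mul_one]

/-- marginals -/
theorem lw_prefix (G : ℤ → Fin d → ℤ) (χ : ℤ → Fin d → ℝ) (hχ : ∀ x, ∑ c, χ x c = 1)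
    (R : List (Fin d) → Prop) [DecidablePred R] (i m : ℕ) (x : ℤ) :
    ∑ w ∈ wd d (i + m), (if R (w.take i) then lw G χ x w else 0) =
      ∑ u ∈ (wd d i).filter R, lw G χ x u := by
  rw [sum_wd_add, Finset.sum_filter]
  apply Finset.sum_congr rfl
  intro u hu
  have hul : u.length = i := mem_wd.1 hu
  have h1 : ∀ v, (u ++ v).take i = u := fun v => by rw [← hul, List.take_left]
  simp only [h1]
  split_ifs
  · simp only [lw_append]
    rw [← Finset.mul_sum, lw_sum_one G χ hχ, mul_one]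
  · simp

theorem sites_eq (G : ℤ → Fin d → ℤ) (x : ℤ) (w : List (Fin d)) :
    sites G x w = (List.range w.length).map (fun i => run G x (w.take i)) := by
  induction w generalizing x with
  | nil => rfl
  | cons c w ih =>
    rw [sites, ih, List.length_cons, List.range_succ_eq_map, List.map_cons, List.map_map]
    simp only [List.take_zero, run, List.cons.injEq, true_and]
    apply List.map_congr_left
    intro i _
    simp [Function.comp, run]

/-- upward violations -/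
theorem viol_up (G : ℤ → Fin d → ℤ) (χ : ℤ → Fin d → ℝ) (hχ : ∀ x c, 0 < χ x c) {s κ B : ℝ}
    (hs : 0 < s) (hκ : 0 < κ) (hB : 0 < B) (N : ℕ)
    (h : ∀ x : ℤ, (N : ℤ) < |x| → ∑ c, χ x c * VV s (G x c) ≤ κ * VV s x) (k : ℕ) (x : ℤ)
    (Q : List (Fin d) → Prop) [DecidablePred Q] (hQ : ∀ w, Q w → ∀ s ∈ sites G x w, (N : ℤ) < |s|)
    (hQ' : ∀ w, Q w → B < |(run G x w : ℝ)|) :
    ∑ w ∈ (wd d k).filter Q, lw G χ x w ≤ κ ^ k * VV s x * B ^ (-s) := by
  have h1 := good_sum_lw G χ hχ (VV s) hκ (VV_pos s) (fun y => (N : ℤ) < |y|) h k x Q hQ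
  have h2 : (∑ w ∈ (wd d k).filter Q, lw G χ x w) * B ^ s ≤
      ∑ w ∈ (wd d k).filter Q, lw G χ x w * VV s (run G x w) := by
    rw [Finset.sum_mul]
    apply Finset.sum_le_sum
    intro w hw
    apply mul_le_mul_of_nonneg_left _ (lw_pos G χ hχ x w).le
    unfold VV
    apply Real.rpow_le_rpow hB.le _ hs.le
    linarith [hQ' w (mem_filter.1 hw).2]
  have h3 : B ^ s * B ^ (-s) = 1 := by
    rw [← Real.rpow_add hB]; simp
  have h4 : (0 : ℝ) < B ^ (-s) := by positivity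
  calc ∑ w ∈ (wd d k).filter Q, lw G χ x w =
      (∑ w ∈ (wd d k).filter Q, lw G χ x w) * B ^ s * B ^ (-s) := by rw [mul_assoc, h3, mul_one]
    _ ≤ κ ^ k * VV s x * B ^ (-s) := mul_le_mul_of_nonneg_right (h2.trans h1) h4.le

/-- downward violations -/
theorem viol_low (G : ℤ → Fin d → ℤ) (χ : ℤ → Fin d → ℝ) (hχ : ∀ x c, 0 < χ x c) {s κ B : ℝ}
    (hs : 0 < s) (hκ : 0 < κ) (hB : 0 < B) (N : ℕ)
    (h : ∀ x : ℤ, (N : ℤ) < |x| → ∑ c, χ x c * VV (-s) (G x c) ≤ κ * VV (-s) x) (k : ℕ) (x : ℤ)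
    (Q : List (Fin d) → Prop) [DecidablePred Q] (hQ : ∀ w, Q w → ∀ s ∈ sites G x w, (N : ℤ) < |s|)
    (hQ' : ∀ w, Q w → |(run G x w : ℝ)| < B) :
    ∑ w ∈ (wd d k).filter Q, lw G χ x w ≤ κ ^ k * VV (-s) x * (1 + B) ^ s := by
  have h1 := good_sum_lw G χ hχ (VV (-s)) hκ (VV_pos _) (fun y => (N : ℤ) < |y|) h k x Q hQ
  have h2 : (∑ w ∈ (wd d k).filter Q, lw G χ x w) * (1 + B) ^ (-s) ≤
      ∑ w ∈ (wd d k).filter Q, lw G χ x w * VV (-s) (run G x w) := by
    rw [Finset.sum_mul]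
    apply Finset.sum_le_sum
    intro w hw
    apply mul_le_mul_of_nonneg_left _ (lw_pos G χ hχ x w).le
    unfold VV
    apply Real.rpow_le_rpow_of_nonpos (by positivity) _ (by linarith)
    linarith [hQ' w (mem_filter.1 hw).2]
  have h3 : (1 + B) ^ (-s) * (1 + B) ^ s = 1 := by
    rw [← Real.rpow_add (by linarith)]; simp
  have h4 : (0 : ℝ) < (1 + B) ^ s := by positivity
  calc ∑ w ∈ (wd d k).filter Q, lw G χ x w =
      (∑ w ∈ (wd d k).filter Q, lw G χ x w) * (1 + B) ^ (-s) * (1 + B) ^ s := by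
        rw [mul_assoc, h3, mul_one]
    _ ≤ κ ^ k * VV (-s) x * (1 + B) ^ s := mul_le_mul_of_nonneg_right (h2.trans h1) h4.le

/-- closed paths of length `m` at a place of absolute value at least `M` -/
theorem closed_lw (χ : ℤ → Fin 6 → ℝ) (hχ : ∀ x c, 0 < χ x c) {s κ τ M : ℝ}
    (hκ : 0 < κ) (hτ : 0 ≤ τ) (hM : 0 < M) (N : ℕ)
    (h : ∀ x : ℤ, (N : ℤ) < |x| → ∑ c, χ x c * VV s (G6 x c) ≤ κ * VV s x) (m : ℕ) (hm : 1 ≤ m)
    (y : ℤ) (hy : M ≤ |(y : ℝ)|) (Q : List (Fin 6) → Prop) [DecidablePred Q]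
    (hQ : ∀ w, Q w → ∀ s ∈ sites G6 y w, (N : ℤ) < |s|) (hQ' : ∀ w, Q w → run G6 y w = y) :
    ∑ w ∈ (wd 6 m).filter Q, lw G6 χ y w ≤ (κ * 192 ^ τ) ^ m * M ^ (-τ) := by
  rcases Finset.eq_empty_or_nonempty ((wd 6 m).filter Q) with h0 | ⟨w₀, hw₀⟩
  · rw [h0, Finset.sum_empty]
    positivity
  · rw [mem_filter] at hw₀
    have hlen := mem_wd.1 hw₀.1
    have h6 := closed_len6 y w₀ (by
      intro h
      rw [h] at hlen
      simp at hlen
      omega) (hQ' w₀ hw₀.2)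
    rw [hlen] at h6
    have h1 := good_sum_lw G6 χ hχ (VV s) hκ (VV_pos s) (fun y => (N : ℤ) < |y|) h m y Q hQ
    have h2 : ∑ w ∈ (wd 6 m).filter Q, lw G6 χ y w * VV s (run G6 y w) =
        (∑ w ∈ (wd 6 m).filter Q, lw G6 χ y w) * VV s y := by
      rw [Finset.sum_mul]
      apply Finset.sum_congr rfl
      intro w hw
      rw [hQ' w (mem_filter.1 hw).2]
    rw [h2] at h1
    have h3 := le_of_mul_le_mul_right h1 (VV_pos s y)
    have h4 : (1 : ℝ) ≤ (192 ^ m) ^ τ * M ^ (-τ) := by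
      rw [Real.rpow_neg hM.le, ← div_eq_mul_inv, le_div_iff₀ (by positivity), one_mul]
      exact Real.rpow_le_rpow hM.le (hy.trans h6) hτ
    have h5 : ((192 : ℝ) ^ m) ^ τ = (192 ^ τ) ^ m := by
      rw [← Real.rpow_natCast, ← Real.rpow_natCast, ← Real.rpow_mul (by norm_num),
        ← Real.rpow_mul (by norm_num), mul_comm]
    calc _ ≤ κ ^ m := h3
      _ = κ ^ m * 1 := (mul_one _).symm
      _ ≤ κ ^ m * ((192 ^ m) ^ τ * M ^ (-τ)) := mul_le_mul_of_nonneg_left h4 (by positivity)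
      _ = _ := by rw [h5, mul_pow]; ring

end Pool.Agent.Q205.RP
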