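import Mathlib
import Pool.Agent.Q205.RP.Straight
import Pool.Agent.Q205.RP.Back
import Pool.Agent.Q205.RP.Pair

/-!
# Long straight trajectories exist
-/

set_option autoImplicit false

open MeasureTheory Finset Filter Topology

namespace Pool.Agent.Q205.RP

/-- the size at the end of a path, in terms of the weights -/
theorem weight_rel {θ ρ l₀ l₁ M : ℝ} (hθ : 0 < θ) (hρ : 0 < ρ) (hl₀ : 0 < l₀) (hl₁ : 0 < l₁)
    (h0 : l₀ * ρ = (1 / 2) ^ θ / 6) (h1 : l₁ * ρ = (3 / 2) ^ θ / 6) (hM : 32 ≤ M)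
    (w : List (Fin 6)) (x : ℤ) (hs : ∀ s ∈ sites G6 x w, M ≤ |(s : ℝ)|) :
    lw G6 (chi6 l₀ l₁) x w * (ρ * (1 - 16 / M) ^ θ) ^ w.length * |(x : ℝ)| ^ θ ≤
      (1 / 6) ^ w.length * |(run G6 x w : ℝ)| ^ θ := by
  have hη : 0 ≤ 1 - 16 / M := by
    rw [sub_nonneg, div_le_one (by linarith)]
    linarith
  induction w generalizing x with
  | nil => simp [lw, run]
  | cons c w ih =>
    simp only [sites, List.mem_cons, forall_eq_or_imp] at hs
    obtain ⟨hx, hs⟩ := hs
    have h2 := ih (G6 x c) hs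
    have hx0 : 0 < |(x : ℝ)| := by linarith
    have hM16 : 16 / M * |(x : ℝ)| ≥ 16 := by
      rw [ge_iff_le, div_mul_eq_mul_div, le_div_iff₀ (by linarith)]
      nlinarith
    have key : chi6 l₀ l₁ x c * (ρ * (1 - 16 / M) ^ θ) * |(x : ℝ)| ^ θ ≤
        1 / 6 * |(G6 x c : ℝ)| ^ θ := by
      unfold chi6
      split_ifs with hp
      · have h3 := (abs_le.1 (even_size hp)).1
        have h4 : 1 / 2 * ((1 - 16 / M) * |(x : ℝ)|) ≤ |(G6 x c : ℝ)| := by nlinarith
        calc l₀ * (ρ * (1 - 16 / M) ^ θ) * |(x : ℝ)| ^ θ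
            = 1 / 6 * ((1 / 2) ^ θ * ((1 - 16 / M) ^ θ * |(x : ℝ)| ^ θ)) := by
              rw [← mul_assoc l₀, h0]; ring
          _ = 1 / 6 * (1 / 2 * ((1 - 16 / M) * |(x : ℝ)|)) ^ θ := by
              rw [Real.mul_rpow (by norm_num) (by positivity), Real.mul_rpow hη hx0.le]
          _ ≤ _ := by
              apply mul_le_mul_of_nonneg_left _ (by norm_num)
              exact Real.rpow_le_rpow (by positivity) h4 hθ.le
      · have h3 := (abs_le.1 (odd_size hp)).1
        have h4 : 3 / 2 * ((1 - 16 / M) * |(x : ℝ)|) ≤ |(G6 x c : ℝ)| := by nlinarith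
        calc l₁ * (ρ * (1 - 16 / M) ^ θ) * |(x : ℝ)| ^ θ
            = 1 / 6 * ((3 / 2) ^ θ * ((1 - 16 / M) ^ θ * |(x : ℝ)| ^ θ)) := by
              rw [← mul_assoc l₁, h1]; ring
          _ = 1 / 6 * (3 / 2 * ((1 - 16 / M) * |(x : ℝ)|)) ^ θ := by
              rw [Real.mul_rpow (by norm_num) (by positivity), Real.mul_rpow hη hx0.le]
          _ ≤ _ := by
              apply mul_le_mul_of_nonneg_left _ (by norm_num)
              exact Real.rpow_le_rpow (by positivity) h4 hθ.le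
    have hlw := (lw_pos G6 (chi6 l₀ l₁) (chi6_pos hl₀ hl₁) (G6 x c) w).le
    have hq : 0 ≤ ρ * (1 - 16 / M) ^ θ := by positivity
    simp only [lw, List.length_cons, run]
    calc chi6 l₀ l₁ x c * lw G6 (chi6 l₀ l₁) (G6 x c) w * (ρ * (1 - 16 / M) ^ θ) ^ (w.length + 1) *
          |(x : ℝ)| ^ θ
        = (lw G6 (chi6 l₀ l₁) (G6 x c) w * (ρ * (1 - 16 / M) ^ θ) ^ w.length) *
          (chi6 l₀ l₁ x c * (ρ * (1 - 16 / M) ^ θ) * |(x : ℝ)| ^ θ) := by rw [pow_succ]; ring
      _ ≤ (lw G6 (chi6 l₀ l₁) (G6 x c) w * (ρ * (1 - 16 / M) ^ θ) ^ w.length) *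
          (1 / 6 * |(G6 x c : ℝ)| ^ θ) := mul_le_mul_of_nonneg_left key (by positivity)
      _ = 1 / 6 * (lw G6 (chi6 l₀ l₁) (G6 x c) w * (ρ * (1 - 16 / M) ^ θ) ^ w.length *
          |(G6 x c : ℝ)| ^ θ) := by ring
      _ ≤ 1 / 6 * ((1 / 6) ^ w.length * |(run G6 (G6 x c) w : ℝ)| ^ θ) :=
          mul_le_mul_of_nonneg_left h2 (by norm_num)
      _ = _ := by rw [pow_succ]; ring

/-- **The probability of a straight trajectory, lower bound.** -/
theorem prob_ge {r θ ρ D ε δ' : ℝ} (hr0 : 0 < r) (hr1 : r < 1)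
    (hD : D = Real.log 2 - r * Real.log 3) (hD0 : 0 < D) (hθ : 0 < θ) (hρ : 0 < ρ)
    (h0 : (1 - r) / 3 * ρ = (1 / 2) ^ θ / 6) (h1 : r / 3 * ρ = (3 / 2) ^ θ / 6)
    (hε : 0 < ε) (hδ' : 0 < δ') :
    ∃ L₀ : ℝ, ∀ L : ℝ, L₀ ≤ L → ∀ (T : ℕ) (n : ℤ), Real.exp L ≤ |(n : ℝ)| →
      T * D + ε * L + δ' * L ≤ L → ∀ [DecidablePred (Cls D (ε * L) T n)],
      1 / 2 * (1 / 2) ^ θ * (ρ ^ T * Real.exp (θ * (T * D - ε * L))) ≤
        (((wd 6 T).filter (Cls D (ε * L) T n)).card : ℝ) * (((6 : ℕ) : ℝ)⁻¹) ^ T := by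
  obtain ⟨L₁, hL₁⟩ := tilted hr0 hr1 hD hD0 hε hδ'
  have h1r : 0 < 1 - r := by linarith
  have hl := (tendsto_mul_exp hδ').const_mul (32 / D)
  rw [mul_zero] at hl
  have hN := tendsto_id.const_mul_atTop hδ'
  obtain ⟨L₂, hL₂⟩ := eventually_atTop.1 ((hl.eventually (gt_mem_nhds one_pos)).and
    ((eventually_gt_atTop (0 : ℝ)).and (hN.eventually_gt_atTop (Real.log 32))))
  refine ⟨max L₁ L₂, fun L hL T n hn hT => ?_⟩
  intro inst
  have hmain := hL₁ L ((le_max_left _ _).trans hL) T n hn hT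
  obtain ⟨hE1, hL0, hE3⟩ := hL₂ L ((le_max_right _ _).trans hL)
  simp only [id] at hE3
  set E : ℝ := ε * L with hE
  set M : ℝ := Real.exp (δ' * L) with hM
  have hM0 : 0 < M := Real.exp_pos _
  have hM32 : 32 ≤ M := by
    have := Real.exp_lt_exp.2 hE3
    rw [Real.exp_log (by norm_num)] at this
    exact this.le
  have hnpos : 0 < |(n : ℝ)| := lt_of_lt_of_le (Real.exp_pos _) hn
  have hTD : (T : ℝ) * D ≤ L := by
    have h2 : 0 < ε * L := by positivity
    have h3 : 0 < δ' * L := by positivity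
    linarith
  have hTL : (T : ℝ) ≤ L / D := by rwa [le_div_iff₀ hD0]
  -- the loss
  have hη0 : 0 ≤ 1 - 16 / M := by
    rw [sub_nonneg, div_le_one hM0]
    linarith
  have hloss : (1 / 2 : ℝ) ≤ (1 - 16 / M) ^ T := by
    have h2 : 1 - T * (16 / M) ≤ (1 - 16 / M) ^ T := by
      have := one_add_mul_le_pow (a := -(16 / M)) (by linarith) T
      have h3 : 1 + (T : ℝ) * -(16 / M) = 1 - T * (16 / M) := by ring
      rw [h3] at this
      exact this
    have h3 : (T : ℝ) * (16 / M) ≤ 1 / 2 := by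
      have h4 : 1 / M = Real.exp (-δ' * L) := by
        rw [hM, one_div, ← Real.exp_neg]
        ring_nf
      have h5 : (T : ℝ) * (16 / M) ≤ L / D * (16 / M) :=
        mul_le_mul_of_nonneg_right hTL (by positivity)
      have h6 : L / D * (16 / M) = 1 / 2 * (32 / D * (L * Real.exp (-δ' * L))) := by
        rw [← h4]
        ring
      linarith
    linarith
  have hlossθ : (1 / 2 : ℝ) ^ θ ≤ ((1 - 16 / M) ^ θ) ^ T := by
    calc (1 / 2 : ℝ) ^ θ ≤ ((1 - 16 / M) ^ T) ^ θ :=
          Real.rpow_le_rpow (by norm_num) hloss hθ.le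
      _ = _ := by
          rw [← Real.rpow_natCast, ← Real.rpow_natCast, ← Real.rpow_mul hη0, ← Real.rpow_mul hη0,
            mul_comm]
  -- each word
  have hword : ∀ w ∈ (wd 6 T).filter (Cls D E T n),
      lw G6 (chi6 ((1 - r) / 3) (r / 3)) n w * ((1 / 2) ^ θ * (ρ ^ T *
        Real.exp (θ * (T * D - E)))) ≤ (((6 : ℕ) : ℝ)⁻¹) ^ T := by
    intro w hw
    rw [mem_filter] at hw
    have hwl : w.length = T := mem_wd.1 hw.1
    have hcls := hw.2
    have h2 := weight_rel hθ hρ (show 0 < (1 - r) / 3 by positivity)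
      (show 0 < r / 3 by positivity) h0 h1 hM32 w n (by
        intro s hs
        rw [sites_eq, List.mem_map] at hs
        obtain ⟨i, hi, rfl⟩ := hs
        rw [List.mem_range, hwl] at hi
        refine le_trans ?_ (hcls.2 i hi.le).1
        have hi' : (i : ℝ) * D ≤ T * D :=
          mul_le_mul_of_nonneg_right (by exact_mod_cast hi.le) hD0.le
        calc M ≤ Real.exp L * Real.exp (-(i * D) - E) := by
              rw [← Real.exp_add, hM]
              apply Real.exp_le_exp.2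
              linarith
          _ ≤ _ := mul_le_mul_of_nonneg_right hn (Real.exp_pos _).le)
    rw [hwl] at h2
    have h3 := (hcls.2 T le_rfl).2
    rw [← hwl, List.take_length, hwl] at h3
    have h4 : |(run G6 n w : ℝ)| ^ θ ≤ |(n : ℝ)| ^ θ * Real.exp (-(θ * (T * D - E))) := by
      calc |(run G6 n w : ℝ)| ^ θ ≤ (|(n : ℝ)| * Real.exp (-(T * D) + E)) ^ θ :=
            Real.rpow_le_rpow (abs_nonneg _) h3 hθ.le
        _ = _ := by
            rw [Real.mul_rpow hnpos.le (Real.exp_pos _).le, ← Real.exp_mul]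
            congr 2
            ring
    have hlw := (lw_pos G6 (chi6 ((1 - r) / 3) (r / 3)) (chi6_pos (by positivity)
      (by positivity)) n w).le
    have hnθ : 0 < |(n : ℝ)| ^ θ := by positivity
    have h5 : lw G6 (chi6 ((1 - r) / 3) (r / 3)) n w * (ρ ^ T * (1 / 2) ^ θ) * |(n : ℝ)| ^ θ ≤
        (1 / 6) ^ T * Real.exp (-(θ * (T * D - E))) * |(n : ℝ)| ^ θ := by
      calc _ ≤ lw G6 (chi6 ((1 - r) / 3) (r / 3)) n w * (ρ * (1 - 16 / M) ^ θ) ^ T *
            |(n : ℝ)| ^ θ := by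
            apply mul_le_mul_of_nonneg_right _ hnθ.le
            apply mul_le_mul_of_nonneg_left _ hlw
            rw [mul_pow]
            exact mul_le_mul_of_nonneg_left hlossθ (by positivity)
        _ ≤ _ := h2
        _ ≤ (1 / 6) ^ T * (|(n : ℝ)| ^ θ * Real.exp (-(θ * (T * D - E)))) :=
            mul_le_mul_of_nonneg_left h4 (by positivity)
        _ = _ := by ring
    have h6 := le_of_mul_le_mul_right h5 hnθ
    have h7 : Real.exp (-(θ * (T * D - E))) * Real.exp (θ * (T * D - E)) = 1 := by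
      rw [← Real.exp_add]
      simp
    have h8 : (((6 : ℕ) : ℝ)⁻¹) ^ T = (1 / 6) ^ T := by
      norm_num
    rw [h8]
    calc _ = lw G6 (chi6 ((1 - r) / 3) (r / 3)) n w * (ρ ^ T * (1 / 2) ^ θ) *
          Real.exp (θ * (T * D - E)) := by ring
      _ ≤ (1 / 6) ^ T * Real.exp (-(θ * (T * D - E))) * Real.exp (θ * (T * D - E)) :=
          mul_le_mul_of_nonneg_right h6 (Real.exp_pos _).le
      _ = _ := by rw [mul_assoc, h7, mul_one]
  have hsum := Finset.sum_le_sum hword
  rw [Finset.sum_const, nsmul_eq_mul, ← Finset.sum_mul] at hsum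
  have hpos : 0 ≤ (1 / 2 : ℝ) ^ θ * (ρ ^ T * Real.exp (θ * (T * D - E))) := by positivity
  refine le_trans ?_ (hsum.trans (le_of_eq ?_))
  · have hmain' : 1 / 2 ≤ ∑ w ∈ (wd 6 T).filter (Cls D E T n),
        lw G6 (chi6 ((1 - r) / 3) (r / 3)) n w := by
      refine hmain.trans (le_of_eq (Finset.sum_congr ?_ fun _ _ => rfl))
      ext a
      simp only [mem_filter, hE]
    calc 1 / 2 * (1 / 2) ^ θ * (ρ ^ T * Real.exp (θ * (T * D - E)))
        = 1 / 2 * ((1 / 2) ^ θ * (ρ ^ T * Real.exp (θ * (T * D - E)))) := by ring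
      _ ≤ _ := mul_le_mul_of_nonneg_right hmain' hpos
  · congr 3
    ext a
    simp only [mem_filter, hE]

/-- **The mean number of straight prefixes leading to a given place, upper bound.** -/
theorem green_le {θ lam lam' D : ℝ} (hD0 : 0 < D) (hθ : 0 < θ)
    (hlam0 : 0 < lam) (hρlam : (1 / 2) ^ (1 + θ) + 1 / 3 * (3 / 2) ^ (1 + θ) < lam)
    (hll : lam < lam') (hlam1 : lam' < 1) :
    ∃ C : ℝ, 0 < C ∧ ∃ M₁ : ℕ, ∀ (L E : ℝ), 0 ≤ L → ∀ (T : ℕ) (F : Finset ℤ),
      (∀ n ∈ F, Real.exp L ≤ |(n : ℝ)| ∧ |(n : ℝ)| ≤ 2 * Real.exp L) →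
      (M₁ : ℝ) ≤ Real.exp (L - T * D - E) → ∀ v : ℤ, (M₁ : ℝ) ≤ |(v : ℝ)| → 0 < |(v : ℝ)| →
      ∀ [∀ n, DecidablePred (Pre D E n)],
      ∑ n ∈ F, ∑ j ∈ range T, (((6 : ℕ) : ℝ)⁻¹) ^ j *
        (((wd 6 j).filter (fun u => Pre D E n u ∧ run G6 n u = v)).card : ℝ) ≤
      C * Real.exp ((1 + θ) * (L - Real.log |(v : ℝ)|) +
        Real.log lam' / D * (L - Real.log |(v : ℝ)| - E)) := by
  classical
  obtain ⟨M₁, hM₁⟩ := back_step (s := 1 + θ) (by linarith) hρlam
  have hlam'0 : 0 < lam' := hlam0.trans hll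
  have hq0 : 0 < lam / lam' := by positivity
  have hq1 : lam / lam' < 1 := by rwa [div_lt_one hlam'0]
  have hC₁ : 0 < (1 - lam / lam')⁻¹ := inv_pos.2 (by linarith)
  set s : ℝ := 1 + θ with hs
  have hs0 : 0 < s := by rw [hs]; linarith
  set C : ℝ := (1 - lam / lam')⁻¹ * (6 ^ s * ((1 / 2) ^ s + (3 / 2) ^ s)) with hC
  refine ⟨C, by positivity, M₁, fun L E hL0 T F hF hMexp v hvM hv0 => ?_⟩
  intro inst
  have hvMz : (M₁ : ℤ) ≤ |v| := by
    have : ((M₁ : ℤ) : ℝ) ≤ ((|v| : ℤ) : ℝ) := by push_cast; exact hvM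
    exact_mod_cast this
  set A : ℝ := L - Real.log |(v : ℝ)| - E with hA
  have hlog' : Real.log lam' < 0 := Real.log_neg hlam'0 hlam1
  -- the counting function
  have hcnt : ∀ n ∈ F, ∀ j ∈ range T,
      (((wd 6 j).filter (fun u => Pre D E n u ∧ run G6 n u = v)).card : ℝ) ≤
        (if A ≤ j * D then 1 else 0) * cntB M₁ j n v := by
    intro n hn j hj
    obtain ⟨hn1, hn2⟩ := hF n hn
    rw [Finset.mem_range] at hj
    have hnpos : 0 < |(n : ℝ)| := lt_of_lt_of_le (Real.exp_pos _) hn1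
    by_cases hA' : A ≤ j * D
    · rw [if_pos hA', one_mul]
      unfold cntB
      have : ((wd 6 j).filter (fun u => Pre D E n u ∧ run G6 n u = v)).card ≤
          ((wd 6 j).filter (fun u => (∀ s ∈ sites G6 n u, (M₁ : ℤ) ≤ |s|) ∧
            run G6 n u = v)).card := by
        apply Finset.card_le_card
        intro u hu
        rw [mem_filter] at hu ⊢
        obtain ⟨hu1, hu2, hu3⟩ := hu
        refine ⟨hu1, ?_, hu3⟩
        intro z hz
        rw [sites_eq, List.mem_map] at hz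
        obtain ⟨i, hi, rfl⟩ := hz
        rw [List.mem_range] at hi
        have hul : u.length = j := mem_wd.1 hu1
        have h1 := (hu2 i hi.le).1
        have h2 : (M₁ : ℝ) ≤ |(run G6 n (u.take i) : ℝ)| := by
          refine le_trans ?_ h1
          have hi' : (i : ℝ) * D ≤ T * D :=
            mul_le_mul_of_nonneg_right (by exact_mod_cast (by omega : i ≤ T)) hD0.le
          calc (M₁ : ℝ) ≤ Real.exp (L - T * D - E) := hMexp
            _ ≤ Real.exp L * Real.exp (-(i * D) - E) := by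
                rw [← Real.exp_add]
                apply Real.exp_le_exp.2
                linarith
            _ ≤ _ := mul_le_mul_of_nonneg_right hn1 (Real.exp_pos _).le
        have h3 : ((M₁ : ℤ) : ℝ) ≤ ((|run G6 n (u.take i)| : ℤ) : ℝ) := by push_cast; exact h2
        exact_mod_cast h3
      exact_mod_cast this
    · rw [if_neg hA', zero_mul]
      rw [not_le] at hA'
      have : (wd 6 j).filter (fun u => Pre D E n u ∧ run G6 n u = v) = ∅ := by
        rw [Finset.filter_eq_empty_iff]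
        rintro u hu ⟨hu2, hu3⟩
        have hul : u.length = j := mem_wd.1 hu
        have h1 := (hu2 j (by omega)).1
        rw [← hul, List.take_length, hul, hu3] at h1
        have h2 : Real.exp (L - j * D - E) ≤ |(v : ℝ)| := by
          refine le_trans ?_ h1
          calc Real.exp (L - j * D - E) = Real.exp L * Real.exp (-(j * D) - E) := by
                rw [← Real.exp_add]
                ring_nf
            _ ≤ _ := mul_le_mul_of_nonneg_right hn1 (Real.exp_pos _).le
        have h3 := (Real.le_log_iff_exp_le hv0).2 h2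
        rw [hA] at hA'
        linarith
      rw [this]
      simp
  -- the weights are bounded below on `F`
  have hg : ∀ n ∈ F, 1 ≤ 6 ^ s * Real.exp (s * L) * gB s n := by
    intro n hn
    obtain ⟨hn1, hn2⟩ := hF n hn
    have hexp1 : 1 ≤ Real.exp L := Real.one_le_exp hL0
    have h1 : (3 * Real.exp L) ^ (-s) ≤ VV (-s) n := by
      unfold VV
      apply Real.rpow_le_rpow_of_nonpos (by positivity) (by linarith) (by linarith)
    have h2 : (3 * Real.exp L) ^ (-s) * (1 / 2) ^ s ≤ gB s n := by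
      unfold gB
      exact mul_le_mul h1 (psi_ge s n) (by positivity) (VV_pos _ _).le
    have h3 : 6 ^ s * Real.exp (s * L) * ((3 * Real.exp L) ^ (-s) * (1 / 2) ^ s) = 1 := by
      have e1 : Real.exp (s * L) = Real.exp L ^ s := by
        rw [← Real.exp_mul]; ring_nf
      have e2 : (3 * Real.exp L) ^ (-s) = ((3 * Real.exp L) ^ s)⁻¹ :=
        Real.rpow_neg (by positivity) s
      rw [e1, e2, Real.mul_rpow (by norm_num) (Real.exp_pos _).le]
      have e3 : (6 : ℝ) ^ s * (1 / 2) ^ s = 3 ^ s := by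
        rw [← Real.mul_rpow (by norm_num) (by norm_num)]
        norm_num
      have e4 : (0 : ℝ) < 3 ^ s := by positivity
      have e5 : (0 : ℝ) < Real.exp L ^ s := by positivity
      field_simp
      linarith
    calc (1 : ℝ) = 6 ^ s * Real.exp (s * L) * ((3 * Real.exp L) ^ (-s) * (1 / 2) ^ s) := h3.symm
      _ ≤ _ := mul_le_mul_of_nonneg_left h2 (by positivity)
  have hgv : gB s v ≤ Real.exp (-(s * Real.log |(v : ℝ)|)) * ((1 / 2) ^ s + (3 / 2) ^ s) := by
    unfold gB
    apply mul_le_mul _ (psi_le s v) (psi_pos _ _).le (Real.exp_pos _).le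
    have h1 : Real.exp (-(s * Real.log |(v : ℝ)|)) = |(v : ℝ)| ^ (-s) := by
      rw [Real.rpow_def_of_pos hv0]
      ring_nf
    rw [h1]
    unfold VV
    exact Real.rpow_le_rpow_of_nonpos hv0 (by linarith) (by linarith)
  -- summation over the starting points
  have hj : ∀ j ∈ range T, ∑ n ∈ F, (((6 : ℕ) : ℝ)⁻¹) ^ j *
      (((wd 6 j).filter (fun u => Pre D E n u ∧ run G6 n u = v)).card : ℝ) ≤
      (lam / lam') ^ j * (Real.exp (Real.log lam' / D * A) *
        (6 ^ s * Real.exp (s * L) * gB s v)) := by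
    intro j hj
    have h1 : ∑ n ∈ F, (((6 : ℕ) : ℝ)⁻¹) ^ j *
        (((wd 6 j).filter (fun u => Pre D E n u ∧ run G6 n u = v)).card : ℝ) ≤
        (((6 : ℕ) : ℝ)⁻¹) ^ j * ((if A ≤ j * D then 1 else 0) *
          (6 ^ s * Real.exp (s * L) * ∑ n ∈ F, gB s n * cntB M₁ j n v)) := by
      rw [← Finset.mul_sum]
      apply mul_le_mul_of_nonneg_left _ (by positivity)
      rw [Finset.mul_sum, Finset.mul_sum]
      apply Finset.sum_le_sum
      intro n hn
      refine (hcnt n hn j hj).trans ?_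
      apply mul_le_mul_of_nonneg_left _ (by split_ifs <;> norm_num)
      have h2 := mul_le_mul_of_nonneg_right (hg n hn) (cntB_nonneg M₁ j n v)
      linarith
    refine h1.trans ?_
    have h2 := back_iter hlam0 hM₁ j v hvMz F
    have hgv0 := gB_pos s v
    by_cases hA' : A ≤ j * D
    · rw [if_pos hA', one_mul]
      have h3 : lam' ^ j ≤ Real.exp (Real.log lam' / D * A) := by
        have e1 : lam' ^ j = Real.exp (j * Real.log lam') := by
          rw [Real.exp_nat_mul, Real.exp_log hlam'0]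
        rw [e1]
        apply Real.exp_le_exp.2
        have h4 : A / D ≤ j := by rwa [div_le_iff₀ hD0]
        have h5 := mul_le_mul_of_nonpos_left h4 hlog'.le
        calc (j : ℝ) * Real.log lam' = Real.log lam' * j := mul_comm _ _
          _ ≤ Real.log lam' * (A / D) := h5
          _ = _ := by ring
      calc (((6 : ℕ) : ℝ)⁻¹) ^ j * (6 ^ s * Real.exp (s * L) * ∑ n ∈ F, gB s n * cntB M₁ j n v)
          ≤ (((6 : ℕ) : ℝ)⁻¹) ^ j * (6 ^ s * Real.exp (s * L) * ((6 * lam) ^ j * gB s v)) := by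
            apply mul_le_mul_of_nonneg_left _ (by positivity)
            exact mul_le_mul_of_nonneg_left h2 (by positivity)
        _ = (lam / lam') ^ j * (lam' ^ j * (6 ^ s * Real.exp (s * L) * gB s v)) := by
            have e6 : ((1 : ℝ) / 6) ^ j * 6 ^ j = 1 := by rw [← mul_pow]; norm_num
            rw [div_pow, mul_pow]
            push_cast
            field_simp
            exact e6
        _ ≤ _ := by
            apply mul_le_mul_of_nonneg_left _ (by positivity)
            exact mul_le_mul_of_nonneg_right h3 (by positivity)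
    · rw [if_neg hA', zero_mul, mul_zero]
      positivity
  rw [Finset.sum_comm]
  refine (Finset.sum_le_sum hj).trans ?_
  rw [← Finset.sum_mul]
  have hgeom : ∑ j ∈ range T, (lam / lam') ^ j ≤ (1 - lam / lam')⁻¹ := by
    have h3 := (summable_geometric_of_lt_one hq0.le hq1).sum_le_tsum (range T)
      (fun m _ => by positivity)
    rwa [tsum_geometric_of_lt_one hq0.le hq1] at h3
  have hgv0 := gB_pos s v
  calc (∑ j ∈ range T, (lam / lam') ^ j) * (Real.exp (Real.log lam' / D * A) *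
        (6 ^ s * Real.exp (s * L) * gB s v))
      ≤ (1 - lam / lam')⁻¹ * (Real.exp (Real.log lam' / D * A) *
        (6 ^ s * Real.exp (s * L) * (Real.exp (-(s * Real.log |(v : ℝ)|)) *
          ((1 / 2) ^ s + (3 / 2) ^ s)))) := by
        apply mul_le_mul hgeom _ (by positivity) hC₁.le
        apply mul_le_mul_of_nonneg_left _ (Real.exp_pos _).le
        exact mul_le_mul_of_nonneg_left hgv (by positivity)
    _ = C * (Real.exp (s * L) * Real.exp (-(s * Real.log |(v : ℝ)|)) *
        Real.exp (Real.log lam' / D * A)) := by rw [hC]; ring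
    _ = _ := by
        rw [← Real.exp_add, ← Real.exp_add]
        congr 2
        ring

end Pool.Agent.Q205.RP
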