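import Mathlib
import Pool.Agent.Q205.RP.Pair

/-!
# Events given by classes of words of different lengths
-/

set_option autoImplicit false

open MeasureTheory Finset Filter Topology

namespace Pool.Agent.Q205.RP

variable {d : ℕ}

/-- a word of the class `C` is read at some time up to `T` -/
def Ev (G : ℤ → Fin d → ℤ) (C : List (Fin d) → Prop) (n : ℤ) (T : ℕ) : Set (ℤ → Fin d) :=
  {ω | ∃ k ≤ T, C (word G ω n k)}

open Classical in
/-- the mass of the class -/
noncomputable def mass (C : List (Fin d) → Prop) (T : ℕ) : ℝ :=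
  ∑ k ∈ range (T + 1), (((wd d k).filter C).card : ℝ) * ((d : ℝ)⁻¹) ^ k

theorem mass_nonneg (C : List (Fin d) → Prop) (T : ℕ) : 0 ≤ mass C T := by
  unfold mass
  positivity

theorem measurable_Ev (G : ℤ → Fin d → ℤ) (C : List (Fin d) → Prop) (n : ℤ) (T : ℕ) :
    MeasurableSet (Ev G C n T) := by
  classical
  have : Ev G C n T = ⋃ k ∈ range (T + 1), {ω | C (word G ω n k)} := by
    ext ω
    simp [Ev]
  rw [this]
  exact Finset.measurableSet_biUnion _ (fun k _ => measurable_event G n k C)

/-- the probability of the event -/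
theorem Ev_eq [NeZero d] (G : ℤ → Fin d → ℤ) (C : List (Fin d) → Prop) (n : ℤ) (T : ℕ)
    (h1 : ∀ w, C w → (sites G n w).Nodup) (h2 : ∀ w j, C w → C (w.take j) → w.length ≤ j) :
    (P d).real (Ev G C n T) = mass C T := by
  classical
  have h3 : Ev G C n T = ⋃ k ∈ range (T + 1), {ω | C (word G ω n k)} := by
    ext ω
    simp [Ev]
  rw [h3, measureReal_biUnion_finset]
  · unfold mass
    apply Finset.sum_congr rfl
    intro k _
    rw [event_eq G n k C h1]
  · intro k _ k' _ hne
    rw [Function.onFun, Set.disjoint_left]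
    intro ω hω hω'
    simp only [Set.mem_ofPred_eq] at hω hω'
    apply hne
    have key : ∀ a b : ℕ, a ≤ b → C (word G ω n a) → C (word G ω n b) → a = b := by
      intro a b hab ha hb
      have h4 := h2 _ a hb (by
        have := word_take G ω n a (b - a)
        rw [show a + (b - a) = b by omega] at this
        rw [this]
        exact ha)
      rw [length_word] at h4
      omega
    rcases le_total k k' with h | h
    · exact key k k' h hω hω'
    · exact (key k' k h hω' hω).symm
  · intro k _
    exact measurable_event G n k C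

open Classical in
/-- **Pairs.** Either the two trajectories do not meet, or the second one joins the first one. -/
theorem pair_var [NeZero d] (G : ℤ → Fin d → ℤ) (n n' : ℤ) (C C' Pre : List (Fin d) → Prop)
    (T T' : ℕ) (h1 : ∀ w, C w → (sites G n w).Nodup) (h1' : ∀ w, C' w → (sites G n' w).Nodup)
    (h2 : ∀ w, C' w → ∀ j < w.length, Pre (w.take j)) :
    (P d).real (Ev G C n T ∩ Ev G C' n' T') ≤ mass C T * mass C' T' +
      ∑ k ∈ range (T + 1), ∑ w ∈ (wd d k).filter C, ((d : ℝ)⁻¹) ^ k * ∑ i ∈ range k,
        ∑ j ∈ range T', ((d : ℝ)⁻¹) ^ j * (((wd d j).filter (fun u => Pre u ∧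
          run G n' u = run G n (w.take i))).card : ℝ) := by
  set D : ℕ → ℕ → Finset (List (Fin d) × List (Fin d)) := fun k k' =>
    (((wd d k).filter C) ×ˢ ((wd d k').filter C')).filter
      (fun p => (sites G n p.1 ++ sites G n' p.2).Nodup) with hD
  set J : List (Fin d) → ℕ → ℕ → Finset (List (Fin d)) := fun w i j =>
    (wd d j).filter (fun u => (Pre u ∧ run G n' u = run G n (w.take i)) ∧
      (sites G n w ++ sites G n' u).Nodup) with hJ
  have hcover : (Ev G C n T ∩ Ev G C' n' T') ⊆
      (⋃ k ∈ range (T + 1), ⋃ k' ∈ range (T' + 1), ⋃ p ∈ D k k',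
        {ω | word G ω n k = p.1 ∧ word G ω n' k' = p.2}) ∪
      (⋃ k ∈ range (T + 1), ⋃ w ∈ (wd d k).filter C, ⋃ i ∈ range k, ⋃ j ∈ range T',
        ⋃ u ∈ J w i j, {ω | word G ω n k = w ∧ word G ω n' j = u}) := by
    rintro ω ⟨⟨k, hkT, hω1⟩, ⟨k', hkT', hω2⟩⟩
    set f := Tn G ω with hf
    set w := word G ω n k with hw
    set w' := word G ω n' k' with hw'
    have hwl : w.length = k := length_word G ω n k
    have hwl' : w'.length = k' := length_word G ω n' k'
    have hwm : w ∈ (wd d k).filter C := mem_filter.2 ⟨mem_wd.2 hwl, hω1⟩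
    have hnd := h1 w hω1
    have hnd' := h1' w' hω2
    by_cases hmeet : ∃ j, j < k' ∧ f^[j] n' ∈ sites G n w
    · right
      set j := Nat.find hmeet with hj
      obtain ⟨hjT, hjm⟩ := Nat.find_spec hmeet
      rw [← hj] at hjT hjm
      have hmin : ∀ a < j, f^[a] n' ∉ sites G n w := by
        intro a ha hc
        exact Nat.find_min hmeet ha ⟨by omega, hc⟩
      rw [hw, sites_word, List.mem_map] at hjm
      obtain ⟨i, hi, hij⟩ := hjm
      rw [List.mem_range] at hi
      simp only [Set.mem_iUnion, exists_prop]
      have htk : w.take i = word G ω n i := by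
        rw [hw, show k = i + (k - i) by omega, word_take]
      have htk' : w'.take j = word G ω n' j := by
        rw [hw', show k' = j + (k' - j) by omega, word_take]
      refine ⟨k, Finset.mem_range.2 (by omega), w, hwm, i, Finset.mem_range.2 hi, j,
        Finset.mem_range.2 (by omega), word G ω n' j, ?_, rfl, rfl⟩
      rw [hJ]
      simp only [mem_filter]
      refine ⟨mem_wd.2 (length_word G ω n' j), ⟨?_, ?_⟩, ?_⟩
      · rw [← htk']
        exact h2 w' hω2 j (by omega)
      · rw [htk, run_word, run_word]
        exact hij.symm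
      · rw [List.nodup_append]
        refine ⟨hnd, ?_, ?_⟩
        · rw [nodup_iff]
          intro a ha b hb hab
          exact (nodup_iff G ω n' k').1 hnd' a (by omega) b (by omega) hab
        · intro s hs s' hs' hss
          rw [sites_word, List.mem_map] at hs'
          obtain ⟨a, ha, hs'⟩ := hs'
          rw [List.mem_range] at ha
          apply hmin a ha
          rw [hs', ← hss]
          exact hs
    · left
      simp only [Set.mem_iUnion, exists_prop]
      refine ⟨k, Finset.mem_range.2 (by omega), k', Finset.mem_range.2 (by omega), (w, w'), ?_,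
        rfl, rfl⟩
      rw [hD]
      simp only [mem_filter, mem_product]
      refine ⟨⟨mem_filter.1 hwm, mem_wd.2 hwl', hω2⟩, ?_⟩
      rw [List.nodup_append]
      refine ⟨hnd, hnd', ?_⟩
      intro s hs s' hs' hss
      rw [hw', sites_word, List.mem_map] at hs'
      obtain ⟨a, ha, hs'⟩ := hs'
      rw [List.mem_range] at ha
      apply hmeet
      refine ⟨a, ha, ?_⟩
      rw [hs', ← hss]
      exact hs
  have hfin : ∀ s : Set (ℤ → Fin d), (P d) s ≠ ⊤ := fun s => measure_ne_top _ _
  refine (measureReal_mono hcover (hfin _)).trans ((measureReal_union_le _ _).trans ?_)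
  have hdpos : (0 : ℝ) ≤ (d : ℝ)⁻¹ := by positivity
  apply add_le_add
  · refine (measureReal_biUnion_finset_le _ _).trans ?_
    unfold mass
    rw [Finset.sum_mul_sum]
    apply Finset.sum_le_sum
    intro k _
    refine (measureReal_biUnion_finset_le _ _).trans ?_
    apply Finset.sum_le_sum
    intro k' _
    refine (measureReal_biUnion_finset_le _ _).trans ?_
    have h3 : ∀ p ∈ D k k', (P d).real {ω | word G ω n k = p.1 ∧ word G ω n' k' = p.2} ≤
        ((d : ℝ)⁻¹) ^ k * ((d : ℝ)⁻¹) ^ k' := by
      intro p hp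
      rw [hD] at hp
      simp only [mem_filter, mem_product] at hp
      exact pair_le_real G n n' k k' p.1 p.2 hp.2 (mem_wd.1 hp.1.1.1) (mem_wd.1 hp.1.2.1)
    refine (Finset.sum_le_sum h3).trans ?_
    rw [Finset.sum_const, nsmul_eq_mul]
    have h4 : ((D k k').card : ℝ) ≤ (((wd d k).filter C).card : ℝ) *
        (((wd d k').filter C').card : ℝ) := by
      have := Finset.card_filter_le (((wd d k).filter C) ×ˢ ((wd d k').filter C'))
        (fun p => (sites G n p.1 ++ sites G n' p.2).Nodup)
      rw [Finset.card_product] at this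
      exact_mod_cast this
    calc ((D k k').card : ℝ) * (((d : ℝ)⁻¹) ^ k * ((d : ℝ)⁻¹) ^ k') ≤
        ((((wd d k).filter C).card : ℝ) * (((wd d k').filter C').card : ℝ)) *
          (((d : ℝ)⁻¹) ^ k * ((d : ℝ)⁻¹) ^ k') :=
          mul_le_mul_of_nonneg_right h4 (by positivity)
      _ = _ := by
        rw [mul_mul_mul_comm]
  · refine (measureReal_biUnion_finset_le _ _).trans ?_
    apply Finset.sum_le_sum
    intro k _
    refine (measureReal_biUnion_finset_le _ _).trans ?_
    have h5 : ∀ w ∈ (wd d k).filter C, (P d).real (⋃ i ∈ range k, ⋃ j ∈ range T',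
        ⋃ u ∈ J w i j, {ω | word G ω n k = w ∧ word G ω n' j = u}) ≤
        ((d : ℝ)⁻¹) ^ k * ∑ i ∈ range k, ∑ j ∈ range T', ((d : ℝ)⁻¹) ^ j *
          (((wd d j).filter (fun u => Pre u ∧ run G n' u = run G n (w.take i))).card : ℝ) := by
      intro w hw
      rw [mem_filter] at hw
      rw [Finset.mul_sum]
      refine (measureReal_biUnion_finset_le _ _).trans ?_
      apply Finset.sum_le_sum
      intro i _
      rw [Finset.mul_sum]
      refine (measureReal_biUnion_finset_le _ _).trans ?_
      apply Finset.sum_le_sum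
      intro j _
      refine (measureReal_biUnion_finset_le _ _).trans ?_
      have h3 : ∀ u ∈ J w i j, (P d).real {ω | word G ω n k = w ∧ word G ω n' j = u} ≤
          ((d : ℝ)⁻¹) ^ k * ((d : ℝ)⁻¹) ^ j := by
        intro u hu
        rw [hJ] at hu
        simp only [mem_filter] at hu
        exact pair_le_real G n n' k j w u hu.2.2 (mem_wd.1 hw.1) (mem_wd.1 hu.1)
      refine (Finset.sum_le_sum h3).trans ?_
      rw [Finset.sum_const, nsmul_eq_mul]
      have h4 : ((J w i j).card : ℝ) ≤ (((wd d j).filter (fun u => Pre u ∧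
          run G n' u = run G n (w.take i))).card : ℝ) := by
        have : (J w i j).card ≤ ((wd d j).filter (fun u => Pre u ∧
          run G n' u = run G n (w.take i))).card := by
          apply Finset.card_le_card
          intro u hu
          rw [hJ] at hu
          simp only [mem_filter] at hu ⊢
          exact ⟨hu.1, hu.2.1⟩
        exact_mod_cast this
      calc ((J w i j).card : ℝ) * (((d : ℝ)⁻¹) ^ k * ((d : ℝ)⁻¹) ^ j) ≤
          (((wd d j).filter (fun u => Pre u ∧
            run G n' u = run G n (w.take i))).card : ℝ) * (((d : ℝ)⁻¹) ^ k * ((d : ℝ)⁻¹) ^ j) :=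
            mul_le_mul_of_nonneg_right h4 (by positivity)
        _ = _ := by ring
    exact Finset.sum_le_sum h5

end Pool.Agent.Q205.RP
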