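import Mathlib
import Pool.Agent.Q205.RP.Straight
import Pool.Agent.Q205.RP.Gam
import Pool.Agent.Q205.RP.Var

/-!
# Rising trajectories: the first moment
-/

set_option autoImplicit false

open MeasureTheory Finset Filter Topology

namespace Pool.Agent.Q205.RP

/-- repetitions at high places are rare -/
theorem rep_le (χ : ℤ → Fin 6 → ℝ) (hχ : ∀ x c, 0 < χ x c) (hχ1 : ∀ x, ∑ c, χ x c = 1)
    {s κ τ M : ℝ} (hκ : 0 < κ) (hτ : 0 < τ) (hκτ : κ * 192 ^ τ < 1) (hM : 0 < M) (N : ℕ)
    (h : ∀ x : ℤ, (N : ℤ) < |x| → ∑ c, χ x c * VV s (G6 x c) ≤ κ * VV s x) (T i : ℕ) (n : ℤ)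
    (S : List (Fin 6) → Prop) [DecidablePred S]
    (hS : ∀ u, S u → (∀ s ∈ sites G6 n u, (N : ℤ) < |s|) ∧
      M ≤ |(run G6 n (u.take i) : ℝ)| ∧ run G6 n u = run G6 n (u.take i)) :
    ∑ m ∈ range (T - i), ∑ w ∈ wd 6 T, (if S (w.take (i + (m + 1))) then lw G6 χ n w else 0) ≤
      (1 - κ * 192 ^ τ)⁻¹ * M ^ (-τ) := by
  classical
  set κ' : ℝ := κ * 192 ^ τ with hκ'
  have hκ'0 : 0 < κ' := by positivity
  have h2 : ∀ m ∈ range (T - i), ∑ w ∈ wd 6 T,
      (if S (w.take (i + (m + 1))) then lw G6 χ n w else 0) ≤ κ' ^ m * M ^ (-τ) := by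
    intro m hm
    rw [Finset.mem_range] at hm
    have h3 := lw_prefix G6 χ hχ1 S (i + (m + 1)) (T - (i + (m + 1))) n
    rw [show i + (m + 1) + (T - (i + (m + 1))) = T by omega] at h3
    rw [h3, Finset.sum_filter, sum_wd_add]
    have h4 : ∀ u ∈ wd 6 i, ∑ v ∈ wd 6 (m + 1), (if S (u ++ v) then lw G6 χ n (u ++ v)
        else 0) ≤ lw G6 χ n u * (κ' ^ m * M ^ (-τ)) := by
      intro u hu
      have hul : u.length = i := mem_wd.1 hu
      have htk : ∀ v, (u ++ v).take i = u := fun v => by rw [← hul, List.take_left]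
      set y := run G6 n u with hy
      by_cases hyM : M ≤ |(y : ℝ)|
      · have h5 := closed_lw χ hχ (s := s) hκ hτ.le hM N h (m + 1) (by omega) y hyM
          (fun v => (∀ s ∈ sites G6 y v, (N : ℤ) < |s|) ∧ run G6 y v = y)
          (fun v hv => hv.1) (fun v hv => hv.2)
        have h7 : κ' ^ (m + 1) ≤ κ' ^ m :=
          pow_le_pow_of_le_one hκ'0.le hκτ.le (Nat.le_succ m)
        have h8 : ∑ v ∈ wd 6 (m + 1), (if S (u ++ v) then lw G6 χ n (u ++ v) else 0) ≤
            lw G6 χ n u * ∑ v ∈ (wd 6 (m + 1)).filter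
              (fun v => (∀ s ∈ sites G6 y v, (N : ℤ) < |s|) ∧ run G6 y v = y),
              lw G6 χ y v := by
          rw [Finset.mul_sum, Finset.sum_filter]
          apply Finset.sum_le_sum
          intro v _
          by_cases hSv : S (u ++ v)
          · rw [if_pos hSv]
            obtain ⟨h9, _, h10⟩ := hS _ hSv
            rw [htk, run_append] at h10
            rw [if_pos ⟨fun s hs => h9 s (by
              rw [sites_append]
              exact List.mem_append_right _ hs), h10⟩, lw_append]
          · rw [if_neg hSv]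
            split_ifs
            · exact (mul_pos (lw_pos G6 χ hχ _ _) (lw_pos G6 χ hχ _ _)).le
            · exact le_rfl
        refine h8.trans ?_
        apply mul_le_mul_of_nonneg_left _ (lw_pos G6 χ hχ _ _).le
        refine h5.trans ?_
        exact mul_le_mul_of_nonneg_right h7 (by positivity)
      · have h5 : ∑ v ∈ wd 6 (m + 1), (if S (u ++ v) then lw G6 χ n (u ++ v) else 0) = 0 := by
          apply Finset.sum_eq_zero
          intro v _
          rw [if_neg]
          intro hSv
          apply hyM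
          have := (hS _ hSv).2.1
          rw [htk] at this
          exact this
        rw [h5]
        have := lw_pos G6 χ hχ n u
        positivity
    refine (Finset.sum_le_sum h4).trans (le_of_eq ?_)
    rw [← Finset.sum_mul, lw_sum_one G6 χ hχ1, one_mul]
  refine (Finset.sum_le_sum h2).trans ?_
  rw [← Finset.sum_mul]
  apply mul_le_mul_of_nonneg_right _ (by positivity)
  have h3 := (summable_geometric_of_lt_one hκ'0.le hκτ).sum_le_tsum (range (T - i))
    (fun m _ => by positivity)
  rwa [tsum_geometric_of_lt_one hκ'0.le hκτ] at h3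

/-- words which rise above `H` before going below `b`, without repetition -/
def Top (b H : ℝ) (n : ℤ) (w : List (Fin 6)) : Prop :=
  (sites G6 n w).Nodup ∧ (∀ s ∈ sites G6 n w, b ≤ |(s : ℝ)| ∧ |(s : ℝ)| < H) ∧
    H ≤ |(run G6 n w : ℝ)|

theorem run_take_mem (n : ℤ) (w : List (Fin 6)) {j : ℕ} (hj : j < w.length) :
    run G6 n (w.take j) ∈ sites G6 n w := by
  rw [sites_eq, List.mem_map]
  exact ⟨j, List.mem_range.2 hj, rfl⟩

theorem top_prefix {b H : ℝ} {n : ℤ} {w : List (Fin 6)} {j : ℕ} (h : Top b H n w)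
    (hj : Top b H n (w.take j)) : w.length ≤ j := by
  by_contra hc
  rw [not_le] at hc
  have h1 := (h.2.1 _ (run_take_mem n w hc)).2
  linarith [hj.2.2]

/-- the place where the barrier is crossed is at most twice as high -/
theorem top_run_le {b H : ℝ} {n : ℤ} {w : List (Fin 6)} (h : Top b H n w) (hH : 16 ≤ H)
    (hn : |(n : ℝ)| < H) : |(run G6 n w : ℝ)| ≤ 2 * H := by
  rcases List.eq_nil_or_concat w with rfl | ⟨u, c, rfl⟩
  · simp only [run]
    linarith
  · rw [List.concat_eq_append] at h ⊢
    rw [run_append]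
    simp only [run]
    have h1 : run G6 n u ∈ sites G6 n (u ++ [c]) := by
      rw [sites_append]
      apply List.mem_append_right
      simp [sites]
    have h2 := (h.2.1 _ h1).2
    by_cases hp : ((run G6 n u) + ((c : ℕ) : ℤ)) % 2 = 0
    · have h3 := (abs_le.1 (even_size hp)).2
      have h4 := abs_nonneg ((run G6 n u : ℤ) : ℝ)
      linarith
    · have h3 := (abs_le.1 (odd_size hp)).2
      linarith

/-- the weights under which the trajectories rise -/
noncomputable def chiU : ℤ → Fin 6 → ℝ := chi6 (1 / 12) (1 / 4)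

theorem chiU_pos : ∀ x c, 0 < chiU x c := chi6_pos (by norm_num) (by norm_num)

theorem chiU_sum : ∀ x, ∑ c, chiU x c = 1 := fun x => by
  rw [chiU, sum_chi6]; norm_num

theorem exists_driftU : ∃ N : ℕ, ∀ x : ℤ, (N : ℤ) < |x| →
    ∑ c, chiU x c * VV (-(1 / 2)) (G6 x c) ≤ 97 / 100 * VV (-(1 / 2)) x := by
  apply drift6 (by norm_num) (by norm_num)
  have e1 : (1 / 2 : ℝ) ^ (-(1 / 2) : ℝ) = Real.sqrt 2 := by
    rw [Real.rpow_neg (by norm_num), ← Real.inv_rpow (by norm_num), Real.sqrt_eq_rpow]
    norm_num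
  have e2 : (3 / 2 : ℝ) ^ (-(1 / 2) : ℝ) = Real.sqrt (2 / 3) := by
    rw [Real.rpow_neg (by norm_num), ← Real.inv_rpow (by norm_num), Real.sqrt_eq_rpow]
    norm_num
  rw [e1, e2]
  have h1 : Real.sqrt 2 < 14143 / 10000 := by
    rw [Real.sqrt_lt' (by norm_num)]
    norm_num
  have h2 : Real.sqrt (2 / 3) < 8166 / 10000 := by
    rw [Real.sqrt_lt' (by norm_num)]
    norm_num
  linarith

/-- the number of steps -/
noncomputable def TT (X : ℝ) : ℕ := ⌈60 * Real.log X⌉₊

/-- the ratio between the starting point and the lower barrier -/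
def BB : ℝ := 160000

open Classical in
/-- **Most words rise, for the tilted weights.** -/
theorem rising : ∃ X₀ : ℝ, ∀ X H : ℝ, X₀ ≤ X → H ≤ X ^ 3 → ∀ n : ℤ, X ≤ |(n : ℝ)| →
    1 / 2 ≤ ∑ k ∈ range (TT X + 1), ∑ u ∈ (wd 6 k).filter (Top (X / BB) H n),
      lw G6 chiU n u := by
  obtain ⟨N, hN⟩ := exists_driftU
  obtain ⟨τ, hτκ, hτ0⟩ : ∃ τ : ℝ, (97 / 100 : ℝ) * 192 ^ τ < 1 ∧ 0 < τ := by
    have h1 : Tendsto (fun θ : ℝ => (97 / 100 : ℝ) * (192 : ℝ) ^ θ) (𝓝 0)
        (𝓝 ((97 / 100 : ℝ) * (192 : ℝ) ^ (0 : ℝ))) :=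
      ((Real.continuousAt_const_rpow (by norm_num)).tendsto).const_mul _
    rw [Real.rpow_zero, mul_one] at h1
    have h2 := (h1.mono_left (nhdsWithin_le_nhds (s := Set.Ioi 0))).eventually
      (gt_mem_nhds (show (97 / 100 : ℝ) < 1 by norm_num))
    exact (h2.and self_mem_nhdsWithin).exists
  set κ' : ℝ := 97 / 100 * 192 ^ τ with hκ'
  have hC₃ : 0 < (1 - κ')⁻¹ := inv_pos.2 (by linarith)
  have hB0 : (0 : ℝ) < BB := by unfold BB; norm_num
  -- the errors
  have herr1 : Tendsto (fun X : ℝ => (61 * Real.log X) * ((1 - κ')⁻¹ * (X / BB) ^ (-τ))) atTop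
      (𝓝 0) := by
    have h1 := (isLittleO_log_rpow_atTop hτ0).tendsto_div_nhds_zero
    have h2 := h1.const_mul (61 * ((1 - κ')⁻¹ * BB ^ τ))
    rw [mul_zero] at h2
    refine h2.congr' ?_
    filter_upwards [eventually_gt_atTop (0 : ℝ)] with X hX
    rw [Real.div_rpow hX.le hB0.le, Real.rpow_neg hX.le, Real.rpow_neg hB0.le, div_inv_eq_mul]
    ring
  have herr2 : Tendsto (fun X : ℝ => 2 * X ^ (-(3 / 10) : ℝ)) atTop (𝓝 0) := by
    have := (tendsto_rpow_neg_atTop (show (0 : ℝ) < 3 / 10 by norm_num)).const_mul 2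
    rwa [mul_zero] at this
  obtain ⟨X₀, hX₀⟩ := eventually_atTop.1 (((herr1.eventually (gt_mem_nhds
    (show (0 : ℝ) < 1 / 8 by norm_num))).and (herr2.eventually (gt_mem_nhds
    (show (0 : ℝ) < 1 / 8 by norm_num)))).and (((eventually_gt_atTop ((N : ℝ) * BB)).and
      (eventually_gt_atTop (BB + 3))).and
      (Real.tendsto_log_atTop.eventually_ge_atTop 1)))
  refine ⟨X₀, fun X H hX hH n hn => ?_⟩
  obtain ⟨⟨hE1, hE2⟩, ⟨hXN, hXB⟩, hlog⟩ := hX₀ X hX
  have hX0 : 0 < X := by linarith
  have hX1 : 1 ≤ X := by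
    have : (0 : ℝ) < BB := hB0
    linarith
  set T := TT X with hT
  set b : ℝ := X / BB with hb
  have hb0 : 0 < b := by positivity
  have hNb : (N : ℝ) < b := by
    rw [hb, lt_div_iff₀ hB0]
    exact hXN
  have hTge : 60 * Real.log X ≤ T := Nat.le_ceil _
  have hTle : (T : ℝ) ≤ 61 * Real.log X := by
    have := Nat.ceil_lt_add_one (show 0 ≤ 60 * Real.log X by positivity)
    rw [hT]
    unfold TT
    linarith
  -- the bad events
  set R : ℕ → List (Fin 6) → Prop := fun i u => (∀ s ∈ sites G6 n u, (N : ℤ) < |s|) ∧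
    |(run G6 n u : ℝ)| < b with hR
  set S : ℕ → List (Fin 6) → Prop := fun i u => (∀ s ∈ sites G6 n u, (N : ℤ) < |s|) ∧
    b ≤ |(run G6 n (u.take i) : ℝ)| ∧ run G6 n u = run G6 n (u.take i) with hS
  set Z : List (Fin 6) → Prop := fun u => (∀ s ∈ sites G6 n u, (N : ℤ) < |s|) ∧
    |(run G6 n u : ℝ)| < H with hZ
  have hsplit : ∀ w ∈ wd 6 T, lw G6 chiU n w ≤
      ((∑ k ∈ range (T + 1), (if Top b H n (w.take k) then lw G6 chiU n w else 0)) +
      ∑ i ∈ range (T + 1), (if R i (w.take i) then lw G6 chiU n w else 0)) +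
      ((∑ i ∈ range T, ∑ m ∈ range (T - i), (if S i (w.take (i + (m + 1))) then lw G6 chiU n w
        else 0)) + (if Z w then lw G6 chiU n w else 0)) := by
    intro w hw
    have hwl : w.length = T := mem_wd.1 hw
    have hpos := (lw_pos G6 chiU chiU_pos n w).le
    have hn0 : 0 ≤ ∑ k ∈ range (T + 1), (if Top b H n (w.take k) then lw G6 chiU n w else 0) :=
      Finset.sum_nonneg (fun i _ => by split_ifs <;> linarith)
    have hn1 : 0 ≤ ∑ i ∈ range (T + 1), (if R i (w.take i) then lw G6 chiU n w else 0) :=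
      Finset.sum_nonneg (fun i _ => by split_ifs <;> linarith)
    have hn2 : 0 ≤ ∑ i ∈ range T, ∑ m ∈ range (T - i), (if S i (w.take (i + (m + 1))) then
        lw G6 chiU n w else 0) :=
      Finset.sum_nonneg (fun i _ => Finset.sum_nonneg (fun m _ => by split_ifs <;> linarith))
    have hn3 : 0 ≤ (if Z w then lw G6 chiU n w else 0) := by split_ifs <;> linarith
    -- the places before the exit
    have hsites : ∀ i ≤ T, (∀ j < i, b ≤ |(run G6 n (w.take j) : ℝ)|) →
        ∀ s ∈ sites G6 n (w.take i), (N : ℤ) < |s| := by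
      intro i hi hj s hs
      rw [sites_eq, List.mem_map] at hs
      obtain ⟨j, hj', rfl⟩ := hs
      rw [List.mem_range, List.length_take] at hj'
      rw [List.take_take, min_eq_left (by omega)]
      have h1 := hj j (by omega)
      have h2 : ((N : ℤ) : ℝ) < ((|run G6 n (w.take j)| : ℤ) : ℝ) := by
        push_cast
        linarith
      exact_mod_cast h2
    by_cases hall : ∀ i ≤ T, b ≤ |(run G6 n (w.take i) : ℝ)| ∧ |(run G6 n (w.take i) : ℝ)| < H
    · have hZw : Z w := by
        have h1 := hsites T le_rfl (fun j hj => (hall j hj.le).1)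
        have h2 := (hall T le_rfl).2
        rw [← hwl, List.take_length] at h1 h2
        exact ⟨h1, h2⟩
      rw [if_pos hZw]
      linarith
    · push Not at hall
      have hex : ∃ i, i ≤ T ∧ ¬ (b ≤ |(run G6 n (w.take i) : ℝ)| ∧
          |(run G6 n (w.take i) : ℝ)| < H) := by
        obtain ⟨i, hi, hi2⟩ := hall
        refine ⟨i, hi, fun hc => ?_⟩
        linarith [hi2 hc.1, hc.2]
      set i := Nat.find hex with hi
      obtain ⟨hiT, hiB⟩ := Nat.find_spec hex
      rw [← hi] at hiT hiB
      have hmin : ∀ j < i, b ≤ |(run G6 n (w.take j) : ℝ)| ∧ |(run G6 n (w.take j) : ℝ)| < H := by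
        intro j hj
        by_contra hc
        exact Nat.find_min hex hj ⟨by omega, hc⟩
      have hsi := hsites i hiT (fun j hj => (hmin j hj).1)
      by_cases hlow : |(run G6 n (w.take i) : ℝ)| < b
      · have hRi : R i (w.take i) := ⟨hsi, hlow⟩
        have h1 := Finset.single_le_sum (s := range (T + 1)) (f := fun i =>
            (if R i (w.take i) then lw G6 chiU n w else 0)) (fun i _ => by
              split_ifs <;> linarith) (Finset.mem_range.2 (show i < T + 1 by omega))
        rw [if_pos hRi] at h1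
        linarith
      · rw [not_lt] at hlow
        have hhigh : H ≤ |(run G6 n (w.take i) : ℝ)| := by
          by_contra hc
          rw [not_le] at hc
          exact hiB ⟨hlow, hc⟩
        by_cases hnd : (sites G6 n (w.take i)).Nodup
        · have hTop : Top b H n (w.take i) := by
            refine ⟨hnd, ?_, hhigh⟩
            intro s hs
            rw [sites_eq, List.mem_map] at hs
            obtain ⟨j, hj', rfl⟩ := hs
            rw [List.mem_range, List.length_take] at hj'
            rw [List.take_take, min_eq_left (by omega)]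
            exact hmin j (by omega)
          have h1 := Finset.single_le_sum (s := range (T + 1)) (f := fun k =>
            (if Top b H n (w.take k) then lw G6 chiU n w else 0)) (fun i _ => by
              split_ifs <;> linarith) (Finset.mem_range.2 (show i < T + 1 by omega))
          rw [if_pos hTop] at h1
          linarith
        · rw [sites_eq, List.length_take, hwl, min_eq_left hiT,
            List.nodup_map_iff_inj_on List.nodup_range] at hnd
          push Not at hnd
          simp only [List.mem_range] at hnd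
          obtain ⟨a, ha, c, hc, hac, hne⟩ := hnd
          rw [List.take_take, List.take_take, min_eq_left ha.le, min_eq_left hc.le] at hac
          have key : ∀ a c : ℕ, a < c → c < i → run G6 n (w.take a) = run G6 n (w.take c) →
              lw G6 chiU n w ≤ ∑ i ∈ range T, ∑ m ∈ range (T - i),
                (if S i (w.take (i + (m + 1))) then lw G6 chiU n w else 0) := by
            intro a c hlt hci hrun
            have hSab : S a (w.take (a + ((c - a - 1) + 1))) := by
              rw [show a + ((c - a - 1) + 1) = c by omega]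
              refine ⟨hsites c (by omega) (fun j hj => (hmin j (by omega)).1), ?_, ?_⟩
              · rw [List.take_take, min_eq_left (by omega)]
                exact (hmin a (by omega)).1
              · rw [List.take_take, min_eq_left (by omega)]
                exact hrun.symm
            have h1 := Finset.single_le_sum (s := range (T - a)) (f := fun m =>
              (if S a (w.take (a + (m + 1))) then lw G6 chiU n w else 0)) (fun m _ => by
                split_ifs <;> linarith) (Finset.mem_range.2 (show c - a - 1 < T - a by omega))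
            have h2 := Finset.single_le_sum (s := range T) (f := fun i => ∑ m ∈ range (T - i),
              (if S i (w.take (i + (m + 1))) then lw G6 chiU n w else 0)) (fun i _ =>
                Finset.sum_nonneg (fun m _ => by split_ifs <;> linarith))
                (Finset.mem_range.2 (show a < T by omega))
            rw [if_pos hSab] at h1
            exact h1.trans h2
          rcases lt_or_gt_of_ne hne with hlt | hlt
          · have := key a c hlt hc hac
            linarith
          · have := key c a hlt ha hac.symm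
            linarith
  -- summation
  have hsum := Finset.sum_le_sum hsplit
  rw [lw_sum_one G6 chiU chiU_sum, Finset.sum_add_distrib, Finset.sum_add_distrib,
    Finset.sum_add_distrib] at hsum
  have htop : ∑ w ∈ wd 6 T, ∑ k ∈ range (T + 1), (if Top b H n (w.take k) then lw G6 chiU n w
      else 0) = ∑ k ∈ range (T + 1), ∑ u ∈ (wd 6 k).filter (Top b H n), lw G6 chiU n u := by
    rw [Finset.sum_comm]
    apply Finset.sum_congr rfl
    intro k hk
    rw [Finset.mem_range] at hk
    have h2 := lw_prefix G6 chiU chiU_sum (Top b H n) k (T - k) n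
    rw [show k + (T - k) = T by omega] at h2
    exact h2
  have hV : VV (-(1 / 2)) n ≤ (1 + X) ^ (-(1 / 2) : ℝ) := by
    unfold VV
    exact Real.rpow_le_rpow_of_nonpos (by positivity) (by linarith) (by norm_num)
  have hVpos := VV_pos (-(1 / 2)) n
  have hbadR : ∑ w ∈ wd 6 T, ∑ i ∈ range (T + 1), (if R i (w.take i) then lw G6 chiU n w
      else 0) ≤ 1 / 8 := by
    rw [Finset.sum_comm]
    have h1 : ∀ i ∈ range (T + 1), ∑ w ∈ wd 6 T, (if R i (w.take i) then lw G6 chiU n w else 0) ≤
        (97 / 100) ^ i * (3 / 800) := by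
      intro i hi
      rw [Finset.mem_range] at hi
      have h2 := lw_prefix G6 chiU chiU_sum (R i) i (T - i) n
      rw [show i + (T - i) = T by omega] at h2
      rw [h2]
      refine (viol_low G6 chiU chiU_pos (s := 1 / 2) (by norm_num) (by norm_num) hb0 N hN i n _
          (fun w hw => hw.1) (fun w hw => hw.2)).trans ?_
      rw [mul_assoc]
      apply mul_le_mul_of_nonneg_left _ (by positivity)
      calc VV (-(1 / 2)) n * (1 + b) ^ (1 / 2 : ℝ)
          ≤ (1 + X) ^ (-(1 / 2) : ℝ) * (1 + b) ^ (1 / 2 : ℝ) :=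
            mul_le_mul_of_nonneg_right hV (by positivity)
        _ = ((1 + b) / (1 + X)) ^ (1 / 2 : ℝ) := by
            rw [Real.div_rpow (by positivity) (by positivity), Real.rpow_neg (by positivity)]
            field_simp
        _ ≤ ((3 / 800) ^ 2 : ℝ) ^ (1 / 2 : ℝ) := by
            apply Real.rpow_le_rpow (by positivity) _ (by norm_num)
            rw [div_le_iff₀ (by positivity), hb]
            have : X / BB = X * (1 / 160000) := by unfold BB; ring
            rw [this]
            unfold BB at hXB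
            nlinarith
        _ = 3 / 800 := by
            rw [← Real.sqrt_eq_rpow, Real.sqrt_sq (by norm_num)]
    refine (Finset.sum_le_sum h1).trans ?_
    rw [← Finset.sum_mul]
    have h3 := (summable_geometric_of_lt_one (show (0 : ℝ) ≤ 97 / 100 by norm_num)
      (by norm_num)).sum_le_tsum (range (T + 1)) (fun m _ => by positivity)
    rw [tsum_geometric_of_lt_one (by norm_num) (by norm_num)] at h3
    norm_num at h3 ⊢
    linarith
  have hbadS : ∑ w ∈ wd 6 T, ∑ i ∈ range T, ∑ m ∈ range (T - i),
      (if S i (w.take (i + (m + 1))) then lw G6 chiU n w else 0) ≤ 1 / 8 := by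
    rw [Finset.sum_comm]
    have h1 : ∀ i ∈ range T, ∑ w ∈ wd 6 T, ∑ m ∈ range (T - i),
        (if S i (w.take (i + (m + 1))) then lw G6 chiU n w else 0) ≤ (1 - κ')⁻¹ * b ^ (-τ) := by
      intro i _
      rw [Finset.sum_comm]
      exact rep_le chiU chiU_pos chiU_sum (by norm_num) hτ0 hτκ hb0 N hN T i n (S i)
        (fun u hu => hu)
    refine (Finset.sum_le_sum h1).trans ?_
    rw [Finset.sum_const, card_range, nsmul_eq_mul]
    refine le_trans ?_ hE1.le
    exact mul_le_mul_of_nonneg_right hTle (by positivity)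
  have hbadZ : ∑ w ∈ wd 6 T, (if Z w then lw G6 chiU n w else 0) ≤ 1 / 8 := by
    rw [← Finset.sum_filter]
    rcases le_or_gt H 0 with hH0 | hH0
    · have : (wd 6 T).filter Z = ∅ := by
        rw [Finset.filter_eq_empty_iff]
        intro w _ hw
        linarith [hw.2, abs_nonneg (run G6 n w : ℝ)]
      rw [this, Finset.sum_empty]
      norm_num
    refine (viol_low G6 chiU chiU_pos (s := 1 / 2) (by norm_num) (by norm_num) hH0 N hN T n _
          (fun w hw => hw.1) (fun w hw => hw.2)).trans ?_
    have h1 : ((97 / 100 : ℝ)) ^ T ≤ X ^ (-(9 / 5) : ℝ) := by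
      have h2 : Real.log (97 / 100) ≤ -(3 / 100) := by
        have := Real.log_le_sub_one_of_pos (show (0 : ℝ) < 97 / 100 by norm_num)
        linarith
      have h3 : ((97 / 100 : ℝ)) ^ T = Real.exp (T * Real.log (97 / 100)) := by
        rw [Real.exp_nat_mul, Real.exp_log (by norm_num)]
      rw [h3, Real.rpow_def_of_pos hX0]
      apply Real.exp_le_exp.2
      nlinarith
    have h2 : VV (-(1 / 2)) n ≤ 1 := by
      unfold VV
      apply Real.rpow_le_one_of_one_le_of_nonpos _ (by norm_num)
      linarith [abs_nonneg (n : ℝ)]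
    have h3 : (1 + H) ^ (1 / 2 : ℝ) ≤ 2 * X ^ (3 / 2 : ℝ) := by
      calc (1 + H) ^ (1 / 2 : ℝ) ≤ (4 * X ^ 3) ^ (1 / 2 : ℝ) := by
            apply Real.rpow_le_rpow (by linarith) _ (by norm_num)
            have : (1 : ℝ) ≤ X ^ 3 := one_le_pow₀ hX1
            linarith
        _ = 2 * X ^ (3 / 2 : ℝ) := by
            rw [Real.mul_rpow (by norm_num) (by positivity), ← Real.rpow_natCast,
              ← Real.rpow_mul hX0.le, ← Real.sqrt_eq_rpow, show (4 : ℝ) = 2 ^ 2 by norm_num,
              Real.sqrt_sq (by norm_num)]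
            norm_num
    calc (97 / 100 : ℝ) ^ T * VV (-(1 / 2)) n * (1 + H) ^ (1 / 2 : ℝ)
        ≤ X ^ (-(9 / 5) : ℝ) * 1 * (2 * X ^ (3 / 2 : ℝ)) := by
          apply mul_le_mul _ h3 (by positivity) (by positivity)
          exact mul_le_mul h1 h2 hVpos.le (by positivity)
      _ = 2 * X ^ (-(3 / 10) : ℝ) := by
          rw [mul_one, mul_comm, mul_assoc, ← Real.rpow_add hX0]
          norm_num
      _ ≤ _ := hE2.le
  rw [htop] at hsum
  linarith

end Pool.Agent.Q205.RP
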