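import Mathlib
import Pool.Agent.Q205.RP.Exc1
import Pool.Agent.Q205.RP.Back

/-!
# Rising trajectories: masses and pairs
-/

set_option autoImplicit false

open MeasureTheory Finset Filter Topology

namespace Pool.Agent.Q205.RP

theorem chiU_rel {M : ℝ} (hM : 32 ≤ M) (w : List (Fin 6)) (x : ℤ)
    (hs : ∀ s ∈ sites G6 x w, M ≤ |(s : ℝ)|) :
    lw G6 chiU x w * (1 - 16 / M) ^ w.length * |(x : ℝ)| ≤
      (1 / 6) ^ w.length * |(run G6 x w : ℝ)| := by
  have h := weight_rel (θ := 1) (ρ := 1) (l₀ := 1 / 12) (l₁ := 1 / 4) one_pos one_pos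
    (by norm_num) (by norm_num) (by norm_num) (by norm_num) hM w x hs
  simp only [Real.rpow_one, one_mul] at h
  exact h

theorem chiU_rel' {M : ℝ} (hM : 32 ≤ M) (w : List (Fin 6)) (x : ℤ)
    (hs : ∀ s ∈ sites G6 x w, M ≤ |(s : ℝ)|) :
    (1 / 6) ^ w.length * |(run G6 x w : ℝ)| ≤
      lw G6 chiU x w * (1 + 16 / M) ^ w.length * |(x : ℝ)| := by
  have hη : 0 < 16 / M := by positivity
  induction w generalizing x with
  | nil => simp [lw, run]
  | cons c w ih =>
    simp only [sites, List.mem_cons, forall_eq_or_imp] at hs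
    obtain ⟨hx, hs⟩ := hs
    have h2 := ih (G6 x c) hs
    have hM16 : 16 ≤ 16 / M * |(x : ℝ)| := by
      rw [div_mul_eq_mul_div, le_div_iff₀ (by linarith)]
      nlinarith
    have key : 1 / 6 * |(G6 x c : ℝ)| ≤ chiU x c * (1 + 16 / M) * |(x : ℝ)| := by
      unfold chiU chi6
      split_ifs with hp
      · have h3 := (abs_le.1 (even_size hp)).2
        nlinarith
      · have h3 := (abs_le.1 (odd_size hp)).2
        nlinarith
    have hlw := (lw_pos G6 chiU chiU_pos (G6 x c) w).le
    simp only [lw, List.length_cons, run]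
    calc (1 / 6 : ℝ) ^ (w.length + 1) * |(run G6 (G6 x c) w : ℝ)|
        = 1 / 6 * ((1 / 6) ^ w.length * |(run G6 (G6 x c) w : ℝ)|) := by rw [pow_succ]; ring
      _ ≤ 1 / 6 * (lw G6 chiU (G6 x c) w * (1 + 16 / M) ^ w.length * |(G6 x c : ℝ)|) :=
          mul_le_mul_of_nonneg_left h2 (by norm_num)
      _ = lw G6 chiU (G6 x c) w * (1 + 16 / M) ^ w.length * (1 / 6 * |(G6 x c : ℝ)|) := by ring
      _ ≤ lw G6 chiU (G6 x c) w * (1 + 16 / M) ^ w.length *
          (chiU x c * (1 + 16 / M) * |(x : ℝ)|) := mul_le_mul_of_nonneg_left key (by positivity)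
      _ = _ := by rw [pow_succ]; ring

theorem lw_prefix_fun {d : ℕ} (G : ℤ → Fin d → ℤ) (χ : ℤ → Fin d → ℝ) (hχ : ∀ x, ∑ c, χ x c = 1)
    (F : List (Fin d) → ℝ) (i m : ℕ) (x : ℤ) :
    ∑ w ∈ wd d (i + m), lw G χ x w * F (w.take i) = ∑ u ∈ wd d i, lw G χ x u * F u := by
  rw [sum_wd_add]
  apply Finset.sum_congr rfl
  intro u hu
  have hul : u.length = i := mem_wd.1 hu
  have h1 : ∀ v, (u ++ v).take i = u := fun v => by rw [← hul, List.take_left]
  simp only [h1, lw_append]
  rw [← Finset.sum_mul, ← Finset.mul_sum, lw_sum_one G χ hχ, mul_one]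

theorem TT_le {X : ℝ} (hX : 1 ≤ Real.log X) : (TT X : ℝ) ≤ 61 * Real.log X := by
  have := Nat.ceil_lt_add_one (show 0 ≤ 60 * Real.log X by positivity)
  unfold TT
  linarith

/-- the probability to rise above `H`, lower bound -/
theorem top_mass : ∃ X₀ : ℝ, ∀ X H : ℝ, X₀ ≤ X → H ≤ X ^ 3 → ∀ n : ℤ, X ≤ |(n : ℝ)| →
    |(n : ℝ)| < H → X / (8 * H) ≤ mass (Top (X / BB) H n) (TT X) := by
  classical
  obtain ⟨X₁, hX₁⟩ := rising
  have hB0 : (0 : ℝ) < BB := by unfold BB; norm_num
  have herr : Tendsto (fun X : ℝ => (16 * 61 * BB) * (Real.log X / X)) atTop (𝓝 0) := by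
    have h1 := (Real.isLittleO_log_id_atTop).tendsto_div_nhds_zero
    have h2 := h1.const_mul (16 * 61 * BB)
    rw [mul_zero] at h2
    exact h2
  obtain ⟨X₂, hX₂⟩ := eventually_atTop.1 ((herr.eventually (gt_mem_nhds
    (show (0 : ℝ) < 1 / 2 by norm_num))).and ((eventually_gt_atTop (32 * BB)).and
      (Real.tendsto_log_atTop.eventually_ge_atTop 1)))
  refine ⟨max X₁ X₂, fun X H hX hH n hn hnH => ?_⟩
  obtain ⟨hE, hXB, hlog⟩ := hX₂ X ((le_max_right _ _).trans hX)
  have h1 := hX₁ X H ((le_max_left _ _).trans hX) hH n hn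
  have hX0 : 0 < X := by nlinarith
  have hX16 : 16 ≤ X := by
    unfold BB at hXB
    linarith
  have hH0 : 16 < H := by linarith
  set b : ℝ := X / BB with hb
  have hb32 : 32 ≤ b := by
    rw [hb, le_div_iff₀ hB0]
    exact hXB.le
  have hTle := TT_le hlog
  have hloss : ∀ k ≤ TT X, (1 / 2 : ℝ) ≤ (1 - 16 / b) ^ k := by
    intro k hk
    have h2 : 1 - k * (16 / b) ≤ (1 - 16 / b) ^ k := by
      have := one_add_mul_le_pow (a := -(16 / b)) (by
        have : 16 / b ≤ 1 := by
          rw [div_le_one (by linarith)]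
          linarith
        linarith) k
      have h3 : 1 + (k : ℝ) * -(16 / b) = 1 - k * (16 / b) := by ring
      rw [h3] at this
      exact this
    have h3 : (k : ℝ) * (16 / b) ≤ 1 / 2 := by
      have h4 : (k : ℝ) ≤ 61 * Real.log X := by
        have : (k : ℝ) ≤ TT X := by exact_mod_cast hk
        linarith
      have h5 : (k : ℝ) * (16 / b) ≤ 61 * Real.log X * (16 / b) :=
        mul_le_mul_of_nonneg_right h4 (by positivity)
      have h6 : 61 * Real.log X * (16 / b) = (16 * 61 * BB) * (Real.log X / X) := by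
        rw [hb]
        field_simp
      linarith
    linarith
  have hword : ∀ k ∈ range (TT X + 1), ∀ u ∈ (wd 6 k).filter (Top b H n),
      lw G6 chiU n u * (X / (4 * H)) ≤ (((6 : ℕ) : ℝ)⁻¹) ^ k := by
    intro k hk u hu
    rw [Finset.mem_range] at hk
    rw [mem_filter] at hu
    have hul : u.length = k := mem_wd.1 hu.1
    have hT := hu.2
    have h2 := chiU_rel hb32 u n (fun s hs => (hT.2.1 s hs).1)
    rw [hul] at h2
    have h3 := top_run_le hT hH0.le hnH
    have h4 := hloss k (by omega)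
    have hlw := (lw_pos G6 chiU chiU_pos n u).le
    have h5 : (((6 : ℕ) : ℝ)⁻¹) ^ k = (1 / 6) ^ k := by norm_num
    rw [h5]
    have h6 : lw G6 chiU n u * (1 / 2) * X ≤ (1 / 6) ^ k * (2 * H) := by
      calc lw G6 chiU n u * (1 / 2) * X ≤ lw G6 chiU n u * (1 - 16 / b) ^ k * |(n : ℝ)| := by
            apply mul_le_mul _ hn hX0.le (by positivity)
            exact mul_le_mul_of_nonneg_left h4 hlw
        _ ≤ (1 / 6) ^ k * |(run G6 n u : ℝ)| := h2
        _ ≤ _ := mul_le_mul_of_nonneg_left h3 (by positivity)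
    have h7 : lw G6 chiU n u * (X / (4 * H)) = lw G6 chiU n u * (1 / 2) * X / (2 * H) := by
      field_simp
      ring
    rw [h7, div_le_iff₀ (by linarith)]
    exact h6
  unfold mass
  calc X / (8 * H) = 1 / 2 * (X / (4 * H)) := by field_simp; ring
    _ ≤ (∑ k ∈ range (TT X + 1), ∑ u ∈ (wd 6 k).filter (Top b H n), lw G6 chiU n u) *
        (X / (4 * H)) := by
        apply mul_le_mul_of_nonneg_right _ (by positivity)
        refine h1.trans (le_of_eq ?_)
        apply Finset.sum_congr rfl
        intro k _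
        apply Finset.sum_congr _ (fun _ _ => rfl)
        ext a
        simp only [mem_filter, hb]
    _ = ∑ k ∈ range (TT X + 1), ∑ u ∈ (wd 6 k).filter (Top b H n),
          lw G6 chiU n u * (X / (4 * H)) := by
        rw [Finset.sum_mul]
        apply Finset.sum_congr rfl
        intro k _
        rw [Finset.sum_mul]
    _ ≤ ∑ k ∈ range (TT X + 1), ∑ u ∈ (wd 6 k).filter (Top b H n), (((6 : ℕ) : ℝ)⁻¹) ^ k :=
        Finset.sum_le_sum (fun k hk => Finset.sum_le_sum (hword k hk))
    _ = _ := by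
        apply Finset.sum_congr rfl
        intro k _
        rw [Finset.sum_const, nsmul_eq_mul]

open Classical in
/-- the sum of `|v| ^ (-1/2)` over the places of the rising trajectories -/
theorem path_sum : ∃ X₀ : ℝ, ∀ X H : ℝ, X₀ ≤ X → X ≤ H → ∀ n : ℤ, X ≤ |(n : ℝ)| →
    |(n : ℝ)| ≤ 2 * X →
    ∑ k ∈ range (TT X + 1), ∑ w ∈ (wd 6 k).filter (Top (X / BB) H n), (((6 : ℕ) : ℝ)⁻¹) ^ k *
      ∑ i ∈ range k, VV (-(1 / 2)) (run G6 n (w.take i)) ≤
      200 * (X / H) * X ^ (-(1 / 2) : ℝ) := by
  obtain ⟨N, hN⟩ := exists_driftU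
  have hB0 : (0 : ℝ) < BB := by unfold BB; norm_num
  have herr : Tendsto (fun X : ℝ => (16 * 61 * BB) * (Real.log X / X)) atTop (𝓝 0) := by
    have h1 := (Real.isLittleO_log_id_atTop).tendsto_div_nhds_zero
    have h2 := h1.const_mul (16 * 61 * BB)
    rw [mul_zero] at h2
    exact h2
  obtain ⟨X₂, hX₂⟩ := eventually_atTop.1 ((herr.eventually (gt_mem_nhds
    (show (0 : ℝ) < 1 / 2 by norm_num))).and (((eventually_gt_atTop (32 * BB)).and
      (eventually_gt_atTop ((N : ℝ) * BB))).and
      (Real.tendsto_log_atTop.eventually_ge_atTop 1)))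
  refine ⟨X₂, fun X H hX hXH n hn hn2 => ?_⟩
  obtain ⟨hE, ⟨hXB, hXN⟩, hlog⟩ := hX₂ X hX
  have hX0 : 0 < X := by nlinarith
  have hH0 : 0 < H := by linarith
  set b : ℝ := X / BB with hb
  have hb32 : 32 ≤ b := by
    rw [hb, le_div_iff₀ hB0]
    exact hXB.le
  have hNb : (N : ℝ) < b := by
    rw [hb, lt_div_iff₀ hB0]
    exact hXN
  set T := TT X with hT
  have hTle : (T : ℝ) ≤ 61 * Real.log X := TT_le hlog
  have hgain : ∀ k ≤ T, (1 + 16 / b) ^ k ≤ (2 : ℝ) := by
    intro k hk
    have h3 : (k : ℝ) * (16 / b) ≤ 1 / 2 := by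
      have h4 : (k : ℝ) ≤ 61 * Real.log X := by
        have : (k : ℝ) ≤ T := by exact_mod_cast hk
        linarith
      have h5 : (k : ℝ) * (16 / b) ≤ 61 * Real.log X * (16 / b) :=
        mul_le_mul_of_nonneg_right h4 (by positivity)
      have h6 : 61 * Real.log X * (16 / b) = (16 * 61 * BB) * (Real.log X / X) := by
        rw [hb]
        field_simp
      linarith
    have h7 : (1 + 16 / b) ^ k ≤ Real.exp (k * (16 / b)) := by
      rw [Real.exp_nat_mul]
      apply pow_le_pow_left₀ (by positivity)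
      have := Real.add_one_le_exp (16 / b)
      linarith
    have h8 : Real.exp (k * (16 / b)) ≤ Real.exp (1 / 2) := Real.exp_le_exp.2 h3
    have h9 : Real.exp (1 / 2) ≤ 2 := by
      have h10 : Real.exp (1 / 2) * Real.exp (1 / 2) = Real.exp 1 := by
        rw [← Real.exp_add]; norm_num
      have h11 := Real.exp_one_lt_d9
      have h12 := Real.exp_pos (1 / 2)
      nlinarith
    linarith
  -- the functional
  set ψ : List (Fin 6) → ℝ := fun u =>
    if (∀ s ∈ sites G6 n u, (N : ℤ) < |s|) then VV (-(1 / 2)) (run G6 n u) else 0 with hψ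
  have hψ0 : ∀ u, 0 ≤ ψ u := by
    intro u
    rw [hψ]
    simp only
    split_ifs
    · exact (VV_pos _ _).le
    · exact le_rfl
  set F : List (Fin 6) → ℝ := fun w =>
    if Top b H n w then ∑ i ∈ range w.length, VV (-(1 / 2)) (run G6 n (w.take i)) else 0 with hF
  have hF0 : ∀ u, 0 ≤ F u := by
    intro u
    rw [hF]
    simp only
    split_ifs
    · exact Finset.sum_nonneg (fun i _ => (VV_pos _ _).le)
    · exact le_rfl
  -- first step: the weights
  have h1 : ∑ k ∈ range (T + 1), ∑ w ∈ (wd 6 k).filter (Top b H n), (((6 : ℕ) : ℝ)⁻¹) ^ k *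
      ∑ i ∈ range k, VV (-(1 / 2)) (run G6 n (w.take i)) ≤
      4 * (X / H) * ∑ k ∈ range (T + 1), ∑ w ∈ wd 6 k, lw G6 chiU n w * F w := by
    rw [Finset.mul_sum]
    apply Finset.sum_le_sum
    intro k hk
    rw [Finset.mem_range] at hk
    rw [Finset.mul_sum, Finset.sum_filter]
    apply Finset.sum_le_sum
    intro w hw
    have hwl : w.length = k := mem_wd.1 hw
    have hlw := (lw_pos G6 chiU chiU_pos n w).le
    by_cases hTop : Top b H n w
    · have hFw : F w = ∑ i ∈ range k, VV (-(1 / 2)) (run G6 n (w.take i)) := by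
        rw [hF]
        simp only
        rw [if_pos hTop, hwl]
      rw [if_pos hTop, hFw]
      set s₀ := ∑ i ∈ range k, VV (-(1 / 2)) (run G6 n (w.take i)) with hs₀
      have hs₀0 : 0 ≤ s₀ := Finset.sum_nonneg (fun i _ => (VV_pos _ _).le)
      have h2 := chiU_rel' hb32 w n (fun s hs => (hTop.2.1 s hs).1)
      rw [hwl] at h2
      have h3 := hgain k (by omega)
      have h4 : (((6 : ℕ) : ℝ)⁻¹) ^ k = (1 / 6) ^ k := by norm_num
      rw [h4]
      have h5 : (1 / 6 : ℝ) ^ k * H ≤ lw G6 chiU n w * (4 * X) := by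
        calc (1 / 6 : ℝ) ^ k * H ≤ (1 / 6) ^ k * |(run G6 n w : ℝ)| :=
              mul_le_mul_of_nonneg_left hTop.2.2 (by positivity)
          _ ≤ lw G6 chiU n w * (1 + 16 / b) ^ k * |(n : ℝ)| := h2
          _ ≤ lw G6 chiU n w * 2 * (2 * X) := by
              apply mul_le_mul _ hn2 (abs_nonneg _) (by positivity)
              exact mul_le_mul_of_nonneg_left h3 hlw
          _ = _ := by ring
      have h6 : (1 / 6 : ℝ) ^ k ≤ 4 * (X / H) * lw G6 chiU n w := by
        have h7 : 4 * (X / H) * lw G6 chiU n w = lw G6 chiU n w * (4 * X) / H := by ring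
        rw [h7, le_div_iff₀ hH0]
        exact h5
      calc (1 / 6 : ℝ) ^ k * s₀ ≤ 4 * (X / H) * lw G6 chiU n w * s₀ :=
            mul_le_mul_of_nonneg_right h6 hs₀0
        _ = _ := by ring
    · rw [if_neg hTop]
      have := hF0 w
      positivity
  -- second step: extension to words of length `T`
  have h2 : ∑ k ∈ range (T + 1), ∑ w ∈ wd 6 k, lw G6 chiU n w * F w ≤
      ∑ i ∈ range T, ∑ u ∈ wd 6 i, lw G6 chiU n u * ψ u := by
    have e1 : ∀ k ∈ range (T + 1), ∑ w ∈ wd 6 k, lw G6 chiU n w * F w =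
        ∑ w ∈ wd 6 T, lw G6 chiU n w * F (w.take k) := by
      intro k hk
      rw [Finset.mem_range] at hk
      have := lw_prefix_fun G6 chiU chiU_sum F k (T - k) n
      rw [show k + (T - k) = T by omega] at this
      exact this.symm
    have e2 : ∀ i ∈ range T, ∑ u ∈ wd 6 i, lw G6 chiU n u * ψ u =
        ∑ w ∈ wd 6 T, lw G6 chiU n w * ψ (w.take i) := by
      intro i hi
      rw [Finset.mem_range] at hi
      have := lw_prefix_fun G6 chiU chiU_sum ψ i (T - i) n
      rw [show i + (T - i) = T by omega] at this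
      exact this.symm
    rw [Finset.sum_congr rfl e1, Finset.sum_congr rfl e2, Finset.sum_comm,
      Finset.sum_comm (s := range T)]
    apply Finset.sum_le_sum
    intro w hw
    have hwl : w.length = T := mem_wd.1 hw
    rw [← Finset.mul_sum, ← Finset.mul_sum]
    apply mul_le_mul_of_nonneg_left _ (lw_pos G6 chiU chiU_pos n w).le
    -- at most one prefix is a top word
    by_cases hex : ∃ k, k ≤ T ∧ Top b H n (w.take k)
    · obtain ⟨k, hkT, hk⟩ := hex
      have huniq : ∀ k' ∈ range (T + 1), k' ≠ k → F (w.take k') = 0 := by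
        intro k' hk' hne
        rw [Finset.mem_range] at hk'
        rw [hF]
        simp only
        rw [if_neg]
        intro hk2
        rcases Nat.lt_or_gt_of_ne hne with hlt | hlt
        · have h3 := top_prefix hk (j := k') (by
            rw [List.take_take, min_eq_left hlt.le]
            exact hk2)
          rw [List.length_take] at h3
          omega
        · have h3 := top_prefix hk2 (j := k) (by
            rw [List.take_take, min_eq_left hlt.le]
            exact hk)
          rw [List.length_take] at h3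
          omega
      rw [Finset.sum_eq_single k huniq (fun h => absurd (Finset.mem_range.2 (by omega)) h)]
      have hFk : F (w.take k) = ∑ i ∈ range k, VV (-(1 / 2)) (run G6 n (w.take i)) := by
        rw [hF]
        simp only
        rw [if_pos hk, List.length_take, hwl, min_eq_left hkT]
        apply Finset.sum_congr rfl
        intro i hi
        rw [Finset.mem_range] at hi
        rw [List.take_take, min_eq_left (by omega)]
      rw [hFk]
      have h4 : ∀ i ∈ range k, VV (-(1 / 2)) (run G6 n (w.take i)) = ψ (w.take i) := by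
        intro i hi
        rw [Finset.mem_range] at hi
        rw [hψ]
        simp only
        rw [if_pos]
        intro s hs
        rw [sites_eq, List.mem_map] at hs
        obtain ⟨j, hj, rfl⟩ := hs
        rw [List.mem_range, List.length_take] at hj
        rw [List.take_take, min_eq_left (by omega)]
        have h5 : run G6 n (w.take j) ∈ sites G6 n (w.take k) := by
          rw [sites_eq, List.mem_map]
          refine ⟨j, List.mem_range.2 (by rw [List.length_take]; omega), ?_⟩
          rw [List.take_take, min_eq_left (by omega)]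
        have h6 := (hk.2.1 _ h5).1
        have h7 : ((N : ℤ) : ℝ) < ((|run G6 n (w.take j)| : ℤ) : ℝ) := by
          push_cast
          linarith
        exact_mod_cast h7
      rw [Finset.sum_congr rfl h4]
      exact Finset.sum_le_sum_of_subset_of_nonneg (Finset.range_subset_range.2 hkT)
        (fun i _ _ => hψ0 _)
    · have h3 : ∑ k ∈ range (T + 1), F (w.take k) = 0 := by
        apply Finset.sum_eq_zero
        intro k hk
        rw [Finset.mem_range] at hk
        rw [hF]
        simp only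
        rw [if_neg (fun hc => hex ⟨k, by omega, hc⟩)]
      rw [h3]
      exact Finset.sum_nonneg (fun i _ => hψ0 _)
  -- third step: contraction
  have h3 : ∀ i ∈ range T, ∑ u ∈ wd 6 i, lw G6 chiU n u * ψ u ≤
      (97 / 100) ^ i * X ^ (-(1 / 2) : ℝ) := by
    intro i _
    have h4 := good_sum_lw G6 chiU chiU_pos (VV (-(1 / 2))) (κ := 97 / 100) (by norm_num)
      (VV_pos _) (fun y => (N : ℤ) < |y|) hN i n (fun u => ∀ s ∈ sites G6 n u, (N : ℤ) < |s|)
      (fun w hw => hw)
    rw [Finset.sum_filter] at h4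
    have h5 : ∑ u ∈ wd 6 i, lw G6 chiU n u * ψ u ≤ (97 / 100) ^ i * VV (-(1 / 2)) n := by
      refine le_trans (le_of_eq ?_) h4
      apply Finset.sum_congr rfl
      intro u _
      rw [hψ]
      simp only
      rw [mul_ite, mul_zero]
    refine h5.trans ?_
    apply mul_le_mul_of_nonneg_left _ (by positivity)
    unfold VV
    exact Real.rpow_le_rpow_of_nonpos hX0 (by linarith) (by norm_num)
  have h4 : ∑ i ∈ range T, ∑ u ∈ wd 6 i, lw G6 chiU n u * ψ u ≤ 100 / 3 * X ^ (-(1 / 2) : ℝ) := by
    refine (Finset.sum_le_sum h3).trans ?_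
    rw [← Finset.sum_mul]
    apply mul_le_mul_of_nonneg_right _ (by positivity)
    have h3 := (summable_geometric_of_lt_one (show (0 : ℝ) ≤ 97 / 100 by norm_num)
      (by norm_num)).sum_le_tsum (range T) (fun m _ => by positivity)
    rw [tsum_geometric_of_lt_one (by norm_num) (by norm_num)] at h3
    norm_num at h3 ⊢
    linarith
  refine h1.trans ?_
  have hXH0 : 0 ≤ 4 * (X / H) := by positivity
  have hXp : 0 < X ^ (-(1 / 2) : ℝ) := by positivity
  calc 4 * (X / H) * ∑ k ∈ range (T + 1), ∑ w ∈ wd 6 k, lw G6 chiU n w * F w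
      ≤ 4 * (X / H) * (100 / 3 * X ^ (-(1 / 2) : ℝ)) :=
        mul_le_mul_of_nonneg_left (h2.trans h4) hXH0
    _ ≤ _ := by
        have : 0 ≤ (X / H) * X ^ (-(1 / 2) : ℝ) := by positivity
        linarith

end Pool.Agent.Q205.RP
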