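import Mathlib
import Pool.Agent.Q205.RP.Exc2

/-!
# Rising trajectories: the Green function and pairs at two scales
-/

set_option autoImplicit false

open MeasureTheory Finset Filter Topology

namespace Pool.Agent.Q205.RP

theorem back32 : (1 / 2 : ℝ) ^ (3 / 2 : ℝ) + 1 / 3 * (3 / 2) ^ (3 / 2 : ℝ) < 97 / 100 := by
  have e1 : (1 / 2 : ℝ) ^ (3 / 2 : ℝ) = 1 / 2 * Real.sqrt (1 / 2) := by
    rw [show (3 / 2 : ℝ) = 1 + 1 / 2 by norm_num, Real.rpow_add (by norm_num), Real.rpow_one,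
      Real.sqrt_eq_rpow]
  have e2 : (3 / 2 : ℝ) ^ (3 / 2 : ℝ) = 3 / 2 * Real.sqrt (3 / 2) := by
    rw [show (3 / 2 : ℝ) ^ (3 / 2 : ℝ) = (3 / 2 : ℝ) ^ ((1 : ℝ) + 1 / 2) by norm_num,
      Real.rpow_add (by norm_num), Real.rpow_one, Real.sqrt_eq_rpow]
  rw [e1, e2]
  have h1 : Real.sqrt (1 / 2) < 7072 / 10000 := by
    rw [Real.sqrt_lt' (by norm_num)]
    norm_num
  have h2 : Real.sqrt (3 / 2) < 12248 / 10000 := by
    rw [Real.sqrt_lt' (by norm_num)]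
    norm_num
  linarith

/-- the prefixes of rising words -/
def PreU (M : ℕ) (n : ℤ) (u : List (Fin 6)) : Prop := ∀ s ∈ sites G6 n u, (M : ℤ) ≤ |s|

open Classical in
/-- **The Green function.** -/
theorem greenU : ∃ C : ℝ, 0 < C ∧ ∃ M : ℕ, 1 ≤ M ∧ ∀ (X : ℝ) (F : Finset ℤ), 1 ≤ X →
    (∀ n ∈ F, |(n : ℝ)| ≤ 2 * X) → ∀ (T : ℕ) (v : ℤ), (M : ℤ) ≤ |v| →
    ∑ n ∈ F, ∑ j ∈ range T, (((6 : ℕ) : ℝ)⁻¹) ^ j *
      (((wd 6 j).filter (fun u => PreU M n u ∧ run G6 n u = v)).card : ℝ) ≤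
    C * X ^ (3 / 2 : ℝ) * |(v : ℝ)| ^ (-(3 / 2) : ℝ) := by
  obtain ⟨M₀, hM₀⟩ := back_step (s := 3 / 2) (by norm_num) back32
  refine ⟨100 / 3 * (6 ^ (3 / 2 : ℝ) * ((1 / 2) ^ (3 / 2 : ℝ) + (3 / 2) ^ (3 / 2 : ℝ))),
    by positivity, max M₀ 1, le_max_right _ _, fun X F hX hF T v hv => ?_⟩
  set M : ℕ := max M₀ 1 with hM
  have hM₁ : ∀ y : ℤ, (M : ℤ) ≤ |y| → ∀ F : Finset ℤ,
      ∑ n ∈ F, ∑ c : Fin 6, (if G6 n c = y then gB (3 / 2) n else 0) ≤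
        6 * (97 / 100) * gB (3 / 2) y := by
    intro y hy
    apply hM₀ y
    have : (M₀ : ℤ) ≤ M := by exact_mod_cast le_max_left _ _
    omega
  have hX0 : 0 < X := by linarith
  have hv1 : (1 : ℝ) ≤ |(v : ℝ)| := by
    have h1 : (1 : ℤ) ≤ |v| := by
      have : (1 : ℤ) ≤ M := by exact_mod_cast le_max_right _ _
      omega
    have h2 : ((1 : ℤ) : ℝ) ≤ ((|v| : ℤ) : ℝ) := by exact_mod_cast h1
    push_cast at h2
    exact h2
  have hv0 : (0 : ℝ) < |(v : ℝ)| := by linarith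
  -- the weights are bounded below on `F`
  have hg : ∀ n ∈ F, 1 ≤ 6 ^ (3 / 2 : ℝ) * X ^ (3 / 2 : ℝ) * gB (3 / 2) n := by
    intro n hn
    have hn2 := hF n hn
    have h1 : (3 * X) ^ (-(3 / 2) : ℝ) ≤ VV (-(3 / 2)) n := by
      unfold VV
      apply Real.rpow_le_rpow_of_nonpos (by positivity) (by linarith) (by norm_num)
    have h2 : (3 * X) ^ (-(3 / 2) : ℝ) * (1 / 2) ^ (3 / 2 : ℝ) ≤ gB (3 / 2) n := by
      unfold gB
      exact mul_le_mul h1 (psi_ge _ n) (by positivity) (VV_pos _ _).le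
    have h3 : 6 ^ (3 / 2 : ℝ) * X ^ (3 / 2 : ℝ) * ((3 * X) ^ (-(3 / 2) : ℝ) *
        (1 / 2) ^ (3 / 2 : ℝ)) = 1 := by
      have e3 : (6 : ℝ) ^ (3 / 2 : ℝ) * (1 / 2) ^ (3 / 2 : ℝ) = 3 ^ (3 / 2 : ℝ) := by
        rw [← Real.mul_rpow (by norm_num) (by norm_num)]
        norm_num
      have e4 : (3 : ℝ) ^ (3 / 2 : ℝ) * X ^ (3 / 2 : ℝ) = (3 * X) ^ (3 / 2 : ℝ) := by
        rw [← Real.mul_rpow (by norm_num) hX0.le]
      calc _ = ((6 : ℝ) ^ (3 / 2 : ℝ) * (1 / 2) ^ (3 / 2 : ℝ)) * X ^ (3 / 2 : ℝ) *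
            (3 * X) ^ (-(3 / 2) : ℝ) := by ring
        _ = (3 * X) ^ (3 / 2 : ℝ) * (3 * X) ^ (-(3 / 2) : ℝ) := by rw [e3, e4]
        _ = 1 := by
            rw [← Real.rpow_add (by positivity)]
            norm_num
    calc (1 : ℝ) = 6 ^ (3 / 2 : ℝ) * X ^ (3 / 2 : ℝ) * ((3 * X) ^ (-(3 / 2) : ℝ) *
        (1 / 2) ^ (3 / 2 : ℝ)) := h3.symm
      _ ≤ _ := mul_le_mul_of_nonneg_left h2 (by positivity)
  have hgv : gB (3 / 2) v ≤ |(v : ℝ)| ^ (-(3 / 2) : ℝ) *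
      ((1 / 2) ^ (3 / 2 : ℝ) + (3 / 2) ^ (3 / 2 : ℝ)) := by
    unfold gB
    apply mul_le_mul _ (psi_le _ v) (psi_pos _ _).le (by positivity)
    unfold VV
    exact Real.rpow_le_rpow_of_nonpos hv0 (by linarith) (by norm_num)
  have hj : ∀ j ∈ range T, ∑ n ∈ F, (((6 : ℕ) : ℝ)⁻¹) ^ j *
      (((wd 6 j).filter (fun u => PreU M n u ∧ run G6 n u = v)).card : ℝ) ≤
      (97 / 100) ^ j * (6 ^ (3 / 2 : ℝ) * X ^ (3 / 2 : ℝ) * gB (3 / 2) v) := by
    intro j _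
    have h2 := back_iter (by norm_num) hM₁ j v hv F
    have h1 : ∑ n ∈ F, (((6 : ℕ) : ℝ)⁻¹) ^ j *
        (((wd 6 j).filter (fun u => PreU M n u ∧ run G6 n u = v)).card : ℝ) ≤
        (((6 : ℕ) : ℝ)⁻¹) ^ j * (6 ^ (3 / 2 : ℝ) * X ^ (3 / 2 : ℝ) *
          ∑ n ∈ F, gB (3 / 2) n * cntB M j n v) := by
      rw [← Finset.mul_sum]
      apply mul_le_mul_of_nonneg_left _ (by positivity)
      rw [Finset.mul_sum]
      apply Finset.sum_le_sum
      intro n hn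
      have h3 : (((wd 6 j).filter (fun u => PreU M n u ∧ run G6 n u = v)).card : ℝ) =
          cntB M j n v := by
        unfold cntB PreU
        congr!
      rw [h3]
      have h4 := mul_le_mul_of_nonneg_right (hg n hn) (cntB_nonneg M j n v)
      linarith
    refine h1.trans ?_
    calc (((6 : ℕ) : ℝ)⁻¹) ^ j * (6 ^ (3 / 2 : ℝ) * X ^ (3 / 2 : ℝ) *
          ∑ n ∈ F, gB (3 / 2) n * cntB M j n v)
        ≤ (((6 : ℕ) : ℝ)⁻¹) ^ j * (6 ^ (3 / 2 : ℝ) * X ^ (3 / 2 : ℝ) *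
          ((6 * (97 / 100)) ^ j * gB (3 / 2) v)) := by
          apply mul_le_mul_of_nonneg_left _ (by positivity)
          exact mul_le_mul_of_nonneg_left h2 (by positivity)
      _ = _ := by
          have e6 : ((((6 : ℕ) : ℝ)⁻¹)) ^ j * (6 * (97 / 100)) ^ j = (97 / 100) ^ j := by
            rw [← mul_pow]
            norm_num
          calc _ = ((((6 : ℕ) : ℝ)⁻¹)) ^ j * (6 * (97 / 100)) ^ j *
                (6 ^ (3 / 2 : ℝ) * X ^ (3 / 2 : ℝ) * gB (3 / 2) v) := by ring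
            _ = _ := by rw [e6]
  rw [Finset.sum_comm]
  refine (Finset.sum_le_sum hj).trans ?_
  rw [← Finset.sum_mul]
  have hgeom : ∑ j ∈ range T, (97 / 100 : ℝ) ^ j ≤ 100 / 3 := by
    have h3 := (summable_geometric_of_lt_one (show (0 : ℝ) ≤ 97 / 100 by norm_num)
      (by norm_num)).sum_le_tsum (range T) (fun m _ => by positivity)
    rw [tsum_geometric_of_lt_one (by norm_num) (by norm_num)] at h3
    norm_num at h3 ⊢
    linarith
  have hgv0 := gB_pos (3 / 2) v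
  calc (∑ j ∈ range T, (97 / 100 : ℝ) ^ j) * (6 ^ (3 / 2 : ℝ) * X ^ (3 / 2 : ℝ) * gB (3 / 2) v)
      ≤ 100 / 3 * (6 ^ (3 / 2 : ℝ) * X ^ (3 / 2 : ℝ) * (|(v : ℝ)| ^ (-(3 / 2) : ℝ) *
      ((1 / 2) ^ (3 / 2 : ℝ) + (3 / 2) ^ (3 / 2 : ℝ)))) := by
        apply mul_le_mul hgeom _ (by positivity) (by norm_num)
        exact mul_le_mul_of_nonneg_left hgv (by positivity)
    _ = _ := by ring

/-- **Pairs at two scales.** -/
theorem pair_scale : ∃ C : ℝ, 0 < C ∧ ∃ X₀ : ℝ, ∀ X X' H H' : ℝ, X₀ ≤ X' → X' ≤ X → X ≤ H →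
    ∀ n : ℤ, X ≤ |(n : ℝ)| → |(n : ℝ)| ≤ 2 * X → ∀ F : Finset ℤ,
    (∀ n' ∈ F, |(n' : ℝ)| ≤ 2 * X') →
    ∑ n' ∈ F, (P 6).real (Ev G6 (Top (X / BB) H n) n (TT X) ∩
        Ev G6 (Top (X' / BB) H' n') n' (TT X')) ≤
      mass (Top (X / BB) H n) (TT X) * (∑ n' ∈ F, mass (Top (X' / BB) H' n') (TT X')) +
        C * (X' / X) ^ (3 / 2 : ℝ) * (X / H) := by
  classical
  obtain ⟨C, hC, M, hM1, hgreen⟩ := greenU
  obtain ⟨X₁, hX₁⟩ := path_sum
  have hB0 : (0 : ℝ) < BB := by unfold BB; norm_num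
  refine ⟨C * (2 * BB) * 200, by positivity, max (max X₁ 1) (M * BB),
    fun X X' H H' hX' hXX' hXH n hn hn2 F hF => ?_⟩
  have hX'1 : 1 ≤ X' := ((le_max_right _ _).trans (le_max_left _ _)).trans hX'
  have hX'M : M * BB ≤ X' := (le_max_right _ _).trans hX'
  have hX₁X : X₁ ≤ X := (((le_max_left _ _).trans (le_max_left _ _)).trans hX').trans hXX'
  have hX'0 : 0 < X' := by linarith
  have hX0 : 0 < X := by linarith
  have hH0 : 0 < H := by linarith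
  set b := X / BB with hb
  have hbM : (M : ℝ) ≤ b := by
    rw [hb, le_div_iff₀ hB0]
    linarith
  have hb'M : (M : ℝ) ≤ X' / BB := by
    rw [le_div_iff₀ hB0]
    exact hX'M
  have hpath := hX₁ X H hX₁X hXH n hn hn2
  have hpair : ∀ n' ∈ F, (P 6).real (Ev G6 (Top b H n) n (TT X) ∩
        Ev G6 (Top (X' / BB) H' n') n' (TT X')) ≤
      mass (Top b H n) (TT X) * mass (Top (X' / BB) H' n') (TT X') +
      ∑ k ∈ range (TT X + 1), ∑ w ∈ (wd 6 k).filter (Top b H n), (((6 : ℕ) : ℝ)⁻¹) ^ k *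
        ∑ i ∈ range k, ∑ j ∈ range (TT X'), (((6 : ℕ) : ℝ)⁻¹) ^ j *
          (((wd 6 j).filter (fun u => PreU M n' u ∧
            run G6 n' u = run G6 n (w.take i))).card : ℝ) := by
    intro n' _
    exact pair_var G6 n n' (Top b H n) (Top (X' / BB) H' n') (PreU M n') (TT X) (TT X')
      (fun w hw => hw.1) (fun w hw => hw.1) (by
        intro w hw j hj s hs
        rw [sites_eq, List.mem_map] at hs
        obtain ⟨a, ha, rfl⟩ := hs
        rw [List.mem_range, List.length_take] at ha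
        rw [List.take_take, min_eq_left (by omega)]
        have h5 := (hw.2.1 _ (run_take_mem n' w (show a < w.length by omega))).1
        have h6 : ((M : ℤ) : ℝ) ≤ ((|run G6 n' (w.take a)| : ℤ) : ℝ) := by
          push_cast
          linarith
        exact_mod_cast h6)
  refine (Finset.sum_le_sum hpair).trans ?_
  rw [Finset.sum_add_distrib, ← Finset.mul_sum]
  apply add_le_add le_rfl
  rw [Finset.sum_comm]
  -- the Green function at each place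
  have h1 : ∀ k ∈ range (TT X + 1), ∑ n' ∈ F, ∑ w ∈ (wd 6 k).filter (Top b H n),
      (((6 : ℕ) : ℝ)⁻¹) ^ k * ∑ i ∈ range k, ∑ j ∈ range (TT X'), (((6 : ℕ) : ℝ)⁻¹) ^ j *
          (((wd 6 j).filter (fun u => PreU M n' u ∧
            run G6 n' u = run G6 n (w.take i))).card : ℝ) ≤
      ∑ w ∈ (wd 6 k).filter (Top b H n), (((6 : ℕ) : ℝ)⁻¹) ^ k *
        ∑ i ∈ range k, (C * X' ^ (3 / 2 : ℝ) * (2 * BB / X)) *
          VV (-(1 / 2)) (run G6 n (w.take i)) := by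
    intro k _
    rw [Finset.sum_comm]
    apply Finset.sum_le_sum
    intro w hw
    rw [mem_filter] at hw
    have hwl : w.length = k := mem_wd.1 hw.1
    rw [← Finset.mul_sum]
    apply mul_le_mul_of_nonneg_left _ (by positivity)
    rw [Finset.sum_comm]
    apply Finset.sum_le_sum
    intro i hi
    rw [Finset.mem_range] at hi
    set v := run G6 n (w.take i) with hv
    have hvb : b ≤ |(v : ℝ)| := (hw.2.2.1 _ (run_take_mem n w (by omega))).1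
    have hvM : (M : ℤ) ≤ |v| := by
      have h6 : ((M : ℤ) : ℝ) ≤ ((|v| : ℤ) : ℝ) := by
        push_cast
        linarith
      exact_mod_cast h6
    have hM1R : (1 : ℝ) ≤ M := by exact_mod_cast hM1
    have hv1 : 1 ≤ |(v : ℝ)| := by linarith
    have hv0 : 0 < |(v : ℝ)| := by linarith
    refine (hgreen X' F hX'1 hF (TT X') v hvM).trans ?_
    rw [mul_assoc (C * X' ^ (3 / 2 : ℝ))]
    apply mul_le_mul_of_nonneg_left _ (by positivity)
    have e1 : |(v : ℝ)| ^ (-(3 / 2) : ℝ) = |(v : ℝ)|⁻¹ * |(v : ℝ)| ^ (-(1 / 2) : ℝ) := by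
      rw [← Real.rpow_neg_one, ← Real.rpow_add hv0]
      norm_num
    have e2 : |(v : ℝ)|⁻¹ ≤ BB / X := by
      rw [inv_le_comm₀ hv0 (by positivity), inv_div]
      exact hvb
    have e3 : |(v : ℝ)| ^ (-(1 / 2) : ℝ) ≤ 2 * VV (-(1 / 2)) v := by
      unfold VV
      have h7 : (2 * |(v : ℝ)|) ^ (-(1 / 2) : ℝ) ≤ (1 + |(v : ℝ)|) ^ (-(1 / 2) : ℝ) :=
        Real.rpow_le_rpow_of_nonpos (by positivity) (by linarith) (by norm_num)
      rw [Real.mul_rpow (by norm_num) hv0.le] at h7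
      have h8 : (1 / 2 : ℝ) ≤ (2 : ℝ) ^ (-(1 / 2) : ℝ) := by
        calc (1 / 2 : ℝ) = 2 ^ (-1 : ℝ) := by rw [Real.rpow_neg_one]; norm_num
          _ ≤ _ := Real.rpow_le_rpow_of_exponent_le (by norm_num) (by norm_num)
      have h9 : 0 < |(v : ℝ)| ^ (-(1 / 2) : ℝ) := by positivity
      nlinarith
    rw [e1]
    calc |(v : ℝ)|⁻¹ * |(v : ℝ)| ^ (-(1 / 2) : ℝ) ≤ BB / X * (2 * VV (-(1 / 2)) v) :=
          mul_le_mul e2 e3 (by positivity) (by positivity)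
      _ = _ := by ring
  refine (Finset.sum_le_sum h1).trans ?_
  have h2 : ∑ k ∈ range (TT X + 1), ∑ w ∈ (wd 6 k).filter (Top b H n), (((6 : ℕ) : ℝ)⁻¹) ^ k *
        ∑ i ∈ range k, (C * X' ^ (3 / 2 : ℝ) * (2 * BB / X)) *
          VV (-(1 / 2)) (run G6 n (w.take i)) =
      (C * X' ^ (3 / 2 : ℝ) * (2 * BB / X)) *
      ∑ k ∈ range (TT X + 1), ∑ w ∈ (wd 6 k).filter (Top b H n), (((6 : ℕ) : ℝ)⁻¹) ^ k *
        ∑ i ∈ range k, VV (-(1 / 2)) (run G6 n (w.take i)) := by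
    rw [Finset.mul_sum]
    apply Finset.sum_congr rfl
    intro k _
    rw [Finset.mul_sum]
    apply Finset.sum_congr rfl
    intro w _
    rw [← Finset.mul_sum]
    ring
  rw [h2]
  refine (mul_le_mul_of_nonneg_left hpath (by positivity)).trans (le_of_eq ?_)
  have e4 : (X' / X) ^ (3 / 2 : ℝ) = X' ^ (3 / 2 : ℝ) * (X⁻¹ * X ^ (-(1 / 2) : ℝ)) := by
    rw [Real.div_rpow hX'0.le hX0.le, div_eq_mul_inv, ← Real.rpow_neg hX0.le,
      ← Real.rpow_neg_one, ← Real.rpow_add hX0]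
    norm_num
  rw [e4]
  ring

end Pool.Agent.Q205.RP
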