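import Mathlib
import Pool.Agent.Q205.RP.Exc3

/-!
# High excursions infinitely often
-/

set_option autoImplicit false

open MeasureTheory Finset Filter Topology

namespace Pool.Agent.Q205.RP

/-- the scale `[2 ^ j, 2 ^ (j+1))` -/
noncomputable def FJ (j : ℕ) : Finset ℤ := Finset.Ico ((2 : ℤ) ^ j) (2 ^ (j + 1))

theorem card_FJ (j : ℕ) : ((FJ j).card : ℝ) = 2 ^ j := by
  unfold FJ
  rw [Int.card_Ico]
  have h : (2 : ℤ) ^ (j + 1) - 2 ^ j = ((2 ^ j : ℕ) : ℤ) := by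
    push_cast
    ring
  rw [h, Int.toNat_natCast]
  push_cast
  rfl

theorem mem_FJ {j : ℕ} {n : ℤ} (h : n ∈ FJ j) : (2 : ℝ) ^ j ≤ |(n : ℝ)| ∧
    |(n : ℝ)| < 2 ^ (j + 1) ∧ |(n : ℝ)| ≤ 2 * 2 ^ j := by
  unfold FJ at h
  rw [Finset.mem_Ico] at h
  have h1 : (2 : ℝ) ^ j ≤ n := by exact_mod_cast h.1
  have h2 : (n : ℝ) < 2 ^ (j + 1) := by exact_mod_cast h.2
  have h3 : (0 : ℝ) < n := lt_of_lt_of_le (by positivity) h1
  rw [abs_of_pos h3]
  refine ⟨h1, h2, ?_⟩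
  rw [pow_succ] at h2
  linarith

/-- the event for the scale `j` -/
def AJ (H : ℕ → ℝ) (p : (_ : ℕ) × ℤ) : Set (ℤ → Fin 6) :=
  Ev G6 (Top (2 ^ p.1 / BB) (H p.1) p.2) p.2 (TT (2 ^ p.1))

theorem sum_half (J : Finset ℕ) (j : ℕ) :
    ∑ j' ∈ J, (if j' ≤ j then (1 / 2 : ℝ) ^ (j - j') else 0) ≤ 2 := by
  rw [← Finset.sum_filter]
  calc ∑ j' ∈ J.filter (fun j' => j' ≤ j), (1 / 2 : ℝ) ^ (j - j')
      ≤ ∑ j' ∈ range (j + 1), (1 / 2 : ℝ) ^ (j - j') := by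
        apply Finset.sum_le_sum_of_subset_of_nonneg
        · intro a ha
          rw [mem_filter] at ha
          rw [Finset.mem_range]
          omega
        · intro _ _ _
          positivity
    _ = ∑ i ∈ range (j + 1), (1 / 2 : ℝ) ^ i := by
        have := Finset.sum_flip (n := j) (fun i => (1 / 2 : ℝ) ^ i)
        exact this
    _ ≤ 2 := by
        have h3 := (summable_geometric_of_lt_one (show (0 : ℝ) ≤ 1 / 2 by norm_num)
          (by norm_num)).sum_le_tsum (range (j + 1)) (fun m _ => by positivity)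
        rw [tsum_geometric_of_lt_one (by norm_num) (by norm_num)] at h3
        norm_num at h3 ⊢
        exact h3

/-- **No success at the scales in `J`.** -/
theorem no_success : ∃ C : ℝ, 0 < C ∧ ∃ j₁ : ℕ, ∀ (H : ℕ → ℝ) (J : Finset ℕ),
    (∀ j ∈ J, j₁ ≤ j ∧ 2 ^ (j + 1) ≤ H j ∧ H j ≤ 8 ^ j) → J.Nonempty →
    (P 6).real {ω | ∀ p ∈ J.sigma FJ, ω ∉ AJ H p} ≤ C / ∑ j ∈ J, 4 ^ j / H j := by
  classical
  obtain ⟨X₁, hX₁⟩ := top_mass
  obtain ⟨C, hC, X₂, hX₂⟩ := pair_scale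
  obtain ⟨j₁, hj₁⟩ : ∃ j₁ : ℕ, ∀ j : ℕ, j₁ ≤ j → max X₁ X₂ ≤ (2 : ℝ) ^ j := by
    have := (tendsto_pow_atTop_atTop_of_one_lt (show (1 : ℝ) < 2 by norm_num)).eventually_ge_atTop
      (max X₁ X₂)
    exact eventually_atTop.1 this
  refine ⟨256 * C, by positivity, j₁, fun H J hJ hJne => ?_⟩
  have hH0 : ∀ j ∈ J, 0 < H j := fun j hj => lt_of_lt_of_le (by positivity) (hJ j hj).2.1
  set ms : (_ : ℕ) × ℤ → ℝ := fun p =>
    mass (Top ((2 : ℝ) ^ p.1 / BB) (H p.1) p.2) (TT (2 ^ p.1)) with hms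
  have hprob : ∀ p, (P 6).real (AJ H p) = ms p := by
    intro p
    exact Ev_eq G6 _ p.2 _ (fun w hw => hw.1) (fun w j hw hj => top_prefix hw hj)
  set μ : ℕ → ℝ := fun j => ∑ n ∈ FJ j, ms ⟨j, n⟩ with hμ
  have hmass : ∀ j ∈ J, 4 ^ j / H j ≤ 8 * μ j := by
    intro j hj
    obtain ⟨h1, h2, h3⟩ := hJ j hj
    have h4 := hj₁ j h1
    have h5 : ∀ n ∈ FJ j, (2 : ℝ) ^ j / (8 * H j) ≤ ms ⟨j, n⟩ := by
      intro n hn
      obtain ⟨g1, g2, g3⟩ := mem_FJ hn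
      exact hX₁ (2 ^ j) (H j) ((le_max_left _ _).trans h4) (by
        rw [← pow_mul, mul_comm, pow_mul]
        norm_num
        exact h3) n g1 (lt_of_lt_of_le g2 h2)
    have h6 := Finset.sum_le_sum h5
    rw [Finset.sum_const, nsmul_eq_mul, card_FJ] at h6
    have h7 : (2 : ℝ) ^ j * (2 ^ j / (8 * H j)) = 4 ^ j / H j / 8 := by
      have : (4 : ℝ) ^ j = 2 ^ j * 2 ^ j := by rw [← mul_pow]; norm_num
      rw [this]
      have := (hH0 j hj).ne'
      field_simp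
    rw [h7] at h6
    change _ ≤ μ j at h6
    linarith
  have hμ0 : ∀ j ∈ J, 0 < μ j := by
    intro j hj
    have h1 := hmass j hj
    have h2 := hH0 j hj
    have h3 : 0 < (4 : ℝ) ^ j / H j := by positivity
    linarith
  -- the joint probabilities
  set S : ℕ → ℕ → ℝ := fun j j' => ∑ n ∈ FJ j, ∑ n' ∈ FJ j',
    (P 6).real (AJ H ⟨j, n⟩ ∩ AJ H ⟨j', n'⟩) with hS
  have hSsymm : ∀ j j', S j j' = S j' j := by
    intro j j'
    rw [hS]
    simp only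
    rw [Finset.sum_comm]
    apply Finset.sum_congr rfl
    intro n' _
    apply Finset.sum_congr rfl
    intro n _
    rw [Set.inter_comm]
  have hpair : ∀ j ∈ J, ∀ j' ∈ J, j' ≤ j → S j j' ≤ μ j * μ j' + 8 * C *
      ((1 / 2) ^ (j - j') * μ j) := by
    intro j hj j' hj' hle
    obtain ⟨h1, h2, h3⟩ := hJ j hj
    obtain ⟨h1', h2', h3'⟩ := hJ j' hj'
    have h4 := hj₁ j' h1'
    have h5 : ∀ n ∈ FJ j, ∑ n' ∈ FJ j', (P 6).real (AJ H ⟨j, n⟩ ∩ AJ H ⟨j', n'⟩) ≤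
        ms ⟨j, n⟩ * μ j' + C * ((2 : ℝ) ^ j' / 2 ^ j) ^ (3 / 2 : ℝ) * (2 ^ j / H j) := by
      intro n hn
      obtain ⟨g1, g2, g3⟩ := mem_FJ hn
      exact hX₂ (2 ^ j) (2 ^ j') (H j) (H j') ((le_max_right _ _).trans h4)
        (pow_le_pow_right₀ (by norm_num) hle)
        (le_trans (pow_le_pow_right₀ (by norm_num) (Nat.le_succ j)) h2) n g1 g3 (FJ j')
        (fun n' hn' => (mem_FJ hn').2.2)
    have h6 := Finset.sum_le_sum h5
    rw [Finset.sum_add_distrib, ← Finset.sum_mul, Finset.sum_const, nsmul_eq_mul, card_FJ] at h6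
    refine h6.trans ?_
    apply add_le_add le_rfl
    have e1 : (2 : ℝ) ^ j' / 2 ^ j = (1 / 2) ^ (j - j') := by
      rw [one_div_pow, div_eq_div_iff (by positivity) (by positivity), one_mul, ← pow_add]
      congr 1
      omega
    have e2 : ((1 / 2 : ℝ) ^ (j - j')) ^ (3 / 2 : ℝ) ≤ (1 / 2) ^ (j - j') := by
      calc ((1 / 2 : ℝ) ^ (j - j')) ^ (3 / 2 : ℝ) ≤ ((1 / 2 : ℝ) ^ (j - j')) ^ (1 : ℝ) := by
            apply Real.rpow_le_rpow_of_exponent_ge (by positivity) _ (by norm_num)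
            exact pow_le_one₀ (by norm_num) (by norm_num)
        _ = _ := Real.rpow_one _
    have e3 : (2 : ℝ) ^ j * (2 ^ j / H j) = 4 ^ j / H j := by
      have : (4 : ℝ) ^ j = 2 ^ j * 2 ^ j := by rw [← mul_pow]; norm_num
      rw [this]
      ring
    have e4 := hmass j hj
    rw [e1]
    calc (2 : ℝ) ^ j * (C * ((1 / 2 : ℝ) ^ (j - j')) ^ (3 / 2 : ℝ) * (2 ^ j / H j))
        = C * ((1 / 2 : ℝ) ^ (j - j')) ^ (3 / 2 : ℝ) * ((2 : ℝ) ^ j * (2 ^ j / H j)) := by ring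
      _ ≤ C * (1 / 2) ^ (j - j') * (8 * μ j) := by
          rw [e3]
          have h7 := hH0 j hj
          apply mul_le_mul _ e4 (by positivity) (by positivity)
          exact mul_le_mul_of_nonneg_left e2 hC.le
      _ = _ := by ring
  have hpair2 : ∀ j ∈ J, ∀ j' ∈ J, S j j' ≤ μ j * μ j' + 8 * C *
      ((if j' ≤ j then (1 / 2 : ℝ) ^ (j - j') else 0) * μ j +
        (if j ≤ j' then (1 / 2 : ℝ) ^ (j' - j) else 0) * μ j') := by
    intro j hj j' hj'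
    have p1 := hμ0 j hj
    have p2 := hμ0 j' hj'
    rcases le_total j' j with hle | hle
    · have h1 := hpair j hj j' hj' hle
      rw [if_pos hle]
      have h2 : 0 ≤ (if j ≤ j' then (1 / 2 : ℝ) ^ (j' - j) else 0) * μ j' := by
        split_ifs <;> positivity
      nlinarith
    · have h1 := hpair j' hj' j hj hle
      rw [hSsymm, if_pos hle]
      have h2 : 0 ≤ (if j' ≤ j then (1 / 2 : ℝ) ^ (j - j') else 0) * μ j := by
        split_ifs <;> positivity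
      nlinarith
  -- the second moment
  set m : ℝ := ∑ j ∈ J, μ j with hm
  have hm0 : 0 < m := Finset.sum_pos hμ0 hJne
  have hsum1 : ∑ p ∈ J.sigma FJ, (P 6).real (AJ H p) = m := by
    rw [Finset.sum_sigma]
    apply Finset.sum_congr rfl
    intro j _
    apply Finset.sum_congr rfl
    intro n _
    exact hprob _
  have hsum2 : ∑ p ∈ J.sigma FJ, ∑ p' ∈ J.sigma FJ, (P 6).real (AJ H p ∩ AJ H p') ≤
      m ^ 2 + 32 * C * m := by
    have e1 : ∑ p ∈ J.sigma FJ, ∑ p' ∈ J.sigma FJ, (P 6).real (AJ H p ∩ AJ H p') =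
        ∑ j ∈ J, ∑ j' ∈ J, S j j' := by
      rw [Finset.sum_sigma]
      apply Finset.sum_congr rfl
      intro j _
      rw [Finset.sum_comm, Finset.sum_sigma]
      apply Finset.sum_congr rfl
      intro j' _
      rw [Finset.sum_comm]
    rw [e1]
    have e2 : ∑ j ∈ J, ∑ j' ∈ J, S j j' ≤ ∑ j ∈ J, ∑ j' ∈ J, (μ j * μ j' + 8 * C *
      ((if j' ≤ j then (1 / 2 : ℝ) ^ (j - j') else 0) * μ j +
        (if j ≤ j' then (1 / 2 : ℝ) ^ (j' - j) else 0) * μ j')) :=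
      Finset.sum_le_sum (fun j hj => Finset.sum_le_sum (fun j' hj' => hpair2 j hj j' hj'))
    refine e2.trans ?_
    have e3 : ∑ j ∈ J, ∑ j' ∈ J, (μ j * μ j' + 8 * C *
      ((if j' ≤ j then (1 / 2 : ℝ) ^ (j - j') else 0) * μ j +
        (if j ≤ j' then (1 / 2 : ℝ) ^ (j' - j) else 0) * μ j')) =
        m ^ 2 + 8 * C * ((∑ j ∈ J, (∑ j' ∈ J, if j' ≤ j then (1 / 2 : ℝ) ^ (j - j') else 0) * μ j) +
          ∑ j' ∈ J, (∑ j ∈ J, if j ≤ j' then (1 / 2 : ℝ) ^ (j' - j) else 0) * μ j') := by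
      simp only [Finset.sum_add_distrib, mul_add, ← Finset.mul_sum]
      rw [pow_two, hm, Finset.sum_mul_sum]
      congr 1
      · apply Finset.sum_congr rfl
        intro j _
        rw [Finset.mul_sum]
      · congr 1
        · congr 1
          apply Finset.sum_congr rfl
          intro j _
          rw [Finset.sum_mul]
        · congr 1
          rw [Finset.sum_comm]
          apply Finset.sum_congr rfl
          intro j _
          rw [Finset.sum_mul]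
    rw [e3]
    have e4 : ∑ j ∈ J, (∑ j' ∈ J, if j' ≤ j then (1 / 2 : ℝ) ^ (j - j') else 0) * μ j ≤ 2 * m := by
      rw [hm, Finset.mul_sum]
      apply Finset.sum_le_sum
      intro j hj
      exact mul_le_mul_of_nonneg_right (sum_half J j) (hμ0 j hj).le
    nlinarith
  have h1 := second_moment (μ := P 6) (J.sigma FJ) (AJ H) (fun p => measurable_Ev _ _ _ _) hm0
    hsum1 hsum2
  refine h1.trans ?_
  have h2 : ∑ j ∈ J, 4 ^ j / H j ≤ 8 * m := by
    rw [hm, Finset.mul_sum]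
    exact Finset.sum_le_sum hmass
  have h3 : 0 < ∑ j ∈ J, 4 ^ j / H j := by
    apply Finset.sum_pos _ hJne
    intro j hj
    have := hH0 j hj
    positivity
  rw [div_le_div_iff₀ (by positivity) h3]
  have h4 := mul_le_mul_of_nonneg_left h2 (show 0 ≤ 32 * C * m by positivity)
  calc 32 * C * m * ∑ j ∈ J, 4 ^ j / H j ≤ 32 * C * m * (8 * m) := h4
    _ = _ := by ring

/-- **High excursions infinitely often.** -/
theorem low_ae (H : ℕ → ℝ) (good : ℕ → Prop) (hH1 : ∀ j, good j → 2 ^ (j + 1) ≤ H j)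
    (hH2 : ∀ j, good j → H j ≤ 8 ^ j)
    (hdiv : ∀ (j₀ : ℕ) (K : ℝ), ∃ J : Finset ℕ, (∀ j ∈ J, j₀ ≤ j ∧ good j) ∧
      K ≤ ∑ j ∈ J, 4 ^ j / H j) :
    ∀ᵐ ω ∂P 6, ∀ j₀ : ℕ, ∃ j, j₀ ≤ j ∧ good j ∧ ∃ n ∈ FJ j, ∃ k : ℕ,
      H j ≤ |(((Tn G6 ω)^[k] n : ℤ) : ℝ)| := by
  classical
  rw [ae_all_iff]
  intro j₀
  obtain ⟨C, hC, j₁, hmain⟩ := no_success
  rw [ae_iff]
  set B : Set (ℤ → Fin 6) := {ω | ¬ ∃ j, j₀ ≤ j ∧ good j ∧ ∃ n ∈ FJ j, ∃ k : ℕ,
      H j ≤ |(((Tn G6 ω)^[k] n : ℤ) : ℝ)|} with hB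
  have h1 : ∀ ε : ℝ, 0 < ε → (P 6).real B ≤ ε := by
    intro ε hε
    obtain ⟨J, hJ, hK⟩ := hdiv (max j₀ j₁) (max (C / ε) 1)
    have hsum1 : (1 : ℝ) ≤ ∑ j ∈ J, 4 ^ j / H j := (le_max_right _ _).trans hK
    have hsum2 : C / ε ≤ ∑ j ∈ J, 4 ^ j / H j := (le_max_left _ _).trans hK
    have hne : J.Nonempty := by
      rw [Finset.nonempty_iff_ne_empty]
      rintro rfl
      rw [Finset.sum_empty] at hsum1
      linarith
    have h2 := hmain H J (fun j hj => ⟨(le_max_right _ _).trans (hJ j hj).1,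
      hH1 j (hJ j hj).2, hH2 j (hJ j hj).2⟩) hne
    have hsub : B ⊆ {ω | ∀ p ∈ J.sigma FJ, ω ∉ AJ H p} := by
      intro ω hω p hp hA
      apply hω
      obtain ⟨j, n⟩ := p
      rw [Finset.mem_sigma] at hp
      obtain ⟨k, _, hk⟩ := hA
      refine ⟨j, (le_max_left _ _).trans (hJ j hp.1).1, (hJ j hp.1).2, n, hp.2, k, ?_⟩
      have := hk.2.2
      rw [run_word] at this
      exact this
    refine (measureReal_mono hsub (measure_ne_top _ _)).trans (h2.trans ?_)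
    rw [div_le_iff₀ (by linarith)]
    rw [div_le_iff₀ hε] at hsum2
    linarith
  have h2 : (P 6).real B ≤ 0 := le_of_forall_pos_le_add (fun ε hε => by
    rw [zero_add]; exact h1 ε hε)
  have h3 : (P 6).real B = 0 := le_antisymm h2 measureReal_nonneg
  rw [measureReal_eq_zero_iff (measure_ne_top _ _)] at h3
  exact h3

end Pool.Agent.Q205.RP
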