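import Mathlib
import Pool.Agent.Q205.RP.Six
import Pool.Agent.Q205.RP.Traj
import Pool.Agent.Q205.RP.Exact

/-!
# High excursions: the upper bound
-/

set_option autoImplicit false

open MeasureTheory Finset Filter Topology

namespace Pool.Agent.Q205.RP

/-- words which end at the first place of size at least `H` -/
def Fp {d : ℕ} (G : ℤ → Fin d → ℤ) (H : ℝ) (n : ℤ) (w : List (Fin d)) : Prop :=
  (∀ s ∈ sites G n w, |(s : ℝ)| < H) ∧ H ≤ |(run G n w : ℝ)|

open Classical in
/-- first passage sums -/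
theorem fp_sum {d : ℕ} (G : ℤ → Fin d → ℤ) (V u : ℤ → ℝ) (hV : ∀ x, 0 < V x) (hu : ∀ x, 0 < u x)
    (h : ∀ x, ∑ c, V (G x c) ≤ u x * V x) (H : ℝ) (L : ℕ) (x : ℤ) :
    ∑ k ∈ range (L + 1), ∑ w ∈ wd d k,
      (if Fp G H x w then V (run G x w) / ((sites G x w).map u).prod else 0) ≤ V x := by
  induction L generalizing x with
  | zero =>
    simp only [zero_add, Finset.sum_range_one, wd, Finset.sum_singleton, run, sites, List.map_nil,
      List.prod_nil, div_one]
    split_ifs
    · exact le_rfl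
    · exact (hV x).le
  | succ L ih =>
    rw [Finset.sum_range_succ']
    by_cases hx : H ≤ |(x : ℝ)|
    · have h1 : ∑ k ∈ range (L + 1), ∑ w ∈ wd d (k + 1),
          (if Fp G H x w then V (run G x w) / ((sites G x w).map u).prod else 0) = 0 := by
        apply Finset.sum_eq_zero
        intro k _
        rw [sum_wd_succ]
        apply Finset.sum_eq_zero
        intro c _
        apply Finset.sum_eq_zero
        intro w _
        rw [if_neg]
        rintro ⟨h2, _⟩
        have h3 := h2 x (by simp [sites])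
        linarith
      rw [h1, zero_add]
      simp only [wd, Finset.sum_singleton, run, sites, List.map_nil, List.prod_nil, div_one]
      split_ifs
      · exact le_rfl
      · exact (hV x).le
    · have h1 : ∑ w ∈ wd d 0,
          (if Fp G H x w then V (run G x w) / ((sites G x w).map u).prod else 0) = 0 := by
        simp only [wd, Finset.sum_singleton]
        rw [if_neg]
        rintro ⟨_, h2⟩
        exact hx h2
      rw [h1, add_zero]
      have h2 : ∀ k, ∑ w ∈ wd d (k + 1),
          (if Fp G H x w then V (run G x w) / ((sites G x w).map u).prod else 0) =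
          ∑ c : Fin d, (∑ w ∈ wd d k, (if Fp G H (G x c) w then
            V (run G (G x c) w) / ((sites G (G x c) w).map u).prod else 0)) / u x := by
        intro k
        rw [sum_wd_succ]
        apply Finset.sum_congr rfl
        intro c _
        rw [Finset.sum_div]
        apply Finset.sum_congr rfl
        intro w _
        by_cases h3 : Fp G H (G x c) w
        · rw [if_pos h3, if_pos]
          · simp only [run, sites, List.map_cons, List.prod_cons]
            rw [mul_comm (u x), div_mul_eq_div_div]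
          · refine ⟨?_, h3.2⟩
            intro s hs
            simp only [sites, List.mem_cons] at hs
            rcases hs with rfl | hs
            · exact not_le.1 hx
            · exact h3.1 s hs
        · rw [if_neg h3, if_neg, zero_div]
          rintro ⟨h4, h5⟩
          exact h3 ⟨fun s hs => h4 s (by simp [sites, hs]), h5⟩
      rw [Finset.sum_congr rfl (fun k _ => h2 k), Finset.sum_comm]
      have h3 : ∀ c : Fin d, ∑ k ∈ range (L + 1), (∑ w ∈ wd d k, (if Fp G H (G x c) w then
            V (run G (G x c) w) / ((sites G (G x c) w).map u).prod else 0)) / u x ≤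
          V (G x c) / u x := by
        intro c
        rw [← Finset.sum_div]
        exact div_le_div_of_nonneg_right (ih _) (hu x).le
      refine (Finset.sum_le_sum (fun c _ => h3 c)).trans ?_
      rw [← Finset.sum_div, div_le_iff₀ (hu x), mul_comm]
      exact h x

/-- the word read until the first passage has distinct sites -/
theorem first_passage {d : ℕ} (G : ℤ → Fin d → ℤ) (ω : ℤ → Fin d) (H : ℝ) (x : ℤ)
    (h : ∃ k : ℕ, H ≤ |(((Tn G ω)^[k] x : ℤ) : ℝ)|) :
    ∃ k : ℕ, (sites G x (word G ω x k)).Nodup ∧ Fp G H x (word G ω x k) := by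
  classical
  set k := Nat.find h with hk
  have h1 : H ≤ |(((Tn G ω)^[k] x : ℤ) : ℝ)| := Nat.find_spec h
  have h2 : ∀ j < k, |(((Tn G ω)^[j] x : ℤ) : ℝ)| < H := fun j hj => by
    have := Nat.find_min h hj
    exact not_le.1 this
  refine ⟨k, ?_, ?_, ?_⟩
  · by_contra hcon
    obtain ⟨i, j, hij, hjk, heq⟩ := exists_of_not_nodup G ω x k hcon
    have h3 : (Tn G ω)^[k - j + i] x = (Tn G ω)^[k] x := by
      rw [Function.iterate_add_apply, heq, ← Function.iterate_add_apply]
      congr 1
      omega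
    have h4 := h2 (k - j + i) (by omega)
    rw [h3] at h4
    linarith
  · intro s hs
    rw [sites_word, List.mem_map] at hs
    obtain ⟨j, hj, rfl⟩ := hs
    exact h2 j (List.mem_range.1 hj)
  · rw [run_word]
    exact h1

/-- **The probability of a high excursion.** -/
theorem reach_le {d : ℕ} [NeZero d] (G : ℤ → Fin d → ℤ) (V : ℤ → ℝ) (hV : ∀ x, 0 < V x)
    (A : Finset ℤ) (h : ∀ x, x ∉ A → ∑ c, V (G x c) ≤ d * V x)
    (hV1 : ∀ x : ℤ, |(x : ℝ)| ≤ V x) {H : ℝ} (hH : 0 < H) (x : ℤ) :
    P d {ω | ∃ k : ℕ, H ≤ |(((Tn G ω)^[k] x : ℤ) : ℝ)|} ≤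
      ENNReal.ofReal (cA G V d A * V x / H) := by
  classical
  have hd : (0 : ℝ) < d := by
    have := NeZero.pos d
    exact_mod_cast this
  have hc := cA_ge G V hd A
  set S : ℕ → ℝ := fun k => (((wd d k).filter (fun w => (sites G x w).Nodup ∧ Fp G H x w)).card : ℝ)
    * ((d : ℝ)⁻¹) ^ k with hS
  have h1 : {ω | ∃ k : ℕ, H ≤ |(((Tn G ω)^[k] x : ℤ) : ℝ)|} ⊆
      ⋃ k : ℕ, {ω | (sites G x (word G ω x k)).Nodup ∧ Fp G H x (word G ω x k)} := by
    intro ω hω
    rw [Set.mem_iUnion]
    exact first_passage G ω H x hω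
  have h2 : ∀ k, P d {ω | (sites G x (word G ω x k)).Nodup ∧ Fp G H x (word G ω x k)} ≤
      ENNReal.ofReal (S k) := by
    intro k
    apply meas_le_real G x k
    rw [hS]
    simp only
    rw [mul_assoc, ← mul_pow, inv_mul_cancel₀ hd.ne', one_pow, mul_one]
  have hS0 : ∀ k, 0 ≤ S k := fun k => by
    rw [hS]
    positivity
  have h3 : ∀ L : ℕ, ∑ k ∈ range L, S k ≤ cA G V d A * V x / H := by
    intro L
    rw [le_div_iff₀ hH]
    have h4 := fp_sum G V (uu G V d) hV (uu_pos G V hd) (uu_spec G V d hV) H L x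
    have h5 : ∀ k, S k * H ≤ cA G V d A * ∑ w ∈ wd d k,
      (if Fp G H x w then V (run G x w) / ((sites G x w).map (uu G V d)).prod else 0) := by
      intro k
      rw [← Finset.sum_filter, Finset.mul_sum]
      have hpp : ∀ w, 0 < ((sites G x w).map (uu G V d)).prod := by
        intro w
        apply List.prod_pos
        intro y hy
        rw [List.mem_map] at hy
        obtain ⟨s, _, rfl⟩ := hy
        exact uu_pos G V hd s
      calc S k * H = ∑ _w ∈ (wd d k).filter (fun w => (sites G x w).Nodup ∧ Fp G H x w),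
            ((d : ℝ)⁻¹) ^ k * H := by
            rw [Finset.sum_const, nsmul_eq_mul, hS]
            ring
        _ ≤ ∑ w ∈ (wd d k).filter (fun w => (sites G x w).Nodup ∧ Fp G H x w),
            cA G V d A * (V (run G x w) / ((sites G x w).map (uu G V d)).prod) := by
            apply Finset.sum_le_sum
            intro w hw
            rw [mem_filter] at hw
            have h6 := prod_nodup_le (uu G V d) hd (fun x => le_max_left _ _) A
              (fun x hx => uu_good G V d hV (h x hx)) (sites G x w) hw.2.1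
            rw [length_sites, mem_wd.1 hw.1] at h6
            change ((sites G x w).map (uu G V d)).prod ≤ cA G V d A * (d : ℝ) ^ k at h6
            have h7 : H ≤ V (run G x w) := hw.2.2.2.trans (hV1 _)
            rw [mul_div_assoc', le_div_iff₀ (hpp w)]
            have h8 : (0 : ℝ) < ((d : ℝ)⁻¹) ^ k := by positivity
            calc ((d : ℝ)⁻¹) ^ k * H * ((sites G x w).map (uu G V d)).prod
                ≤ ((d : ℝ)⁻¹) ^ k * H * (cA G V d A * (d : ℝ) ^ k) :=
                  mul_le_mul_of_nonneg_left h6 (by positivity)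
              _ = cA G V d A * H * ((d : ℝ)⁻¹ * d) ^ k := by rw [mul_pow]; ring
              _ = cA G V d A * H := by rw [inv_mul_cancel₀ hd.ne', one_pow, mul_one]
              _ ≤ cA G V d A * V (run G x w) :=
                  mul_le_mul_of_nonneg_left h7 (by linarith)
        _ ≤ _ := by
            apply Finset.sum_le_sum_of_subset_of_nonneg
            · intro w hw
              rw [mem_filter] at hw ⊢
              exact ⟨hw.1, hw.2.2⟩
            · intro w _ _
              have := hpp w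
              have := hV (run G x w)
              have : 0 < cA G V d A := by linarith
              positivity
    rw [Finset.sum_mul]
    calc ∑ k ∈ range L, S k * H ≤ ∑ k ∈ range (L + 1), S k * H := by
          rw [Finset.sum_range_succ]
          have := mul_nonneg (hS0 L) hH.le
          linarith
      _ ≤ ∑ k ∈ range (L + 1), cA G V d A * ∑ w ∈ wd d k,
          (if Fp G H x w then V (run G x w) / ((sites G x w).map (uu G V d)).prod else 0) :=
          Finset.sum_le_sum (fun k _ => h5 k)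
      _ ≤ cA G V d A * V x := by
          rw [← Finset.mul_sum]
          exact mul_le_mul_of_nonneg_left h4 (by linarith)
  refine (measure_mono h1).trans ((measure_iUnion_le _).trans ((ENNReal.tsum_le_tsum h2).trans ?_))
  apply ENNReal.tsum_le_of_sum_range_le
  intro L
  rw [← ENNReal.ofReal_sum_of_nonneg (fun k _ => hS0 k)]
  exact ENNReal.ofReal_le_ofReal (h3 L)

/-- the Lyapunov function of critical growth -/
noncomputable def VC (x : ℤ) : ℝ := VV 1 x + VV (1 / 2) x

theorem VC_pos (x : ℤ) : 0 < VC x := add_pos (VV_pos _ _) (VV_pos _ _)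

theorem VC_ge (x : ℤ) : |(x : ℝ)| ≤ VC x := by
  have h1 := VV_pos (1 / 2) x
  unfold VC
  have h2 : VV 1 x = 1 + |(x : ℝ)| := by unfold VV; rw [Real.rpow_one]
  linarith

theorem VC_le (x : ℤ) : VC x ≤ 2 * (1 + |(x : ℝ)|) := by
  unfold VC VV
  rw [Real.rpow_one]
  have h1 : (1 + |(x : ℝ)|) ^ (1 / 2 : ℝ) ≤ (1 + |(x : ℝ)|) ^ (1 : ℝ) := by
    apply Real.rpow_le_rpow_of_exponent_le _ (by norm_num)
    linarith [abs_nonneg (x : ℝ)]
  rw [Real.rpow_one] at h1
  linarith

theorem super6 : ∃ N : ℕ, ∀ x : ℤ, (N : ℤ) < |x| → ∑ c, VC (G6 x c) ≤ (6 : ℕ) * VC x := by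
  obtain ⟨N, hN⟩ := drift6' (1 / 2) (5.82) (by
    have e1 : (1 / 2 : ℝ) ^ (1 / 2 : ℝ) = Real.sqrt (1 / 2) := by
      rw [Real.sqrt_eq_rpow]
    have e2 : (3 / 2 : ℝ) ^ (1 / 2 : ℝ) = Real.sqrt (3 / 2) := by
      rw [Real.sqrt_eq_rpow]
    rw [e1, e2]
    have h1 : Real.sqrt (1 / 2) < 7072 / 10000 := by
      rw [Real.sqrt_lt' (by norm_num)]
      norm_num
    have h2 : Real.sqrt (3 / 2) < 12248 / 10000 := by
      rw [Real.sqrt_lt' (by norm_num)]
      norm_num
    norm_num at h1 h2 ⊢
    linarith)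
  refine ⟨max N 72000, fun x hx => ?_⟩
  have hx1 : (N : ℤ) < |x| := lt_of_le_of_lt (by exact_mod_cast le_max_left _ _) hx
  have hx2 : (72000 : ℤ) < |x| := lt_of_le_of_lt (by exact_mod_cast le_max_right _ _) hx
  have hx3 : (72000 : ℝ) < |(x : ℝ)| := by exact_mod_cast hx2
  have h1 := hN x hx1
  have h2 : ∑ c, VV 1 (G6 x c) ≤ 6 * VV 1 x + 48 := by
    have h3 : ∀ c : Fin 6, VV 1 (G6 x c) ≤ (if (x + ((c : ℕ) : ℤ)) % 2 = 0 then
        (1 + 1 / 2 * |(x : ℝ)| + 8) else (1 + 3 / 2 * |(x : ℝ)| + 8)) := by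
      intro c
      unfold VV
      rw [Real.rpow_one]
      split_ifs with hp
      · have := (abs_le.1 (even_size hp)).2
        linarith
      · have := (abs_le.1 (odd_size hp)).2
        linarith
    refine (Finset.sum_le_sum (fun c _ => h3 c)).trans ?_
    rw [sum_parity]
    unfold VV
    rw [Real.rpow_one]
    linarith
  have h4 : 48 ≤ (6 - 5.82) * VV (1 / 2) x := by
    have h5 : (267 : ℝ) ≤ VV (1 / 2) x := by
      unfold VV
      rw [← Real.sqrt_eq_rpow]
      apply Real.le_sqrt_of_sq_le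
      linarith
    linarith
  unfold VC
  rw [Finset.sum_add_distrib]
  push_cast
  linarith

/-- **Excursions above `H`.** -/
theorem reach6 : ∃ C : ℝ, 0 < C ∧ ∀ (H : ℝ) (x : ℤ), 0 < H →
    P 6 {ω | ∃ k : ℕ, H ≤ |(((Tn G6 ω)^[k] x : ℤ) : ℝ)|} ≤
      ENNReal.ofReal (C * (1 + |(x : ℝ)|) / H) := by
  obtain ⟨N, hN⟩ := super6
  have hc := cA_ge G6 VC (κ := ((6 : ℕ) : ℝ)) (by norm_num) (ball N)
  refine ⟨2 * cA G6 VC ((6 : ℕ) : ℝ) (ball N), by linarith, fun H x hH => ?_⟩
  refine (reach_le G6 VC VC_pos (ball N) (fun x hx => hN x (by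
    rw [mem_ball, not_le] at hx
    exact hx)) VC_ge hH x).trans ?_
  apply ENNReal.ofReal_le_ofReal
  apply div_le_div_of_nonneg_right _ hH.le
  have := mul_le_mul_of_nonneg_left (VC_le x) (show 0 ≤ cA G6 VC ((6 : ℕ) : ℝ) (ball N) by linarith)
  linarith

/-- **The upper bound.** -/
theorem up_ae (f : ℕ → ℝ) (hf : Monotone f) (hf0 : ∀ n, 0 < f n)
    (hsum : Summable (fun j : ℕ => (f (2 ^ j))⁻¹)) :
    ∀ᵐ ω ∂P 6, ∃ N : ℕ, ∀ n : ℕ, N ≤ n → ∀ k : ℕ,
      |(((Tn G6 ω)^[k] (n : ℤ) : ℤ) : ℝ)| ≤ (n : ℝ) ^ 2 * f n := by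
  obtain ⟨C, hC, hreach⟩ := reach6
  have h1 : Summable (fun n : ℕ => ((n : ℝ) * f n)⁻¹) := by
    rw [← summable_condensed_iff_of_nonneg]
    · refine hsum.congr (fun j => ?_)
      push_cast
      have := hf0 (2 ^ j)
      field_simp
    · intro n
      have := hf0 n
      positivity
    · intro m n hm hmn
      have h2 := hf hmn
      have h3 := hf0 m
      have h4 : (0 : ℝ) < m := by exact_mod_cast hm
      have h5 : (m : ℝ) ≤ n := by exact_mod_cast hmn
      apply inv_anti₀ (by positivity)
      exact mul_le_mul h5 h2 h3.le (by linarith)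
  have h2 := bc (μ := P 6) (fun n : ℕ => {ω | 1 ≤ n ∧ ∃ k : ℕ,
    (n : ℝ) ^ 2 * f n ≤ |(((Tn G6 ω)^[k] (n : ℤ) : ℤ) : ℝ)|}) (fun n => 2 * C * ((n : ℝ) * f n)⁻¹)
    (h1.mul_left _) (by
      intro n
      rcases Nat.eq_zero_or_pos n with hn | hn
      · have : {ω : ℤ → Fin 6 | 1 ≤ n ∧ ∃ k : ℕ,
          (n : ℝ) ^ 2 * f n ≤ |(((Tn G6 ω)^[k] (n : ℤ) : ℤ) : ℝ)|} = ∅ := by
          ext ω
          simp only [Set.mem_ofPred_eq, Set.mem_empty_iff_false, iff_false]
          rintro ⟨h3, _⟩
          omega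
        rw [this, measure_empty]
        exact zero_le
      · have hnR : (1 : ℝ) ≤ n := by exact_mod_cast hn
        have h3 := hf0 n
        refine (measure_mono (fun ω hω => hω.2)).trans ((hreach ((n : ℝ) ^ 2 * f n) n
          (by positivity)).trans ?_)
        apply ENNReal.ofReal_le_ofReal
        have h4 : |(((n : ℤ)) : ℝ)| = n := by
          push_cast
          exact abs_of_nonneg (by positivity)
        rw [h4, div_le_iff₀ (by positivity)]
        have h5 : 2 * C * ((n : ℝ) * f n)⁻¹ * ((n : ℝ) ^ 2 * f n) = 2 * C * n := by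
          field_simp
        rw [h5]
        nlinarith)
  filter_upwards [h2] with ω hω
  obtain ⟨M, hM⟩ : ∃ M : ℕ, ∀ n ∈ hω.toFinset, n ≤ M :=
    ⟨hω.toFinset.sup id, fun n hn => Finset.le_sup (f := id) hn⟩
  refine ⟨M + 1, fun n hn k => ?_⟩
  by_contra hcon
  rw [not_le] at hcon
  have := hM n (by
    rw [Set.Finite.mem_toFinset]
    exact ⟨by omega, k, hcon.le⟩)
  omega

end Pool.Agent.Q205.RP
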