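import Mathlib
import Pool.Agent.Q205.RP.Exc4
import Pool.Agent.Q205.RP.Exc5

/-!
# The integral test
-/

set_option autoImplicit false

open MeasureTheory Finset Filter Topology

namespace Pool.Agent.Q205.RP

theorem pos_step (ω : ℤ → Fin 6) {x : ℤ} (hx : 1 ≤ x) : 1 ≤ Tn G6 ω x := by
  have ha : (0 : ℤ) ≤ (((ω x : Fin 6) : ℕ) : ℤ) := by positivity
  unfold Tn G6 tab
  split_ifs <;> omega

theorem pos_iter (ω : ℤ → Fin 6) {x : ℤ} (hx : 1 ≤ x) (k : ℕ) : 1 ≤ (Tn G6 ω)^[k] x := by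
  induction k with
  | zero => simpa using hx
  | succ k ih =>
    rw [Function.iterate_succ_apply']
    exact pos_step ω ih

/-- the non summable part -/
theorem not_summable_good (F : ℕ → ℝ) (hF1 : ∀ j, 1 ≤ F j) (hF : ¬ Summable (fun j => (F j)⁻¹))
    (j₀ : ℕ) (K : ℝ) : ∃ J : Finset ℕ, (∀ j ∈ J, j₀ ≤ j ∧ (F j ≤ (j : ℝ) ^ 2 ∧
      4 * (j : ℝ) ^ 2 ≤ 2 ^ j)) ∧ K ≤ ∑ j ∈ J, (F j)⁻¹ := by
  classical
  have hF0 : ∀ j, 0 < F j := fun j => lt_of_lt_of_le one_pos (hF1 j)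
  obtain ⟨j₁, hj₁⟩ : ∃ j₁ : ℕ, ∀ j : ℕ, j₁ ≤ j → 4 * (j : ℝ) ^ 2 ≤ 2 ^ j := by
    have h1 := tendsto_pow_const_mul_const_pow_of_abs_lt_one 2
      (show |(1 / 2 : ℝ)| < 1 by rw [abs_of_pos (by norm_num)]; norm_num)
    have h2 := h1.eventually (gt_mem_nhds (show (0 : ℝ) < 1 / 4 by norm_num))
    obtain ⟨j₁, hj₁⟩ := eventually_atTop.1 h2
    refine ⟨j₁, fun j hj => ?_⟩
    have h3 := hj₁ j hj
    rw [one_div_pow, ← div_eq_mul_one_div, div_lt_iff₀ (by positivity)] at h3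
    linarith
  set good : ℕ → Prop := fun j => j₀ ≤ j ∧ (F j ≤ (j : ℝ) ^ 2 ∧ 4 * (j : ℝ) ^ 2 ≤ 2 ^ j) with hgood
  set a : ℕ → ℝ := fun j => if good j then (F j)⁻¹ else 0 with ha
  have ha0 : ∀ j, 0 ≤ a j := fun j => by
    rw [ha]
    simp only
    split_ifs
    · have := hF0 j
      positivity
    · exact le_rfl
  have hns : ¬ Summable a := by
    intro hs
    apply hF
    have h1 : Summable (fun j : ℕ => ((j : ℝ) ^ 2)⁻¹) := by
      simp
    have h2 : Summable (fun j : ℕ => if j < max j₀ j₁ then (1 : ℝ) else 0) := by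
      apply summable_of_ne_finset_zero (s := range (max j₀ j₁))
      intro j hj
      rw [Finset.mem_range] at hj
      rw [if_neg hj]
    apply Summable.of_nonneg_of_le (fun j => ?_) (fun j => ?_) ((hs.add h1).add h2)
    · have := hF0 j
      positivity
    · have e1 := ha0 j
      have e2 : (0 : ℝ) ≤ ((j : ℝ) ^ 2)⁻¹ := by positivity
      by_cases h3 : j < max j₀ j₁
      · rw [if_pos h3]
        have h4 : (F j)⁻¹ ≤ 1 := inv_le_one_of_one_le₀ (hF1 j)
        linarith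
      · rw [if_neg h3, add_zero]
        rw [not_lt, max_le_iff] at h3
        by_cases h5 : F j ≤ (j : ℝ) ^ 2
        · have h6 : a j = (F j)⁻¹ := by
            rw [ha]
            simp only
            rw [if_pos ⟨h3.1, h5, hj₁ j h3.2⟩]
          rw [h6]
          linarith
        · rw [not_le] at h5
          rcases Nat.eq_zero_or_pos j with hj0 | hj0
          · subst hj0
            -- then `j₀ = j₁ = 0`
            have h7 := hj₁ 0 h3.2
            have h8 : ((0 : ℕ) : ℝ) ^ 2 = 0 := by norm_num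
            have h9 := hF1 0
            -- `a 0 = 0`, so we need another bound
            exfalso
            have h10 := hj₁ 1 (by omega)
            norm_num at h10
          · have h6 : (0 : ℝ) < (j : ℝ) ^ 2 := by positivity
            have h7 := inv_anti₀ h6 h5.le
            linarith
  have h1 := (not_summable_iff_tendsto_nat_atTop_of_nonneg ha0).1 hns
  obtain ⟨n, hn⟩ := (h1.eventually_ge_atTop K).exists
  refine ⟨(range n).filter good, fun j hj => (mem_filter.1 hj).2, ?_⟩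
  rw [Finset.sum_filter]
  exact hn

/-- **The lower bound.** -/
theorem down_ae (f : ℕ → ℝ) (hf : Monotone f)
    (hsum : ¬ Summable (fun j : ℕ => (f (2 ^ j))⁻¹)) :
    ∀ᵐ ω ∂P 6, ∀ N : ℕ, ∃ n : ℕ, N ≤ n ∧ ∃ k : ℕ,
      (n : ℝ) ^ 2 * f n < (((Tn G6 ω)^[k] (n : ℤ) : ℤ) : ℝ) := by
  set F : ℕ → ℝ := fun j => max (f (2 ^ (j + 1))) 1 with hF
  have hF1 : ∀ j, 1 ≤ F j := fun j => le_max_right _ _
  have hF0 : ∀ j, 0 < F j := fun j => lt_of_lt_of_le one_pos (hF1 j)
  have hns : ¬ Summable (fun j => (F j)⁻¹) := by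
    intro hs
    apply hsum
    rw [← summable_nat_add_iff 1]
    have h1 : Tendsto (fun j => (F j)⁻¹) atTop (𝓝 0) := hs.tendsto_atTop_zero
    obtain ⟨m, hm⟩ := eventually_atTop.1 (h1.eventually (gt_mem_nhds (show (0 : ℝ) < 1 by norm_num)))
    rw [← summable_nat_add_iff m]
    rw [← summable_nat_add_iff m] at hs
    refine hs.congr (fun j => ?_)
    have h2 := hm (j + m) (by omega)
    have h3 : 1 < F (j + m) := by
      by_contra hcon
      rw [not_lt] at hcon
      have := (inv_le_inv₀ one_pos (hF0 (j + m))).2 hcon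
      rw [inv_one] at this
      linarith
    congr 1
    rw [hF] at h3 ⊢
    simp only at h3 ⊢
    rcases le_total (f (2 ^ (j + m + 1))) 1 with h4 | h4
    · rw [max_eq_right h4] at h3
      linarith
    · rw [max_eq_left h4]
  have h1 := low_ae (fun j => 4 * 4 ^ j * F j) (fun j => F j ≤ (j : ℝ) ^ 2 ∧
    4 * (j : ℝ) ^ 2 ≤ 2 ^ j) (fun j _ => by
      have h2 : (2 : ℝ) ^ (j + 1) ≤ 4 * 4 ^ j := by
        rw [← pow_succ']
        exact pow_le_pow_left₀ (by norm_num) (by norm_num) _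
      have h3 := hF1 j
      have h4 : (0 : ℝ) < 4 * 4 ^ j := by positivity
      nlinarith) (fun j hj => by
      have h2 : (8 : ℝ) ^ j = 4 ^ j * 2 ^ j := by rw [← mul_pow]; norm_num
      have h4 : (0 : ℝ) < 4 ^ j := by positivity
      rw [h2]
      nlinarith [hj.1, hj.2]) (fun j₀ K => by
      obtain ⟨J, h2, h3⟩ := not_summable_good F hF1 hns j₀ (4 * K)
      refine ⟨J, fun j hj => h2 j hj, ?_⟩
      have h4 : ∑ j ∈ J, (4 : ℝ) ^ j / (4 * 4 ^ j * F j) = (∑ j ∈ J, (F j)⁻¹) / 4 := by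
        rw [Finset.sum_div]
        apply Finset.sum_congr rfl
        intro j _
        have := (hF0 j).ne'
        field_simp
      rw [h4]
      linarith)
  filter_upwards [h1] with ω hω
  intro N
  obtain ⟨j, hj1, _, n, hn, k, hk⟩ := hω N
  have h2 : (2 : ℤ) ^ j ≤ n ∧ n < 2 ^ (j + 1) := by
    unfold FJ at hn
    exact Finset.mem_Ico.1 hn
  have h2p : (1 : ℤ) ≤ 2 ^ j := one_le_pow₀ (by norm_num)
  obtain ⟨m, rfl⟩ : ∃ m : ℕ, n = m := ⟨n.toNat, by omega⟩
  have h3 : 2 ^ j ≤ m ∧ m < 2 ^ (j + 1) := by exact_mod_cast h2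
  refine ⟨m, ?_, k, ?_⟩
  · have := Nat.lt_two_pow_self (n := j)
    omega
  · have h4 : (1 : ℤ) ≤ (Tn G6 ω)^[k] (m : ℤ) := pos_iter ω (by omega) k
    have h5 : (0 : ℝ) < (((Tn G6 ω)^[k] (m : ℤ) : ℤ) : ℝ) := by exact_mod_cast h4
    rw [abs_of_pos h5] at hk
    refine lt_of_lt_of_le ?_ hk
    have h6 : f m ≤ F j := (hf h3.2.le).trans (le_max_left _ _)
    have h7 : (m : ℝ) < 2 ^ (j + 1) := by exact_mod_cast h3.2
    have h8 : (m : ℝ) ^ 2 < (2 ^ (j + 1)) ^ 2 :=
      pow_lt_pow_left₀ h7 (by positivity) (by norm_num)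
    have h9 : ((2 : ℝ) ^ (j + 1)) ^ 2 = 4 * 4 ^ j := by
      rw [← pow_mul, mul_comm, pow_mul]
      norm_num
      rw [pow_succ]
      ring
    rw [h9] at h8
    calc (m : ℝ) ^ 2 * f m ≤ (m : ℝ) ^ 2 * F j := mul_le_mul_of_nonneg_left h6 (by positivity)
      _ < 4 * 4 ^ j * F j := mul_lt_mul_of_pos_right h8 (hF0 j)

/-- the integral test for one function `f` -/
def Test (ω : ℤ → Fin 6) (f : ℕ → ℝ) : Prop :=
  (Summable (fun j : ℕ => (f (2 ^ j))⁻¹) → ∃ N : ℕ, ∀ n : ℕ, N ≤ n → ∀ k : ℕ,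
      (((Tn G6 ω)^[k] (n : ℤ) : ℤ) : ℝ) ≤ (n : ℝ) ^ 2 * f n) ∧
  (¬ Summable (fun j : ℕ => (f (2 ^ j))⁻¹) → ∀ N : ℕ, ∃ n : ℕ, N ≤ n ∧ ∃ k : ℕ,
      (n : ℝ) ^ 2 * f n < (((Tn G6 ω)^[k] (n : ℤ) : ℤ) : ℝ))

theorem test_ae (f : ℕ → ℝ) (hf : Monotone f) (hf0 : ∀ n, 0 < f n) :
    ∀ᵐ ω ∂P 6, Test ω f := by
  by_cases hs : Summable (fun j : ℕ => (f (2 ^ j))⁻¹)
  · filter_upwards [up_ae f hf hf0 hs] with ω hω
    refine ⟨fun _ => ?_, fun h => absurd hs h⟩
    obtain ⟨N, hN⟩ := hω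
    exact ⟨N, fun n hn k => (le_abs_self _).trans (hN n hn k)⟩
  · filter_upwards [down_ae f hf hs] with ω hω
    exact ⟨fun h => absurd h hs, fun _ => hω⟩

theorem mono_fn (C p : ℝ) (hC : 0 ≤ C) (hp : 0 ≤ p) :
    Monotone (fun n : ℕ => max 1 (C * (Real.log n) ^ p)) := by
  intro m n hmn
  apply max_le_max le_rfl
  apply mul_le_mul_of_nonneg_left _ hC
  apply Real.rpow_le_rpow _ _ hp
  · exact Real.log_natCast_nonneg m
  · rcases Nat.eq_zero_or_pos m with h | h
    · subst h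
      simp only [Nat.cast_zero, Real.log_zero]
      exact Real.log_natCast_nonneg n
    · exact Real.log_le_log (by exact_mod_cast h) (by exact_mod_cast hmn)

/-- the excursions exceed `C n² log n` -/
theorem exceed_ae : ∀ᵐ ω ∂P 6, ∀ (C : ℝ) (N : ℕ), ∃ n : ℕ, N ≤ n ∧ ∃ k : ℕ,
      C * (n : ℝ) ^ 2 * Real.log n < (((Tn G6 ω)^[k] (n : ℤ) : ℤ) : ℝ) := by
  have h1 : ∀ᵐ ω ∂P 6, ∀ (C : ℕ) (N : ℕ), ∃ n : ℕ, N ≤ n ∧ ∃ k : ℕ,
      (C : ℝ) * (n : ℝ) ^ 2 * Real.log n < (((Tn G6 ω)^[k] (n : ℤ) : ℤ) : ℝ) := by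
    rw [ae_all_iff]
    intro C
    have h2 := down_ae (fun n : ℕ => max 1 ((C : ℝ) * (Real.log n) ^ (1 : ℝ)))
      (mono_fn C 1 (Nat.cast_nonneg _) zero_le_one)
      (by
        intro hs
        have h3 : Summable (fun j : ℕ => ((1 : ℝ) + C)⁻¹ * (j : ℝ)⁻¹) := by
          apply Summable.of_nonneg_of_le (fun j => by positivity) (fun j => ?_) hs
          rcases Nat.eq_zero_or_pos j with h | h
          · subst h
            simp only [Nat.cast_zero, inv_zero, mul_zero]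
            positivity
          · have hj : (1 : ℝ) ≤ j := by exact_mod_cast h
            rw [← mul_inv]
            apply inv_anti₀ (by positivity)
            rw [Real.rpow_one]
            push_cast
            rw [Real.log_pow]
            have hl : Real.log 2 ≤ 1 := by
              have := Real.log_two_lt_d9
              linarith
            have hl0 : 0 < Real.log 2 := Real.log_pos (by norm_num)
            have hC : (0 : ℝ) ≤ C := Nat.cast_nonneg _
            apply max_le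
            · nlinarith
            · have h5 : (j : ℝ) * Real.log 2 ≤ j := by nlinarith
              have h6 := mul_le_mul_of_nonneg_left h5 hC
              nlinarith
        have h4 : Summable (fun j : ℕ => (j : ℝ)⁻¹) := by
          have := h3.mul_left ((1 : ℝ) + C)
          refine this.congr (fun j => ?_)
          have : (1 : ℝ) + C ≠ 0 := by positivity
          field_simp
        exact Real.not_summable_natCast_inv h4)
    filter_upwards [h2] with ω hω
    intro N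
    obtain ⟨n, hn, k, hk⟩ := hω N
    refine ⟨n, hn, k, lt_of_le_of_lt ?_ hk⟩
    have h5 : (C : ℝ) * Real.log n ≤ max 1 ((C : ℝ) * (Real.log n) ^ (1 : ℝ)) := by
      rw [Real.rpow_one]
      exact le_max_right _ _
    have h6 := mul_le_mul_of_nonneg_left h5 (show (0 : ℝ) ≤ (n : ℝ) ^ 2 by positivity)
    linarith
  filter_upwards [h1] with ω hω
  intro C N
  obtain ⟨n, hn, k, hk⟩ := hω ⌈C⌉₊ N
  refine ⟨n, hn, k, lt_of_le_of_lt ?_ hk⟩
  have h2 : C ≤ ⌈C⌉₊ := Nat.le_ceil C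
  have h3 : 0 ≤ Real.log (n : ℝ) := Real.log_natCast_nonneg n
  have h4 : (0 : ℝ) ≤ (n : ℝ) ^ 2 := by positivity
  apply mul_le_mul_of_nonneg_right _ h3
  exact mul_le_mul_of_nonneg_right h2 h4

/-- the excursions are at most `n² (log n)^(1+ε)` -/
theorem bounded_ae : ∀ᵐ ω ∂P 6, ∀ ε : ℝ, ε > 0 → ∃ N : ℕ, ∀ n : ℕ, N ≤ n → ∀ k : ℕ,
      (((Tn G6 ω)^[k] (n : ℤ) : ℤ) : ℝ) ≤ (n : ℝ) ^ 2 * (Real.log n) ^ (1 + ε) := by
  have h1 : ∀ᵐ ω ∂P 6, ∀ m : ℕ, ∃ N : ℕ, ∀ n : ℕ, N ≤ n → ∀ k : ℕ,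
      (((Tn G6 ω)^[k] (n : ℤ) : ℤ) : ℝ) ≤ (n : ℝ) ^ 2 *
        max 1 (1 * (Real.log n) ^ (1 + 1 / ((m : ℝ) + 1))) := by
    rw [ae_all_iff]
    intro m
    have hm : (0 : ℝ) < 1 / ((m : ℝ) + 1) := by positivity
    have h2 := up_ae (fun n : ℕ => max 1 (1 * (Real.log n) ^ (1 + 1 / ((m : ℝ) + 1))))
      (mono_fn 1 _ zero_le_one (by linarith)) (fun n => lt_of_lt_of_le one_pos (le_max_left _ _))
      (by
        have h3 : Summable (fun j : ℕ => (Real.log 2 ^ (1 + 1 / ((m : ℝ) + 1)))⁻¹ *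
            ((j : ℝ) ^ (1 + 1 / ((m : ℝ) + 1)))⁻¹) :=
          (Real.summable_nat_rpow_inv.2 (by linarith)).mul_left _
        rw [← summable_nat_add_iff 1]
        rw [← summable_nat_add_iff 1] at h3
        apply Summable.of_nonneg_of_le (fun j => by positivity) (fun j => ?_) h3
        rw [← mul_inv]
        have hl0 : 0 < Real.log 2 := Real.log_pos (by norm_num)
        apply inv_anti₀ (by positivity)
        apply le_max_of_le_right
        rw [← Real.mul_rpow hl0.le (by positivity), one_mul]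
        push_cast
        rw [Real.log_pow]
        apply Real.rpow_le_rpow (by positivity) _ (by linarith)
        push_cast
        linarith)
    filter_upwards [h2] with ω hω
    obtain ⟨N, hN⟩ := hω
    exact ⟨N, fun n hn k => (le_abs_self _).trans (hN n hn k)⟩
  filter_upwards [h1] with ω hω
  intro ε hε
  obtain ⟨m, hm⟩ := exists_nat_one_div_lt hε
  obtain ⟨N, hN⟩ := hω m
  refine ⟨max N 3, fun n hn k => (hN n ((le_max_left _ _).trans hn) k).trans ?_⟩
  apply mul_le_mul_of_nonneg_left _ (by positivity)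
  have h3 : 3 ≤ n := (le_max_right _ _).trans hn
  have h4 : 1 ≤ Real.log n := by
    rw [Real.le_log_iff_exp_le (by positivity)]
    have h5 : Real.exp 1 < 2.7182818286 := Real.exp_one_lt_d9
    have h6 : (3 : ℝ) ≤ n := by exact_mod_cast h3
    linarith
  apply max_le
  · exact Real.one_le_rpow h4 (by linarith)
  · rw [one_mul]
    exact Real.rpow_le_rpow_of_exponent_le h4 (by linarith)

end Pool.Agent.Q205.RP
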