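import Mathlib
import Pool.Agent.Q205.RP.Expand2

/-!
# The expanding case: trajectories that visit a given ball
-/

set_option autoImplicit false

open MeasureTheory Finset Filter Topology

namespace Pool.Agent.Q205.RP

variable {d : ℕ}

/-- once the trajectory closes, nothing new is visited -/
theorem iterate_mem_of_eq (f : ℤ → ℤ) {x : ℤ} {a b : ℕ} (hab : a < b)
    (h : f^[a] x = f^[b] x) (n : ℕ) : ∃ c < b, f^[n] x = f^[c] x := by
  induction n using Nat.strong_induction_on with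
  | _ n ih =>
    rcases lt_or_ge n b with h1 | h1
    · exact ⟨n, h1, rfl⟩
    · obtain ⟨c, hc, hcn⟩ := ih (n - b + a) (by omega)
      refine ⟨c, hc, ?_⟩
      rw [← hcn, Function.iterate_add_apply, h, ← Function.iterate_add_apply,
        show n - b + b = n by omega]

theorem closes_or_visits_cases (f : ℤ → ℤ) (N : ℕ) {x : ℤ}
    (h : Closes f x ∨ ∃ i, |f^[i] x| ≤ N) :
    (∃ i, (∀ a < i, ∀ b < i, f^[a] x = f^[b] x → a = b) ∧ (∀ a < i, (N : ℤ) < |f^[a] x|) ∧
      |f^[i] x| ≤ N) ∨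
    (∃ j m, (∀ a < j + (m + 1), ∀ b < j + (m + 1), f^[a] x = f^[b] x → a = b) ∧
      (∀ a < j + (m + 1), (N : ℤ) < |f^[a] x|) ∧ f^[j + (m + 1)] x = f^[j] x) := by
  classical
  rcases h with h | h
  · exact closes_cases f N h
  · left
    set i := Nat.find h with hi
    have hiN : |f^[i] x| ≤ N := Nat.find_spec h
    have hmin : ∀ a < i, (N : ℤ) < |f^[a] x| := fun a ha => by
      by_contra hcon
      rw [not_lt] at hcon
      exact Nat.find_min h ha hcon
    refine ⟨i, ?_, hmin, hiN⟩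
    intro a ha b hb hab
    by_contra hne
    rcases lt_or_gt_of_ne hne with h1 | h1
    · obtain ⟨c, hc, hcn⟩ := iterate_mem_of_eq f h1 hab i
      have := hmin c (by omega)
      rw [hcn] at hiN
      omega
    · obtain ⟨c, hc, hcn⟩ := iterate_mem_of_eq f h1 hab.symm i
      have := hmin c (by omega)
      rw [hcn] at hiN
      omega

/-- in the expanding case the trajectory of `x` closes or visits the ball with probability
`O(|x|^(-θ))` -/
theorem closes_or_visits_le [NeZero d] (G : ℤ → Fin d → ℤ) (V : ℤ → ℝ) {θ κ κ' Γ : ℝ} (hθ : 0 < θ)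
    (hκ : 0 < κ) (hκ' : 0 < κ') (hκd : κ' < d) (hΓ : 1 < Γ) (hκΓ : κ * Γ ^ θ < d) (N : ℕ)
    (hV : ∀ x, 0 < V x)
    (h1 : ∀ x : ℤ, (N : ℤ) < |x| → ∑ c, V (G x c) ≤ κ * V x)
    (h2 : ∀ x : ℤ, (N : ℤ) < |x| → ∑ c, VV (-θ) (G x c) ≤ κ' * VV (-θ) x)
    (h3 : ∀ (x : ℤ) (w : List (Fin d)), w ≠ [] → run G x w = x → |(x : ℝ)| ≤ Γ ^ w.length) :
    ∃ C : ℝ, 0 < C ∧ ∀ x : ℤ, P d {ω | Closes (Tn G ω) x ∨ ∃ i, |(Tn G ω)^[i] x| ≤ N} ≤
      ENNReal.ofReal (C * VV (-θ) x) := by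
  classical
  have hd : (0 : ℝ) < d := by
    have := NeZero.pos d
    exact_mod_cast this
  set ρ : ℝ := κ' / d with hρ
  have hρ0 : 0 < ρ := div_pos hκ' hd
  have hρ1 : ρ < 1 := by rw [hρ, div_lt_one hd]; exact hκd
  have hκρ : κ' = ρ * d := by rw [hρ]; field_simp
  set η : ℝ := κ * Γ ^ θ / d with hη
  have hη0 : 0 < η := by rw [hη]; positivity
  have hη1 : η < 1 := by rw [hη, div_lt_one hd]; exact hκΓ
  have hκη : κ * Γ ^ θ = η * d := by rw [hη]; field_simp
  have hs1 : Summable (fun i : ℕ => (1 + (N : ℝ)) ^ θ * ρ ^ i) :=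
    (summable_geometric_of_lt_one hρ0.le hρ1).mul_left _
  have hs2 : Summable (fun q : ℕ × ℕ => ρ ^ q.1 * (2 ^ θ * η * η ^ q.2)) :=
    (summable_geometric_of_lt_one hρ0.le hρ1).mul_of_nonneg
      ((summable_geometric_of_lt_one hη0.le hη1).mul_left _) (fun i => by positivity)
      (fun i => by positivity)
  set C1 : ℝ := ∑' i : ℕ, (1 + (N : ℝ)) ^ θ * ρ ^ i with hC1
  set C2 : ℝ := ∑' q : ℕ × ℕ, ρ ^ q.1 * (2 ^ θ * η * η ^ q.2) with hC2
  have hC10 : 0 ≤ C1 := tsum_nonneg (fun i => by positivity)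
  have hC20 : 0 ≤ C2 := tsum_nonneg (fun i => by positivity)
  refine ⟨C1 + C2 + 1, by positivity, fun x => ?_⟩
  have hVx := VV_pos (-θ) x
  -- the two families of events
  set QA : List (Fin d) → Prop := fun w => (∀ s ∈ sites G x w, (N : ℤ) < |s|) ∧
    |run G x w| ≤ N with hQA
  set QB : ℕ → List (Fin d) → Prop := fun j w => (∀ s ∈ sites G x w, (N : ℤ) < |s|) ∧
    run G x w = run G x (w.take j) with hQB
  have hcover : {ω | Closes (Tn G ω) x ∨ ∃ i, |(Tn G ω)^[i] x| ≤ N} ⊆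
      (⋃ i : ℕ, {ω | (sites G x (word G ω x i)).Nodup ∧ QA (word G ω x i)}) ∪
      (⋃ q : ℕ × ℕ, {ω | (sites G x (word G ω x (q.1 + (q.2 + 1)))).Nodup ∧
        QB q.1 (word G ω x (q.1 + (q.2 + 1)))}) := by
    intro ω hω
    rcases closes_or_visits_cases (Tn G ω) N hω with ⟨i, h4, h5, h6⟩ | ⟨j, m, h4, h5, h6⟩
    · left
      rw [Set.mem_iUnion]
      refine ⟨i, (nodup_iff G ω x i).2 h4, ?_, ?_⟩
      · intro s hs
        rw [sites_word, List.mem_map] at hs
        obtain ⟨a, ha, rfl⟩ := hs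
        exact h5 a (List.mem_range.1 ha)
      · rw [run_word]
        exact h6
    · right
      rw [Set.mem_iUnion]
      refine ⟨(j, m), (nodup_iff G ω x _).2 h4, ?_, ?_⟩
      · intro s hs
        rw [sites_word, List.mem_map] at hs
        obtain ⟨a, ha, rfl⟩ := hs
        exact h5 a (List.mem_range.1 ha)
      · have h7 : (word G ω x (j + (m + 1))).take j = word G ω x j := by
          clear h4 h5 h6 hω
          generalize m + 1 = n
          induction j generalizing x with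
          | zero => simp [word]
          | succ j ih =>
            rw [show j + 1 + n = (j + n) + 1 by ring]
            simp only [word, List.take_succ_cons, List.cons.injEq, true_and]
            exact ih _ (VV_pos _ _) rfl rfl
        simp only
        rw [h7, run_word, run_word]
        exact h6
  refine (measure_mono hcover).trans ((measure_union_le _ _).trans ?_)
  have hA : P d (⋃ i : ℕ, {ω | (sites G x (word G ω x i)).Nodup ∧ QA (word G ω x i)}) ≤
      ENNReal.ofReal (C1 * VV (-θ) x) := by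
    refine (measure_iUnion_le _).trans ?_
    rw [hC1, ← tsum_mul_right, ENNReal.ofReal_tsum_of_nonneg (fun i => by positivity)
      (hs1.mul_right _)]
    apply ENNReal.tsum_le_tsum
    intro i
    apply meas_le_real
    refine (descend_card G hθ hκ' N h2 x i (fun w => (sites G x w).Nodup ∧ QA w)
      (fun w hw => hw.2.1) (fun w hw => hw.2.2)).trans (le_of_eq ?_)
    rw [hκρ, mul_pow]
    ring
  have hB : P d (⋃ q : ℕ × ℕ, {ω | (sites G x (word G ω x (q.1 + (q.2 + 1)))).Nodup ∧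
        QB q.1 (word G ω x (q.1 + (q.2 + 1)))}) ≤ ENNReal.ofReal (C2 * VV (-θ) x) := by
    refine (measure_iUnion_le _).trans ?_
    rw [hC2, ← tsum_mul_right, ENNReal.ofReal_tsum_of_nonneg (fun i => by positivity)
      (hs2.mul_right _)]
    apply ENNReal.tsum_le_tsum
    intro q
    apply meas_le_real
    refine (return_card G V hθ hκ hκ' hΓ N hV h1 h2 h3 x q.1 (q.2 + 1) (by omega)
      (fun w => (sites G x w).Nodup ∧ QB q.1 w)
      (fun w hw => hw.2.1) (fun w hw => hw.2.2)).trans (le_of_eq ?_)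
    rw [hκη, hκρ, mul_pow, mul_pow, pow_add, pow_succ, pow_succ]
    ring
  refine (add_le_add hA hB).trans ?_
  rw [← ENNReal.ofReal_add (by positivity) (by positivity)]
  apply ENNReal.ofReal_le_ofReal
  nlinarith

theorem main_expanding' [NeZero d] (G : ℤ → Fin d → ℤ) {m : Fin d → ℤ} {R : ℝ} (N0 : ℕ)
    (hd2 : 2 ≤ d)
    (hcop : ∀ i, IsCoprime (m i) (d : ℤ)) (hR : 0 ≤ R) (hG : Lin G d m R)
    (hprod : (d : ℝ) ^ d < ∏ i, |(m i : ℝ)|) :
    ∃ θ C : ℝ, 0 < θ ∧ θ ≤ 1 ∧ 0 < C ∧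
      ∀ x : ℤ, P d {ω | Closes (Tn G ω) x ∨ ∃ i, |(Tn G ω)^[i] x| ≤ N0} ≤
        ENNReal.ofReal (C * VV (-θ) x) := by
  have hd : (0 : ℝ) < d := by
    have := NeZero.pos d
    exact_mod_cast this
  have hm0 : ∀ i, m i ≠ 0 := fun i h => by
    have h1 := hcop i
    rw [h, isCoprime_zero_left, Int.isUnit_iff] at h1
    omega
  have ha : ∀ i, (0 : ℝ) < |(m i : ℝ)| / d := fun i =>
    div_pos (abs_pos.2 (by exact_mod_cast hm0 i)) hd
  have hpr : ∏ i, (|(m i : ℝ)| / d) = (∏ i, |(m i : ℝ)|) / (d : ℝ) ^ d := by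
    rw [Finset.prod_div_distrib, Finset.prod_const, card_univ, Fintype.card_fin]
  have hpr1 : ∏ i, (|(m i : ℝ)| / d)⁻¹ < 1 := by
    rw [Finset.prod_inv_distrib, hpr]
    apply inv_lt_one_of_one_lt₀
    rw [lt_div_iff₀ (by positivity), one_mul]
    exact hprod
  have hev := eventually_exponent (fun i => (|(m i : ℝ)| / d)⁻¹) (fun i => inv_pos.2 (ha i)) hpr1
  have hneg : ∀ s : ℝ, ∑ i, ((|(m i : ℝ)| / d)⁻¹) ^ s = ∑ i, (|(m i : ℝ)| / d) ^ (-s) := by
    intro s
    apply Finset.sum_congr rfl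
    intro i _
    rw [Real.rpow_neg (ha i).le, Real.inv_rpow (ha i).le]
  obtain ⟨s, hs, hs0⟩ := (hev.and self_mem_nhdsWithin).exists
  rw [hneg] at hs
  obtain ⟨κ, hκ1, hκ2⟩ := exists_between hs
  have hκ0 : 0 < κ := lt_of_le_of_lt (Finset.sum_nonneg (fun i _ => by
    exact Real.rpow_nonneg (ha i).le _)) hκ1
  obtain ⟨Γ, hΓ1, hΓ⟩ := closed_len G hd2 hG hcop hR
  have hΓ0 : 0 < Γ := by linarith
  -- a small exponent
  have hsm : ∀ᶠ θ : ℝ in 𝓝[>] 0, κ * Γ ^ θ < d := by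
    have h1 : Tendsto (fun θ : ℝ => κ * Γ ^ θ) (𝓝 0) (𝓝 (κ * Γ ^ (0 : ℝ))) :=
      ((Real.continuousAt_const_rpow hΓ0.ne').tendsto).const_mul κ
    rw [Real.rpow_zero, mul_one] at h1
    exact (h1.mono_left nhdsWithin_le_nhds).eventually (gt_mem_nhds hκ2)
  have hle1 : ∀ᶠ θ : ℝ in 𝓝[>] 0, θ < 1 := by
    apply mem_nhdsWithin_of_mem_nhds
    exact gt_mem_nhds one_pos
  obtain ⟨θ, ⟨⟨h1, h2⟩, h3⟩, h4⟩ := (((hev.and hsm).and hle1).and self_mem_nhdsWithin).exists
  rw [hneg] at h1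
  obtain ⟨κ', hκ'1, hκ'2⟩ := exists_between h1
  have hκ'0 : 0 < κ' := lt_of_le_of_lt (Finset.sum_nonneg (fun i _ => by
    exact Real.rpow_nonneg (ha i).le _)) hκ'1
  obtain ⟨N1, hN1⟩ := drift G _ _ (slopes_of_lin (NeZero.pos d) hG) ha (-s) κ hκ1
  obtain ⟨N2, hN2⟩ := drift G _ _ (slopes_of_lin (NeZero.pos d) hG) ha (-θ) κ' hκ'1
  obtain ⟨C, hC0, hC⟩ := closes_or_visits_le G (VV (-s)) h4 hκ0 hκ'0 hκ'2 hΓ1 h2
    (max N0 (max N1 N2))
    (VV_pos _) (fun x hx => hN1 x (lt_of_le_of_lt (by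
      exact_mod_cast (le_max_left N1 N2).trans (le_max_right N0 _)) hx))
    (fun x hx => hN2 x (lt_of_le_of_lt (by
      exact_mod_cast (le_max_right N1 N2).trans (le_max_right N0 _)) hx)) hΓ
  refine ⟨θ, C, h4, h3.le, hC0, fun x => (measure_mono ?_).trans (hC x)⟩
  rintro ω (hω | ⟨i, hi⟩)
  · exact Or.inl hω
  · exact Or.inr ⟨i, hi.trans (by exact_mod_cast le_max_left N0 _)⟩

end Pool.Agent.Q205.RP
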