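import Mathlib
import Pool.Agent.Q205.RP.Pair

/-!
# Many trajectories in a class
-/

set_option autoImplicit false

open MeasureTheory Finset Filter Topology

namespace Pool.Agent.Q205.RP

open Classical in
/-- **The second moment method: at least half of the mean.** -/
theorem second_moment_half {Ω ι : Type*} [MeasurableSpace Ω] {μ : Measure Ω}
    [IsProbabilityMeasure μ] (F : Finset ι) (A : ι → Set Ω) (hA : ∀ i, MeasurableSet (A i))
    {m R : ℝ} (hm : 0 < m) (h1 : ∑ i ∈ F, μ.real (A i) = m)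
    (h2 : ∑ i ∈ F, ∑ j ∈ F, μ.real (A i ∩ A j) ≤ m ^ 2 + R) :
    μ.real {ω | ((F.filter (fun i => ω ∈ A i)).card : ℝ) ≤ m / 2} ≤ 4 * R / m ^ 2 := by
  set N : Ω → ℝ := fun ω => ∑ i ∈ F, (A i).indicator (fun _ => (1 : ℝ)) ω with hN
  have hNc : ∀ ω, N ω = ((F.filter (fun i => ω ∈ A i)).card : ℝ) := by
    intro ω
    rw [hN, Finset.card_filter]
    push_cast
    apply Finset.sum_congr rfl
    intro i _
    rw [Set.indicator_apply]
  have hint : ∀ B : Set Ω, MeasurableSet B → Integrable (B.indicator (fun _ => (1 : ℝ))) μ :=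
    fun B hB => (integrable_const (1 : ℝ)).indicator hB
  have hval : ∀ B : Set Ω, MeasurableSet B →
      ∫ ω, B.indicator (fun _ => (1 : ℝ)) ω ∂μ = μ.real B := by
    intro B hB
    rw [integral_indicator_const _ hB, smul_eq_mul, mul_one]
  have hind : ∀ (B C : Set Ω) (ω : Ω), B.indicator (fun _ => (1 : ℝ)) ω *
      C.indicator (fun _ => (1 : ℝ)) ω = (B ∩ C).indicator (fun _ => (1 : ℝ)) ω := by
    intro B C ω
    by_cases hB : ω ∈ B
    · by_cases hC : ω ∈ C
      · rw [Set.indicator_of_mem hB, Set.indicator_of_mem hC, Set.indicator_of_mem (Set.mem_inter hB hC),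
          mul_one]
      · rw [Set.indicator_of_notMem hC, Set.indicator_of_notMem
          (fun h => hC (Set.mem_of_mem_inter_right h)), mul_zero]
    · rw [Set.indicator_of_notMem hB, Set.indicator_of_notMem
        (fun h => hB (Set.mem_of_mem_inter_left h)), zero_mul]
  have hsq : ∀ ω, (N ω - m) ^ 2 = (∑ i ∈ F, ∑ j ∈ F, (A i ∩ A j).indicator (fun _ => (1 : ℝ)) ω) -
      2 * m * (∑ i ∈ F, (A i).indicator (fun _ => (1 : ℝ)) ω) + m ^ 2 := by
    intro ω
    have h3 : N ω ^ 2 = ∑ i ∈ F, ∑ j ∈ F, (A i ∩ A j).indicator (fun _ => (1 : ℝ)) ω := by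
      rw [hN, pow_two, Finset.sum_mul_sum]
      apply Finset.sum_congr rfl
      intro i _
      apply Finset.sum_congr rfl
      intro j _
      exact hind _ _ _
    rw [← h3]
    ring
  have hi1 : Integrable (fun ω => ∑ i ∈ F, ∑ j ∈ F,
      (A i ∩ A j).indicator (fun _ => (1 : ℝ)) ω) μ := by
    apply integrable_finsetSum
    intro i _
    apply integrable_finsetSum
    intro j _
    exact hint _ ((hA i).inter (hA j))
  have hi2 : Integrable (fun ω => ∑ i ∈ F, (A i).indicator (fun _ => (1 : ℝ)) ω) μ := by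
    apply integrable_finsetSum
    intro i _
    exact hint _ (hA i)
  have hi3 : Integrable (fun ω => (N ω - m) ^ 2) μ := by
    have : (fun ω => (N ω - m) ^ 2) = fun ω =>
        (∑ i ∈ F, ∑ j ∈ F, (A i ∩ A j).indicator (fun _ => (1 : ℝ)) ω) -
        2 * m * (∑ i ∈ F, (A i).indicator (fun _ => (1 : ℝ)) ω) + m ^ 2 := funext hsq
    rw [this]
    exact (hi1.sub (hi2.const_mul _)).add (integrable_const _)
  have hE : ∫ ω, (N ω - m) ^ 2 ∂μ ≤ R := by
    have e1 : ∫ ω, (N ω - m) ^ 2 ∂μ = ∑ i ∈ F, ∑ j ∈ F, μ.real (A i ∩ A j) - 2 * m * m + m ^ 2 := by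
      rw [integral_congr_ae (ae_of_all _ hsq)]
      have e2 := integral_add (hi1.sub (hi2.const_mul (2 * m))) (integrable_const (m ^ 2) (μ := μ))
      have e3 := integral_sub hi1 (hi2.const_mul (2 * m))
      have e4 : ∫ ω, ∑ i ∈ F, ∑ j ∈ F, (A i ∩ A j).indicator (fun _ => (1 : ℝ)) ω ∂μ =
          ∑ i ∈ F, ∑ j ∈ F, μ.real (A i ∩ A j) := by
        rw [integral_finsetSum _ (fun i _ => integrable_finsetSum _ (fun j _ =>
            hint _ ((hA i).inter (hA j))))]
        apply Finset.sum_congr rfl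
        intro i _
        rw [integral_finsetSum _ (fun j _ => hint _ ((hA i).inter (hA j)))]
        apply Finset.sum_congr rfl
        intro j _
        exact hval _ ((hA i).inter (hA j))
      have e5 : ∫ ω, 2 * m * ∑ i ∈ F, (A i).indicator (fun _ => (1 : ℝ)) ω ∂μ = 2 * m * m := by
        rw [integral_const_mul, integral_finsetSum _ (fun i _ => hint _ (hA i)),
            Finset.sum_congr rfl (fun i _ => hval _ (hA i)), h1]
      have e6 : ∫ _ω, m ^ 2 ∂μ = m ^ 2 := by simp
      rw [← e4, ← e5, ← e3]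
      rw [e6] at e2
      exact e2
    rw [e1]
    linarith
  set Z : Set Ω := {ω | ((F.filter (fun i => ω ∈ A i)).card : ℝ) ≤ m / 2} with hZ
  have hNm : Measurable N := by
    rw [hN]
    apply Finset.measurable_fun_sum
    intro i _
    exact measurable_const.indicator (hA i)
  have hZm : MeasurableSet Z := by
    have : Z = {ω | N ω ≤ m / 2} := by
      ext ω
      simp only [hZ, Set.mem_ofPred_eq, hNc]
    rw [this]
    exact measurableSet_le hNm measurable_const
  have h3 : m ^ 2 / 4 * μ.real Z ≤ ∫ ω, (N ω - m) ^ 2 ∂μ := by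
    have e1 : m ^ 2 / 4 * μ.real Z = ∫ ω, m ^ 2 / 4 * Z.indicator (fun _ => (1 : ℝ)) ω ∂μ := by
      rw [integral_const_mul, hval Z hZm]
    rw [e1]
    apply integral_mono ((hint Z hZm).const_mul _) hi3
    intro ω
    simp only
    by_cases hω : ω ∈ Z
    · have h4 : N ω ≤ m / 2 := by
        rw [hNc]
        exact hω
      rw [Set.indicator_of_mem hω]
      nlinarith
    · rw [Set.indicator_of_notMem hω, mul_zero]
      positivity
  have h4 := h3.trans hE
  rw [le_div_iff₀ (by positivity)]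
  nlinarith

open Classical in
/-- The second moment method for trajectories: at least half of the mean. -/
theorem many_paths {d : ℕ} [NeZero d] (G : ℤ → Fin d → ℤ) (T : ℕ) (Cls Pre : ℤ → List (Fin d) → Prop)
    (h1 : ∀ n w, Cls n w → (sites G n w).Nodup)
    (h2 : ∀ n w, Cls n w → w.length = T → ∀ j < T, Pre n (w.take j)) (F : Finset ℤ) {H m : ℝ}
    (hm0 : 0 < m) (hm : ∑ n ∈ F, (((wd d T).filter (Cls n)).card : ℝ) * ((d : ℝ)⁻¹) ^ T = m)
    (hH : ∀ n ∈ F, ∀ w ∈ (wd d T).filter (Cls n), ∀ i < T, ∑ n' ∈ F, ∑ j ∈ range T,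
      ((d : ℝ)⁻¹) ^ j * (((wd d j).filter (fun u => Pre n' u ∧
          run G n' u = run G n (w.take i))).card : ℝ) ≤ H) :
    (P d).real {ω | ((F.filter (fun n => Cls n (word G ω n T))).card : ℝ) ≤ m / 2} ≤
      4 * (1 + T * H) / m := by
  set A : ℤ → Set (ℤ → Fin d) := fun n => {ω | Cls n (word G ω n T)} with hA
  have hp : ∀ n, (P d).real (A n) = (((wd d T).filter (Cls n)).card : ℝ) * ((d : ℝ)⁻¹) ^ T :=
    fun n => event_eq G n T (Cls n) (h1 n)
  have hmA : ∑ n ∈ F, (P d).real (A n) = m := by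
    rw [← hm]
    exact Finset.sum_congr rfl (fun n _ => hp n)
  have hp0 : ∀ n, 0 ≤ (P d).real (A n) := fun n => measureReal_nonneg
  have hpairs : ∑ n ∈ F, ∑ n' ∈ F, (P d).real (A n ∩ A n') ≤ m ^ 2 + m * (1 + T * H) := by
    have h3 : ∀ n ∈ F, ∑ n' ∈ F, (P d).real (A n ∩ A n') ≤
        (P d).real (A n) * m + (P d).real (A n) * (1 + T * H) := by
      intro n hn
      have h4 : ∀ n' ∈ F, (P d).real (A n ∩ A n') ≤
          (if n' = n then (P d).real (A n) else 0) + (P d).real (A n) * (P d).real (A n') +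
          ∑ w ∈ (wd d T).filter (Cls n), ((d : ℝ)⁻¹) ^ T * ∑ i ∈ range T, ∑ j ∈ range T,
            ((d : ℝ)⁻¹) ^ j * (((wd d j).filter (fun u => Pre n' u ∧
              run G n' u = run G n (w.take i))).card : ℝ) := by
        intro n' _
        have h5 := pair_event G T Cls Pre h1 h2 n n'
        have h6 : 0 ≤ (if n' = n then (P d).real (A n) else 0) := by
          split_ifs
          · exact hp0 n
          · exact le_rfl
        linarith
      refine (Finset.sum_le_sum h4).trans ?_
      rw [Finset.sum_add_distrib, Finset.sum_add_distrib, Finset.sum_ite_eq' F, if_pos hn,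
        ← Finset.mul_sum, hmA]
      have h5 : ∑ n' ∈ F, ∑ w ∈ (wd d T).filter (Cls n), ((d : ℝ)⁻¹) ^ T *
          ∑ i ∈ range T, ∑ j ∈ range T, ((d : ℝ)⁻¹) ^ j * (((wd d j).filter (fun u => Pre n' u ∧
              run G n' u = run G n (w.take i))).card : ℝ) ≤ (P d).real (A n) * (T * H) := by
        rw [Finset.sum_comm]
        have h6 : ∀ w ∈ (wd d T).filter (Cls n), ∑ n' ∈ F, ((d : ℝ)⁻¹) ^ T *
            ∑ i ∈ range T, ∑ j ∈ range T, ((d : ℝ)⁻¹) ^ j * (((wd d j).filter (fun u =>
              Pre n' u ∧ run G n' u = run G n (w.take i))).card : ℝ) ≤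
            ((d : ℝ)⁻¹) ^ T * (T * H) := by
          intro w hw
          rw [← Finset.mul_sum]
          apply mul_le_mul_of_nonneg_left _ (by positivity)
          rw [Finset.sum_comm]
          have h7 : ∀ i ∈ range T, ∑ n' ∈ F, ∑ j ∈ range T, ((d : ℝ)⁻¹) ^ j *
              (((wd d j).filter (fun u => Pre n' u ∧ run G n' u = run G n (w.take i))).card : ℝ) ≤
              H := fun i hi => hH n hn w hw i (Finset.mem_range.1 hi)
          refine (Finset.sum_le_sum h7).trans (le_of_eq ?_)
          rw [Finset.sum_const, card_range, nsmul_eq_mul]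
        refine (Finset.sum_le_sum h6).trans (le_of_eq ?_)
        rw [Finset.sum_const, nsmul_eq_mul, hp n]
        ring
      linarith
    refine (Finset.sum_le_sum h3).trans (le_of_eq ?_)
    rw [Finset.sum_add_distrib, ← Finset.sum_mul, ← Finset.sum_mul, hmA]
    ring
  have h3 := second_moment_half (μ := P d) F A (fun n => measurable_event G n T (Cls n)) hm0 hmA
    hpairs
  refine h3.trans (le_of_eq ?_)
  field_simp

end Pool.Agent.Q205.RP
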