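import Mathlib
import Pool.Agent.Q205.RP.Gam
import Pool.Agent.Q205.RP.Traj
import Pool.Agent.Q205.RP.Pair2

/-!
# Slow trajectories exist for almost every environment
-/

set_option autoImplicit false

open MeasureTheory Finset Filter Topology

namespace Pool.Agent.Q205.RP

open Classical in
/-- **Slow trajectories at one scale.** -/
theorem slow_prob {r θ ρ D δ : ℝ} (hr0 : 0 < r) (hr1 : r < 1)
    (hD : D = Real.log 2 - r * Real.log 3) (hD0 : 0 < D) (hθ : 0 < θ) (hρ : 0 < ρ) (hρ1 : ρ < 1)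
    (h0 : (1 - r) / 3 * ρ = (1 / 2) ^ θ / 6) (h1 : r / 3 * ρ = (3 / 2) ^ θ / 6)
    (he : 0 < 1 + θ + Real.log ρ / D) (he1 : θ + Real.log ρ / D ≤ 0)
    (hδ0 : 0 < δ) (hδ1 : δ < 1) :
    ∃ ε : ℝ, 0 < ε ∧ ε < δ / 2 ∧ ∃ C : ℝ, 0 < C ∧ ∃ L₀ : ℝ, ∀ L : ℝ, L₀ ≤ L → ∀ F : Finset ℤ,
      (∀ n ∈ F, Real.exp L ≤ |(n : ℝ)| ∧ |(n : ℝ)| ≤ 2 * Real.exp L) →
      Real.exp L ≤ F.card → ∀ T : ℕ, T * D ≤ (1 - δ) * L →
      (P 6).real {ω | ((F.filter (fun n => Cls D (ε * L) T n (word G6 ω n T))).card : ℝ) ≤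
          Real.exp ((1 + θ + Real.log ρ / D - δ) * L)} ≤
        C * (1 + L) * Real.exp (-(δ / 2) * L) := by
  have hlogρ : Real.log ρ < 0 := Real.log_neg hρ hρ1
  set η : ℝ := min (δ * D / 4) (-Real.log ρ / 2) with hη
  have hη0 : 0 < η := lt_min (by positivity) (by linarith)
  have hη1 : η ≤ δ * D / 4 := min_le_left _ _
  have hη2 : η ≤ -Real.log ρ / 2 := min_le_right _ _
  set lam' : ℝ := ρ * Real.exp η with hlam'
  set lam : ℝ := ρ * Real.exp (η / 2) with hlam
  have hlam0 : 0 < lam := by positivity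
  have hlam'0 : 0 < lam' := by positivity
  have hll : lam < lam' := by
    rw [hlam, hlam']
    apply mul_lt_mul_of_pos_left _ hρ
    exact Real.exp_lt_exp.2 (by linarith)
  have hloglam' : Real.log lam' = Real.log ρ + η := by
    rw [hlam', Real.log_mul hρ.ne' (Real.exp_pos _).ne', Real.log_exp]
  have hlam1 : lam' < 1 := by
    rw [← Real.log_neg_iff hlam'0, hloglam']
    linarith
  have hA : (1 / 2 : ℝ) ^ θ = 2 * (1 - r) * ρ := by linarith
  have hB : (3 / 2 : ℝ) ^ θ = 2 * r * ρ := by linarith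
  have hρlam : (1 / 2 : ℝ) ^ (1 + θ) + 1 / 3 * (3 / 2) ^ (1 + θ) < lam := by
    rw [Real.rpow_add (by norm_num), Real.rpow_add (by norm_num), Real.rpow_one, Real.rpow_one, hA,
      hB]
    have : 1 / 2 * (2 * (1 - r) * ρ) + 1 / 3 * (3 / 2 * (2 * r * ρ)) = ρ * 1 := by ring
    rw [this, hlam]
    apply mul_lt_mul_of_pos_left _ hρ
    exact Real.one_lt_exp_iff.2 (by linarith)
  obtain ⟨C₁, hC₁, M₁, hgreen⟩ := green_le hD0 hθ hlam0 hρlam hll hlam1
  set ε : ℝ := δ / (4 * (1 + 2 * θ)) with hε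
  have hε0 : 0 < ε := by positivity
  have hεθ : ε * (1 + 2 * θ) = δ / 4 := by
    rw [hε]
    field_simp
  have hε1 : ε < δ / 4 := by nlinarith
  obtain ⟨L₁, hL₁⟩ := prob_ge hr0 hr1 hD hD0 hθ hρ h0 h1 hε0 (show 0 < δ / 2 by positivity)
  set c : ℝ := 1 / 2 * (1 / 2) ^ θ with hc
  have hc0 : 0 < c := by positivity
  have hMt := (tendsto_id.const_mul_atTop (show 0 < δ / 2 by positivity)).eventually_ge_atTop
    (M₁ : ℝ)
  have hMt2 := (tendsto_id.const_mul_atTop (show 0 < δ / 2 by positivity)).eventually_ge_atTop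
    (-Real.log (c / 2))
  obtain ⟨L₂, hL₂⟩ := eventually_atTop.1 ((hMt.and hMt2).and (eventually_gt_atTop (0 : ℝ)))
  refine ⟨ε, hε0, by linarith, 4 * (1 / c * (1 + C₁ / D)), by positivity, max L₁ L₂,
    fun L hL F hF hcard T hT => ?_⟩
  obtain ⟨⟨hM, hM2⟩, hL0⟩ := hL₂ L ((le_max_right _ _).trans hL)
  simp only [id] at hM hM2
  have hLL₁ : L₁ ≤ L := (le_max_left _ _).trans hL
  have hTD0 : 0 ≤ (T : ℝ) * D := by positivity
  have hδL : 0 < δ * L := by positivity
  have hεL : ε * L < δ * L / 4 := by nlinarith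
  have hTDL : (T : ℝ) * D ≤ L - δ * L := by linarith
  have hTL : (T : ℝ) ≤ L / D := by
    rw [le_div_iff₀ hD0]
    linarith
  have hexpM : (M₁ : ℝ) ≤ Real.exp (L - T * D - ε * L) := by
    refine hM.trans ?_
    have h2 : δ / 2 * L ≤ L - T * D - ε * L := by linarith
    refine h2.trans ?_
    have := Real.add_one_le_exp (L - T * D - ε * L)
    linarith
  -- the mean number
  set p : ℤ → ℝ := fun n => (((wd 6 T).filter (Cls D (ε * L) T n)).card : ℝ) *
    (((6 : ℕ) : ℝ)⁻¹) ^ T with hp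
  have hpge : ∀ n ∈ F, c * (ρ ^ T * Real.exp (θ * (T * D - ε * L))) ≤ p n := by
    intro n hn
    exact hL₁ L hLL₁ T n (hF n hn).1 (by linarith)
  set m : ℝ := ∑ n ∈ F, p n with hm
  set X₀ : ℝ := L + T * Real.log ρ + θ * (T * D - ε * L) with hX₀
  have hm0 : c * Real.exp X₀ ≤ m := by
    calc c * Real.exp X₀ = Real.exp L * (c * (ρ ^ T * Real.exp (θ * (T * D - ε * L)))) := by
          rw [hX₀, Real.exp_add, Real.exp_add, Real.exp_nat_mul, Real.exp_log hρ]
          ring
      _ ≤ F.card * (c * (ρ ^ T * Real.exp (θ * (T * D - ε * L)))) :=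
          mul_le_mul_of_nonneg_right hcard (by positivity)
      _ = ∑ n ∈ F, c * (ρ ^ T * Real.exp (θ * (T * D - ε * L))) := by
          rw [Finset.sum_const, nsmul_eq_mul]
      _ ≤ m := Finset.sum_le_sum hpge
  have hmpos : 0 < m := lt_of_lt_of_le (by positivity) hm0
  -- the Green function
  set H : ℝ := C₁ * Real.exp ((1 + θ + Real.log lam' / D) * (T * D + ε * L) -
    Real.log lam' / D * (ε * L)) with hH
  have he' : 0 ≤ 1 + θ + Real.log lam' / D := by
    rw [hloglam', add_div]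
    have : 0 < η / D := by positivity
    linarith
  have hHle : ∀ n ∈ F, ∀ w ∈ (wd 6 T).filter (Cls D (ε * L) T n), ∀ i < T,
      ∑ n' ∈ F, ∑ j ∈ range T, (((6 : ℕ) : ℝ)⁻¹) ^ j *
        (((wd 6 j).filter (fun u => Pre D (ε * L) n' u ∧
          run G6 n' u = run G6 n (w.take i))).card : ℝ) ≤ H := by
    intro n hn w hw i hi
    rw [mem_filter] at hw
    set v := run G6 n (w.take i) with hv
    have hbar := (hw.2.2 i hi.le).1
    rw [← hv] at hbar
    have hnL := (hF n hn).1
    have hv1 : Real.exp (L - i * D - ε * L) ≤ |(v : ℝ)| := by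
      refine le_trans ?_ hbar
      calc Real.exp (L - i * D - ε * L) = Real.exp L * Real.exp (-(i * D) - ε * L) := by
            rw [← Real.exp_add]
            ring_nf
        _ ≤ _ := mul_le_mul_of_nonneg_right hnL (Real.exp_pos _).le
    have hiT : (i : ℝ) * D ≤ T * D := mul_le_mul_of_nonneg_right (by exact_mod_cast hi.le) hD0.le
    have hv0 : 0 < |(v : ℝ)| := lt_of_lt_of_le (Real.exp_pos _) hv1
    have hv2 : (M₁ : ℝ) ≤ |(v : ℝ)| := by
      refine hexpM.trans (le_trans (Real.exp_le_exp.2 ?_) hv1)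
      linarith
    have hv3 : L - i * D - ε * L ≤ Real.log |(v : ℝ)| := (Real.le_log_iff_exp_le hv0).2 hv1
    have h2 := hgreen L (ε * L) hL0.le T F hF hexpM v hv2 hv0
    refine h2.trans ?_
    rw [hH]
    apply mul_le_mul_of_nonneg_left _ hC₁.le
    apply Real.exp_le_exp.2
    have h3 : (1 + θ + Real.log lam' / D) * (L - Real.log |(v : ℝ)|) ≤
        (1 + θ + Real.log lam' / D) * (T * D + ε * L) :=
      mul_le_mul_of_nonneg_left (by linarith) he'
    calc (1 + θ) * (L - Real.log |(v : ℝ)|) +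
        Real.log lam' / D * (L - Real.log |(v : ℝ)| - ε * L)
        = (1 + θ + Real.log lam' / D) * (L - Real.log |(v : ℝ)|) -
          Real.log lam' / D * (ε * L) := by ring
      _ ≤ _ := by linarith
  have hmain := many_paths G6 T (Cls D (ε * L) T) (Pre D (ε * L)) (fun n w h => h.1)
    (fun n w h hw j hj => pre_of_cls h hw hj) F hmpos (m := m) rfl hHle
  have hH0 : 0 < H := by positivity
  -- the lower bound for the mean
  have hX3 : (1 + θ + Real.log ρ / D - δ / 2) * L ≤ X₀ := by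
    have h2 : (L - δ * L) * (θ + Real.log ρ / D) ≤ T * D * (θ + Real.log ρ / D) :=
      mul_le_mul_of_nonpos_right hTDL he1
    have h3 : (T : ℝ) * D * (θ + Real.log ρ / D) = T * Real.log ρ + θ * (T * D) := by
      field_simp
      ring
    have h4 : θ * (ε * L) ≤ δ * L / 4 := by
      have : (ε * (1 + 2 * θ)) * L = δ / 4 * L := by rw [hεθ]
      nlinarith [mul_pos hε0 hL0]
    have h5 : L * (θ + Real.log ρ / D) ≤ (L - δ * L) * (θ + Real.log ρ / D) :=
      mul_le_mul_of_nonpos_right (by linarith) he1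
    rw [hX₀]
    linarith
  have hmid : Real.exp ((1 + θ + Real.log ρ / D - δ) * L) ≤ m / 2 := by
    calc Real.exp ((1 + θ + Real.log ρ / D - δ) * L)
        ≤ Real.exp (Real.log (c / 2) + X₀) := by
          apply Real.exp_le_exp.2
          linarith
      _ = c * Real.exp X₀ / 2 := by
          rw [Real.exp_add, Real.exp_log (by positivity)]
          ring
      _ ≤ m / 2 := by linarith
  refine (measureReal_mono (fun ω hω => le_trans hω hmid) (measure_ne_top _ _)).trans
    (hmain.trans ?_)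
  rw [mul_div_assoc, mul_assoc 4, mul_assoc 4]
  apply mul_le_mul_of_nonneg_left _ (by norm_num)
  -- the two exponents
  have hX1 : δ / 2 * L ≤ X₀ := by
    have h2 : (T : ℝ) * D * (-1) ≤ T * D * (θ + Real.log ρ / D) :=
      mul_le_mul_of_nonneg_left (by linarith) hTD0
    have h3 : (T : ℝ) * D * (θ + Real.log ρ / D) = T * Real.log ρ + θ * (T * D) := by
      field_simp
      ring
    have h4 : θ * (ε * L) ≤ δ * L / 4 := by
      have : (ε * (1 + 2 * θ)) * L = δ / 4 * L := by rw [hεθ]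
      nlinarith [mul_pos hε0 hL0]
    rw [hX₀]
    nlinarith
  have hX2 : (1 + θ + Real.log lam' / D) * (T * D + ε * L) - Real.log lam' / D * (ε * L) - X₀ ≤
      -(δ / 2) * L := by
    have h2 : (1 + θ + Real.log lam' / D) * (T * D + ε * L) - Real.log lam' / D * (ε * L) - X₀ =
        T * D + T * η + ε * (1 + 2 * θ) * L - L := by
      rw [hX₀, hloglam']
      field_simp
      ring
    rw [h2, hεθ]
    have h3 : (T : ℝ) * η ≤ L / D * (δ * D / 4) :=
      mul_le_mul hTL hη1 hη0.le (by positivity)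
    have h4 : L / D * (δ * D / 4) = δ * L / 4 := by
      field_simp
    linarith
  calc (1 + T * H) / m ≤ (1 + T * H) / (c * Real.exp X₀) := by
        apply div_le_div_of_nonneg_left _ (by positivity) hm0
        positivity
    _ = 1 / c * (Real.exp (-X₀) + T * (H * Real.exp (-X₀))) := by
        rw [Real.exp_neg]
        field_simp
    _ ≤ 1 / c * (Real.exp (-(δ / 2) * L) + L / D * (C₁ * Real.exp (-(δ / 2) * L))) := by
        apply mul_le_mul_of_nonneg_left _ (by positivity)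
        apply add_le_add
        · apply Real.exp_le_exp.2
          linarith
        · apply mul_le_mul hTL _ (by positivity) (by positivity)
          rw [hH, mul_assoc, ← Real.exp_add]
          apply mul_le_mul_of_nonneg_left _ hC₁.le
          apply Real.exp_le_exp.2
          linarith
    _ ≤ _ := by
        have hE := Real.exp_pos (-(δ / 2) * L)
        have h2 : L / D * C₁ = C₁ / D * L := by ring
        have h3 : 1 + L / D * C₁ ≤ (1 + C₁ / D) * (1 + L) := by
          rw [h2]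
          have : 0 < C₁ / D := by positivity
          nlinarith
        calc 1 / c * (Real.exp (-(δ / 2) * L) + L / D * (C₁ * Real.exp (-(δ / 2) * L)))
            = 1 / c * ((1 + L / D * C₁) * Real.exp (-(δ / 2) * L)) := by ring
          _ ≤ 1 / c * (((1 + C₁ / D) * (1 + L)) * Real.exp (-(δ / 2) * L)) := by
              apply mul_le_mul_of_nonneg_left _ (by positivity)
              exact mul_le_mul_of_nonneg_right h3 hE.le
          _ = _ := by ring

open Classical in
/-- **Many slow trajectories for almost every environment.** -/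
theorem slow_count_ae {r θ ρ D δ : ℝ} (hr0 : 0 < r) (hr1 : r < 1)
    (hD : D = Real.log 2 - r * Real.log 3) (hD0 : 0 < D) (hθ : 0 < θ) (hρ : 0 < ρ) (hρ1 : ρ < 1)
    (h0 : (1 - r) / 3 * ρ = (1 / 2) ^ θ / 6) (h1 : r / 3 * ρ = (3 / 2) ^ θ / 6)
    (he : 0 < 1 + θ + Real.log ρ / D) (he1 : θ + Real.log ρ / D ≤ 0)
    (hδ0 : 0 < δ) (hδ1 : δ < 1) :
    ∀ᵐ ω ∂P 6, ∀ B : ℕ, ∀ᶠ k : ℕ in atTop,
      Real.exp ((1 + θ + Real.log ρ / D - δ) * (k * Real.log 2)) <
        (((Finset.Icc ((2 : ℤ) ^ k) (2 ^ (k + 1))).filter (fun n => ∀ i : ℕ,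
          (i : ℝ) ≤ (1 - δ) * (k * Real.log 2) / D → (B : ℤ) < |(Tn G6 ω)^[i] n|)).card : ℝ) := by
  obtain ⟨ε, hε0, hε1, K, hK, L₀, hmain⟩ :=
    slow_prob hr0 hr1 hD hD0 hθ hρ hρ1 h0 h1 he he1 hδ0 hδ1
  have hl2 : 0 < Real.log 2 := Real.log_pos (by norm_num)
  set F : ℕ → Finset ℤ := fun k => Finset.Icc ((2 : ℤ) ^ k) (2 ^ (k + 1)) with hF
  set T : ℕ → ℕ := fun k => ⌊(1 - δ) * (k * Real.log 2) / D⌋₊ with hT
  set E : ℕ → Set (ℤ → Fin 6) := fun k =>
    {ω | (((F k).filter (fun n => Cls D (ε * (k * Real.log 2)) (T k) n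
      (word G6 ω n (T k)))).card : ℝ) ≤
      Real.exp ((1 + θ + Real.log ρ / D - δ) * (k * Real.log 2))} with hE
  set q : ℝ := Real.exp (-(δ / 2) * Real.log 2) with hq
  have hq0 : 0 < q := Real.exp_pos _
  have hq1 : q < 1 := by
    rw [hq, Real.exp_lt_one_iff]
    have : 0 < δ / 2 * Real.log 2 := by positivity
    linarith
  have hexp2 : ∀ k : ℕ, Real.exp (k * Real.log 2) = 2 ^ k := by
    intro k
    rw [Real.exp_nat_mul, Real.exp_log (by norm_num)]
  obtain ⟨k₀, hk₀⟩ : ∃ k₀ : ℕ, ∀ k : ℕ, k₀ ≤ k → L₀ ≤ k * Real.log 2 := by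
    obtain ⟨k₀, hk₀⟩ := exists_nat_ge (L₀ / Real.log 2)
    refine ⟨k₀, fun k hk => ?_⟩
    rw [div_le_iff₀ hl2] at hk₀
    refine hk₀.trans ?_
    exact mul_le_mul_of_nonneg_right (by exact_mod_cast hk) hl2.le
  have hprob : ∀ k : ℕ, P 6 (E (k + k₀)) ≤
      ENNReal.ofReal (K * (1 + ((k + k₀ : ℕ) : ℝ) * Real.log 2) * q ^ (k + k₀)) := by
    intro k
    set k' := k + k₀ with hk'
    have h2 := hmain (k' * Real.log 2) (hk₀ k' (by omega)) (F k') (by
      intro n hn
      rw [hF, Finset.mem_Icc] at hn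
      have h3 : (2 : ℝ) ^ k' ≤ n := by exact_mod_cast hn.1
      have h4 : (n : ℝ) ≤ 2 ^ (k' + 1) := by exact_mod_cast hn.2
      have h5 : (0 : ℝ) < n := lt_of_lt_of_le (by positivity) h3
      rw [abs_of_pos h5, hexp2]
      refine ⟨h3, ?_⟩
      rw [pow_succ] at h4
      linarith) (by
      rw [hexp2, hF, Int.card_Icc]
      have h3 : ((2 : ℤ) ^ k' ≤ 2 ^ (k' + 1) + 1 - 2 ^ k') := by
        rw [pow_succ]
        linarith
      have h4 : (2 : ℤ) ^ k' ≤ (((2 : ℤ) ^ (k' + 1) + 1 - 2 ^ k').toNat : ℤ) := by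
        rw [Int.toNat_of_nonneg (le_trans (by positivity) h3)]
        exact h3
      exact_mod_cast h4) (T k') (by
      have h3 : ((T k' : ℕ) : ℝ) ≤ (1 - δ) * (k' * Real.log 2) / D := by
        rw [hT]
        apply Nat.floor_le
        have : 0 < 1 - δ := by linarith
        positivity
      rwa [le_div_iff₀ hD0] at h3)
    rw [measureReal_def] at h2
    have h3 : P 6 (E k') ≠ ⊤ := measure_ne_top _ _
    have h4 := (ENNReal.le_ofReal_iff_toReal_le h3 (by positivity)).2 h2
    refine h4.trans (le_of_eq ?_)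
    congr 2
    rw [hq, ← Real.exp_nat_mul]
    ring_nf
  have hsum : Summable (fun k : ℕ => K * (1 + ((k + k₀ : ℕ) : ℝ) * Real.log 2) * q ^ (k + k₀)) := by
    have s0 : Summable (fun k : ℕ => K * (1 + (k : ℝ) * Real.log 2) * q ^ k) := by
      have s1 := (summable_geometric_of_lt_one hq0.le hq1).mul_left K
      have s2 := (summable_pow_mul_geometric_of_norm_lt_one 1 (r := q) (by
        rw [Real.norm_of_nonneg hq0.le]; exact hq1)).mul_left (K * Real.log 2)
      refine (s1.add s2).congr (fun k => ?_)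
      rw [pow_one]
      ring
    exact (summable_nat_add_iff k₀).2 s0
  have hbc := bc (μ := P 6) (fun k => E (k + k₀)) _ hsum hprob
  filter_upwards [hbc] with ω hω B
  -- the large scales
  have hfin : ∀ᶠ k : ℕ in atTop, ω ∉ E (k + k₀) := by
    rw [← Nat.cofinite_eq_atTop]
    have := hω.eventually_cofinite_notMem
    exact this
  have t3 : Tendsto (fun k : ℕ => Real.exp ((δ - ε) * (((k + k₀ : ℕ) : ℝ) * Real.log 2)))
      atTop atTop := by
    apply Real.tendsto_exp_atTop.comp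
    apply Tendsto.const_mul_atTop (by linarith)
    apply Tendsto.atTop_mul_const hl2
    exact tendsto_natCast_atTop_atTop.comp (tendsto_add_atTop_nat k₀)
  have hev : ∀ᶠ k : ℕ in atTop, Real.exp ((1 + θ + Real.log ρ / D - δ) *
      (((k + k₀ : ℕ) : ℝ) * Real.log 2)) <
        (((F (k + k₀)).filter (fun n => ∀ i : ℕ,
          (i : ℝ) ≤ (1 - δ) * (((k + k₀ : ℕ) : ℝ) * Real.log 2) / D →
            (B : ℤ) < |(Tn G6 ω)^[i] n|)).card : ℝ) := by
    filter_upwards [hfin, t3.eventually_gt_atTop (B : ℝ)] with k h2 h4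
    set k' := k + k₀ with hk'
    simp only [hE, Set.mem_ofPred_eq, not_le] at h2
    refine lt_of_lt_of_le h2 ?_
    have hsub : (F k').filter (fun n => Cls D (ε * (k' * Real.log 2)) (T k') n
        (word G6 ω n (T k'))) ⊆ (F k').filter (fun n => ∀ i : ℕ,
          (i : ℝ) ≤ (1 - δ) * (k' * Real.log 2) / D → (B : ℤ) < |(Tn G6 ω)^[i] n|) := by
      intro n hn
      rw [mem_filter] at hn ⊢
      obtain ⟨hn, hcls⟩ := hn
      refine ⟨hn, fun i h7 => ?_⟩
      rw [hF, Finset.mem_Icc] at hn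
      have hn1 : (2 : ℝ) ^ k' ≤ n := by exact_mod_cast hn.1
      have h8 : i ≤ T k' := Nat.le_floor h7
      have h9 := (hcls.2 i h8).1
      have h10 : (word G6 ω n (T k')).take i = word G6 ω n i := by
        rw [show T k' = i + (T k' - i) by omega, word_take]
      rw [h10, run_word] at h9
      have h11 : Real.exp ((δ - ε) * (k' * Real.log 2)) ≤
          |(n : ℝ)| * Real.exp (-(i * D) - ε * (k' * Real.log 2)) := by
        have h12 : (i : ℝ) * D ≤ (1 - δ) * (k' * Real.log 2) := by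
          rwa [le_div_iff₀ hD0] at h7
        calc Real.exp ((δ - ε) * (k' * Real.log 2)) ≤
              Real.exp (k' * Real.log 2) * Real.exp (-(i * D) - ε * (k' * Real.log 2)) := by
              rw [← Real.exp_add]
              apply Real.exp_le_exp.2
              linarith
          _ ≤ _ := by
              apply mul_le_mul_of_nonneg_right _ (Real.exp_pos _).le
              rw [hexp2]
              exact hn1.trans (le_abs_self _)
      have h13 : (B : ℝ) < |(((Tn G6 ω)^[i] n : ℤ) : ℝ)| :=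
        lt_of_lt_of_le h4 (h11.trans h9)
      have h14 : ((B : ℤ) : ℝ) < ((|(Tn G6 ω)^[i] n| : ℤ) : ℝ) := by
        push_cast
        exact_mod_cast h13
      exact_mod_cast h14
    exact_mod_cast Finset.card_le_card hsub
  obtain ⟨k₁, hk₁⟩ := eventually_atTop.1 hev
  rw [eventually_atTop]
  refine ⟨k₁ + k₀, fun k hk => ?_⟩
  have h2 := hk₁ (k - k₀) (by omega)
  have h3 : k - k₀ + k₀ = k := by omega
  rw [h3] at h2
  exact h2

end Pool.Agent.Q205.RP
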