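import Mathlib
import Pool.Agent.Q205.RP.Height
import Pool.Agent.Q205.RP.Average

/-!
# Heights under almost every perturbation of the `3x+1` map
-/

set_option autoImplicit false

open MeasureTheory Finset Filter Topology

namespace Pool.Agent.Q205.RP

/-- the number of multiplications in the first `k` steps from `x` -/
def oddc (f : ℤ → ℤ) (ω : ℤ → Fin 2) (x : ℤ) (k : ℕ) : ℕ :=
  ((range k).filter (fun i => (f^[i] x + ((ω (f^[i] x) : ℕ) : ℤ)) % 2 = 1)).card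

theorem odds_word (ω : ℤ → Fin 2) (x : ℤ) (k : ℕ) :
    odds x (word G3 ω x k) = oddc (Tn G3 ω) ω x k := by
  induction k generalizing x with
  | zero => simp [word, odds, oddc]
  | succ k ih =>
    unfold oddc at ih ⊢
    rw [word, odds, ih, Finset.card_filter, Finset.card_filter, Finset.sum_range_succ', add_comm]
    have e0 : (if ((Tn G3 ω)^[0] x + ((ω ((Tn G3 ω)^[0] x) : ℕ) : ℤ)) % 2 = 1 then 1 else 0) =
        (if (x + ((ω x : ℕ) : ℤ)) % 2 = 0 then 0 else 1 : ℕ) := by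
      have e1 : (Tn G3 ω)^[0] x = x := rfl
      rw [e1]
      rcases Int.emod_two_eq_zero_or_one (x + ((ω x : ℕ) : ℤ)) with h | h
      · rw [h]; rfl
      · rw [h]; rfl
    rw [e0]
    rfl

theorem oddc_le (f : ℤ → ℤ) (ω : ℤ → Fin 2) (x : ℤ) (k : ℕ) : oddc f ω x k ≤ k := by
  unfold oddc
  refine (Finset.card_filter_le _ _).trans ?_
  rw [card_range]

theorem oddc_mono (f : ℤ → ℤ) (ω : ℤ → Fin 2) (x : ℤ) {i k : ℕ} (h : i ≤ k) :
    oddc f ω x i ≤ oddc f ω x k := by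
  unfold oddc
  apply Finset.card_le_card
  apply Finset.filter_subset_filter
  exact Finset.range_subset_range.2 h

/-- before the first visit to `A` there is no repetition -/
theorem inj_of_first {f : ℤ → ℤ} {A : Finset ℤ} {x : ℤ} {k : ℕ} (hk : f^[k] x ∈ A)
    (hmin : ∀ i < k, f^[i] x ∉ A) {i j : ℕ} (hi : i ≤ k) (hj : j ≤ k)
    (h : f^[i] x = f^[j] x) : i = j := by
  have key : ∀ a b : ℕ, a < b → b ≤ k → f^[a] x ≠ f^[b] x := by
    intro a b hab hb hne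
    have h1 : f^[k] x = f^[k - b + a] x := by
      rw [show k = (k - b) + b by omega, Function.iterate_add_apply, ← hne,
        ← Function.iterate_add_apply, show k - b + b - b + a = k - b + a by omega]
    rw [h1] at hk
    exact hmin _ (by omega) hk
  rcases lt_trichotomy i j with h1 | h1 | h1
  · exact absurd h (key i j h1 hj)
  · exact h1
  · exact absurd h.symm (key j i h1 hi)

/-- the first time at which the trajectory of `x` is in `A` -/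
noncomputable def hitT (f : ℤ → ℤ) (A : Finset ℤ) (x : ℤ) : ℕ := sInf {k | f^[k] x ∈ A}

theorem hitT_spec {f : ℤ → ℤ} {A : Finset ℤ} {x : ℤ} (h : ∃ k, f^[k] x ∈ A) :
    f^[hitT f A x] x ∈ A ∧ ∀ i < hitT f A x, f^[i] x ∉ A := by
  refine ⟨Nat.sInf_mem h, fun i hi hc => ?_⟩
  exact absurd (Nat.sInf_le (show i ∈ {k | f^[k] x ∈ A} from hc)) (not_le.2 hi)

/-- two sided bounds for the number of multiplications before the first visit to `A`, outside the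
two exceptional events -/
theorem between {ω : ℤ → Fin 2} {A : Finset ℤ} {x : ℤ} (h : ∃ k, (Tn G3 ω)^[k] x ∈ A)
    {L₁ L₂ M : ℝ} (hA : ∀ a ∈ A, |(a : ℝ)| ≤ M)
    (h1 : ¬ ∃ t, (sites G3 x (word G3 ω x t)).Nodup ∧
      L₂ * Real.log (2 + |(x : ℝ)|) ≤ odds x (word G3 ω x t))
    (h2 : ¬ ∃ t, (∀ s ∈ sites G3 x (word G3 ω x t), M < |(s : ℝ)|) ∧
        (sites G3 x (word G3 ω x t)).Nodup ∧
        |(run G3 x (word G3 ω x t) : ℝ)| ≤ M ∧
        odds x (word G3 ω x t) ≤ L₁ * Real.log (2 + |(x : ℝ)|)) :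
    L₁ * Real.log (2 + |(x : ℝ)|) < (oddc (Tn G3 ω) ω x (hitT (Tn G3 ω) A x) : ℝ) ∧
    (oddc (Tn G3 ω) ω x (hitT (Tn G3 ω) A x) : ℝ) < L₂ * Real.log (2 + |(x : ℝ)|) := by
  classical
  obtain ⟨hk, hmin⟩ := hitT_spec h
  set f := Tn G3 ω with hf
  set k := hitT f A x with hkdef
  have hnd : ∀ i ≤ k, (sites G3 x (word G3 ω x i)).Nodup := by
    intro i hi
    rw [nodup_iff]
    intro a ha b hb hab
    exact inj_of_first hk hmin (by omega) (by omega) hab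
  constructor
  · have hex : ∃ i, |((f^[i] x : ℤ) : ℝ)| ≤ M := ⟨k, hA _ hk⟩
    set i := Nat.find hex with hi
    have hiM : |((f^[i] x : ℤ) : ℝ)| ≤ M := Nat.find_spec hex
    have himin : ∀ j < i, M < |((f^[j] x : ℤ) : ℝ)| := fun j hj => by
      have := Nat.find_min hex hj
      rwa [not_le] at this
    have hik : i ≤ k := by
      by_contra hc
      rw [not_le] at hc
      have := himin k hc
      linarith [hA _ hk]
    by_contra hcon
    rw [not_lt] at hcon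
    apply h2
    refine ⟨i, ?_, hnd i hik, ?_, ?_⟩
    · intro s hs
      rw [sites_word, List.mem_map] at hs
      obtain ⟨a, ha, rfl⟩ := hs
      exact himin a (List.mem_range.1 ha)
    · rw [run_word]
      exact hiM
    · rw [odds_word]
      have : ((oddc f ω x i : ℕ) : ℝ) ≤ oddc f ω x k := by
        exact_mod_cast oddc_mono f ω x hik
      linarith
  · by_contra hcon
    rw [not_lt] at hcon
    apply h1
    refine ⟨k, hnd k le_rfl, ?_⟩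
    rw [odds_word]
    exact hcon

theorem lin_G3 : Lin G3 2 ![1, 3] (RR ![1, 3] ![0, -1]) :=
  lin_tab (a := 3) (b := 1) (by norm_num) (by norm_num)

/-- the first visit takes place in logarithmic time -/
theorem hitT_le {ω : ℤ → Fin 2} {K : ℝ} (hK : ∀ x : ℤ, ∃ i j : ℕ, i < j ∧
      (j : ℝ) ≤ K * Real.log (2 + |(x : ℝ)|) ∧ (Tn G3 ω)^[i] x = (Tn G3 ω)^[j] x)
    {A : Finset ℤ} {x : ℤ} (h : ∃ k, (Tn G3 ω)^[k] x ∈ A) :
    (hitT (Tn G3 ω) A x : ℝ) ≤ K * Real.log (2 + |(x : ℝ)|) := by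
  obtain ⟨hk, hmin⟩ := hitT_spec h
  obtain ⟨i, j, hij, hj, hxx⟩ := hK x
  refine le_trans ?_ hj
  by_contra hcon
  rw [not_le] at hcon
  have hlt : j < hitT (Tn G3 ω) A x := by exact_mod_cast hcon
  have := inj_of_first hk hmin (by omega) (by omega) hxx
  omega

/-- **Law of large numbers for the heights, with exceptional sets of power size.** -/
theorem heights_ae : ∀ᵐ ω ∂P 2, (∃ K : ℝ, ∀ x : ℤ, ∃ i j : ℕ, i < j ∧
      (j : ℝ) ≤ K * Real.log (2 + |(x : ℝ)|) ∧ (Tn G3 ω)^[i] x = (Tn G3 ω)^[j] x) ∧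
    ∀ (A : Finset ℤ) (ε : ℝ), 0 < ε → ∃ C δ : ℝ, 0 < δ ∧ ∀ X : ℕ,
      ({x : ℤ | |x| ≤ X ∧ (∃ k, (Tn G3 ω)^[k] x ∈ A) ∧ ε * Real.log (2 + |(x : ℝ)|) <
        |(oddc (Tn G3 ω) ω x (hitT (Tn G3 ω) A x) : ℝ) -
          1 / Real.log (4 / 3) * Real.log (2 + |(x : ℝ)|)|}.ncard : ℝ) ≤
        C * (2 + (X : ℝ)) ^ (1 - δ) := by
  classical
  have hl43 := log43_pos
  set c₀ : ℝ := 1 / Real.log (4 / 3) with hc₀
  have hc0 : 0 < c₀ := by rw [hc₀]; positivity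
  have hcontr := main_contracting G3 (m := ![1, 3]) (fun i => by fin_cases i <;> simp) lin_G3 (by
    rw [Fin.prod_univ_two]
    simp
    norm_num)
  -- the exceptional events
  have hU : ∀ q : ℕ, c₀ < c₀ + c₀ / (q + 2) := fun q => by
    have : 0 < c₀ / ((q : ℝ) + 2) := by positivity
    linarith
  have hLp : ∀ q : ℕ, 0 < c₀ - c₀ / (q + 2) := fun q => by
    have : c₀ / ((q : ℝ) + 2) < c₀ := by
      rw [div_lt_iff₀ (by positivity)]
      nlinarith [(Nat.cast_nonneg q : (0 : ℝ) ≤ q)]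
    linarith
  have hLt : ∀ q : ℕ, c₀ - c₀ / (q + 2) < c₀ := fun q => by
    have : 0 < c₀ / ((q : ℝ) + 2) := by positivity
    linarith
  choose CU δU hCU hδU hδU1 hPU using fun q : ℕ => upper_le (hU q)
  choose CL δL ρL NL hCL hδL hδL1 hρL hPL using fun q : ℕ => lower_le (hLp q) (hLt q)
  have haeU : ∀ q : ℕ, ∀ᵐ ω ∂P 2, ∃ K : ℝ, ∀ X : ℕ, ({x : ℤ | |x| ≤ X ∧ ω ∈ {ω | ∃ t,
      (sites G3 x (word G3 ω x t)).Nodup ∧
        (c₀ + c₀ / (q + 2)) * Real.log (2 + |(x : ℝ)|) ≤ odds x (word G3 ω x t)}}.ncard : ℝ) ≤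
      K * (2 + (X : ℝ)) ^ (1 - δU q / 2) := fun q =>
    count_ae (μ := P 2) (fun x : ℤ => {ω | ∃ t, (sites G3 x (word G3 ω x t)).Nodup ∧
        (c₀ + c₀ / (q + 2)) * Real.log (2 + |(x : ℝ)|) ≤ odds x (word G3 ω x t)})
      (hCU q) (hδU q) (hδU1 q) (hPU q)
  have haeL : ∀ q : ℕ, ∀ᵐ ω ∂P 2, ∃ K : ℝ, ∀ X : ℕ, ({x : ℤ | |x| ≤ X ∧ ω ∈ {ω | ∃ t,
      (∀ s ∈ sites G3 x (word G3 ω x t), NL q + (2 + |(x : ℝ)|) ^ ρL q < |(s : ℝ)|) ∧
        (sites G3 x (word G3 ω x t)).Nodup ∧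
        |(run G3 x (word G3 ω x t) : ℝ)| ≤ NL q + (2 + |(x : ℝ)|) ^ ρL q ∧
        odds x (word G3 ω x t) ≤ (c₀ - c₀ / (q + 2)) * Real.log (2 + |(x : ℝ)|)}}.ncard : ℝ) ≤
      K * (2 + (X : ℝ)) ^ (1 - δL q / 2) := fun q =>
    count_ae (μ := P 2) (fun x : ℤ => {ω | ∃ t,
      (∀ s ∈ sites G3 x (word G3 ω x t), NL q + (2 + |(x : ℝ)|) ^ ρL q < |(s : ℝ)|) ∧
        (sites G3 x (word G3 ω x t)).Nodup ∧
        |(run G3 x (word G3 ω x t) : ℝ)| ≤ NL q + (2 + |(x : ℝ)|) ^ ρL q ∧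
        odds x (word G3 ω x t) ≤ (c₀ - c₀ / (q + 2)) * Real.log (2 + |(x : ℝ)|)})
      (hCL q) (hδL q) (hδL1 q) (hPL q)
  filter_upwards [hcontr, ae_all_iff.2 haeU, ae_all_iff.2 haeL] with ω h1 h2 h3
  refine ⟨h1, fun A ε hε => ?_⟩
  -- choose `q`
  obtain ⟨q, hq⟩ : ∃ q : ℕ, c₀ / (q + 2) < ε := by
    obtain ⟨q, hq⟩ := exists_nat_gt (c₀ / ε)
    refine ⟨q, ?_⟩
    rw [div_lt_iff₀ hε] at hq
    rw [div_lt_iff₀ (by positivity)]
    nlinarith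
  obtain ⟨K₁, hK₁⟩ := h2 q
  obtain ⟨K₂, hK₂⟩ := h3 q
  -- bound for `A`
  obtain ⟨MA, hMA⟩ : ∃ MA : ℝ, ∀ a ∈ A, |(a : ℝ)| ≤ MA := by
    refine ⟨∑ a ∈ A, |(a : ℝ)|, fun a ha => ?_⟩
    exact Finset.single_le_sum (f := fun a : ℤ => |(a : ℝ)|) (fun i _ => abs_nonneg _) ha
  have hev : ∀ᶠ t : ℝ in atTop, MA ≤ (2 + t) ^ ρL q := by
    have : Tendsto (fun t : ℝ => (2 + t) ^ ρL q) atTop atTop :=
      (tendsto_rpow_atTop (hρL q)).comp (tendsto_atTop_add_const_left _ _ tendsto_id)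
    exact this.eventually_ge_atTop MA
  obtain ⟨t₀, ht₀⟩ := eventually_atTop.1 hev
  set B : ℕ := ⌈t₀⌉₊ with hB
  set δ : ℝ := min (δU q / 2) (δL q / 2) with hδ
  have hδ0 : 0 < δ := lt_min (by have := hδU q; linarith) (by have := hδL q; linarith)
  have hδ1 : δ ≤ 1 := (min_le_left _ _).trans (by have := hδU1 q; linarith)
  refine ⟨|K₁| + |K₂| + (ball B).card, δ, hδ0, fun X => ?_⟩
  have hX1 : (1 : ℝ) ≤ 2 + (X : ℝ) := by linarith [(Nat.cast_nonneg X : (0 : ℝ) ≤ X)]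
  have hX0 : (0 : ℝ) < 2 + (X : ℝ) := by linarith
  have hp1 : (2 + (X : ℝ)) ^ (1 - δU q / 2) ≤ (2 + (X : ℝ)) ^ (1 - δ) :=
    Real.rpow_le_rpow_of_exponent_le hX1 (by have := min_le_left (δU q / 2) (δL q / 2); linarith)
  have hp2 : (2 + (X : ℝ)) ^ (1 - δL q / 2) ≤ (2 + (X : ℝ)) ^ (1 - δ) :=
    Real.rpow_le_rpow_of_exponent_le hX1 (by have := min_le_right (δU q / 2) (δL q / 2); linarith)
  have hp3 : (1 : ℝ) ≤ (2 + (X : ℝ)) ^ (1 - δ) := Real.one_le_rpow hX1 (by linarith)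
  set S₁ : Set ℤ := {x : ℤ | |x| ≤ X ∧ ω ∈ {ω | ∃ t, (sites G3 x (word G3 ω x t)).Nodup ∧
        (c₀ + c₀ / (q + 2)) * Real.log (2 + |(x : ℝ)|) ≤ odds x (word G3 ω x t)}} with hS₁
  set S₂ : Set ℤ := {x : ℤ | |x| ≤ X ∧ ω ∈ {ω | ∃ t,
      (∀ s ∈ sites G3 x (word G3 ω x t), NL q + (2 + |(x : ℝ)|) ^ ρL q < |(s : ℝ)|) ∧
        (sites G3 x (word G3 ω x t)).Nodup ∧
        |(run G3 x (word G3 ω x t) : ℝ)| ≤ NL q + (2 + |(x : ℝ)|) ^ ρL q ∧
        odds x (word G3 ω x t) ≤ (c₀ - c₀ / (q + 2)) * Real.log (2 + |(x : ℝ)|)}} with hS₂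
  have hf1 : S₁.Finite := (ball X).finite_toSet.subset (fun x hx => mem_ball.2 hx.1)
  have hf2 : S₂.Finite := (ball X).finite_toSet.subset (fun x hx => mem_ball.2 hx.1)
  have hf3 : ((ball B : Finset ℤ) : Set ℤ).Finite := (ball B).finite_toSet
  have hsub : {x : ℤ | |x| ≤ X ∧ (∃ k, (Tn G3 ω)^[k] x ∈ A) ∧ ε * Real.log (2 + |(x : ℝ)|) <
        |(oddc (Tn G3 ω) ω x (hitT (Tn G3 ω) A x) : ℝ) - c₀ * Real.log (2 + |(x : ℝ)|)|} ⊆
      (S₁ ∪ S₂) ∪ ((ball B : Finset ℤ) : Set ℤ) := by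
    rintro x ⟨hx1, hx2, hx3⟩
    by_contra hcon
    simp only [Set.mem_union, not_or] at hcon
    obtain ⟨⟨hn1, hn2⟩, hn3⟩ := hcon
    have hxB : t₀ ≤ |(x : ℝ)| := by
      have h4 : ¬ |x| ≤ B := fun hc => hn3 (mem_ball.2 hc)
      rw [not_le] at h4
      have h5 : ((B : ℤ) : ℝ) < ((|x| : ℤ) : ℝ) := by exact_mod_cast h4
      push_cast at h5
      linarith [Nat.le_ceil t₀]
    have h4 := ht₀ _ hxB
    have hlogpos : 0 < Real.log (2 + |(x : ℝ)|) :=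
      Real.log_pos (by linarith [abs_nonneg (x : ℝ)])
    obtain ⟨h5, h6⟩ := between (ω := ω) (A := A) (x := x) hx2
      (L₁ := c₀ - c₀ / (q + 2)) (L₂ := c₀ + c₀ / (q + 2))
      (M := NL q + (2 + |(x : ℝ)|) ^ ρL q) (fun a ha => by
        have := hMA a ha
        have h7 : (0 : ℝ) ≤ NL q := Nat.cast_nonneg _
        linarith) (fun hc => hn1 ⟨hx1, hc⟩) (fun hc => hn2 ⟨hx1, hc⟩)
    have h7 : c₀ / (q + 2) * Real.log (2 + |(x : ℝ)|) ≤ ε * Real.log (2 + |(x : ℝ)|) :=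
      mul_le_mul_of_nonneg_right hq.le hlogpos.le
    have h8 : |(oddc (Tn G3 ω) ω x (hitT (Tn G3 ω) A x) : ℝ) -
        c₀ * Real.log (2 + |(x : ℝ)|)| ≤ ε * Real.log (2 + |(x : ℝ)|) := by
      rw [abs_le]
      constructor <;> linarith
    linarith
  have hcard := (Set.ncard_le_ncard hsub ((hf1.union hf2).union hf3)).trans
    ((Set.ncard_union_le _ _).trans (Nat.add_le_add_right (Set.ncard_union_le _ _) _))
  have hcardR : (({x : ℤ | |x| ≤ X ∧ (∃ k, (Tn G3 ω)^[k] x ∈ A) ∧ ε * Real.log (2 + |(x : ℝ)|) <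
        |(oddc (Tn G3 ω) ω x (hitT (Tn G3 ω) A x) : ℝ) -
          c₀ * Real.log (2 + |(x : ℝ)|)|}.ncard : ℕ) : ℝ) ≤
      (S₁.ncard : ℝ) + S₂.ncard + (ball B).card := by
    rw [Set.ncard_coe_finset] at hcard
    exact_mod_cast hcard
  have hk1 := hK₁ X
  have hk2 := hK₂ X
  change (S₁.ncard : ℝ) ≤ _ at hk1
  change (S₂.ncard : ℝ) ≤ _ at hk2
  have hb1 : K₁ * (2 + (X : ℝ)) ^ (1 - δU q / 2) ≤ |K₁| * (2 + (X : ℝ)) ^ (1 - δ) :=
    (mul_le_mul_of_nonneg_right (le_abs_self K₁) (by positivity)).trans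
      (mul_le_mul_of_nonneg_left hp1 (abs_nonneg _))
  have hb2 : K₂ * (2 + (X : ℝ)) ^ (1 - δL q / 2) ≤ |K₂| * (2 + (X : ℝ)) ^ (1 - δ) :=
    (mul_le_mul_of_nonneg_right (le_abs_self K₂) (by positivity)).trans
      (mul_le_mul_of_nonneg_left hp2 (abs_nonneg _))
  have hb3 : ((ball B).card : ℝ) ≤ (ball B).card * (2 + (X : ℝ)) ^ (1 - δ) :=
    le_mul_of_one_le_right (Nat.cast_nonneg _) hp3
  calc _ ≤ (S₁.ncard : ℝ) + S₂.ncard + (ball B).card := hcardR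
    _ ≤ _ := by
      rw [add_mul, add_mul]
      linarith

/-- **The average order of the heights.** -/
theorem average_ae : ∀ᵐ ω ∂P 2, (∃ K : ℝ, ∀ x : ℤ, ∃ i j : ℕ, i < j ∧
      (j : ℝ) ≤ K * Real.log (2 + |(x : ℝ)|) ∧ (Tn G3 ω)^[i] x = (Tn G3 ω)^[j] x) ∧
    ∀ A : Finset ℤ, (∀ n : ℕ, n % 2 = 1 → ∃ k, (Tn G3 ω)^[k] (n : ℤ) ∈ A) →
      Tendsto (fun X : ℕ => (2 / (X : ℝ) * ∑ n ∈ oddsUpTo X,
        (oddc (Tn G3 ω) ω (n : ℤ) (hitT (Tn G3 ω) A n) : ℝ)) / Real.log X) atTop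
        (𝓝 (1 / Real.log (4 / 3))) := by
  classical
  filter_upwards [heights_ae] with ω hω
  obtain ⟨⟨K, hK⟩, h2⟩ := hω
  refine ⟨⟨K, hK⟩, fun A hA => ?_⟩
  apply average _ (1 / Real.log (4 / 3)) K (by have := log43_pos; positivity)
  · intro n hn
    refine ⟨Nat.cast_nonneg _, ?_⟩
    have h3 := hitT_le hK (hA n hn)
    have h4 : ((oddc (Tn G3 ω) ω (n : ℤ) (hitT (Tn G3 ω) A n) : ℕ) : ℝ) ≤
        (hitT (Tn G3 ω) A n : ℝ) := by exact_mod_cast oddc_le _ _ _ _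
    have h5 : |((n : ℤ) : ℝ)| = n := by simp
    rw [h5] at h3
    exact h4.trans h3
  · intro ε hε
    obtain ⟨C, δ, hδ, h3⟩ := h2 A ε hε
    refine ⟨C, δ, hδ, fun X => le_trans ?_ (h3 X)⟩
    set S : Set ℤ := {x : ℤ | |x| ≤ X ∧ (∃ k, (Tn G3 ω)^[k] x ∈ A) ∧
        ε * Real.log (2 + |(x : ℝ)|) < |(oddc (Tn G3 ω) ω x (hitT (Tn G3 ω) A x) : ℝ) -
          1 / Real.log (4 / 3) * Real.log (2 + |(x : ℝ)|)|} with hS
    have hfin : S.Finite := (ball X).finite_toSet.subset (fun x hx => mem_ball.2 hx.1)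
    set F := (oddsUpTo X).filter (fun n : ℕ => ε * Real.log (2 + (n : ℝ)) <
      |(oddc (Tn G3 ω) ω (n : ℤ) (hitT (Tn G3 ω) A n) : ℝ) -
        1 / Real.log (4 / 3) * Real.log (2 + (n : ℝ))|) with hF
    have h4 : (F.image (fun n : ℕ => (n : ℤ)) : Set ℤ) ⊆ S := by
      intro x hx
      rw [Finset.mem_coe, Finset.mem_image] at hx
      obtain ⟨n, hn, rfl⟩ := hx
      rw [hF, mem_filter, oddsUpTo, mem_filter, Finset.mem_range] at hn
      refine ⟨by rw [Nat.abs_cast]; exact_mod_cast (by omega : n ≤ X), hA n hn.1.2, ?_⟩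
      have h5 : |((n : ℤ) : ℝ)| = n := by simp
      rw [h5]
      exact hn.2
    have h5 := Set.ncard_le_ncard h4 hfin
    rw [Set.ncard_coe_finset, Finset.card_image_of_injective _ Nat.cast_injective] at h5
    exact_mod_cast h5

end Pool.Agent.Q205.RP
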