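import Mathlib
import Pool.Agent.Q205.RP.Gam2
import Pool.Agent.Q205.RP.Height2
import Pool.Agent.H395R2.G3.Rate

/-!
# The rate of the random walk model and the perturbed `3x+1` maps
-/

set_option autoImplicit false

open MeasureTheory Finset Filter Topology

namespace Pool.Agent.Q205.RP

open Pool.Agent.H395R2.G3

/-- the tilt which makes the slope `-D` typical -/
theorem tilt_spec {r D : ℝ} (hr : 1 / 2 < r) (hr1 : r < 1) (hD : D = Real.log 2 - r * Real.log 3)
    (hD0 : 0 < D) :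
    ∃ θ ρ : ℝ, 0 < θ ∧ 0 < ρ ∧ ρ < 1 ∧ (1 - r) / 3 * ρ = (1 / 2) ^ θ / 6 ∧
      r / 3 * ρ = (3 / 2) ^ θ / 6 ∧ Real.log ρ = -(θ * D) - (Real.log 2 - Real.binEntropy r) := by
  have hl3 : 0 < Real.log 3 := Real.log_pos (by norm_num)
  have hr0 : 0 < r := by linarith
  have h1r : 0 < 1 - r := by linarith
  set θ : ℝ := (Real.log r - Real.log (1 - r)) / Real.log 3 with hθ
  have hθ3 : θ * Real.log 3 = Real.log r - Real.log (1 - r) := by
    rw [hθ]
    field_simp
  have hθ0 : 0 < θ := by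
    rw [hθ]
    apply div_pos _ hl3
    have := Real.log_lt_log h1r (show 1 - r < r by linarith)
    linarith
  have h3θ : (3 : ℝ) ^ θ = r / (1 - r) := by
    rw [Real.rpow_def_of_pos (by norm_num), mul_comm, hθ3, ← Real.log_div hr0.ne' h1r.ne',
      Real.exp_log (by positivity)]
  have h32 : (3 / 2 : ℝ) ^ θ = r / (1 - r) * (1 / 2) ^ θ := by
    rw [← h3θ, ← Real.mul_rpow (by norm_num) (by norm_num)]
    norm_num
  have h12 : (0 : ℝ) < (1 / 2) ^ θ := by positivity
  have hlog : Real.log ((1 / 2 : ℝ) ^ θ / (2 * (1 - r))) =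
      -(θ * D) - (Real.log 2 - Real.binEntropy r) := by
    rw [Real.log_div h12.ne' (by positivity), Real.log_rpow (by norm_num),
      Real.log_mul (by norm_num) h1r.ne', Real.log_div (by norm_num) (by norm_num), Real.log_one,
      Real.binEntropy, Real.log_inv, Real.log_inv, hD]
    have : θ * (Real.log 2 - r * Real.log 3) = θ * Real.log 2 - r * (θ * Real.log 3) := by ring
    rw [this, hθ3]
    ring
  refine ⟨θ, (1 / 2) ^ θ / (2 * (1 - r)), hθ0, by positivity, ?_, ?_, ?_, hlog⟩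
  · rw [← Real.log_neg_iff (by positivity), hlog]
    have h1 := Real.binEntropy_le_log_two (p := r)
    have : 0 < θ * D := by positivity
    linarith
  · field_simp
    ring
  · rw [h32]
    field_simp
    ring

/-- the constant `2 / log (4/3)` -/
noncomputable def mu : ℝ := ((1 / 2) * Real.log (4 / 3))⁻¹

theorem mu_pos : 0 < mu := by
  unfold mu
  have := log43_pos
  positivity

theorem log43_eq : Real.log (4 / 3) = 2 * Real.log 2 - Real.log 3 := by
  rw [Real.log_div (by norm_num) (by norm_num), show (4 : ℝ) = 2 ^ 2 by norm_num, Real.log_pow]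
  norm_num

theorem inv_log_two_lt_mu : 1 / Real.log 2 < mu := by
  have hl2 : 0 < Real.log 2 := Real.log_pos (by norm_num)
  have hl3 : 0 < Real.log 3 := Real.log_pos (by norm_num)
  have h := log43_pos
  unfold mu
  rw [← one_div]
  apply one_div_lt_one_div_of_lt (by positivity)
  rw [log43_eq]
  linarith

theorem rr_gt_half {α : ℝ} (hα : mu < α) : 1 / 2 < rr α := by
  have hl3 : 0 < Real.log 3 := Real.log_pos (by norm_num)
  have h1 : 1 / α < (1 / 2) * Real.log (4 / 3) := by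
    have h2 := one_div_lt_one_div_of_lt mu_pos hα
    unfold mu at h2
    rwa [one_div, one_div, inv_inv, ← one_div α] at h2
  unfold rr
  rw [lt_div_iff₀ hl3]
  rw [log43_eq] at h1
  linarith

/-- the exponent of the large deviations -/
noncomputable def ex (α : ℝ) : ℝ := 1 - α * rate (1 / α)

theorem ex_eq {α : ℝ} (hα : mu < α) : ex α = α * FF (rr α) :=
  expo_eq (inv_log_two_lt_mu.trans hα)

/-- the tilt for the slope `-1/α` -/
theorem tilt_alpha {α : ℝ} (hα : mu < α) :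
    ∃ θ ρ : ℝ, 0 < θ ∧ 0 < ρ ∧ ρ < 1 ∧ (1 - rr α) / 3 * ρ = (1 / 2) ^ θ / 6 ∧
      rr α / 3 * ρ = (3 / 2) ^ θ / 6 ∧ 1 + θ + Real.log ρ / (1 / α) = ex α ∧
      θ + Real.log ρ / (1 / α) ≤ 0 ∧ θ + α * Real.log ρ = ex α - 1 := by
  have hα0 : 0 < α := mu_pos.trans hα
  have h1 := rr_gt_half hα
  have h2 := rr_lt_one hα0
  obtain ⟨θ, ρ, a1, a2, a3, a4, a5, a6⟩ := tilt_spec h1 h2 (rr_spec α) (by positivity)
  have h3 := Real.binEntropy_le_log_two (p := rr α)
  have h4 : θ + Real.log ρ / (1 / α) = -(α * (Real.log 2 - Real.binEntropy (rr α))) := by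
    rw [a6]
    field_simp
    ring
  have h5 : ex α - 1 = -(α * (Real.log 2 - Real.binEntropy (rr α))) := by
    rw [ex, rr_spec α, rate_eq (by linarith) h2]
    ring
  refine ⟨θ, ρ, a1, a2, a3, a4, a5, ?_, ?_, ?_⟩
  · linarith
  · rw [h4]
    have : 0 ≤ α * (Real.log 2 - Real.binEntropy (rr α)) := mul_nonneg hα0.le (by linarith)
    linarith
  · rw [h5, ← h4]
    field_simp

open Classical in
/-- many slow trajectories -/
theorem slow_alpha {α δ : ℝ} (hα : mu < α) (hE : 0 < ex α) (hδ0 : 0 < δ) (hδ1 : δ < 1) :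
    ∀ᵐ ω ∂P 6, ∀ B : ℕ, ∀ᶠ k : ℕ in atTop,
      Real.exp ((ex α - δ) * (k * Real.log 2)) <
        (((Finset.Icc ((2 : ℤ) ^ k) (2 ^ (k + 1))).filter (fun n => ∀ i : ℕ,
          (i : ℝ) ≤ (1 - δ) * α * (k * Real.log 2) → (B : ℤ) < |(Tn G6 ω)^[i] n|)).card : ℝ) := by
  have hα0 : 0 < α := mu_pos.trans hα
  obtain ⟨θ, ρ, a1, a2, a3, a4, a5, a6, a7, a8⟩ := tilt_alpha hα
  have h1 := rr_gt_half hα
  have h2 := rr_lt_one hα0
  have h3 := slow_count_ae (by linarith) h2 (rr_spec α) (by positivity) a1 a2 a3 a4 a5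
    (by rw [a6]; exact hE) a7 hδ0 hδ1
  filter_upwards [h3] with ω hω B
  filter_upwards [hω B] with k hk
  rw [a6] at hk
  refine lt_of_lt_of_le hk (le_of_eq ?_)
  congr 2
  ext n
  simp only [mem_filter]
  have e1 : (1 - δ) * (k * Real.log 2) / (1 / α) = (1 - δ) * α * (k * Real.log 2) := by
    field_simp
  rw [e1]

/-- long trajectories without repetition are rare -/
theorem dist_alpha {α η : ℝ} (hα : mu < α) (hη : 0 < η) :
    ∃ C : ℝ, 0 < C ∧ ∀ x : ℤ,
      P 6 {ω | (sites G6 x (word G6 ω x ⌈α * Real.log (2 + |(x : ℝ)|)⌉₊)).Nodup} ≤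
        ENNReal.ofReal (C * (2 + |(x : ℝ)|) ^ (-(1 - ex α - η))) := by
  have hα0 : 0 < α := mu_pos.trans hα
  obtain ⟨θ, ρ, a1, a2, a3, a4, a5, a6, a7, a8⟩ := tilt_alpha hα
  have hlogρ : Real.log ρ < 0 := Real.log_neg a2 a3
  set t : ℝ := min (η / α) (-Real.log ρ / 2) with ht
  have ht0 : 0 < t := lt_min (by positivity) (by linarith)
  have ht1 : t ≤ η / α := min_le_left _ _
  have ht2 : t ≤ -Real.log ρ / 2 := min_le_right _ _
  set ρ' : ℝ := ρ * Real.exp t with hρ'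
  have hρ'0 : 0 < ρ' := by positivity
  have hlogρ' : Real.log ρ' = Real.log ρ + t := by
    rw [hρ', Real.log_mul a2.ne' (Real.exp_pos _).ne', Real.log_exp]
  have hρ'1 : ρ' < 1 := by
    rw [← Real.log_neg_iff hρ'0, hlogρ']
    linarith
  have hρρ' : ρ < ρ' := by
    have := Real.one_lt_exp_iff.2 ht0
    nlinarith
  obtain ⟨N, hN⟩ := drift6' θ (6 * ρ') (by
    have e1 : (1 / 2 : ℝ) ^ θ = 2 * (1 - rr α) * ρ := by linarith
    have e2 : (3 / 2 : ℝ) ^ θ = 2 * rr α * ρ := by linarith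
    rw [e1, e2]
    have : 3 * (2 * (1 - rr α) * ρ + 2 * rr α * ρ) = 6 * ρ := by ring
    rw [this]
    linarith)
  have hcA := cA_ge G6 (VV θ) (κ := ((6 : ℕ) : ℝ) * ρ') (by positivity) (ball N)
  refine ⟨cA G6 (VV θ) (((6 : ℕ) : ℝ) * ρ') (ball N), by linarith, fun x => ?_⟩
  have h1 := distinct_le G6 (VV θ) (ρ := ρ') hρ'0 (VV_ge a1.le) (ball N) (fun y hy => by
    rw [mem_ball, not_le] at hy
    push_cast
    exact hN y hy) ⌈α * Real.log (2 + |(x : ℝ)|)⌉₊ x
  refine h1.trans (ENNReal.ofReal_le_ofReal ?_)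
  rw [mul_assoc]
  apply mul_le_mul_of_nonneg_left _ (by linarith)
  have hx0 : (0 : ℝ) < 2 + |(x : ℝ)| := by positivity
  have hx1 : (1 : ℝ) ≤ 2 + |(x : ℝ)| := by linarith [abs_nonneg (x : ℝ)]
  have h2 : VV θ x ≤ (2 + |(x : ℝ)|) ^ θ := by
    unfold VV
    exact Real.rpow_le_rpow (by positivity) (by linarith) a1.le
  have h3 := rpow_decay (C := α) hρ'0 hρ'1 hx0
  calc VV θ x * ρ' ^ ⌈α * Real.log (2 + |(x : ℝ)|)⌉₊
      ≤ (2 + |(x : ℝ)|) ^ θ * (2 + |(x : ℝ)|) ^ (α * Real.log ρ') :=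
        mul_le_mul h2 h3 (by positivity) (by positivity)
    _ = (2 + |(x : ℝ)|) ^ (θ + α * Real.log ρ') := by rw [← Real.rpow_add hx0]
    _ ≤ _ := by
        apply Real.rpow_le_rpow_of_exponent_le hx1
        rw [hlogρ']
        have h4 : α * t ≤ η := by
          rw [le_div_iff₀ hα0] at ht1
          linarith
        linarith

end Pool.Agent.Q205.RP
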