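import Mathlib
import Pool.Agent.Q205.RP.Gam3

/-!
# Typical environments for the stopping times
-/

set_option autoImplicit false

open MeasureTheory Finset Filter Topology

namespace Pool.Agent.Q205.RP

open Pool.Agent.H395R2.G3

/-- events of small probability hold for few integers, with almost no loss in the exponent -/
theorem count_ae' {Ω : Type*} [MeasurableSpace Ω] {μ : Measure Ω} [IsProbabilityMeasure μ]
    (E : ℤ → Set Ω) {C θ η : ℝ} (hη : 0 < η) (hθη : 0 ≤ 1 - θ + η)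
    (hE : ∀ x : ℤ, μ (E x) ≤ ENNReal.ofReal (C * (2 + |(x : ℝ)|) ^ (-θ))) :
    ∀ᵐ ω ∂μ, ∃ K : ℝ, ∀ X : ℕ, ({x : ℤ | |x| ≤ X ∧ ω ∈ E x}.ncard : ℝ) ≤
      K * (2 + (X : ℝ)) ^ (1 - θ + η) := by
  classical
  set wt : ℤ → ℝ := fun x => (2 + |(x : ℝ)|) ^ (-(1 - θ + η)) with hwt
  set W : Ω → ENNReal := fun ω => ∑' x : ℤ,
    (toMeasurable μ (E x)).indicator (fun _ => ENNReal.ofReal (wt x)) ω with hW
  have hmeas : ∀ x : ℤ, Measurable ((toMeasurable μ (E x)).indicator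
      (fun _ : Ω => ENNReal.ofReal (wt x))) := fun x =>
    measurable_const.indicator (measurableSet_toMeasurable _ _)
  have hWm : Measurable W := Measurable.tsum hmeas
  have hint : ∫⁻ ω, W ω ∂μ ≠ ⊤ := by
    rw [hW, lintegral_tsum (fun x => (hmeas x).aemeasurable)]
    have h1 : ∀ x : ℤ, ∫⁻ ω, (toMeasurable μ (E x)).indicator
        (fun _ => ENNReal.ofReal (wt x)) ω ∂μ ≤
        ENNReal.ofReal (C * (2 + |(x : ℝ)|) ^ (-(1 + η))) := by
      intro x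
      rw [lintegral_indicator_const (measurableSet_toMeasurable _ _), measure_toMeasurable]
      refine (mul_le_mul_right (hE x) _).trans ?_
      have h4 : 0 ≤ wt x := by rw [hwt]; positivity
      rw [← ENNReal.ofReal_mul h4]
      apply ENNReal.ofReal_le_ofReal
      have h3 : (2 + |(x : ℝ)|) ^ (-(1 + η)) = wt x * (2 + |(x : ℝ)|) ^ (-θ) := by
        rw [hwt, ← Real.rpow_add (by positivity)]
        congr 1
        ring
      rw [h3]
      apply le_of_eq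
      ring
    refine ne_top_of_le_ne_top ?_ (ENNReal.tsum_le_tsum h1)
    exact ((summable_two_add (b := 1 + η) (by linarith)).mul_left _).tsum_ofReal_ne_top
  filter_upwards [ae_lt_top hWm hint] with ω hω
  refine ⟨(W ω).toReal, fun X => ?_⟩
  set S : Finset ℤ := (ball X).filter (fun x => ω ∈ E x) with hS
  have hset : {x : ℤ | |x| ≤ X ∧ ω ∈ E x} = (S : Set ℤ) := by
    ext x
    simp [hS, mem_ball]
  rw [hset, Set.ncard_coe_finset]
  have h1 : ∑ x ∈ S, ENNReal.ofReal (wt x) ≤ W ω := by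
    have h2 : ∑ x ∈ S, ENNReal.ofReal (wt x) = ∑ x ∈ S, (toMeasurable μ (E x)).indicator
        (fun _ => ENNReal.ofReal (wt x)) ω := by
      apply Finset.sum_congr rfl
      intro x hx
      rw [hS, mem_filter] at hx
      rw [Set.indicator_of_mem (subset_toMeasurable μ (E x) hx.2)]
    rw [h2, hW]
    exact ENNReal.sum_le_tsum S
  have h2 : ∑ x ∈ S, wt x ≤ (W ω).toReal := by
    rw [← ENNReal.ofReal_sum_of_nonneg (fun x _ => by rw [hwt]; positivity)] at h1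
    rw [← ENNReal.toReal_ofReal (Finset.sum_nonneg (fun x _ => by
      show 0 ≤ wt x
      rw [hwt]; positivity) : 0 ≤ ∑ x ∈ S, wt x)]
    exact ENNReal.toReal_mono hω.ne h1
  have h3 : (S.card : ℝ) * (2 + (X : ℝ)) ^ (-(1 - θ + η)) ≤ ∑ x ∈ S, wt x := by
    rw [← nsmul_eq_mul, ← Finset.sum_const]
    apply Finset.sum_le_sum
    intro x hx
    rw [hS, mem_filter, mem_ball] at hx
    rw [hwt]
    apply Real.rpow_le_rpow_of_nonpos (by positivity) _ (by linarith)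
    have : ((|x| : ℤ) : ℝ) ≤ ((X : ℤ) : ℝ) := by exact_mod_cast hx.1
    push_cast at this
    linarith
  have h4 : (2 + (X : ℝ)) ^ (-(1 - θ + η)) * (2 + (X : ℝ)) ^ (1 - θ + η) = 1 := by
    rw [← Real.rpow_add (by positivity), neg_add_cancel, Real.rpow_zero]
  calc (S.card : ℝ) = (S.card : ℝ) * (2 + (X : ℝ)) ^ (-(1 - θ + η)) *
        (2 + (X : ℝ)) ^ (1 - θ + η) := by rw [mul_assoc, h4, mul_one]
    _ ≤ (W ω).toReal * (2 + (X : ℝ)) ^ (1 - θ + η) :=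
        mul_le_mul_of_nonneg_right (h3.trans h2) (by positivity)

/-- the first places of the trajectory of `x`, up to the time `α log (2 + |x|)`, are distinct -/
def Dst (α : ℝ) (x : ℤ) (ω : ℤ → Fin 6) : Prop :=
  (sites G6 x (word G6 ω x ⌈α * Real.log (2 + |(x : ℝ)|)⌉₊)).Nodup

open Classical in
/-- the number of slow starting points in `[2 ^ k, 2 ^ (k+1)]` -/
noncomputable def slowN (ω : ℤ → Fin 6) (B : ℕ) (c : ℝ) (k : ℕ) : ℝ :=
  (((Finset.Icc ((2 : ℤ) ^ k) (2 ^ (k + 1))).filter (fun n => ∀ i : ℕ,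
          (i : ℝ) ≤ c * (k * Real.log 2) → (B : ℤ) < |(Tn G6 ω)^[i] n|)).card : ℝ)

/-- typical environments -/
structure Typ (γ₀ : ℝ) (ω : ℤ → Fin 6) : Prop where
  a : ∀ m : ℕ, {x : ℤ | Dst (γ₀ + 1 / ((m : ℝ) + 1)) x ω}.Finite
  b : ∀ q : ℚ, mu < (q : ℝ) → (q : ℝ) < γ₀ → ∀ m : ℕ, ∃ K : ℝ, ∀ X : ℕ,
    ({x : ℤ | |x| ≤ X ∧ Dst q x ω}.ncard : ℝ) ≤
      K * (2 + (X : ℝ)) ^ (ex q + 1 / ((m : ℝ) + 1))
  c : ∀ q : ℚ, mu < (q : ℝ) → (q : ℝ) < γ₀ → ∀ m B : ℕ, ∀ᶠ k : ℕ in atTop,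
    Real.exp ((ex q - 1 / ((m : ℝ) + 2)) * (k * Real.log 2)) <
      slowN ω B ((1 - 1 / ((m : ℝ) + 2)) * q) k

theorem typical {γ₀ : ℝ} (hneg : ∀ α, γ₀ < α → ex α < 0)
    (hγ : mu < γ₀) (hpos : ∀ α, mu < α → α < γ₀ → 0 < ex α) : ∀ᵐ ω ∂P 6, Typ γ₀ ω := by
  have ha : ∀ m : ℕ, ∀ᵐ ω ∂P 6, {x : ℤ | Dst (γ₀ + 1 / ((m : ℝ) + 1)) x ω}.Finite := by
    intro m
    have h0 : (0 : ℝ) < 1 / ((m : ℝ) + 1) := by positivity
    have h1 := hneg (γ₀ + 1 / ((m : ℝ) + 1)) (by linarith)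
    obtain ⟨C, hC, h2⟩ := dist_alpha (α := γ₀ + 1 / ((m : ℝ) + 1))
      (η := -ex (γ₀ + 1 / ((m : ℝ) + 1)) / 2) (by linarith) (by linarith)
    exact bc (μ := P 6) (fun x : ℤ => {ω | Dst (γ₀ + 1 / ((m : ℝ) + 1)) x ω}) _
      ((summable_two_add (by linarith)).mul_left C) h2
  have hb : ∀ (q : ℚ) (m : ℕ), ∀ᵐ ω ∂P 6, mu < (q : ℝ) → (q : ℝ) < γ₀ → ∃ K : ℝ, ∀ X : ℕ,
      ({x : ℤ | |x| ≤ X ∧ Dst q x ω}.ncard : ℝ) ≤
        K * (2 + (X : ℝ)) ^ (ex q + 1 / ((m : ℝ) + 1)) := by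
    intro q m
    by_cases hq : mu < (q : ℝ) ∧ (q : ℝ) < γ₀
    · have h0 : (0 : ℝ) < 1 / ((m : ℝ) + 1) := by positivity
      have hp := hpos q hq.1 hq.2
      obtain ⟨C, hC, h2⟩ := dist_alpha (α := q) (η := 1 / ((m : ℝ) + 1) / 2) hq.1 (by linarith)
      have h3 := count_ae' (μ := P 6) (fun x : ℤ => {ω | Dst q x ω}) (C := C)
        (θ := 1 - ex q - 1 / ((m : ℝ) + 1) / 2) (η := 1 / ((m : ℝ) + 1) / 2) (by linarith)
        (by linarith) h2
      filter_upwards [h3] with ω hω _ _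
      obtain ⟨K, hK⟩ := hω
      refine ⟨K, fun X => (hK X).trans (le_of_eq ?_)⟩
      congr 2
      ring
    · refine ae_of_all _ (fun ω h1 h2 => absurd ⟨h1, h2⟩ hq)
  have hc : ∀ (q : ℚ) (m : ℕ), ∀ᵐ ω ∂P 6, mu < (q : ℝ) → (q : ℝ) < γ₀ → ∀ B : ℕ,
      ∀ᶠ k : ℕ in atTop, Real.exp ((ex q - 1 / ((m : ℝ) + 2)) * (k * Real.log 2)) <
        slowN ω B ((1 - 1 / ((m : ℝ) + 2)) * q) k := by
    intro q m
    by_cases hq : mu < (q : ℝ) ∧ (q : ℝ) < γ₀
    · have h3 := slow_alpha (δ := 1 / ((m : ℝ) + 2)) hq.1 (hpos q hq.1 hq.2) (by positivity) (by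
        rw [div_lt_one (by positivity)]
        have : (0 : ℝ) ≤ m := Nat.cast_nonneg m
        linarith)
      filter_upwards [h3] with ω hω _ _ B
      exact hω B
    · refine ae_of_all _ (fun ω h1 h2 => absurd ⟨h1, h2⟩ hq)
  filter_upwards [ae_all_iff.2 ha, ae_all_iff.2 (fun q => ae_all_iff.2 (hb q)),
    ae_all_iff.2 (fun q => ae_all_iff.2 (hc q))] with ω h1 h2 h3
  exact ⟨h1, fun q hq1 hq2 m => h2 q m hq1 hq2, fun q hq1 hq2 m => h3 q m hq1 hq2⟩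

theorem ex_cont {α : ℝ} (hα : mu < α) : ContinuousAt ex α := by
  have hα0 : 0 < α := mu_pos.trans hα
  have hl3 : 0 < Real.log 3 := Real.log_pos (by norm_num)
  have h1 : ex =ᶠ[𝓝 α] fun α => α * FF (rr α) := by
    filter_upwards [lt_mem_nhds hα] with a ha
    exact ex_eq ha
  have h2 : ContinuousAt rr α := by
    unfold rr
    apply ContinuousAt.div_const
    apply ContinuousAt.sub continuousAt_const
    exact continuousAt_const.div continuousAt_id hα0.ne'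
  have h3 : ContinuousAt (fun α => α * FF (rr α)) α :=
    continuousAt_id.mul (FF_cont.continuousAt.comp h2)
  exact h3.congr h1.symm

theorem nodup_hit {ω : ℤ → Fin 6} {A : Finset ℤ} {x : ℤ} (h : ∃ k, (Tn G6 ω)^[k] x ∈ A) {j : ℕ}
    (hj : j ≤ hitT (Tn G6 ω) A x) : (sites G6 x (word G6 ω x j)).Nodup := by
  obtain ⟨hk, hmin⟩ := hitT_spec h
  rw [nodup_iff]
  intro a ha b hb hab
  exact inj_of_first hk hmin (by omega) (by omega) hab

/-- comparison of logarithms -/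
theorem log_two_le {a b : ℝ} (ha : 0 < a) (hab : a < b) :
    ∃ N : ℕ, ∀ n : ℕ, N ≤ n → a * Real.log (2 + (n : ℝ)) ≤ b * Real.log n := by
  have h1 := (Real.tendsto_log_atTop.comp tendsto_natCast_atTop_atTop).eventually_ge_atTop
    (2 * a / (b - a))
  obtain ⟨N, hN⟩ := eventually_atTop.1 (h1.and (eventually_ge_atTop 1))
  refine ⟨N, fun n hn => ?_⟩
  obtain ⟨h2, h3⟩ := hN n hn
  simp only [Function.comp] at h2
  have hn1 : (1 : ℝ) ≤ n := by exact_mod_cast h3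
  have hba : 0 < b - a := by linarith
  rw [div_le_iff₀ hba] at h2
  have h4 : Real.log (2 + (n : ℝ)) ≤ Real.log n + 2 := by
    have h5 : (2 + (n : ℝ)) = n * (1 + 2 / n) := by field_simp; ring
    rw [h5, Real.log_mul (by positivity) (by positivity)]
    have h6 := Real.log_le_sub_one_of_pos (show (0 : ℝ) < 1 + 2 / n by positivity)
    have h7 : (2 : ℝ) / n ≤ 2 := by
      rw [div_le_iff₀ (by positivity)]
      linarith
    linarith
  nlinarith

/-- **The upper bound for the limsup.** -/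
theorem lim_upper {γ₀ : ℝ} (hγ : mu < γ₀) {ω : ℤ → Fin 6} (hω : Typ γ₀ ω) {A : Finset ℤ}
    (hA : ∀ n : ℤ, 1 ≤ n → ∃ k, (Tn G6 ω)^[k] n ∈ A) {ε : ℝ} (hε : 0 < ε) :
    ∃ N : ℕ, ∀ n : ℕ, N ≤ n → ∃ k : ℕ, (Tn G6 ω)^[k] (n : ℤ) ∈ A ∧
      (k : ℝ) ≤ (γ₀ + ε) * Real.log n := by
  have hγ0 : 0 < γ₀ := mu_pos.trans hγ
  obtain ⟨m, hm⟩ := exists_nat_one_div_lt hε
  obtain ⟨N₁, hN₁⟩ := log_two_le (a := γ₀ + 1 / ((m : ℝ) + 1)) (b := γ₀ + ε) (by positivity)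
    (by linarith)
  obtain ⟨M, hM⟩ : ∃ M : ℕ, ∀ n : ℕ, M ≤ n → ¬ Dst (γ₀ + 1 / ((m : ℝ) + 1)) (n : ℤ) ω := by
    obtain ⟨M, hM⟩ := ((hω.a m).image Int.natAbs).bddAbove
    refine ⟨M + 1, fun n hn hd => ?_⟩
    have := hM ⟨(n : ℤ), hd, rfl⟩
    simp only [Int.natAbs_natCast] at this
    omega
  refine ⟨max (max N₁ M) 1, fun n hn => ?_⟩
  have hn1 : 1 ≤ n := (le_max_right _ _).trans hn
  have hnN : N₁ ≤ n := ((le_max_left _ _).trans (le_max_left _ _)).trans hn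
  have hnM : M ≤ n := ((le_max_right _ _).trans (le_max_left _ _)).trans hn
  have hex := hA n (by exact_mod_cast hn1)
  refine ⟨hitT (Tn G6 ω) A n, (hitT_spec hex).1, ?_⟩
  by_contra hcon
  rw [not_le] at hcon
  apply hM n hnM
  apply nodup_hit hex
  apply Nat.ceil_le.2
  have h1 : |((n : ℤ) : ℝ)| = n := by simp
  rw [h1]
  exact (hN₁ n hnN).trans hcon.le

open Classical in
/-- the starting points from which `A` is not reached before the time `α log n` -/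
noncomputable def lateF (ω : ℤ → Fin 6) (A : Finset ℤ) (α : ℝ) (k : ℕ) : Finset ℤ :=
  (Finset.Icc ((2 : ℤ) ^ k) (2 ^ (k + 1))).filter (fun n => ∀ j : ℕ,
    (Tn G6 ω)^[j] n ∈ A → α * Real.log (n : ℝ) ≤ j)

/-- **Lower bound for the number of late starting points.** -/
theorem late_many {γ₀ : ℝ} {ω : ℤ → Fin 6} (hω : Typ γ₀ ω) (A : Finset ℤ) {α β : ℝ}
    (hα : mu < α) (hαγ : α < γ₀) (hβ : β < ex α) :
    ∀ᶠ k : ℕ in atTop, Real.exp (β * (k * Real.log 2)) < ((lateF ω A α k).card : ℝ) := by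
  classical
  have hα0 : 0 < α := mu_pos.trans hα
  have hl2 : 0 < Real.log 2 := Real.log_pos (by norm_num)
  -- a rational number above `α`
  have h1 := (ex_cont hα).eventually (lt_mem_nhds hβ)
  have h2 := (h1.filter_mono nhdsWithin_le_nhds : ∀ᶠ x in 𝓝[>] α, β < ex x)
  have h3 : ∀ᶠ x in 𝓝[>] α, x < γ₀ := (gt_mem_nhds hαγ).filter_mono nhdsWithin_le_nhds
  have h4 := h2.and h3
  rw [(nhdsGT_basis α).eventually_iff] at h4
  obtain ⟨u, hu, hu2⟩ := h4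
  obtain ⟨q, hq1, hq2⟩ := exists_rat_btwn hu
  obtain ⟨hq3, hq4⟩ := hu2 ⟨hq1, hq2⟩
  -- the parameter `m`
  have hq0 : (0 : ℝ) < q := hα0.trans hq1
  obtain ⟨m, hm⟩ := exists_nat_one_div_lt
    (show 0 < min (ex q - β) (1 - α / q) from lt_min (by linarith) (by
      rw [sub_pos, div_lt_one hq0]
      exact hq1))
  have hm2 : 1 / ((m : ℝ) + 2) ≤ 1 / ((m : ℝ) + 1) := by
    apply one_div_le_one_div_of_le (by positivity)
    linarith
  have hm3 : 1 / ((m : ℝ) + 2) < ex q - β := lt_of_le_of_lt hm2 (hm.trans_le (min_le_left _ _))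
  have hm4 : 1 / ((m : ℝ) + 2) < 1 - α / q := lt_of_le_of_lt hm2 (hm.trans_le (min_le_right _ _))
  set c : ℝ := (1 - 1 / ((m : ℝ) + 2)) * q with hc
  have hcα : α < c := by
    have h5 : α / q * q = α := by field_simp
    have h6 : α / q * q < (1 - 1 / ((m : ℝ) + 2)) * q :=
      mul_lt_mul_of_pos_right (by linarith) hq0
    linarith
  -- a bound for `A`
  obtain ⟨B, hB⟩ : ∃ B : ℕ, ∀ a ∈ A, |a| ≤ (B : ℤ) := by
    obtain ⟨B, hB⟩ := (A.image Int.natAbs).bddAbove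
    refine ⟨B, fun a ha => ?_⟩
    have := hB (Finset.mem_coe.2 (Finset.mem_image_of_mem _ ha))
    rw [Int.abs_eq_natAbs]
    exact_mod_cast this
  have hev := hω.c q (hα.trans hq1) hq4 m B
  have t1 : Tendsto (fun k : ℕ => (c - α) * ((k : ℝ) * Real.log 2)) atTop atTop := by
    apply Tendsto.const_mul_atTop (by linarith)
    apply Tendsto.atTop_mul_const hl2
    exact tendsto_natCast_atTop_atTop
  filter_upwards [hev, t1.eventually_gt_atTop (α * Real.log 2)] with k hk hk2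
  have hkl : 0 ≤ (k : ℝ) * Real.log 2 := by positivity
  refine lt_of_le_of_lt (Real.exp_le_exp.2 (mul_le_mul_of_nonneg_right (by linarith) hkl))
    (lt_of_lt_of_le hk ?_)
  unfold slowN lateF
  have hsub : (Finset.Icc ((2 : ℤ) ^ k) (2 ^ (k + 1))).filter (fun n => ∀ i : ℕ,
          (i : ℝ) ≤ c * (k * Real.log 2) → (B : ℤ) < |(Tn G6 ω)^[i] n|) ⊆
      (Finset.Icc ((2 : ℤ) ^ k) (2 ^ (k + 1))).filter (fun n => ∀ j : ℕ,
        (Tn G6 ω)^[j] n ∈ A → α * Real.log (n : ℝ) ≤ j) := by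
    intro n hn
    rw [mem_filter] at hn ⊢
    obtain ⟨hn1, hn2⟩ := hn
    refine ⟨hn1, fun j hj => ?_⟩
    rw [Finset.mem_Icc] at hn1
    have h5 : ¬ (j : ℝ) ≤ c * (k * Real.log 2) := by
      intro h6
      have h7 := hn2 j h6
      have h8 := hB _ hj
      omega
    rw [not_le] at h5
    have hn0 : (0 : ℤ) < n := lt_of_lt_of_le (by positivity) hn1.1
    have h6 : Real.log (n : ℝ) ≤ (k + 1) * Real.log 2 := by
      have h7 : (n : ℝ) ≤ 2 ^ (k + 1) := by exact_mod_cast hn1.2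
      have h8 := Real.log_le_log (by exact_mod_cast hn0) h7
      rw [Real.log_pow] at h8
      push_cast at h8
      exact h8
    have h7 := mul_le_mul_of_nonneg_left h6 hα0.le
    nlinarith
  exact Nat.cast_le.2 (Finset.card_le_card hsub)

/-- **The lower bound for the limsup.** -/
theorem lim_lower {γ₀ : ℝ} (hγ : mu < γ₀) (hpos : ∀ α, mu < α → α < γ₀ → 0 < ex α)
    {ω : ℤ → Fin 6} (hω : Typ γ₀ ω) (A : Finset ℤ) {ε : ℝ} (hε : 0 < ε) (N : ℕ) :
    ∃ n : ℕ, N ≤ n ∧ ∀ k : ℕ, (Tn G6 ω)^[k] (n : ℤ) ∈ A → (γ₀ - ε) * Real.log n ≤ k := by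
  classical
  obtain ⟨α, hα1, hα2⟩ := _root_.exists_between (max_lt hγ (show γ₀ - ε < γ₀ by linarith))
  have hα3 : mu < α := lt_of_le_of_lt (le_max_left _ _) hα1
  have hα4 : γ₀ - ε < α := lt_of_le_of_lt (le_max_right _ _) hα1
  have h1 := late_many hω A hα3 hα2 (β := 0) (hpos α hα3 hα2)
  obtain ⟨k, hk1, hk2⟩ := (h1.and (eventually_ge_atTop N)).exists
  rw [zero_mul, Real.exp_zero] at hk1
  have h2 : (lateF ω A α k).Nonempty := by
    rw [← Finset.card_pos]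
    have : (0 : ℝ) < ((lateF ω A α k).card : ℝ) := by linarith
    exact_mod_cast this
  obtain ⟨n, hn⟩ := h2
  unfold lateF at hn
  rw [mem_filter, Finset.mem_Icc] at hn
  obtain ⟨⟨hn1, hn2⟩, hn3⟩ := hn
  have hn0 : (0 : ℤ) < n := lt_of_lt_of_le (by positivity) hn1
  obtain ⟨n', rfl⟩ := Int.eq_ofNat_of_zero_le hn0.le
  refine ⟨n', ?_, fun j hj => ?_⟩
  · have h6 : N < 2 ^ k := lt_of_le_of_lt hk2 Nat.lt_two_pow_self
    have h7 : 2 ^ k ≤ n' := by exact_mod_cast hn1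
    omega
  · have h3 := hn3 j hj
    have h4 : (((n' : ℕ) : ℤ) : ℝ) = (n' : ℝ) := by simp
    rw [h4] at h3
    have h5 : 0 ≤ Real.log (n' : ℝ) := Real.log_natCast_nonneg n'
    nlinarith

end Pool.Agent.Q205.RP
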