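import Mathlib
import Pool.Agent.Q205.RP.Gam4

/-!
# The frequencies of large stopping times in typical environments
-/

set_option autoImplicit false

open MeasureTheory Finset Filter Topology

namespace Pool.Agent.Q205.RP

open Pool.Agent.H395R2.G3

/-- the starting points up to `x` from which `A` is not reached before the time `α log n` -/
def lateS (ω : ℤ → Fin 6) (A : Finset ℤ) (α x : ℝ) : Set ℕ :=
  {n : ℕ | 1 ≤ n ∧ (n : ℝ) ≤ x ∧ ∀ j : ℕ, (Tn G6 ω)^[j] (n : ℤ) ∈ A → α * Real.log n ≤ j}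

theorem lateS_finite (ω : ℤ → Fin 6) (A : Finset ℤ) (α x : ℝ) : (lateS ω A α x).Finite := by
  apply (Finset.range (⌊x⌋₊ + 1)).finite_toSet.subset
  intro n hn
  rw [Finset.mem_coe, Finset.mem_range]
  have := Nat.le_floor hn.2.1
  omega

theorem ld_lower {γ₀ : ℝ} {ω : ℤ → Fin 6} (hω : Typ γ₀ ω) (A : Finset ℤ) {α ε : ℝ}
    (hα : mu < α) (hαγ : α < γ₀) (hE : 0 < ex α) (hε : 0 < ε) :
    ∃ X₀ : ℝ, ∀ x : ℝ, X₀ ≤ x → x ^ (ex α - ε) ≤ ((lateS ω A α x).ncard : ℝ) := by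
  classical
  set β : ℝ := max (ex α - ε / 2) (ex α / 2) with hβ
  have hβ0 : 0 < β := lt_of_lt_of_le (by linarith) (le_max_right _ _)
  have hβ1 : β < ex α := max_lt (by linarith) (by linarith)
  have hβ2 : ε / 2 ≤ β - (ex α - ε) := by
    have := le_max_left (ex α - ε / 2) (ex α / 2)
    linarith
  obtain ⟨k₀, hk₀⟩ := eventually_atTop.1 (late_many hω A hα hαγ hβ1)
  obtain ⟨X₁, hX₁⟩ := eventually_atTop.1
    ((tendsto_rpow_atTop (show 0 < ε / 2 by positivity)).eventually_ge_atTop ((4 : ℝ) ^ β))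
  refine ⟨max (max X₁ 2) (2 * 2 ^ (k₀ + 1)), fun x hx => ?_⟩
  have hx1 : X₁ ≤ x := ((le_max_left _ _).trans (le_max_left _ _)).trans hx
  have hx2 : 2 ≤ x := ((le_max_right _ _).trans (le_max_left _ _)).trans hx
  have hx3 : 2 * 2 ^ (k₀ + 1) ≤ x := (le_max_right _ _).trans hx
  have hx0 : 0 < x := by linarith
  obtain ⟨k, hk1, hk2⟩ := exists_nat_pow_near (show 1 ≤ x / 2 by linarith)
    (show (1 : ℝ) < 2 by norm_num)
  have hkk : k₀ ≤ k := by
    by_contra hc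
    rw [not_le] at hc
    have h1 : (2 : ℝ) ^ (k + 1) ≤ 2 ^ (k₀ + 1) := pow_le_pow_right₀ (by norm_num) (by omega)
    linarith
  have h1 := hk₀ k hkk
  -- the inclusion
  have h2 : (((lateF ω A α k : Finset ℤ) : Set ℤ)) ⊆ (fun n : ℕ => (n : ℤ)) '' lateS ω A α x := by
    intro n hn
    rw [Finset.mem_coe] at hn
    unfold lateF at hn
    rw [mem_filter, Finset.mem_Icc] at hn
    obtain ⟨⟨hn1, hn2⟩, hn3⟩ := hn
    have hn0 : (0 : ℤ) < n := lt_of_lt_of_le (by positivity) hn1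
    obtain ⟨n', rfl⟩ := Int.eq_ofNat_of_zero_le hn0.le
    refine ⟨n', ⟨by omega, ?_, fun j hj => ?_⟩, rfl⟩
    · have h3 : ((n' : ℕ) : ℝ) ≤ 2 ^ (k + 1) := by exact_mod_cast hn2
      rw [pow_succ] at h3
      linarith
    · have h3 := hn3 j hj
      have h4 : (((n' : ℕ) : ℤ) : ℝ) = (n' : ℝ) := by simp
      rwa [h4] at h3
  have h3 := Set.ncard_le_ncard h2 ((lateS_finite ω A α x).image _)
  rw [Set.ncard_coe_finset, Set.ncard_image_of_injective _ Nat.cast_injective] at h3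
  have h4 : ((lateF ω A α k).card : ℝ) ≤ ((lateS ω A α x).ncard : ℝ) := by exact_mod_cast h3
  refine le_trans ?_ (h1.le.trans h4)
  -- the size
  have h5 : Real.exp (β * (k * Real.log 2)) = ((2 : ℝ) ^ k) ^ β := by
    rw [mul_comm, Real.exp_mul, Real.exp_nat_mul, Real.exp_log (by norm_num)]
  rw [h5]
  have h6 : x / 4 ≤ 2 ^ k := by
    rw [pow_succ] at hk2
    linarith
  have h7 : (x / 4) ^ β ≤ ((2 : ℝ) ^ k) ^ β := Real.rpow_le_rpow (by positivity) h6 hβ0.le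
  refine le_trans ?_ h7
  rw [Real.div_rpow hx0.le (by norm_num), le_div_iff₀ (by positivity)]
  have h8 := hX₁ x hx1
  have h9 : x ^ (ε / 2) ≤ x ^ (β - (ex α - ε)) :=
    Real.rpow_le_rpow_of_exponent_le (by linarith) hβ2
  calc x ^ (ex α - ε) * 4 ^ β ≤ x ^ (ex α - ε) * x ^ (β - (ex α - ε)) :=
        mul_le_mul_of_nonneg_left (h8.trans h9) (by positivity)
    _ = x ^ β := by
        rw [← Real.rpow_add hx0]
        congr 1
        ring

theorem ld_upper {γ₀ : ℝ} {ω : ℤ → Fin 6} (hω : Typ γ₀ ω) {A : Finset ℤ}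
    (hA : ∀ n : ℤ, 1 ≤ n → ∃ k, (Tn G6 ω)^[k] n ∈ A) {α ε : ℝ}
    (hα : mu < α) (hαγ : α < γ₀) (hE : 0 < ex α) (hε : 0 < ε) :
    ∃ X₀ : ℝ, ∀ x : ℝ, X₀ ≤ x → ((lateS ω A α x).ncard : ℝ) ≤ x ^ (ex α + ε) := by
  classical
  -- a rational number below `α`
  have h1 := (ex_cont hα).eventually (gt_mem_nhds (show ex α < ex α + ε / 3 by linarith))
  have h2 := (h1.filter_mono nhdsWithin_le_nhds : ∀ᶠ x in 𝓝[<] α, ex x < ex α + ε / 3)
  have h3 : ∀ᶠ x in 𝓝[<] α, mu < x := (lt_mem_nhds hα).filter_mono nhdsWithin_le_nhds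
  have h4 := h2.and h3
  rw [(nhdsLT_basis α).eventually_iff] at h4
  obtain ⟨u, hu, hu2⟩ := h4
  obtain ⟨q, hq1, hq2⟩ := exists_rat_btwn hu
  obtain ⟨hq3, hq4⟩ := hu2 ⟨hq1, hq2⟩
  have hq0 : (0 : ℝ) < q := mu_pos.trans hq4
  obtain ⟨m, hm⟩ := exists_nat_one_div_lt (show 0 < ε / 3 by positivity)
  obtain ⟨K, hK⟩ := hω.b q hq4 (hq2.trans hαγ) m
  obtain ⟨N₁, hN₁⟩ := log_two_le hq0 hq2
  set e : ℝ := ex α + 2 * ε / 3 with he
  have he0 : 0 < e := by positivity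
  obtain ⟨X₁, hX₁⟩ := eventually_atTop.1
    ((tendsto_rpow_atTop (show 0 < ε / 3 by positivity)).eventually_ge_atTop
      ((N₁ : ℝ) + |K| * 3 ^ e))
  refine ⟨max X₁ 1, fun x hx => ?_⟩
  have hx1 : X₁ ≤ x := (le_max_left _ _).trans hx
  have hx2 : 1 ≤ x := (le_max_right _ _).trans hx
  have hx0 : 0 < x := by linarith
  -- the inclusion
  have h5 : (fun n : ℕ => (n : ℤ)) '' lateS ω A α x ⊆
      (fun n : ℕ => (n : ℤ)) '' ((Finset.range N₁ : Finset ℕ) : Set ℕ) ∪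
        {y : ℤ | |y| ≤ (⌊x⌋₊ : ℕ) ∧ Dst q y ω} := by
    rintro _ ⟨n, ⟨hn1, hn2, hn3⟩, rfl⟩
    by_cases hn : n < N₁
    · left
      exact ⟨n, by rw [Finset.mem_coe, Finset.mem_range]; exact hn, rfl⟩
    · right
      rw [not_lt] at hn
      have hex := hA n (by exact_mod_cast hn1)
      refine ⟨?_, ?_⟩
      · rw [Nat.abs_cast]
        exact_mod_cast Nat.le_floor hn2
      · apply nodup_hit hex
        apply Nat.ceil_le.2
        have h6 : |((n : ℤ) : ℝ)| = n := by simp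
        rw [h6]
        exact (hN₁ n hn).trans (hn3 _ (hitT_spec hex).1)
  have hfin : {y : ℤ | |y| ≤ (⌊x⌋₊ : ℕ) ∧ Dst q y ω}.Finite :=
    (ball ⌊x⌋₊).finite_toSet.subset (fun y hy => mem_ball.2 hy.1)
  have h6 := (Set.ncard_le_ncard h5 (((Finset.range N₁).finite_toSet.image _).union hfin)).trans
    (Set.ncard_union_le _ _)
  rw [Set.ncard_image_of_injective _ Nat.cast_injective,
    Set.ncard_image_of_injective _ Nat.cast_injective, Set.ncard_coe_finset, card_range] at h6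
  have h7 : ((lateS ω A α x).ncard : ℝ) ≤ N₁ + ({y : ℤ | |y| ≤ (⌊x⌋₊ : ℕ) ∧ Dst q y ω}.ncard : ℝ) :=
    by exact_mod_cast h6
  have h8 := hK ⌊x⌋₊
  have hb1 : (1 : ℝ) ≤ 2 + (⌊x⌋₊ : ℝ) := by
    have : (0 : ℝ) ≤ (⌊x⌋₊ : ℝ) := Nat.cast_nonneg _
    linarith
  have hb2 : 2 + (⌊x⌋₊ : ℝ) ≤ 3 * x := by
    have := Nat.floor_le hx0.le
    linarith
  have h9 : (2 + (⌊x⌋₊ : ℝ)) ^ (ex q + 1 / ((m : ℝ) + 1)) ≤ 3 ^ e * x ^ e := by
    rw [← Real.mul_rpow (by norm_num) hx0.le]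
    refine (Real.rpow_le_rpow_of_exponent_le hb1 (show _ ≤ e by rw [he]; linarith)).trans ?_
    exact Real.rpow_le_rpow (by linarith) hb2 he0.le
  have h10 : K * (2 + (⌊x⌋₊ : ℝ)) ^ (ex q + 1 / ((m : ℝ) + 1)) ≤ |K| * (3 ^ e * x ^ e) :=
    (mul_le_mul_of_nonneg_right (le_abs_self K) (by positivity)).trans
      (mul_le_mul_of_nonneg_left h9 (abs_nonneg _))
  have h11 : (1 : ℝ) ≤ x ^ e := Real.one_le_rpow hx2 he0.le
  have h12 : (N₁ : ℝ) ≤ N₁ * x ^ e := le_mul_of_one_le_right (Nat.cast_nonneg _) h11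
  have h13 := hX₁ x hx1
  calc ((lateS ω A α x).ncard : ℝ) ≤ (N₁ + |K| * 3 ^ e) * x ^ e := by
        rw [add_mul]
        linarith
    _ ≤ x ^ (ε / 3) * x ^ e := mul_le_mul_of_nonneg_right h13 (by positivity)
    _ = _ := by
        rw [← Real.rpow_add hx0, he]
        congr 1
        ring

end Pool.Agent.Q205.RP
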