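import Mathlib
import Pool.Agent.Q205.RP.GC

/-!
# After a finite verification: no further cycles, up to a doubly exponentially small probability
-/

set_option autoImplicit false

open MeasureTheory Finset Filter Topology

namespace Pool.Agent.Q205.RP

variable {d : ℕ}

/-- following a word, together with a condition on the coins of a finite set which the word does
not use -/
theorem follow_cyl_le [NeZero d] (G : ℤ → Fin d → ℤ) (S : Finset ℤ) (g : ℤ → Fin d) (x : ℤ) (k : ℕ)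
    (w : List (Fin d)) (hn : (sites G x w).Nodup) (hS : ∀ s ∈ sites G x w, s ∉ S)
    (hw : w.length = k) :
    P d {ω | word G ω x k = w ∧ ∀ s ∈ S, ω s = g s} ≤
      ((d : ENNReal)⁻¹) ^ k * ((d : ENNReal)⁻¹) ^ S.card := by
  classical
  rcases Set.eq_empty_or_nonempty {ω : ℤ → Fin d | word G ω x k = w} with h | ⟨ω', h'⟩
  · have h2 : {ω : ℤ → Fin d | word G ω x k = w ∧ ∀ s ∈ S, ω s = g s} = ∅ := by
      rw [← Set.subset_empty_iff, ← h]
      intro ω hω
      exact hω.1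
    rw [h2, measure_empty]
    exact zero_le
  · have h1 : word G ω' x k = w := h'
    have hdisj : Disjoint (sites G x w).toFinset S := by
      rw [Finset.disjoint_left]
      intro s hs
      exact hS s (List.mem_toFinset.1 hs)
    have h2 : {ω : ℤ → Fin d | word G ω x k = w ∧ ∀ s ∈ S, ω s = g s} ⊆
        {ω | ∀ s ∈ (sites G x w).toFinset ∪ S, ω s = if s ∈ S then g s else ω' s} := by
      rintro ω ⟨hω, hωS⟩ s hs
      rw [Finset.mem_union] at hs
      by_cases hsS : s ∈ S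
      · rw [if_pos hsS]
        exact hωS s hsS
      · rw [if_neg hsS]
        rcases hs with hs | hs
        · rw [List.mem_toFinset] at hs
          have h3 : word G ω x k = word G ω' x k := by rw [h1]; exact hω
          apply agree G h3
          rw [h1]
          exact hs
        · exact absurd hs hsS
    refine (measure_mono h2).trans (le_of_eq ?_)
    rw [cyl, Finset.card_union_of_disjoint hdisj, List.toFinset_card_of_nodup hn, length_sites, hw,
      pow_add]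

theorem meas_cyl_le_real [NeZero d] (G : ℤ → Fin d → ℤ) (S : Finset ℤ) (g : ℤ → Fin d) (x : ℤ)
    (k : ℕ) (Q : List (Fin d) → Prop) [DecidablePred Q]
    (hQS : ∀ w, Q w → ∀ s ∈ sites G x w, s ∉ S) {B : ℝ}
    (hB : (((wd d k).filter (fun w => (sites G x w).Nodup ∧ Q w)).card : ℝ) ≤ B * (d : ℝ) ^ k) :
    P d {ω | ((sites G x (word G ω x k)).Nodup ∧ Q (word G ω x k)) ∧ ∀ s ∈ S, ω s = g s} ≤
      ENNReal.ofReal B * P d {ω | ∀ s ∈ S, ω s = g s} := by
  have hd : (0 : ℝ) < d := by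
    have := NeZero.pos d
    exact_mod_cast this
  have hdk : (0 : ℝ) < (d : ℝ) ^ k := by positivity
  have h1 : {ω : ℤ → Fin d | ((sites G x (word G ω x k)).Nodup ∧ Q (word G ω x k)) ∧
      ∀ s ∈ S, ω s = g s} ⊆ ⋃ w ∈ (wd d k).filter (fun w => (sites G x w).Nodup ∧ Q w),
        {ω | word G ω x k = w ∧ ∀ s ∈ S, ω s = g s} := by
    intro ω hω
    simp only [Set.mem_iUnion, Set.mem_ofPred_eq, exists_prop, mem_filter]
    exact ⟨word G ω x k, ⟨mem_wd.2 (length_word G ω x k), hω.1⟩, rfl, hω.2⟩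
  refine (measure_mono h1).trans ((measure_biUnion_finset_le _ _).trans ?_)
  rw [cyl]
  calc ∑ w ∈ (wd d k).filter (fun w => (sites G x w).Nodup ∧ Q w),
        P d {ω | word G ω x k = w ∧ ∀ s ∈ S, ω s = g s}
      ≤ ∑ _w ∈ (wd d k).filter (fun w => (sites G x w).Nodup ∧ Q w),
        ((d : ENNReal)⁻¹) ^ k * ((d : ENNReal)⁻¹) ^ S.card := by
        apply Finset.sum_le_sum
        intro w hw
        rw [mem_filter] at hw
        exact follow_cyl_le G S g x k w hw.2.1 (hQS w hw.2.2) (mem_wd.1 hw.1)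
    _ = (((wd d k).filter (fun w => (sites G x w).Nodup ∧ Q w)).card *
          ((d : ENNReal)⁻¹) ^ k) * ((d : ENNReal)⁻¹) ^ S.card := by
        rw [Finset.sum_const, nsmul_eq_mul, mul_assoc]
    _ ≤ _ := by
        apply mul_le_mul_left
        have h3 : (((wd d k).filter (fun w => (sites G x w).Nodup ∧ Q w)).card : ENNReal) =
            ENNReal.ofReal (((wd d k).filter (fun w => (sites G x w).Nodup ∧ Q w)).card : ℝ) := by
          rw [ENNReal.ofReal_natCast]
        have h2 : ((d : ENNReal)⁻¹) ^ k = ENNReal.ofReal (((d : ℝ) ^ k)⁻¹) := by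
          rw [ENNReal.ofReal_inv_of_pos hdk, ENNReal.ofReal_pow hd.le, ENNReal.ofReal_natCast,
            ENNReal.inv_pow]
        rw [h3, h2, ← ENNReal.ofReal_mul (Nat.cast_nonneg _)]
        apply ENNReal.ofReal_le_ofReal
        rw [← div_eq_mul_inv, div_le_iff₀ hdk]
        exact hB

/-- a long cycle with least point `x` that avoids `S` -/
theorem longMin_cyl_le [NeZero d] (G : ℤ → Fin d → ℤ) (V : ℤ → ℝ) {ρ : ℝ} (hρ0 : 0 < ρ)
    (hρ1 : ρ < 1) (hV : ∀ x, 0 < V x) (S : Finset ℤ) (g : ℤ → Fin d) (x : ℤ)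
    (h : ∀ y : ℤ, |x| ≤ |y| → ∑ c, V (G y c) ≤ (d * ρ) * V y) (ℓ : ℕ) :
    P d {ω | (LongMin (Tn G ω) x ℓ ∧ ∀ j, (Tn G ω)^[j] x ∉ S) ∧ ∀ s ∈ S, ω s = g s} ≤
      ENNReal.ofReal (ρ ^ ℓ * (1 - ρ)⁻¹) * P d {ω | ∀ s ∈ S, ω s = g s} := by
  classical
  have hd : (0 : ℝ) < d := by
    have := NeZero.pos d
    exact_mod_cast this
  set Q : List (Fin d) → Prop := fun w => ((∀ s ∈ sites G x w, |x| ≤ |s|) ∧ run G x w = x) ∧
    ∀ s ∈ sites G x w, s ∉ S with hQ
  have h1 : {ω | (LongMin (Tn G ω) x ℓ ∧ ∀ j, (Tn G ω)^[j] x ∉ S) ∧ ∀ s ∈ S, ω s = g s} ⊆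
      ⋃ n : ℕ, {ω | ((sites G x (word G ω x (ℓ + n))).Nodup ∧ Q (word G ω x (ℓ + n))) ∧
        ∀ s ∈ S, ω s = g s} := by
    rintro ω ⟨⟨hω, hωS⟩, hωg⟩
    obtain ⟨p, hp1, hp2, hp3, hp4, hp5⟩ := hω
    rw [Set.mem_iUnion]
    refine ⟨p - ℓ, ?_⟩
    rw [Set.mem_ofPred_eq, show ℓ + (p - ℓ) = p by omega]
    refine ⟨⟨(nodup_iff G ω x p).2 hp3, ⟨?_, ?_⟩, ?_⟩, hωg⟩
    · intro s hs
      rw [sites_word, List.mem_map] at hs
      obtain ⟨j, _, rfl⟩ := hs
      exact hp5 j
    · rw [run_word]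
      exact hp4
    · intro s hs
      rw [sites_word, List.mem_map] at hs
      obtain ⟨j, _, rfl⟩ := hs
      exact hωS j
  refine (measure_mono h1).trans ((measure_iUnion_le _).trans ?_)
  have h2 : ∀ n : ℕ, P d {ω | ((sites G x (word G ω x (ℓ + n))).Nodup ∧
      Q (word G ω x (ℓ + n))) ∧ ∀ s ∈ S, ω s = g s} ≤
      ENNReal.ofReal (ρ ^ ℓ * ρ ^ n) * P d {ω | ∀ s ∈ S, ω s = g s} := by
    intro n
    apply meas_cyl_le_real G S g x (ℓ + n) Q (fun w hw => hw.2)
    refine (closed_card G V (κ := d * ρ) (by positivity) hV (fun y => |x| ≤ |y|) h (ℓ + n) x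
      (fun w => (sites G x w).Nodup ∧ Q w) (fun w hw => hw.2.1.1) (fun w hw => hw.2.1.2)).trans
      (le_of_eq ?_)
    rw [mul_pow, pow_add ρ]
    ring
  refine (ENNReal.tsum_le_tsum h2).trans (le_of_eq ?_)
  have h3 : Summable (fun n : ℕ => ρ ^ ℓ * ρ ^ n) :=
    (summable_geometric_of_lt_one hρ0.le hρ1).mul_left _
  rw [ENNReal.tsum_mul_right, ← ENNReal.ofReal_tsum_of_nonneg (fun n => by positivity) h3,
    tsum_mul_left, tsum_geometric_of_lt_one hρ0.le hρ1]

/-- the lower bound for the length of a cycle with least absolute value `t` -/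
noncomputable def lenLB (B R t : ℝ) : ℝ := Real.exp (Real.sqrt (Real.log ((t + R) / R) / B) - 1)

theorem lenLB_mono {B R : ℝ} (hB : 0 < B) (hR : 1 ≤ R) {t u : ℝ} (ht : 0 ≤ t) (htu : t ≤ u) :
    lenLB B R t ≤ lenLB B R u := by
  unfold lenLB
  apply Real.exp_le_exp.2
  apply sub_le_sub_right
  apply Real.sqrt_le_sqrt
  apply div_le_div_of_nonneg_right _ hB.le
  apply Real.log_le_log (by positivity)
  apply div_le_div_of_nonneg_right _ (by linarith)
  linarith

theorem lenLB_le {B R t P : ℝ} (hB : 0 < B) (hR : 1 ≤ R) (ht : 0 ≤ t) (hP : 1 ≤ P)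
    (h : Real.log (t + R) ≤ Real.log R + B * (1 + Real.log P) ^ 2) : lenLB B R t ≤ P := by
  have hlP : 0 ≤ Real.log P := Real.log_nonneg hP
  have h1 : Real.log ((t + R) / R) / B ≤ (1 + Real.log P) ^ 2 := by
    rw [div_le_iff₀ hB, Real.log_div (by positivity) (by positivity)]
    linarith
  have h2 : Real.sqrt (Real.log ((t + R) / R) / B) ≤ 1 + Real.log P := by
    rw [Real.sqrt_le_left (by linarith)]
    exact h1
  unfold lenLB
  calc Real.exp (Real.sqrt (Real.log ((t + R) / R) / B) - 1) ≤ Real.exp (Real.log P) :=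
        Real.exp_le_exp.2 (by linarith)
    _ = P := Real.exp_log (by linarith)

/-- it exceeds any multiple of the logarithm -/
theorem lenLB_ge_log {B R : ℝ} (hB : 0 < B) (hR : 1 ≤ R) {C : ℝ} (hC : 0 < C) :
    ∃ T : ℕ, ∀ t : ℝ, (T : ℝ) ≤ t → C * Real.log (2 + t) ≤ lenLB B R t := by
  obtain ⟨T, hT⟩ := log_compare hB hR (C := C + 2) (by linarith)
  refine ⟨T, fun t ht => ?_⟩
  have hT0 : (0 : ℝ) ≤ T := Nat.cast_nonneg T
  have ht0 : 0 ≤ t := by linarith
  have hlog2 : Real.log 2 ≤ Real.log (2 + t) := Real.log_le_log (by norm_num) (by linarith)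
  have hl2 : (1 : ℝ) / 2 ≤ Real.log 2 := by have := Real.log_two_gt_d9; linarith
  set Q : ℝ := C * Real.log (2 + t) with hQ
  have hQ0 : 0 ≤ Q := by rw [hQ]; nlinarith
  have hP1 : (1 : ℝ) ≤ max 1 Q := le_max_left _ _
  have hPC : max 1 Q ≤ (C + 2) * Real.log (2 + t) := by
    apply max_le
    · nlinarith
    · rw [hQ]; nlinarith
  have h1 := hT t ht (max 1 Q) hP1 hPC
  have hlP : 0 ≤ Real.log (max 1 Q) := Real.log_nonneg hP1
  have h2 : (1 + Real.log (max 1 Q)) ^ 2 ≤ Real.log ((t + R) / R) / B := by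
    rw [le_div_iff₀ hB, Real.log_div (by positivity) (by positivity)]
    linarith
  have h3 : 1 + Real.log (max 1 Q) ≤ Real.sqrt (Real.log ((t + R) / R) / B) :=
    Real.le_sqrt_of_sq_le h2
  unfold lenLB
  calc Q ≤ max 1 Q := le_max_right _ _
    _ = Real.exp (Real.log (max 1 Q)) := (Real.exp_log (by linarith)).symm
    _ ≤ _ := Real.exp_le_exp.2 (by linarith)

/-- **Smallness of the sum over large least points.** -/
theorem tail_small {B R ρ : ℝ} (hB : 0 < B) (hR : 1 ≤ R) (hρ0 : 0 < ρ) (hρ1 : ρ < 1) :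
    ∃ c : ℝ, 0 < c ∧ ∃ N₀ : ℕ, ∀ N : ℕ, N₀ ≤ N → ∃ f : ℤ → ℝ, (∀ y, 0 ≤ f y) ∧ Summable f ∧
      (∀ y : ℤ, (N : ℤ) < |y| → ρ ^ ⌈lenLB B R |(y : ℝ)|⌉₊ * (1 - ρ)⁻¹ ≤ f y) ∧
      ∑' y, f y ≤ Real.exp (-Real.exp (c * Real.sqrt (Real.log N))) := by
  set a : ℝ := -Real.log ρ with ha
  have ha0 : 0 < a := by
    have := Real.log_neg hρ0 hρ1
    rw [ha]; linarith
  obtain ⟨T, hT⟩ := lenLB_ge_log hB hR (C := 4 / a) (by positivity)
  set K : ℝ := (1 - ρ)⁻¹ * ∑' y : ℤ, (2 + |(y : ℝ)|) ^ (-2 : ℝ) with hK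
  have hsum := summable_two_add (b := 2) (by norm_num)
  have hρ1' : 0 < (1 - ρ)⁻¹ := inv_pos.2 (by linarith)
  have hK0 : 0 ≤ K := by
    rw [hK]
    exact mul_nonneg hρ1'.le (tsum_nonneg (fun y => by positivity))
  set c : ℝ := 1 / (2 * Real.sqrt B) with hc
  have hsB : 0 < Real.sqrt B := Real.sqrt_pos.2 hB
  have hc0 : 0 < c := by rw [hc]; positivity
  -- the final inequality
  have hfin : ∀ᶠ u : ℝ in atTop, K + Real.exp (c * u) ≤
      a / 2 * Real.exp (3 / 2 * c * u - 1) := by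
    have h1 : Tendsto (fun u : ℝ => Real.exp (c * u)) atTop atTop :=
      Real.tendsto_exp_atTop.comp (tendsto_id.const_mul_atTop hc0)
    have h2 : Tendsto (fun u : ℝ => a / 2 * Real.exp (1 / 2 * c * u - 1)) atTop atTop := by
      apply Tendsto.const_mul_atTop (by positivity)
      apply Real.tendsto_exp_atTop.comp
      apply tendsto_atTop_add_const_right
      exact tendsto_id.const_mul_atTop (by positivity)
    filter_upwards [h1.eventually_ge_atTop K, h2.eventually_ge_atTop 2] with u h3 h4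
    have h5 : a / 2 * Real.exp (3 / 2 * c * u - 1) =
        (a / 2 * Real.exp (1 / 2 * c * u - 1)) * Real.exp (c * u) := by
      have h7 : Real.exp (3 / 2 * c * u - 1) =
          Real.exp (1 / 2 * c * u - 1) * Real.exp (c * u) := by
        rw [← Real.exp_add]
        congr 1
        ring
      rw [h7]
      ring
    rw [h5]
    have h6 := mul_le_mul_of_nonneg_right h4 (Real.exp_pos (c * u)).le
    linarith
  obtain ⟨u₀, hu₀⟩ := eventually_atTop.1 hfin
  have hlogN : Tendsto (fun N : ℕ => Real.sqrt (Real.log N)) atTop atTop :=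
    Real.tendsto_sqrt_atTop.comp (Real.tendsto_log_atTop.comp tendsto_natCast_atTop_atTop)
  have hlogN' : Tendsto (fun N : ℕ => Real.log (N : ℝ)) atTop atTop :=
    Real.tendsto_log_atTop.comp tendsto_natCast_atTop_atTop
  obtain ⟨N₀, hN₀⟩ := eventually_atTop.1 (((hlogN.eventually_ge_atTop u₀).and
    (hlogN'.eventually_ge_atTop (4 * Real.log R + 1))).and (eventually_ge_atTop (T + 1)))
  refine ⟨c, hc0, N₀, fun N hN => ?_⟩
  obtain ⟨⟨h1, h2⟩, h3⟩ := hN₀ N hN
  have hNR : (1 : ℝ) ≤ N := by exact_mod_cast (show 1 ≤ N by omega)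
  have hTN : (T : ℝ) ≤ N := by exact_mod_cast (show T ≤ N by omega)
  refine ⟨fun y => Real.exp (-(a / 2 * lenLB B R N)) * (1 - ρ)⁻¹ * (2 + |(y : ℝ)|) ^ (-2 : ℝ),
    fun y => by positivity, hsum.mul_left _, fun y hy => ?_, ?_⟩
  · have hyR : (N : ℝ) ≤ |(y : ℝ)| := by
      have : ((N : ℤ) : ℝ) < ((|y| : ℤ) : ℝ) := by exact_mod_cast hy
      push_cast at this
      exact this.le
    have h4 := hT |(y : ℝ)| (hTN.trans hyR)
    have h5 := lenLB_mono hB hR (by linarith) hyR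
    set φ := lenLB B R |(y : ℝ)| with hφ
    have h6 : ρ ^ ⌈φ⌉₊ ≤ Real.exp (-(a * φ)) := by
      rw [← Real.rpow_natCast, Real.rpow_def_of_pos hρ0]
      apply Real.exp_le_exp.2
      have h7 : φ ≤ (⌈φ⌉₊ : ℝ) := Nat.le_ceil _
      have h8 : Real.log ρ = -a := by rw [ha]; ring
      rw [h8]
      nlinarith
    have h7 : Real.exp (-(a * φ)) ≤ Real.exp (-(a / 2 * lenLB B R N)) *
        (2 + |(y : ℝ)|) ^ (-2 : ℝ) := by
      have h8 : (0 : ℝ) < 2 + |(y : ℝ)| := by positivity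
      rw [Real.rpow_def_of_pos h8, ← Real.exp_add]
      apply Real.exp_le_exp.2
      have h9 : 2 * Real.log (2 + |(y : ℝ)|) ≤ a / 2 * φ := by
        calc 2 * Real.log (2 + |(y : ℝ)|) = a / 2 * (4 / a * Real.log (2 + |(y : ℝ)|)) := by
              field_simp
              ring
          _ ≤ a / 2 * φ := mul_le_mul_of_nonneg_left h4 (by positivity)
      have h10 : a / 2 * lenLB B R N ≤ a / 2 * φ := mul_le_mul_of_nonneg_left h5 (by positivity)
      linarith
    calc ρ ^ ⌈φ⌉₊ * (1 - ρ)⁻¹ ≤ (Real.exp (-(a / 2 * lenLB B R N)) *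
        (2 + |(y : ℝ)|) ^ (-2 : ℝ)) * (1 - ρ)⁻¹ :=
          mul_le_mul_of_nonneg_right (h6.trans h7) hρ1'.le
      _ = _ := by ring
  · rw [tsum_mul_left]
    have h4 : Real.exp (-(a / 2 * lenLB B R N)) * (1 - ρ)⁻¹ *
        ∑' y : ℤ, (2 + |(y : ℝ)|) ^ (-2 : ℝ) = Real.exp (-(a / 2 * lenLB B R N)) * K := by
      rw [hK]; ring
    rw [h4]
    set u : ℝ := Real.sqrt (Real.log N) with hu
    have hlog0 : 0 ≤ Real.log N := Real.log_nonneg hNR
    have hu0 : 0 ≤ u := Real.sqrt_nonneg _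
    have hlR : 0 ≤ Real.log R := Real.log_nonneg hR
    have h5 : 3 / 2 * c * u - 1 ≤ Real.sqrt (Real.log ((N + R) / R) / B) - 1 := by
      apply sub_le_sub_right
      apply Real.le_sqrt_of_sq_le
      rw [le_div_iff₀ hB]
      have h6 : (3 / 2 * c * u) ^ 2 * B = 9 / 16 * Real.log N := by
        have h7 : u ^ 2 = Real.log N := Real.sq_sqrt hlog0
        have h8 : Real.sqrt B ^ 2 = B := Real.sq_sqrt hB.le
        calc (3 / 2 * c * u) ^ 2 * B = 9 / 4 * c ^ 2 * u ^ 2 * B := by ring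
          _ = 9 / 4 * c ^ 2 * Real.log N * Real.sqrt B ^ 2 := by rw [h7, h8]
          _ = 9 / 16 * Real.log N := by
              rw [hc]
              field_simp
              ring
      rw [h6, Real.log_div (by positivity) (by positivity)]
      have h7 : Real.log N ≤ Real.log (N + R) := Real.log_le_log (by linarith) (by linarith)
      linarith
    have h6 : K + Real.exp (c * u) ≤ a / 2 * lenLB B R N := by
      refine (hu₀ u h1).trans ?_
      unfold lenLB
      exact mul_le_mul_of_nonneg_left (Real.exp_le_exp.2 h5) (by positivity)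
    calc Real.exp (-(a / 2 * lenLB B R N)) * K ≤
        Real.exp (-(K + Real.exp (c * u))) * Real.exp K := by
          apply mul_le_mul (Real.exp_le_exp.2 (by linarith)) _ hK0 (Real.exp_pos _).le
          have := Real.add_one_le_exp K
          linarith
      _ = Real.exp (-Real.exp (c * u)) := by
          rw [← Real.exp_add]
          congr 1
          ring

/-- **Verification.** If the small elements of an invariant set `Z` belong to a finite set `S` of
places, or are mapped to smaller elements in any case, then the conditional probability that some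
trajectory in `Z` never meets `S` is doubly exponentially small. -/
theorem verify' [NeZero d] (G : ℤ → Fin d → ℤ) (V : ℤ → ℝ) (κ : ℝ) (hV : ∀ x, 1 ≤ V x)
    (hκ0 : 0 < κ) (hκ : κ < d) (N₁ : ℕ)
    (h : ∀ x : ℤ, (N₁ : ℤ) < |x| → ∑ c, V (G x c) ≤ κ * V x)
    {p q E : ℕ} {R : ℝ} (hp : 2 ≤ p) (hq : 2 ≤ q) (hpq : Nat.Coprime p q) (hR : 1 ≤ R)
    (hrec : Rec G p q E R) :
    ∃ c : ℝ, 0 < c ∧ ∃ N₀ : ℕ, ∀ N : ℕ, N₀ ≤ N → ∀ (S : Finset ℤ) (g : ℤ → Fin d) (Z : Set ℤ),
      (∀ z ∈ Z, ∀ a, G z a ∈ Z) → (∀ z ∈ Z, |z| ≤ N → z ∈ S ∨ ∀ a, |G z a| < |z|) →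
      P d {ω | (∃ x ∈ Z, ∀ j, (Tn G ω)^[j] x ∉ S) ∧ ∀ s ∈ S, ω s = g s} ≤
        ENNReal.ofReal (Real.exp (-Real.exp (c * Real.sqrt (Real.log N)))) *
          P d {ω | ∀ s ∈ S, ω s = g s} := by
  have hd : (0 : ℝ) < d := by
    have := NeZero.pos d
    exact_mod_cast this
  set ρ : ℝ := κ / d with hρ
  have hρ0 : 0 < ρ := div_pos hκ0 hd
  have hρ1 : ρ < 1 := by rw [hρ, div_lt_one hd]; exact hκ
  have hκρ : κ = d * ρ := by rw [hρ]; field_simp
  obtain ⟨B, hB0, hB⟩ := cyc_min hp hq hpq E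
  obtain ⟨c, hc0, N₀, hN₀⟩ := tail_small hB0 hR hρ0 hρ1
  refine ⟨c, hc0, max N₀ N₁, fun N hN S g Z hZ hS => ?_⟩
  obtain ⟨f, hf0, hfs, hf, hfsum⟩ := hN₀ N ((le_max_left _ _).trans hN)
  have hNN₁ : N₁ ≤ N := (le_max_right _ _).trans hN
  choose e r hre hE hr using hrec
  have hper := evper_ae G V κ hV hκ0 hκ N₁ h
  rw [ae_iff] at hper
  have hcover : {ω | (∃ x ∈ Z, ∀ j, (Tn G ω)^[j] x ∉ S) ∧ ∀ s ∈ S, ω s = g s} ⊆
      {ω | ¬ ∀ x : ℤ, ∃ i j : ℕ, i < j ∧ (Tn G ω)^[i] x = (Tn G ω)^[j] x} ∪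
      ⋃ y : ℤ, {ω | (N : ℤ) < |y| ∧ (LongMin (Tn G ω) y ⌈lenLB B R |(y : ℝ)|⌉₊ ∧
        ∀ j, (Tn G ω)^[j] y ∉ S) ∧ ∀ s ∈ S, ω s = g s} := by
    rintro ω ⟨⟨x, hxZ, hxS⟩, hωS⟩
    by_cases hall : ∀ x : ℤ, ∃ i j : ℕ, i < j ∧ (Tn G ω)^[i] x = (Tn G ω)^[j] x
    swap
    · exact Or.inl hall
    right
    set F := Tn G ω with hF
    obtain ⟨i, j, hij, hxx⟩ := hall x
    have hper' := mem_periodicPts_of_eq F hij hxx
    set z := F^[i] x with hz
    obtain ⟨b, hb, hbmin⟩ := Finset.exists_min_image (range (Function.minimalPeriod F z))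
      (fun b => |F^[b] z|)
      ⟨0, Finset.mem_range.2 (Function.minimalPeriod_pos_of_mem_periodicPts hper')⟩
    rw [Finset.mem_range] at hb
    have hperz := Function.isPeriodicPt_minimalPeriod F z
    have hmod : ∀ n, F^[n] z = F^[n % Function.minimalPeriod F z] z := fun n => by
      rw [Function.iterate_mod_minimalPeriod_eq]
    have hy : F^[b] z ∈ Function.periodicPts F :=
      ⟨_, Function.minimalPeriod_pos_of_mem_periodicPts hper', hperz.apply_iterate b⟩
    have hymin : ∀ n, |F^[b] z| ≤ |F^[n] (F^[b] z)| := by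
      intro n
      have hnb : F^[n] (F^[b] z) = F^[(n + b) % Function.minimalPeriod F z] z := by
        rw [← Function.iterate_add_apply F n b z, hmod (n + b)]
      rw [hnb]
      exact hbmin _ (Finset.mem_range.2 (Nat.mod_lt _
        (Function.minimalPeriod_pos_of_mem_periodicPts hper')))
    have hyS : ∀ n, F^[n] (F^[b] z) ∉ S := by
      intro n
      rw [hz, ← Function.iterate_add_apply, ← Function.iterate_add_apply]
      exact hxS _
    have hZit : ∀ n, F^[n] x ∈ Z := by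
      intro n
      induction n with
      | zero => exact hxZ
      | succ n ih =>
        rw [Function.iterate_succ_apply']
        exact hZ _ ih _
    have hyZ : F^[b] z ∈ Z := by
      rw [hz, ← Function.iterate_add_apply]
      exact hZit _
    have hyN : (N : ℤ) < |F^[b] z| := by
      by_contra hcon
      rw [not_lt] at hcon
      rcases hS _ hyZ hcon with h1 | h1
      · exact hyS 0 h1
      · have h2 := hymin 1
        rw [Function.iterate_one] at h2
        exact absurd h2 (not_le.2 (h1 _))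
    set y := F^[b] z with hydef
    have hP0 := Function.minimalPeriod_pos_of_mem_periodicPts hy
    have hPk : F^[Function.minimalPeriod F y] y = y := Function.isPeriodicPt_minimalPeriod F y
    rw [Set.mem_iUnion]
    refine ⟨y, hyN, ⟨⟨Function.minimalPeriod F y, ?_, hP0, ?_, hPk, hymin⟩, hyS⟩, hωS⟩
    · apply Nat.ceil_le.2
      have h6 := hB (fun j => F^[j] y) (fun j => e (F^[j] y) (ω (F^[j] y)))
        (fun j => r (F^[j] y) (ω (F^[j] y))) R (Function.minimalPeriod F y) hR hP0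
        (fun j => ⟨by
          rw [Function.iterate_succ_apply']
          exact hre (F^[j] y) (ω (F^[j] y)), hE _ _, hr _ _⟩) hPk (fun j => hymin j)
      simp only [Function.iterate_zero, id_eq] at h6
      exact lenLB_le hB0 hR (abs_nonneg _) (by exact_mod_cast hP0) h6
    · intro i' hi' j' hj' hij'
      exact Function.iterate_injOn_Iio_minimalPeriod hi' hj' hij'
  refine (measure_mono hcover).trans ((measure_union_le _ _).trans ?_)
  rw [hper, zero_add]
  refine (measure_iUnion_le _).trans ?_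
  have hterm : ∀ y : ℤ, P d {ω | (N : ℤ) < |y| ∧ (LongMin (Tn G ω) y ⌈lenLB B R |(y : ℝ)|⌉₊ ∧
        ∀ j, (Tn G ω)^[j] y ∉ S) ∧ ∀ s ∈ S, ω s = g s} ≤
      ENNReal.ofReal (f y) * P d {ω | ∀ s ∈ S, ω s = g s} := by
    intro y
    by_cases hy : (N : ℤ) < |y|
    · refine (measure_mono (fun ω hω => hω.2)).trans
        ((longMin_cyl_le G V hρ0 hρ1 (fun x => by linarith [hV x]) S g y (fun z hz => ?_) _).trans ?_)
      · rw [← hκρ]
        apply h
        have : (N₁ : ℤ) ≤ N := by exact_mod_cast hNN₁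
        omega
      · apply mul_le_mul_left
        exact ENNReal.ofReal_le_ofReal (hf y hy)
    · have : {ω : ℤ → Fin d | (N : ℤ) < |y| ∧ (LongMin (Tn G ω) y ⌈lenLB B R |(y : ℝ)|⌉₊ ∧
        ∀ j, (Tn G ω)^[j] y ∉ S) ∧ ∀ s ∈ S, ω s = g s} = ∅ := by
        ext ω
        simp [hy]
      rw [this, measure_empty]
      exact zero_le
  refine (ENNReal.tsum_le_tsum hterm).trans ?_
  rw [ENNReal.tsum_mul_right, ← ENNReal.ofReal_tsum_of_nonneg hf0 hfs]
  apply mul_le_mul_left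
  exact ENNReal.ofReal_le_ofReal hfsum

/-- **Verification.** If the trajectories from the small elements of an invariant set `Z` have been
followed inside a finite set `S` of places, then the conditional probability that some
trajectory in `Z` never meets `S` is doubly exponentially small. -/
theorem verify [NeZero d] (G : ℤ → Fin d → ℤ) (V : ℤ → ℝ) (κ : ℝ) (hV : ∀ x, 1 ≤ V x)
    (hκ0 : 0 < κ) (hκ : κ < d) (N₁ : ℕ)
    (h : ∀ x : ℤ, (N₁ : ℤ) < |x| → ∑ c, V (G x c) ≤ κ * V x)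
    {p q E : ℕ} {R : ℝ} (hp : 2 ≤ p) (hq : 2 ≤ q) (hpq : Nat.Coprime p q) (hR : 1 ≤ R)
    (hrec : Rec G p q E R) :
    ∃ c : ℝ, 0 < c ∧ ∃ N₀ : ℕ, ∀ N : ℕ, N₀ ≤ N → ∀ (S : Finset ℤ) (g : ℤ → Fin d) (Z : Set ℤ),
      (∀ z ∈ Z, ∀ a, G z a ∈ Z) → (∀ z ∈ Z, |z| ≤ N → z ∈ S) →
      P d {ω | (∃ x ∈ Z, ∀ j, (Tn G ω)^[j] x ∉ S) ∧ ∀ s ∈ S, ω s = g s} ≤
        ENNReal.ofReal (Real.exp (-Real.exp (c * Real.sqrt (Real.log N)))) *
          P d {ω | ∀ s ∈ S, ω s = g s} := by
  obtain ⟨c, hc, N₀, h1⟩ := verify' G V κ hV hκ0 hκ N₁ h hp hq hpq hR hrec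
  exact ⟨c, hc, N₀, fun N hN S g Z hZ hS => h1 N hN S g Z hZ (fun z hz hzN =>
    Or.inl (hS z hz hzN))⟩

end Pool.Agent.Q205.RP
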