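import Mathlib
import Pool.Agent.Q205.RP.Verify
import Pool.Agent.Q205.RP.Expand3

/-!
# After a finite verification: all trajectories arrive in logarithmic time
-/

set_option autoImplicit false

open MeasureTheory Finset Filter Topology

namespace Pool.Agent.Q205.RP

variable {d : ℕ}

theorem iter_eq (G : ℤ → Fin d → ℤ) (ω g : ℤ → Fin d) (S : Finset ℤ)
    (h1 : ∀ s ∈ S, ω s = g s) (h2 : ∀ s ∈ S, Tn G g s ∈ S) {y : ℤ} (hy : y ∈ S) (k : ℕ) :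
    (Tn G ω)^[k] y = (Tn G g)^[k] y ∧ (Tn G g)^[k] y ∈ S := by
  induction k with
  | zero => exact ⟨rfl, hy⟩
  | succ k ih =>
    rw [Function.iterate_succ_apply', Function.iterate_succ_apply', ih.1]
    refine ⟨?_, h2 _ ih.2⟩
    have h3 := h1 _ ih.2
    show G ((Tn G g)^[k] y) (ω ((Tn G g)^[k] y)) = G ((Tn G g)^[k] y) (g ((Tn G g)^[k] y))
    rw [h3]

/-- the conditional probability that the set `S` is not always reached in logarithmic time -/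
theorem main_verify [NeZero d] (G : ℤ → Fin d → ℤ) {m : Fin d → ℤ} {R : ℝ} {q E : ℕ}
    (hd2 : 2 ≤ d) (hq : 2 ≤ q) (hdq : Nat.Coprime d q) (hm : ∀ i, ∃ e ≤ E, m i = (q : ℤ) ^ e)
    (hR : 1 ≤ R) (hG : Lin G d m R) (hprod : ∏ i, |(m i : ℝ)| < (d : ℝ) ^ d) :
    ∃ c : ℝ, 0 < c ∧ ∃ N₀ : ℕ, ∀ N : ℕ, N₀ ≤ N → ∀ (S : Finset ℤ) (g : ℤ → Fin d) (Z : Set ℤ),
      (∀ z ∈ Z, ∀ a, G z a ∈ Z) → (∀ z ∈ Z, |z| ≤ N → z ∈ S) →
      P d {ω | (¬ ∃ K : ℝ, ∀ x ∈ Z, ∃ k : ℕ, (k : ℝ) ≤ K * Real.log (2 + |(x : ℝ)|) ∧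
          (Tn G ω)^[k] x ∈ S) ∧ ∀ s ∈ S, ω s = g s} ≤
        ENNReal.ofReal (Real.exp (-Real.exp (c * Real.sqrt (Real.log N)))) *
          P d {ω | ∀ s ∈ S, ω s = g s} := by
  have hd : (0 : ℝ) < d := by
    have := NeZero.pos d
    exact_mod_cast this
  have hm0 : ∀ i, m i ≠ 0 := fun i => by
    obtain ⟨e, _, he⟩ := hm i
    rw [he]
    have : (q : ℤ) ≠ 0 := by
      have : q ≠ 0 := by omega
      exact_mod_cast this
    exact pow_ne_zero _ this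
  have ha : ∀ i, (0 : ℝ) < |(m i : ℝ)| / d := fun i =>
    div_pos (abs_pos.2 (by exact_mod_cast hm0 i)) hd
  obtain ⟨s, hs0, hs1, hs⟩ := exists_exponent (fun i => |(m i : ℝ)| / d) ha (by
    rw [Finset.prod_div_distrib, Finset.prod_const, card_univ, Fintype.card_fin,
      div_lt_one (by positivity)]
    exact hprod)
  obtain ⟨κ, hκ1, hκ2⟩ := exists_between hs
  have hκ0 : 0 < κ := lt_of_le_of_lt (Finset.sum_nonneg (fun i _ => by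
    exact Real.rpow_nonneg (ha i).le _)) hκ1
  obtain ⟨N₁, hN₁⟩ := drift G _ _ (slopes_of_lin (NeZero.pos d) hG) ha s κ hκ1
  obtain ⟨c, hc0, N₀, hN₀⟩ := verify G (VV s) κ (VV_ge hs0.le) hκ0 hκ2 N₁ hN₁ hd2 hq hdq hR
    (rec_of_lin hG hm)
  have hlog := main_contracting G hm0 hG hprod
  rw [ae_iff] at hlog
  refine ⟨c, hc0, N₀, fun N hN S g Z hZ hS => ?_⟩
  have hcover : {ω | (¬ ∃ K : ℝ, ∀ x ∈ Z, ∃ k : ℕ, (k : ℝ) ≤ K * Real.log (2 + |(x : ℝ)|) ∧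
      (Tn G ω)^[k] x ∈ S) ∧ ∀ s ∈ S, ω s = g s} ⊆
      {ω | ¬ ∃ K : ℝ, ∀ x : ℤ, ∃ i j : ℕ, i < j ∧ (j : ℝ) ≤ K * Real.log (2 + |(x : ℝ)|) ∧
        (Tn G ω)^[i] x = (Tn G ω)^[j] x} ∪
      {ω | (∃ x ∈ Z, ∀ j, (Tn G ω)^[j] x ∉ S) ∧ ∀ s ∈ S, ω s = g s} := by
    rintro ω ⟨hω, hωS⟩
    by_cases hK : ∃ K : ℝ, ∀ x : ℤ, ∃ i j : ℕ, i < j ∧ (j : ℝ) ≤ K * Real.log (2 + |(x : ℝ)|) ∧
        (Tn G ω)^[i] x = (Tn G ω)^[j] x
    swap
    · exact Or.inl hK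
    right
    refine ⟨?_, hωS⟩
    by_contra hcon
    push Not at hcon
    apply hω
    obtain ⟨K, hK⟩ := hK
    refine ⟨K, fun x hx => ?_⟩
    obtain ⟨i, j, hij, hj, hxx⟩ := hK x
    obtain ⟨n, hn⟩ := hcon x hx
    obtain ⟨c', hc', hcn⟩ := iterate_mem_of_eq (Tn G ω) hij hxx n
    refine ⟨c', ?_, by rw [← hcn]; exact hn⟩
    have : (c' : ℝ) ≤ j := by exact_mod_cast hc'.le
    linarith
  refine (measure_mono hcover).trans ((measure_union_le _ _).trans ?_)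
  rw [hlog, zero_add]
  exact hN₀ N hN S g Z hZ hS

end Pool.Agent.Q205.RP
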