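import Mathlib
import Pool.Agent.Q205.RP.Verify2

/-!
# Perturbation of the `3x+1` map at odd places only
-/

set_option autoImplicit false

open MeasureTheory Finset Filter Topology

namespace Pool.Agent.Q205.RP

/-- halving at even places, `(3 (x - 2 c) + 1) / 2` with `c` in `{0,1,2,3}` at odd places -/
def GS (x : ℤ) (c : Fin 4) : ℤ :=
  if x % 2 = 0 then x / 2 else (3 * (x - 2 * ((c : ℕ) : ℤ)) + 1) / 2

/-- weights of the classes modulo `4` -/
noncomputable def wS (s ρ : ℝ) (x : ℤ) : ℝ :=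
  if x % 2 = 1 then (ρ * 2 ^ s) ^ 2 else if x % 4 = 2 then ρ * 2 ^ s else 1

noncomputable def VS (s ρ : ℝ) (x : ℤ) : ℝ := VV s x * wS s ρ x

theorem wS_odd {s ρ : ℝ} {x : ℤ} (h : x % 2 = 1) : wS s ρ x = (ρ * 2 ^ s) ^ 2 := by
  unfold wS; rw [if_pos h]

theorem wS_two {s ρ : ℝ} {x : ℤ} (h : x % 4 = 2) : wS s ρ x = ρ * 2 ^ s := by
  unfold wS; rw [if_neg (by omega), if_pos h]

theorem wS_zero {s ρ : ℝ} {x : ℤ} (h : x % 4 = 0) : wS s ρ x = 1 := by
  unfold wS; rw [if_neg (by omega), if_neg (by omega)]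

theorem wS_ge {s ρ : ℝ} (h : 1 ≤ ρ * 2 ^ s) (x : ℤ) : 1 ≤ wS s ρ x := by
  unfold wS
  split_ifs
  · exact one_le_pow₀ h
  · exact h
  · exact le_rfl

theorem VS_ge {s ρ : ℝ} (hs : 0 ≤ s) (h : 1 ≤ ρ * 2 ^ s) (x : ℤ) : 1 ≤ VS s ρ x :=
  one_le_mul_of_one_le_of_one_le (VV_ge hs x) (wS_ge h x)

/-- the numbers `(3x+1)/2 - 3c` run through all classes modulo `4` -/
theorem sum_wS (s ρ : ℝ) {x : ℤ} (hx : x % 2 = 1) :
    ∑ c : Fin 4, wS s ρ (GS x c) = 2 * (ρ * 2 ^ s) ^ 2 + ρ * 2 ^ s + 1 := by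
  have hG : ∀ c : Fin 4, GS x c = (3 * (x - 2 * ((c : ℕ) : ℤ)) + 1) / 2 := fun c => by
    unfold GS
    rw [if_neg (by omega)]
  obtain ⟨y, hy⟩ : ∃ y : ℤ, 3 * x + 1 = 2 * y := ⟨(3 * x + 1) / 2, by omega⟩
  have h0 : GS x 0 = y := by rw [hG]; simp only [Fin.isValue, Fin.val_zero]; omega
  have h1 : GS x 1 = y - 3 := by rw [hG]; simp only [Fin.isValue, Fin.val_one]; omega
  have h2 : GS x 2 = y - 6 := by
    rw [hG]; simp only [Fin.isValue, Fin.val_two]; omega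
  have h3 : GS x 3 = y - 9 := by
    rw [hG]
    have : ((3 : Fin 4) : ℕ) = 3 := rfl
    rw [this]; omega
  rw [Fin.sum_univ_four, h0, h1, h2, h3]
  have hcases : y % 4 = 0 ∨ y % 4 = 1 ∨ y % 4 = 2 ∨ y % 4 = 3 := by omega
  rcases hcases with h | h | h | h
  · rw [wS_zero h, wS_odd (x := y - 3) (by omega), wS_two (x := y - 6) (by omega),
      wS_odd (x := y - 9) (by omega)]
    ring
  · rw [wS_odd (x := y) (by omega), wS_two (x := y - 3) (by omega), wS_odd (x := y - 6) (by omega),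
      wS_zero (x := y - 9) (by omega)]
    ring
  · rw [wS_two h, wS_odd (x := y - 3) (by omega), wS_zero (x := y - 6) (by omega),
      wS_odd (x := y - 9) (by omega)]
    ring
  · rw [wS_odd (x := y) (by omega), wS_zero (x := y - 3) (by omega),
      wS_odd (x := y - 6) (by omega), wS_two (x := y - 9) (by omega)]
    ring

/-- the numerical inequality -/
theorem numeric : ((3 : ℝ) / 2) ^ ((1 : ℝ) / 5) *
    (2 * (0.995 * 2 ^ ((1 : ℝ) / 5)) ^ 2 + 0.995 * 2 ^ ((1 : ℝ) / 5) + 1) <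
    4 * 0.997 * (0.995 * 2 ^ ((1 : ℝ) / 5)) ^ 2 := by
  set t : ℝ := 2 ^ ((1 : ℝ) / 5) with ht
  set u : ℝ := (3 / 2 : ℝ) ^ ((1 : ℝ) / 5) with hu
  have ht5 : t ^ 5 = 2 := by
    rw [ht, ← Real.rpow_natCast, ← Real.rpow_mul (by norm_num)]
    norm_num
  have hu5 : u ^ 5 = 3 / 2 := by
    rw [hu, ← Real.rpow_natCast, ← Real.rpow_mul (by norm_num)]
    norm_num
  have ht0 : 0 < t := by rw [ht]; positivity
  have hu0 : 0 < u := by rw [hu]; positivity
  have htl : (1.1486 : ℝ) ≤ t := by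
    by_contra hcon
    rw [not_le] at hcon
    have := pow_lt_pow_left₀ hcon ht0.le (show (5 : ℕ) ≠ 0 by norm_num)
    rw [ht5] at this
    norm_num at this
  have huu : u ≤ 1.0846 := by
    by_contra hcon
    rw [not_le] at hcon
    have := pow_lt_pow_left₀ hcon (by norm_num) (show (5 : ℕ) ≠ 0 by norm_num)
    rw [hu5] at this
    norm_num at this
  have h1 : 0 < 2 * (0.995 * t) ^ 2 + 0.995 * t + 1 := by positivity
  have h2 : u * (2 * (0.995 * t) ^ 2 + 0.995 * t + 1) ≤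
      1.0846 * (2 * (0.995 * t) ^ 2 + 0.995 * t + 1) := mul_le_mul_of_nonneg_right huu h1.le
  refine lt_of_le_of_lt h2 ?_
  nlinarith

/-- the drift inequality -/
theorem drift_GS : ∃ N : ℕ, ∀ x : ℤ, (N : ℤ) < |x| →
    ∑ c, VS (1 / 5) 0.995 (GS x c) ≤ 4 * 0.997 * VS (1 / 5) 0.995 x := by
  set s : ℝ := 1 / 5 with hs
  set ρ : ℝ := 0.995 with hρ
  set A : ℝ := ρ * 2 ^ s with hA
  have hA1 : 1 ≤ A := by
    have h1 : (1.1486 : ℝ) ≤ 2 ^ s := by
      have ht5 : ((2 : ℝ) ^ s) ^ 5 = 2 := by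
        rw [hs, ← Real.rpow_natCast, ← Real.rpow_mul (by norm_num)]
        norm_num
      by_contra hcon
      rw [not_le] at hcon
      have := pow_lt_pow_left₀ hcon (by positivity) (show (5 : ℕ) ≠ 0 by norm_num)
      rw [ht5] at this
      norm_num at this
    rw [hA, hρ]
    nlinarith
  have hA0 : 0 < A := by linarith
  -- two limits
  have hl1 : Tendsto (fun t : ℝ => ((1 + 1 / 2 * t + 0) / (1 + t)) ^ s * A) atTop
      (𝓝 ((1 / 2 : ℝ) ^ s * A)) := (tends_ratio (by norm_num) 0 s).mul_const _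
  have hl2 : Tendsto (fun t : ℝ => ((1 + 3 / 2 * t + 10) / (1 + t)) ^ s * (2 * A ^ 2 + A + 1)) atTop
      (𝓝 ((3 / 2 : ℝ) ^ s * (2 * A ^ 2 + A + 1))) := (tends_ratio (by norm_num) 10 s).mul_const _
  have hv1 : (1 / 2 : ℝ) ^ s * A < 0.997 := by
    have : (1 / 2 : ℝ) ^ s * A = ρ := by
      rw [hA, mul_comm ρ, ← mul_assoc, ← Real.mul_rpow (by norm_num) (by norm_num)]
      norm_num
    rw [this, hρ]
    norm_num
  have hv2 : (3 / 2 : ℝ) ^ s * (2 * A ^ 2 + A + 1) < 4 * 0.997 * A ^ 2 := numeric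
  obtain ⟨t₀, ht₀⟩ := eventually_atTop.1 (((hl1.eventually (gt_mem_nhds hv1)).and
    (hl2.eventually (gt_mem_nhds hv2))).and (eventually_ge_atTop (0 : ℝ)))
  refine ⟨⌈t₀⌉₊, fun x hx => ?_⟩
  have hxR : t₀ ≤ |(x : ℝ)| := by
    have h4 : t₀ ≤ (⌈t₀⌉₊ : ℝ) := Nat.le_ceil _
    have h5 : ((⌈t₀⌉₊ : ℤ) : ℝ) < ((|x| : ℤ) : ℝ) := by exact_mod_cast hx
    push_cast at h5
    linarith
  obtain ⟨⟨h1, h2⟩, h3⟩ := ht₀ _ hxR
  have hX : (0 : ℝ) < 1 + |(x : ℝ)| := by positivity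
  have hs0 : 0 ≤ s := by rw [hs]; norm_num
  have hVx := VV_pos s x
  rcases Int.emod_two_eq_zero_or_one x with hpar | hpar
  · -- even places
    have hG : ∀ c : Fin 4, GS x c = x / 2 := fun c => by unfold GS; rw [if_pos hpar]
    simp only [hG, sum_const, card_univ, Fintype.card_fin, nsmul_eq_mul]
    have hVV : VV s (x / 2) = ((1 + 1 / 2 * |(x : ℝ)| + 0) / (1 + |(x : ℝ)|)) ^ s * VV s x := by
      unfold VV
      rw [← Real.mul_rpow (by positivity) hX.le, div_mul_cancel₀ _ hX.ne']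
      congr 1
      have h4 : ((x / 2 : ℤ) : ℝ) = (x : ℝ) / 2 := by
        rw [Int.cast_div (by omega) (by norm_num)]
        norm_num
      rw [h4, abs_div, abs_of_pos (show (0 : ℝ) < 2 by norm_num)]
      ring
    have hw : wS s ρ (x / 2) ≤ A * wS s ρ x := by
      by_cases h4 : x % 4 = 2
      · rw [wS_two h4, wS_odd (x := x / 2) (by omega), ← hA, pow_two]
      · rw [wS_zero (x := x) (by omega), mul_one]
        have h5 : (x / 2) % 2 = 0 := by omega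
        by_cases h6 : (x / 2) % 4 = 2
        · rw [wS_two h6]
        · rw [wS_zero (by omega)]
          exact hA1
    have hw0 : 0 < wS s ρ x := by linarith [wS_ge hA1 x]
    have hr : 0 ≤ ((1 + 1 / 2 * |(x : ℝ)| + 0) / (1 + |(x : ℝ)|)) ^ s := by positivity
    unfold VS
    rw [hVV]
    calc ((4 : ℕ) : ℝ) * (((1 + 1 / 2 * |(x : ℝ)| + 0) / (1 + |(x : ℝ)|)) ^ s * VV s x *
          wS s ρ (x / 2)) ≤ 4 * (((1 + 1 / 2 * |(x : ℝ)| + 0) / (1 + |(x : ℝ)|)) ^ s * VV s x *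
          (A * wS s ρ x)) := by
          push_cast
          apply mul_le_mul_of_nonneg_left _ (by norm_num)
          exact mul_le_mul_of_nonneg_left hw (by positivity)
      _ = 4 * ((((1 + 1 / 2 * |(x : ℝ)| + 0) / (1 + |(x : ℝ)|)) ^ s * A) *
          (VV s x * wS s ρ x)) := by ring
      _ ≤ 4 * (0.997 * (VV s x * wS s ρ x)) := by
          apply mul_le_mul_of_nonneg_left _ (by norm_num)
          exact mul_le_mul_of_nonneg_right h1.le (by positivity)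
      _ = _ := by ring
  · -- odd places
    have hVV : ∀ c : Fin 4, VV s (GS x c) ≤
        ((1 + 3 / 2 * |(x : ℝ)| + 10) / (1 + |(x : ℝ)|)) ^ s * VV s x := by
      intro c
      unfold VV
      rw [← Real.mul_rpow (by positivity) hX.le, div_mul_cancel₀ _ hX.ne']
      apply Real.rpow_le_rpow (by positivity) _ hs0
      have h4 : GS x c = (3 * (x - 2 * ((c : ℕ) : ℤ)) + 1) / 2 := by
        unfold GS
        rw [if_neg (by omega)]
      have h5 : 2 * GS x c = 3 * x + (1 - 6 * ((c : ℕ) : ℤ)) := by rw [h4]; omega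
      have h6 : (2 : ℝ) * (GS x c : ℝ) = 3 * x + (1 - 6 * ((c : ℕ) : ℝ)) := by exact_mod_cast h5
      have h7 : (GS x c : ℝ) = 3 / 2 * x + (1 - 6 * ((c : ℕ) : ℝ)) / 2 := by linarith
      have h8 : ((c : ℕ) : ℝ) ≤ 3 := by
        have := c.2
        exact_mod_cast (by omega : (c : ℕ) ≤ 3)
      have h9 : (0 : ℝ) ≤ ((c : ℕ) : ℝ) := Nat.cast_nonneg _
      have h10 : |(GS x c : ℝ)| ≤ 3 / 2 * |(x : ℝ)| + 10 := by
        rw [h7]
        refine (abs_add_le _ _).trans ?_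
        rw [abs_mul, abs_of_pos (show (0 : ℝ) < 3 / 2 by norm_num)]
        have : |(1 - 6 * ((c : ℕ) : ℝ)) / 2| ≤ 10 := by
          rw [abs_le]
          constructor <;> linarith
        linarith
      linarith
    have hsum : ∑ c, VS s ρ (GS x c) ≤
        ((1 + 3 / 2 * |(x : ℝ)| + 10) / (1 + |(x : ℝ)|)) ^ s * VV s x * (2 * A ^ 2 + A + 1) := by
      rw [hA, ← sum_wS s ρ hpar, Finset.mul_sum]
      apply Finset.sum_le_sum
      intro c _
      unfold VS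
      exact mul_le_mul_of_nonneg_right (hVV c) (by linarith [wS_ge hA1 (GS x c)])
    refine hsum.trans ?_
    unfold VS
    rw [wS_odd hpar, ← hA]
    calc _ = (((1 + 3 / 2 * |(x : ℝ)| + 10) / (1 + |(x : ℝ)|)) ^ s * (2 * A ^ 2 + A + 1)) *
          VV s x := by ring
      _ ≤ (4 * 0.997 * A ^ 2) * VV s x := mul_le_mul_of_nonneg_right h2.le hVx.le
      _ = _ := by ring

theorem rec_GS : Rec GS 2 3 1 18 := by
  intro x c
  have hc : ((c : ℕ) : ℤ) ≤ 3 := by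
    have := c.2
    omega
  have hc0 : (0 : ℤ) ≤ ((c : ℕ) : ℤ) := by positivity
  rcases Int.emod_two_eq_zero_or_one x with h | h
  · refine ⟨0, 0, ?_, by norm_num, by norm_num⟩
    unfold GS
    rw [if_pos h]
    push_cast
    omega
  · refine ⟨1, 1 - 6 * ((c : ℕ) : ℤ), ?_, le_rfl, ?_⟩
    · unfold GS
      rw [if_neg (by omega)]
      push_cast
      omega
    · have h1 : |1 - 6 * ((c : ℕ) : ℤ)| ≤ 18 := by
        rw [abs_le]
        constructor <;> omega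
      exact_mod_cast h1

theorem verify_GS : ∃ c : ℝ, 0 < c ∧ ∃ N₀ : ℕ, ∀ N : ℕ, N₀ ≤ N →
    ∀ (S : Finset ℤ) (g : ℤ → Fin 4) (Z : Set ℤ),
      (∀ z ∈ Z, ∀ a, GS z a ∈ Z) → (∀ z ∈ Z, |z| ≤ N → z ∈ S ∨ ∀ a, |GS z a| < |z|) →
      P 4 {ω | (∃ x ∈ Z, ∀ j, (Tn GS ω)^[j] x ∉ S) ∧ ∀ s ∈ S, ω s = g s} ≤
        ENNReal.ofReal (Real.exp (-Real.exp (c * Real.sqrt (Real.log N)))) *
          P 4 {ω | ∀ s ∈ S, ω s = g s} := by
  obtain ⟨N, hN⟩ := drift_GS
  have hA1 : (1 : ℝ) ≤ 0.995 * 2 ^ ((1 : ℝ) / 5) := by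
    have h1 : (1.1486 : ℝ) ≤ 2 ^ ((1 : ℝ) / 5) := by
      have ht5 : ((2 : ℝ) ^ ((1 : ℝ) / 5)) ^ 5 = 2 := by
        rw [← Real.rpow_natCast, ← Real.rpow_mul (by norm_num)]
        norm_num
      by_contra hcon
      rw [not_le] at hcon
      have := pow_lt_pow_left₀ hcon (by positivity) (show (5 : ℕ) ≠ 0 by norm_num)
      rw [ht5] at this
      norm_num at this
    nlinarith
  exact verify' GS (VS (1 / 5) 0.995) (4 * 0.997) (VS_ge (by norm_num) hA1) (by norm_num)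
    (by norm_num) N hN (p := 2) (q := 3) (E := 1) (R := 18) (by norm_num) (by norm_num)
    (by norm_num) (by norm_num) rec_GS

end Pool.Agent.Q205.RP
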