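import Mathlib
import Pool.Agent.Q205.RP.Expand3

/-!
# Uniformity in `D` for the perturbed `3x+D` maps
-/

set_option autoImplicit false

open MeasureTheory Finset Filter Topology

namespace Pool.Agent.Q205.RP

/-- the perturbed `3x+D` map -/
def GD (D : ℤ) (x : ℤ) (c : Fin 2) : ℤ := tab 3 D (x + ((c : ℕ) : ℤ))

theorem GD_spec {D : ℤ} (hD : D % 2 = 1) (x : ℤ) :
    ∃ σ : Equiv.Perm (Fin 2), ∀ c,
      (σ c = 0 → ∃ r : ℤ, 2 * GD D x c = x + r ∧ |r| ≤ 1) ∧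
      (σ c = 1 → ∃ r : ℤ, 2 * GD D x c = 3 * x + r ∧ |r| ≤ 3 + |D|) := by
  refine ⟨Equiv.ofBijective _ (Finite.injective_iff_bijective.1 (res_add_inj (d := 2) x)),
    fun c => ?_⟩
  rw [Equiv.ofBijective_apply]
  have h1 := res_cast (d := 2) (x + ((c : ℕ) : ℤ))
  push_cast at h1
  have hc0 : (0 : ℤ) ≤ ((c : ℕ) : ℤ) := by positivity
  have hc1 : ((c : ℕ) : ℤ) ≤ 1 := by have := c.2; omega
  constructor
  · intro h
    rw [h] at h1
    have h2 : (x + ((c : ℕ) : ℤ)) % 2 = 0 := by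
      rw [← h1]
      rfl
    refine ⟨((c : ℕ) : ℤ), ?_, ?_⟩
    · unfold GD tab
      rw [if_pos h2]
      omega
    · rw [abs_of_nonneg hc0]
      exact hc1
  · intro h
    rw [h] at h1
    have h2 : (x + ((c : ℕ) : ℤ)) % 2 = 1 := by
      rw [← h1]
      rfl
    refine ⟨3 * ((c : ℕ) : ℤ) + D, ?_, ?_⟩
    · unfold GD tab
      rw [if_neg (by omega)]
      omega
    · refine (abs_add_le _ _).trans ?_
      rw [abs_of_nonneg (by positivity)]
      linarith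

/-- the Lyapunov function -/
noncomputable def VD (D : ℤ) (x : ℤ) : ℝ := Real.sqrt (|(x : ℝ)| + |(D : ℝ)|)

theorem VD_ge {D : ℤ} (hD : D ≠ 0) (x : ℤ) : 1 ≤ VD D x := by
  unfold VD
  rw [Real.one_le_sqrt]
  have h1 : (1 : ℤ) ≤ |D| := Int.one_le_abs hD
  have h2 : (1 : ℝ) ≤ |(D : ℝ)| := by exact_mod_cast h1
  linarith [abs_nonneg (x : ℝ)]

theorem drift_VD {D : ℤ} (hD : D % 2 = 1) (x : ℤ) (hx : 100 * |D| ≤ |x|) :
    ∑ c, VD D (GD D x c) ≤ 2 * 0.975 * VD D x := by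
  obtain ⟨σ, hσ⟩ := GD_spec hD x
  have hD0 : D ≠ 0 := by omega
  have hD1 : (1 : ℝ) ≤ |(D : ℝ)| := by exact_mod_cast Int.one_le_abs hD0
  have hxR : 100 * |(D : ℝ)| ≤ |(x : ℝ)| := by exact_mod_cast hx
  set X : ℝ := |(x : ℝ)| + |(D : ℝ)| with hX
  have hX0 : 0 < X := by positivity
  have hb : ∀ c, VD D (GD D x c) ≤ if σ c = 0 then Real.sqrt (0.51 * X) else
      Real.sqrt (1.52 * X) := by
    intro c
    have hcase : σ c = 0 ∨ σ c = 1 := by
      rcases Fin.exists_fin_two.1 ⟨σ c, rfl⟩ with h | h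
      · exact Or.inl h
      · exact Or.inr h
    rcases hcase with h | h
    · rw [if_pos h]
      obtain ⟨r, h1, h2⟩ := (hσ c).1 h
      unfold VD
      apply Real.sqrt_le_sqrt
      have h3 : (2 : ℝ) * (GD D x c : ℝ) = x + r := by exact_mod_cast h1
      have h4 : |(r : ℝ)| ≤ 1 := by exact_mod_cast h2
      have h5 : (2 : ℝ) * |(GD D x c : ℝ)| ≤ |(x : ℝ)| + 1 := by
        calc (2 : ℝ) * |(GD D x c : ℝ)| = |(2 : ℝ) * (GD D x c : ℝ)| := by
              rw [abs_mul, abs_of_pos (show (0 : ℝ) < 2 by norm_num)]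
          _ = |(x : ℝ) + r| := by rw [h3]
          _ ≤ _ := (abs_add_le _ _).trans (by linarith)
      rw [hX]
      linarith
    · rw [if_neg (by rw [h]; decide)]
      obtain ⟨r, h1, h2⟩ := (hσ c).2 h
      unfold VD
      apply Real.sqrt_le_sqrt
      have h3 : (2 : ℝ) * (GD D x c : ℝ) = 3 * x + r := by exact_mod_cast h1
      have h4 : |(r : ℝ)| ≤ 3 + |(D : ℝ)| := by exact_mod_cast h2
      have h5 : (2 : ℝ) * |(GD D x c : ℝ)| ≤ 3 * |(x : ℝ)| + (3 + |(D : ℝ)|) := by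
        calc (2 : ℝ) * |(GD D x c : ℝ)| = |(2 : ℝ) * (GD D x c : ℝ)| := by
              rw [abs_mul, abs_of_pos (show (0 : ℝ) < 2 by norm_num)]
          _ = |3 * (x : ℝ) + r| := by rw [h3]
          _ ≤ _ := by
              refine (abs_add_le _ _).trans ?_
              rw [abs_mul, abs_of_pos (show (0 : ℝ) < 3 by norm_num)]
              linarith
      rw [hX]
      linarith
  refine (Finset.sum_le_sum (fun c _ => hb c)).trans ?_
  rw [Equiv.sum_comp σ (fun i => if i = 0 then Real.sqrt (0.51 * X) else Real.sqrt (1.52 * X)),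
    Fin.sum_univ_two, if_pos rfl, if_neg (by decide)]
  rw [Real.sqrt_mul (by norm_num), Real.sqrt_mul (by norm_num)]
  have h1 : Real.sqrt 0.51 ≤ 0.7142 := by
    rw [Real.sqrt_le_left (by norm_num)]
    norm_num
  have h2 : Real.sqrt 1.52 ≤ 1.2329 := by
    rw [Real.sqrt_le_left (by norm_num)]
    norm_num
  have h3 : 0 ≤ Real.sqrt X := Real.sqrt_nonneg _
  have h4 : VD D x = Real.sqrt X := rfl
  rw [h4]
  nlinarith

theorem rec_GD {D : ℤ} (hD : D % 2 = 1) : Rec (GD D) 2 3 1 (3 + |(D : ℝ)|) := by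
  intro x c
  obtain ⟨σ, hσ⟩ := GD_spec hD x
  have hcase : σ c = 0 ∨ σ c = 1 := by
    rcases Fin.exists_fin_two.1 ⟨σ c, rfl⟩ with h | h
    · exact Or.inl h
    · exact Or.inr h
  rcases hcase with h | h
  · obtain ⟨r, h1, h2⟩ := (hσ c).1 h
    refine ⟨0, r, by push_cast; linarith, by norm_num, ?_⟩
    have h4 : |(r : ℝ)| ≤ 1 := by exact_mod_cast h2
    linarith [abs_nonneg (D : ℝ)]
  · obtain ⟨r, h1, h2⟩ := (hσ c).2 h
    refine ⟨1, r, by push_cast; linarith, le_rfl, ?_⟩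
    exact_mod_cast h2

/-- a bound of the form `Z ≤ B (log (Z + L))²` implies `Z ≤ C (log L)²` -/
theorem invert_log {B C : ℝ} (hB : 0 < B) (hC : 1 ≤ C) :
    ∃ K : ℝ, 0 < K ∧ ∀ Z L : ℝ, 0 ≤ Z → 0 ≤ L →
      Z ≤ 2 + B * (1 + Real.log (C * (Z + 1 + L))) ^ 2 → Z ≤ K * Real.log (2 + L) ^ 2 := by
  -- the logarithm is small compared with the identity
  obtain ⟨K₂, hK₂0, hK₂⟩ : ∃ K₂ : ℝ, 0 ≤ K₂ ∧ ∀ W : ℝ, 1 ≤ W →
      2 * B * Real.log W ^ 2 ≤ W / 4 + K₂ := by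
    have h1 := (Real.isLittleO_pow_log_id_atTop (n := 2)).def
      (show (0 : ℝ) < 1 / (8 * B) by positivity)
    obtain ⟨W₀, hW₀⟩ := eventually_atTop.1 h1
    refine ⟨2 * B * Real.log (max W₀ 1) ^ 2, by positivity, fun W hW => ?_⟩
    have hlW : 0 ≤ Real.log W := Real.log_nonneg hW
    rcases le_total W₀ W with h2 | h2
    · have h3 := hW₀ W h2
      simp only [id, Real.norm_eq_abs] at h3
      rw [abs_of_nonneg (by positivity), abs_of_nonneg (by linarith)] at h3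
      have h4 : 2 * B * Real.log W ^ 2 ≤ 2 * B * (1 / (8 * B) * W) :=
        mul_le_mul_of_nonneg_left h3 (by positivity)
      have h5 : 2 * B * (1 / (8 * B) * W) = W / 4 := by field_simp; ring
      have h6 : 0 ≤ 2 * B * Real.log (max W₀ 1) ^ 2 := by positivity
      linarith
    · have h3 : Real.log W ≤ Real.log (max W₀ 1) :=
        Real.log_le_log (by linarith) (h2.trans (le_max_left _ _))
      have h4 : Real.log W ^ 2 ≤ Real.log (max W₀ 1) ^ 2 := pow_le_pow_left₀ hlW h3 2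
      have h5 : 2 * B * Real.log W ^ 2 ≤ 2 * B * Real.log (max W₀ 1) ^ 2 :=
        mul_le_mul_of_nonneg_left h4 (by positivity)
      linarith
  set K₁ : ℝ := 2 + 2 * B * (1 + Real.log C) ^ 2 with hK₁
  have hlC : 0 ≤ Real.log C := Real.log_nonneg hC
  have hK₁0 : 0 ≤ K₁ := by positivity
  set K₃ : ℝ := 2 * (K₁ + K₂ + 1) with hK₃
  have hK₃1 : 1 ≤ K₃ := by rw [hK₃]; linarith
  set l2 : ℝ := Real.log 2 with hl2
  have hl20 : 0 < l2 := Real.log_pos (by norm_num)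
  set K₄ : ℝ := K₃ + 2 with hK₄
  refine ⟨K₁ / l2 ^ 2 + 2 * B * (Real.log K₄ / l2 + 1) ^ 2, by positivity,
    fun Z L hZ hL h => ?_⟩
  have hW : (1 : ℝ) ≤ Z + 1 + L := by linarith
  have hlW : 0 ≤ Real.log (Z + 1 + L) := Real.log_nonneg hW
  have h1 : Z ≤ K₁ + 2 * B * Real.log (Z + 1 + L) ^ 2 := by
    rw [Real.log_mul (by linarith) (by linarith)] at h
    have h2 : (1 + (Real.log C + Real.log (Z + 1 + L))) ^ 2 ≤
        2 * (1 + Real.log C) ^ 2 + 2 * Real.log (Z + 1 + L) ^ 2 := by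
      nlinarith [sq_nonneg (1 + Real.log C - Real.log (Z + 1 + L))]
    have h3 := mul_le_mul_of_nonneg_left h2 hB.le
    rw [hK₁]
    linarith
  have h2 := hK₂ _ hW
  have h3 : Z ≤ K₃ + L := by rw [hK₃]; linarith
  have h4 : Z + 1 + L ≤ K₄ * (2 + L) := by rw [hK₄]; nlinarith
  have hK₄0 : 0 < K₄ := by rw [hK₄]; linarith
  have h5 : Real.log (Z + 1 + L) ≤ Real.log K₄ + Real.log (2 + L) := by
    rw [← Real.log_mul hK₄0.ne' (by linarith)]
    exact Real.log_le_log (by linarith) h4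
  set M : ℝ := Real.log (2 + L) with hM
  have hMl : l2 ≤ M := Real.log_le_log (by norm_num) (by linarith)
  have hlK₄ : 0 ≤ Real.log K₄ := Real.log_nonneg (by rw [hK₄]; linarith)
  have h6 : Real.log K₄ + M ≤ (Real.log K₄ / l2 + 1) * M := by
    have : Real.log K₄ ≤ Real.log K₄ / l2 * M := by
      rw [div_mul_eq_mul_div, le_div_iff₀ hl20]
      exact mul_le_mul_of_nonneg_left hMl hlK₄
    linarith
  have h7 : Real.log (Z + 1 + L) ^ 2 ≤ ((Real.log K₄ / l2 + 1) * M) ^ 2 :=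
    pow_le_pow_left₀ hlW (h5.trans h6) 2
  have h8 : K₁ ≤ K₁ / l2 ^ 2 * M ^ 2 := by
    rw [div_mul_eq_mul_div, le_div_iff₀ (by positivity)]
    exact mul_le_mul_of_nonneg_left (pow_le_pow_left₀ hl20.le hMl 2) hK₁0
  have h9 := mul_le_mul_of_nonneg_left h7 (show (0 : ℝ) ≤ 2 * B by positivity)
  calc Z ≤ K₁ + 2 * B * Real.log (Z + 1 + L) ^ 2 := h1
    _ ≤ K₁ / l2 ^ 2 * M ^ 2 + 2 * B * ((Real.log K₄ / l2 + 1) * M) ^ 2 := by linarith
    _ = _ := by ring

theorem summable_pairs : Summable (fun q : ℤ × ℤ => (2 + |(q.1 : ℝ)| + |(q.2 : ℝ)|) ^ (-4 : ℝ)) := by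
  have h1 := (summable_two_add (b := 2) (by norm_num)).mul_of_nonneg
    (summable_two_add (b := 2) (by norm_num)) (fun x => by positivity) (fun x => by positivity)
  apply Summable.of_nonneg_of_le (fun q => by positivity) _ h1
  intro q
  have ha : (0 : ℝ) ≤ |(q.1 : ℝ)| := abs_nonneg _
  have hb : (0 : ℝ) ≤ |(q.2 : ℝ)| := abs_nonneg _
  have h2 : (2 + |(q.1 : ℝ)| + |(q.2 : ℝ)|) ^ (-4 : ℝ) =
      (2 + |(q.1 : ℝ)| + |(q.2 : ℝ)|) ^ (-2 : ℝ) * (2 + |(q.1 : ℝ)| + |(q.2 : ℝ)|) ^ (-2 : ℝ) := by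
    rw [← Real.rpow_add (by positivity)]
    norm_num
  rw [h2]
  apply mul_le_mul
  · exact Real.rpow_le_rpow_of_nonpos (by positivity) (by linarith) (by norm_num)
  · exact Real.rpow_le_rpow_of_nonpos (by positivity) (by linarith) (by norm_num)
  · positivity
  · positivity

end Pool.Agent.Q205.RP
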