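import Mathlib
import Pool.Agent.Q205.RP.Unif

/-!
# An attracting set for all perturbed `3x+D` maps at once
-/

set_option autoImplicit false

open MeasureTheory Finset Filter Topology

namespace Pool.Agent.Q205.RP

/-- the least point of the cycle closed by `f^[i] x = f^[j] x` -/
theorem min_point (f : ℤ → ℤ) {x : ℤ} {i j : ℕ} (hij : i < j) (h : f^[i] x = f^[j] x) :
    ∃ n, i ≤ n ∧ n < j ∧ f^[n] x ∈ Function.periodicPts f ∧
      ∀ a, |f^[n] x| ≤ |f^[a] (f^[n] x)| := by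
  obtain ⟨n, hn, hmin⟩ := Finset.exists_min_image (Finset.Ico i j) (fun n => |f^[n] x|)
    ⟨i, Finset.mem_Ico.2 ⟨le_rfl, hij⟩⟩
  rw [Finset.mem_Ico] at hn
  have hred : ∀ a, i ≤ a → ∃ b, i ≤ b ∧ b < j ∧ f^[a] x = f^[b] x := by
    intro a
    induction a using Nat.strong_induction_on with
    | _ a ih =>
      intro ha
      rcases lt_or_ge a j with h1 | h1
      · exact ⟨a, ha, h1, rfl⟩
      · obtain ⟨b, hb1, hb2, hb3⟩ := ih (a - j + i) (by omega) (by omega)
        refine ⟨b, hb1, hb2, ?_⟩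
        rw [← hb3, Function.iterate_add_apply, h, ← Function.iterate_add_apply,
          show a - j + j = a by omega]
  have hper : f^[j - i] (f^[n] x) = f^[n] x := by
    obtain ⟨b, hb⟩ : ∃ b, n = b + i := ⟨n - i, by omega⟩
    rw [← Function.iterate_add_apply, hb, show j - i + (b + i) = b + j by omega,
      Function.iterate_add_apply, ← h, ← Function.iterate_add_apply]
  refine ⟨n, hn.1, hn.2, ⟨j - i, by omega, hper⟩, fun a => ?_⟩
  rw [← Function.iterate_add_apply]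
  obtain ⟨b, hb1, hb2, hb3⟩ := hred (a + n) (by omega)
  rw [hb3]
  exact hmin b (Finset.mem_Ico.2 ⟨hb1, hb2⟩)

theorem unif_ae : ∀ᵐ ω ∂P 2, ∃ C : ℝ, ∀ D : ℤ, D % 2 = 1 → ∀ x : ℤ, ∃ k : ℕ,
    (k : ℝ) ≤ C * Real.log (2 + |(x : ℝ)| + |(D : ℝ)|) ∧
    |(((Tn (GD D) ω)^[k] x : ℤ) : ℝ)| ≤
      |(D : ℝ)| * Real.exp (C * Real.log (2 + Real.log |(D : ℝ)|) ^ 2) := by
  classical
  set ρ : ℝ := 0.975 with hρ
  have hρ0 : 0 < ρ := by norm_num
  have hρ1 : ρ < 1 := by norm_num
  have hlog : Real.log ρ < 0 := Real.log_neg hρ0 hρ1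
  set C₀ : ℝ := 5 / (-Real.log ρ) with hC₀
  have hC₀0 : 0 < C₀ := by
    apply div_pos (by norm_num)
    linarith
  have hC₀log : C₀ * Real.log ρ = -5 := by
    rw [hC₀]
    field_simp [hlog.ne]
  obtain ⟨B, hB0, hB⟩ := cyc_min (p := 2) (q := 3) (by norm_num) (by norm_num) (by norm_num) 1
  obtain ⟨K, hK0, hK⟩ := invert_log hB0 (C := 2 * C₀ + 1) (by linarith)
  set T : ℤ × ℤ → ℕ := fun q => ⌈C₀ * Real.log (2 + |(q.1 : ℝ)| + |(q.2 : ℝ)|)⌉₊ with hT
  have hTdecay : ∀ q : ℤ × ℤ, ρ ^ T q ≤ (2 + |(q.1 : ℝ)| + |(q.2 : ℝ)|) ^ (-5 : ℝ) := by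
    intro q
    rw [← hC₀log]
    exact rpow_decay hρ0 hρ1 (by positivity)
  -- the two families of exceptional events
  have h1 := bc (μ := P 2) (fun q : ℤ × ℤ => {ω | q.2 % 2 = 1 ∧
      ((sites (GD q.2) q.1 (word (GD q.2) ω q.1 (T q))).Nodup ∧
        ∀ s ∈ sites (GD q.2) q.1 (word (GD q.2) ω q.1 (T q)), 100 * |q.2| < |s|)})
    (fun q => (2 + |(q.1 : ℝ)| + |(q.2 : ℝ)|) ^ (-4 : ℝ)) summable_pairs (by
      rintro ⟨x, D⟩
      by_cases hD : D % 2 = 1
      swap
      · simp only [hD, false_and, Set.ofPred_false]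
        rw [measure_empty]
        exact zero_le
      refine (measure_mono (fun ω hω => hω.2)).trans ?_
      apply meas_le_real (GD D) x (T (x, D)) (fun w => ∀ s ∈ sites (GD D) x w, 100 * |D| < |s|)
      have hD0 : D ≠ 0 := by omega
      have h2 := good_sum (GD D) (VD D) (κ := 2 * ρ) (by positivity)
        (fun y => by linarith [VD_ge hD0 y]) (fun y => 100 * |D| < |y|)
        (fun y hy => by
          have := drift_VD hD y hy.le
          exact this) (T (x, D)) x
        (fun w => (sites (GD D) x w).Nodup ∧ ∀ s ∈ sites (GD D) x w, 100 * |D| < |s|)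
        (fun w hw => hw.2)
      have h3 : ((((wd 2 (T (x, D))).filter (fun w => (sites (GD D) x w).Nodup ∧
          ∀ s ∈ sites (GD D) x w, 100 * |D| < |s|)).card : ℕ) : ℝ) ≤
          ∑ w ∈ (wd 2 (T (x, D))).filter (fun w => (sites (GD D) x w).Nodup ∧
          ∀ s ∈ sites (GD D) x w, 100 * |D| < |s|), VD D (run (GD D) x w) := by
        rw [Finset.card_eq_sum_ones, Nat.cast_sum]
        apply Finset.sum_le_sum
        intro w _
        simpa using VD_ge hD0 _
      refine h3.trans (h2.trans ?_)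
      rw [mul_pow]
      push_cast
      have hX : (0 : ℝ) < 2 + |(x : ℝ)| + |(D : ℝ)| := by positivity
      have h4 : VD D x ≤ (2 + |(x : ℝ)| + |(D : ℝ)|) ^ (1 : ℝ) := by
        rw [Real.rpow_one]
        unfold VD
        rw [Real.sqrt_le_left hX.le]
        nlinarith [abs_nonneg (x : ℝ), abs_nonneg (D : ℝ)]
      have h5 : ρ ^ T (x, D) * VD D x ≤ (2 + |(x : ℝ)| + |(D : ℝ)|) ^ (-4 : ℝ) := by
        calc ρ ^ T (x, D) * VD D x ≤ (2 + |(x : ℝ)| + |(D : ℝ)|) ^ (-5 : ℝ) *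
              (2 + |(x : ℝ)| + |(D : ℝ)|) ^ (1 : ℝ) :=
            mul_le_mul (hTdecay (x, D)) h4 (by linarith [VD_ge hD0 x]) (by positivity)
          _ = _ := by
            rw [← Real.rpow_add hX]
            norm_num
      calc 2 ^ T (x, D) * ρ ^ T (x, D) * VD D x = (ρ ^ T (x, D) * VD D x) * 2 ^ T (x, D) := by ring
        _ ≤ _ := mul_le_mul_of_nonneg_right h5 (by positivity))
  have h2 := bc (μ := P 2) (fun q : ℤ × ℤ => {ω | (q.2 % 2 = 1 ∧ 100 * |q.2| < |q.1|) ∧
      LongMin (Tn (GD q.2) ω) q.1 (T q)})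
    (fun q => 40 * (2 + |(q.1 : ℝ)| + |(q.2 : ℝ)|) ^ (-4 : ℝ)) (summable_pairs.mul_left _) (by
      rintro ⟨x, D⟩
      by_cases hD : D % 2 = 1 ∧ 100 * |D| < |x|
      swap
      · have : {ω : ℤ → Fin 2 | (D % 2 = 1 ∧ 100 * |D| < |x|) ∧
          LongMin (Tn (GD D) ω) x (T (x, D))} = ∅ := by
          ext ω
          simp only [Set.mem_ofPred_eq, Set.mem_empty_iff_false, iff_false]
          exact fun h => hD h.1
        simp only at this ⊢
        rw [this, measure_empty]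
        exact zero_le
      obtain ⟨hD, hxD⟩ := hD
      have hD0 : D ≠ 0 := by omega
      refine (measure_mono (fun ω hω => hω.2)).trans ((longMin_le (GD D) (VD D) hρ0 hρ1
        (fun y => by linarith [VD_ge hD0 y]) x (fun y hy => ?_) _).trans ?_)
      · have := drift_VD hD y (by linarith)
        exact_mod_cast this
      · apply ENNReal.ofReal_le_ofReal
        have h3 : (1 - ρ)⁻¹ = 40 := by rw [hρ]; norm_num
        rw [h3, mul_comm]
        apply mul_le_mul_of_nonneg_left _ (by norm_num)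
        refine (hTdecay (x, D)).trans ?_
        apply Real.rpow_le_rpow_of_exponent_le _ (by norm_num)
        have := abs_nonneg (x : ℝ)
        have := abs_nonneg (D : ℝ)
        simp only
        linarith)
  have h3 : ∀ᵐ ω ∂P 2, ∀ D : ℤ, D % 2 = 1 → (∃ K : ℝ, ∀ x : ℤ, ∃ i j : ℕ, i < j ∧
      (j : ℝ) ≤ K * Real.log (2 + |(x : ℝ)|) ∧ (Tn (GD D) ω)^[i] x = (Tn (GD D) ω)^[j] x) ∧
      (Function.periodicPts (Tn (GD D) ω)).Finite := by
    rw [ae_all_iff]
    intro D
    by_cases hD : D % 2 = 1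
    swap
    · filter_upwards with ω h
      exact absurd h hD
    have hG := lin_tab (a := 3) (b := D) (by norm_num) hD
    have h4 := main_contracting _ (fun i => by
      fin_cases i <;> simp) hG (by
        rw [Fin.prod_univ_two]
        simp
        norm_num)
    have h5 := main_cycles (q := 3) (E := 1) _ (by norm_num) (by norm_num) (by norm_num)
      (fun i => by
        fin_cases i
        · exact ⟨0, by norm_num, by simp⟩
        · exact ⟨1, by norm_num, by simp⟩) (RR_ge _ _) hG (by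
        rw [Fin.prod_univ_two]
        simp
        norm_num)
    filter_upwards [h4, h5] with ω hω1 hω2 _
    exact ⟨hω1, hω2⟩
  filter_upwards [h1, h2, h3] with ω hω1 hω2 hω3
  -- exceptional `D`
  set 𝒟 : Set ℤ := Prod.snd '' ({q : ℤ × ℤ | q.2 % 2 = 1 ∧
      ((sites (GD q.2) q.1 (word (GD q.2) ω q.1 (T q))).Nodup ∧
        ∀ s ∈ sites (GD q.2) q.1 (word (GD q.2) ω q.1 (T q)), 100 * |q.2| < |s|)} ∪
      {q : ℤ × ℤ | (q.2 % 2 = 1 ∧ 100 * |q.2| < |q.1|) ∧
        LongMin (Tn (GD q.2) ω) q.1 (T q)}) with h𝒟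
  have h𝒟f : 𝒟.Finite := (hω1.union hω2).image _
  have hsing : ∀ D : ℤ, D % 2 = 1 → ∃ A : ℝ, 0 ≤ A ∧ ∀ x : ℤ, ∃ k : ℕ,
      (k : ℝ) ≤ A * Real.log (2 + |(x : ℝ)|) ∧ |(((Tn (GD D) ω)^[k] x : ℤ) : ℝ)| ≤ A := by
    intro D hD
    obtain ⟨⟨K', hK'⟩, hfin⟩ := hω3 D hD
    obtain ⟨M, hM⟩ := (hfin.image (fun y => |y|)).bddAbove
    refine ⟨max (max K' M) 0, le_max_right _ _, fun x => ?_⟩
    obtain ⟨i, j, hij, hj, hxx⟩ := hK' x
    have hl : 0 ≤ Real.log (2 + |(x : ℝ)|) := Real.log_nonneg (by linarith [abs_nonneg (x : ℝ)])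
    refine ⟨i, ?_, ?_⟩
    · have h4 : (i : ℝ) ≤ j := by exact_mod_cast hij.le
      have h5 : K' * Real.log (2 + |(x : ℝ)|) ≤ max (max K' M) 0 * Real.log (2 + |(x : ℝ)|) :=
        mul_le_mul_of_nonneg_right ((le_max_left _ _).trans (le_max_left _ _)) hl
      linarith
    · have h4 := hM ⟨_, mem_periodicPts_of_eq _ hij hxx, rfl⟩
      have h5 : |(((Tn (GD D) ω)^[i] x : ℤ) : ℝ)| ≤ (M : ℝ) := by exact_mod_cast h4
      exact h5.trans ((le_max_right _ _).trans (le_max_left _ _))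
  choose! A hA0 hA using hsing
  obtain ⟨A₁, hA₁⟩ := (h𝒟f.image A).bddAbove
  set l2 : ℝ := Real.log 2 with hl2
  have hl20 : 0 < l2 := Real.log_pos (by norm_num)
  set C : ℝ := (C₀ + K + 100 / l2 ^ 2) + (|A₁| + |A₁| / l2 ^ 2) with hC
  have hA₁0 : 0 ≤ |A₁| := abs_nonneg _
  have hA₁2 : 0 ≤ |A₁| / l2 ^ 2 := by positivity
  have h100 : 0 ≤ 100 / l2 ^ 2 := by positivity
  have hCC₀ : C₀ ≤ C := by rw [hC]; linarith
  have hCK : K ≤ C := by rw [hC]; linarith
  have hC100 : 100 / l2 ^ 2 ≤ C := by rw [hC]; linarith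
  have hCA : |A₁| ≤ C := by rw [hC]; linarith
  have hCA2 : |A₁| / l2 ^ 2 ≤ C := by rw [hC]; linarith
  have hC0 : 0 ≤ C := by linarith
  refine ⟨C, fun D hD x => ?_⟩
  have hD0 : D ≠ 0 := by omega
  have hD1 : (1 : ℝ) ≤ |(D : ℝ)| := by exact_mod_cast Int.one_le_abs hD0
  have hDpos : (0 : ℝ) < |(D : ℝ)| := by linarith
  set L : ℝ := Real.log |(D : ℝ)| with hL
  have hL0 : 0 ≤ L := Real.log_nonneg hD1
  set M : ℝ := Real.log (2 + L) with hM
  have hMl : l2 ≤ M := Real.log_le_log (by norm_num) (by linarith)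
  have hM2 : l2 ^ 2 ≤ M ^ 2 := pow_le_pow_left₀ hl20.le hMl 2
  have hbig : ∀ a : ℝ, 0 ≤ a → a / l2 ^ 2 ≤ C → a ≤ Real.exp (C * M ^ 2) := by
    intro a ha0 ha
    have h4 : a ≤ C * M ^ 2 := by
      calc a = a / l2 ^ 2 * l2 ^ 2 := by field_simp
        _ ≤ C * M ^ 2 := mul_le_mul ha hM2 (by positivity) hC0
    have := Real.add_one_le_exp (C * M ^ 2)
    linarith
  by_cases hDe : D ∈ 𝒟
  · obtain ⟨k, hk1, hk2⟩ := hA D hD x
    have hAD : A D ≤ |A₁| := (hA₁ ⟨D, hDe, rfl⟩).trans (le_abs_self _)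
    refine ⟨k, hk1.trans ?_, hk2.trans (hAD.trans ?_)⟩
    · have h4 : Real.log (2 + |(x : ℝ)|) ≤ Real.log (2 + |(x : ℝ)| + |(D : ℝ)|) :=
        Real.log_le_log (by positivity) (by linarith)
      have h5 : 0 ≤ Real.log (2 + |(x : ℝ)|) := Real.log_nonneg (by linarith [abs_nonneg (x : ℝ)])
      exact mul_le_mul (hAD.trans hCA) h4 h5 hC0
    · have h4 := hbig |A₁| hA₁0 hCA2
      calc |A₁| ≤ Real.exp (C * M ^ 2) := h4
        _ ≤ |(D : ℝ)| * Real.exp (C * M ^ 2) :=
            le_mul_of_one_le_left (Real.exp_pos _).le hD1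
  · have hne1 : ∀ y : ℤ, ¬ (((sites (GD D) y (word (GD D) ω y (T (y, D)))).Nodup ∧
        ∀ s ∈ sites (GD D) y (word (GD D) ω y (T (y, D))), 100 * |D| < |s|)) := by
      intro y hy
      apply hDe
      exact ⟨(y, D), Or.inl ⟨hD, hy⟩, rfl⟩
    have hne2 : ∀ y : ℤ, 100 * |D| < |y| → ¬ LongMin (Tn (GD D) ω) y (T (y, D)) := by
      intro y hy1 hy2
      apply hDe
      exact ⟨(y, D), Or.inr ⟨⟨hD, hy1⟩, hy2⟩, rfl⟩
    set f := Tn (GD D) ω with hf
    have hlx : 0 ≤ Real.log (2 + |(x : ℝ)| + |(D : ℝ)|) :=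
      Real.log_nonneg (by linarith [abs_nonneg (x : ℝ)])
    have htime : ∀ a : ℕ, a < T (x, D) → (a : ℝ) ≤ C * Real.log (2 + |(x : ℝ)| + |(D : ℝ)|) := by
      intro a ha
      have h4 := (Nat.lt_ceil.1 ha).le
      exact h4.trans (mul_le_mul_of_nonneg_right hCC₀ hlx)
    by_cases hlow : ∃ a, a < T (x, D) ∧ |f^[a] x| ≤ 100 * |D|
    · obtain ⟨a, ha1, ha2⟩ := hlow
      refine ⟨a, htime a ha1, ?_⟩
      have h4 : |((f^[a] x : ℤ) : ℝ)| ≤ 100 * |(D : ℝ)| := by exact_mod_cast ha2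
      have h5 := hbig 100 (by norm_num) hC100
      calc |((f^[a] x : ℤ) : ℝ)| ≤ 100 * |(D : ℝ)| := h4
        _ = |(D : ℝ)| * 100 := by ring
        _ ≤ _ := mul_le_mul_of_nonneg_left h5 hDpos.le
    · push Not at hlow
      have hgood : ∀ s ∈ sites (GD D) x (word (GD D) ω x (T (x, D))), 100 * |D| < |s| := by
        intro s hs
        rw [sites_word, List.mem_map] at hs
        obtain ⟨a, ha, rfl⟩ := hs
        exact hlow a (List.mem_range.1 ha)
      have hnd : ¬ (sites (GD D) x (word (GD D) ω x (T (x, D)))).Nodup :=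
        fun h => hne1 x ⟨h, hgood⟩
      obtain ⟨i, j, hij, hjT, hxx⟩ := exists_of_not_nodup _ _ _ _ hnd
      obtain ⟨n, hn1, hn2, hper, hmin⟩ := min_point f hij hxx
      refine ⟨n, htime n (by omega), ?_⟩
      set y := f^[n] x with hy
      have hyD : 100 * |D| < |y| := hlow n (by omega)
      have hyR : 100 * |(D : ℝ)| < |(y : ℝ)| := by exact_mod_cast hyD
      have hP0 := Function.minimalPeriod_pos_of_mem_periodicPts hper
      set p := Function.minimalPeriod f y with hp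
      have hpper : f^[p] y = y := Function.isPeriodicPt_minimalPeriod f y
      have hp1 : (1 : ℝ) ≤ p := by exact_mod_cast hP0
      have hplen : (p : ℝ) ≤ C₀ * Real.log (2 + |(y : ℝ)| + |(D : ℝ)|) := by
        by_contra hc
        rw [not_le] at hc
        apply hne2 y hyD
        refine ⟨p, Nat.ceil_le.2 hc.le, hP0, ?_, hpper, hmin⟩
        intro a ha b hb hab
        exact Function.iterate_injOn_Iio_minimalPeriod ha hb hab
      have hrec := rec_GD hD
      choose e r hre hE hr using hrec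
      have h6 := hB (fun j => f^[j] y) (fun j => e (f^[j] y) (ω (f^[j] y)))
        (fun j => r (f^[j] y) (ω (f^[j] y))) (3 + |(D : ℝ)|) p (by linarith) hP0
        (fun j => ⟨by
          rw [Function.iterate_succ_apply']
          exact hre (f^[j] y) (ω (f^[j] y)), hE _ _, hr _ _⟩) hpper (fun j => hmin j)
      simp only [Function.iterate_zero, id_eq] at h6
      -- `Z = log (|y| / |D|)`
      have hypos : (0 : ℝ) < |(y : ℝ)| := by linarith
      set Z : ℝ := Real.log |(y : ℝ)| - L with hZ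
      have hZ0 : 0 ≤ Z := by
        rw [hZ, hL]
        have := Real.log_le_log hDpos (show |(D : ℝ)| ≤ |(y : ℝ)| by linarith)
        linarith
      have h7 : Real.log (3 + |(D : ℝ)|) ≤ 2 + L := by
        have h8 : 3 + |(D : ℝ)| ≤ 4 * |(D : ℝ)| := by linarith
        have h9 : Real.log (3 + |(D : ℝ)|) ≤ Real.log 4 + L := by
          rw [hL, ← Real.log_mul (by norm_num) hDpos.ne']
          exact Real.log_le_log (by linarith) h8
        have h10 : Real.log 4 ≤ 2 := by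
          have : Real.log 4 = 2 * Real.log 2 := by
            rw [show (4 : ℝ) = 2 ^ 2 by norm_num, Real.log_pow]; norm_num
          rw [this]
          have := Real.log_two_lt_d9
          linarith
        linarith
      have h8 : Real.log |(y : ℝ)| ≤ Real.log (|(y : ℝ)| + (3 + |(D : ℝ)|)) :=
        Real.log_le_log hypos (by linarith)
      have h9 : Real.log (2 + |(y : ℝ)| + |(D : ℝ)|) ≤ Z + 1 + L := by
        have h10 : 2 + |(y : ℝ)| + |(D : ℝ)| ≤ 2 * |(y : ℝ)| := by linarith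
        have h11 : Real.log (2 + |(y : ℝ)| + |(D : ℝ)|) ≤ Real.log 2 + Real.log |(y : ℝ)| := by
          rw [← Real.log_mul (by norm_num) hypos.ne']
          exact Real.log_le_log (by positivity) h10
        have := Real.log_two_lt_d9
        rw [hZ]
        linarith
      have h10 : (p : ℝ) ≤ (2 * C₀ + 1) * (Z + 1 + L) := by
        have h11 : C₀ * Real.log (2 + |(y : ℝ)| + |(D : ℝ)|) ≤ C₀ * (Z + 1 + L) :=
          mul_le_mul_of_nonneg_left h9 hC₀0.le
        nlinarith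
      have h11 : Z ≤ 2 + B * (1 + Real.log ((2 * C₀ + 1) * (Z + 1 + L))) ^ 2 := by
        have h12 : Real.log p ≤ Real.log ((2 * C₀ + 1) * (Z + 1 + L)) :=
          Real.log_le_log (by linarith) h10
        have h13 : 0 ≤ Real.log p := Real.log_nonneg hp1
        have h14 : (1 + Real.log p) ^ 2 ≤
            (1 + Real.log ((2 * C₀ + 1) * (Z + 1 + L))) ^ 2 :=
          pow_le_pow_left₀ (by linarith) (by linarith) 2
        have h15 := mul_le_mul_of_nonneg_left h14 hB0.le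
        rw [hZ] at *
        linarith
      have h12 := hK Z L hZ0 hL0 h11
      have h13 : Real.log |(y : ℝ)| ≤ L + C * M ^ 2 := by
        have h14 : K * M ^ 2 ≤ C * M ^ 2 := mul_le_mul_of_nonneg_right hCK (by positivity)
        have h15 : Z = Real.log |(y : ℝ)| - L := hZ
        linarith
      calc |(y : ℝ)| = Real.exp (Real.log |(y : ℝ)|) := (Real.exp_log hypos).symm
        _ ≤ Real.exp (L + C * M ^ 2) := Real.exp_le_exp.2 h13
        _ = _ := by rw [Real.exp_add, hL, Real.exp_log hDpos]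

end Pool.Agent.Q205.RP
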