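import Mathlib
import Pool.Agent.Q205.RP.GC

/-!
# Noise only on a sparse set of scales
-/

set_option autoImplicit false

open MeasureTheory Finset Filter Topology

namespace Pool.Agent.Q205.RP

open Classical in
/-- the `3x+1` map, with its argument perturbed at the places of `W` only -/
noncomputable def GW (W : Set ℤ) (x : ℤ) (c : Fin 2) : ℤ :=
  if x ∈ W then tab 3 1 (x + ((c : ℕ) : ℤ)) else tab 3 1 x

theorem GW_le (W : Set ℤ) (x : ℤ) (c : Fin 2) : 2 * |GW W x c| ≤ 3 * |x| + 4 := by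
  have h : ∀ y : ℤ, 2 * |tab 3 1 y| ≤ 3 * |y| + 1 := by
    intro y
    unfold tab
    split_ifs with h
    · rcases abs_cases (y / 2) with ⟨h1, _⟩ | ⟨h1, _⟩ <;>
        rcases abs_cases y with ⟨h2, _⟩ | ⟨h2, _⟩ <;> rw [h1, h2] <;> omega
    · rcases abs_cases ((3 * y + 1) / 2) with ⟨h1, _⟩ | ⟨h1, _⟩ <;>
        rcases abs_cases y with ⟨h2, _⟩ | ⟨h2, _⟩ <;> rw [h1, h2] <;> omega
  have hc0 : (0 : ℤ) ≤ ((c : ℕ) : ℤ) := by positivity
  have hc1 : ((c : ℕ) : ℤ) ≤ 1 := by have := c.2; omega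
  unfold GW
  split_ifs with hx
  · have h1 := h (x + ((c : ℕ) : ℤ))
    have h2 := abs_add_le x ((c : ℕ) : ℤ)
    rw [abs_of_nonneg hc0] at h2
    linarith
  · have h1 := h x
    linarith

/-- the trajectory of `y` stays in `[X, H]` until it exceeds `H` -/
def Crosses (f : ℤ → ℤ) (X H : ℝ) (y : ℤ) : Prop :=
  ∃ n, (∀ i < n, X ≤ |((f^[i] y : ℤ) : ℝ)| ∧ |((f^[i] y : ℤ) : ℝ)| ≤ H) ∧ H < |((f^[n] y : ℤ) : ℝ)|

theorem sub_iterate_inj (f : ℤ → ℤ) (H : ℝ) (y : ℤ) (n : ℕ)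
    (h1 : ∀ i < n, |((f^[i] y : ℤ) : ℝ)| ≤ H) (h2 : H < |((f^[n] y : ℤ) : ℝ)|) :
    ∀ a < n, ∀ b < n, f^[a] y = f^[b] y → a = b := by
  have key : ∀ a b : ℕ, a < b → b < n → f^[a] y ≠ f^[b] y := by
    intro a b hab hb h
    -- the trajectory is periodic from `a` on
    have hred : ∀ m, ∃ c < b, f^[m] y = f^[c] y := by
      intro m
      induction m using Nat.strong_induction_on with
      | _ m ih =>
        rcases lt_or_ge m b with h3 | h3
        · exact ⟨m, h3, rfl⟩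
        · obtain ⟨c, hc, hcm⟩ := ih (m - b + a) (by omega)
          refine ⟨c, hc, ?_⟩
          rw [← hcm, Function.iterate_add_apply, h, ← Function.iterate_add_apply,
            show m - b + b = m by omega]
    obtain ⟨c, hc, hcn⟩ := hred n
    have := h1 c (by omega)
    rw [hcn] at h2
    linarith
  intro a ha b hb hab
  by_contra hne
  rcases lt_or_gt_of_ne hne with h3 | h3
  · exact key a b h3 hb hab
  · exact key b a h3 ha hab.symm

/-- the probability of crossing from one point -/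
theorem cross_le {θ κ : ℝ} (hθ : 0 < θ) (hκ0 : 0 < κ) (hκ : κ < 2) (N : ℕ)
    (h : ∀ x : ℤ, (N : ℤ) < |x| → ∑ c : Fin 2, VV θ (tab 3 1 (x + ((c : ℕ) : ℤ))) ≤ κ * VV θ x)
    (W : Set ℤ) (X H : ℝ) (hX : (N : ℝ) < X) (hH : 0 ≤ H)
    (hW : ∀ x : ℤ, X ≤ |(x : ℝ)| → |(x : ℝ)| ≤ H → x ∈ W) (y : ℤ) :
    P 2 {ω | Crosses (Tn (GW W) ω) X H y} ≤
      ENNReal.ofReal ((1 - κ / 2)⁻¹ * (VV θ y * (1 + H) ^ (-θ))) := by
  classical
  set G := GW W with hG
  set Q : List (Fin 2) → Prop := fun w => (∀ s ∈ sites G y w, X ≤ |(s : ℝ)| ∧ |(s : ℝ)| ≤ H) ∧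
    H < |(run G y w : ℝ)| with hQ
  have hcover : {ω | Crosses (Tn G ω) X H y} ⊆
      ⋃ n : ℕ, {ω | (sites G y (word G ω y n)).Nodup ∧ Q (word G ω y n)} := by
    rintro ω ⟨n, h1, h2⟩
    rw [Set.mem_iUnion]
    refine ⟨n, (nodup_iff G ω y n).2 (sub_iterate_inj _ H y n (fun i hi => (h1 i hi).2) h2), ?_, ?_⟩
    · intro s hs
      rw [sites_word, List.mem_map] at hs
      obtain ⟨a, ha, rfl⟩ := hs
      exact h1 a (List.mem_range.1 ha)
    · rw [run_word]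
      exact h2
  refine (measure_mono hcover).trans ((measure_iUnion_le _).trans ?_)
  have hV0 := VV_pos θ y
  have hHθ : (0 : ℝ) < (1 + H) ^ (-θ) := by positivity
  have hterm : ∀ n : ℕ, P 2 {ω | (sites G y (word G ω y n)).Nodup ∧ Q (word G ω y n)} ≤
      ENNReal.ofReal ((κ / 2) ^ n * (VV θ y * (1 + H) ^ (-θ))) := by
    intro n
    apply meas_le_real
    have h1 := good_sum G (VV θ) hκ0 (VV_pos θ) (fun s => X ≤ |(s : ℝ)| ∧ |(s : ℝ)| ≤ H)
      (fun s hs => by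
        have hsW : s ∈ W := hW s hs.1 hs.2
        have h2 : ∀ c : Fin 2, G s c = tab 3 1 (s + ((c : ℕ) : ℤ)) := fun c => by
          rw [hG]
          unfold GW
          rw [if_pos hsW]
        simp only [h2]
        apply h
        have h3 : ((N : ℤ) : ℝ) < ((|s| : ℤ) : ℝ) := by
          push_cast
          linarith [hs.1]
        exact_mod_cast h3) n y
      (fun w => (sites G y w).Nodup ∧ Q w) (fun w hw => hw.2.1)
    have h2 : ((((wd 2 n).filter (fun w => (sites G y w).Nodup ∧ Q w)).card : ℕ) : ℝ) *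
        (1 + H) ^ θ ≤
        ∑ w ∈ (wd 2 n).filter (fun w => (sites G y w).Nodup ∧ Q w), VV θ (run G y w) := by
      rw [← nsmul_eq_mul, ← Finset.sum_const]
      apply Finset.sum_le_sum
      intro w hw
      unfold VV
      apply Real.rpow_le_rpow (by positivity) _ hθ.le
      linarith [(mem_filter.1 hw).2.2.2]
    have h3 : (1 + H) ^ (-θ) * (1 + H) ^ θ = 1 := by
      rw [← Real.rpow_add (by positivity)]
      simp
    have h4 : ((((wd 2 n).filter (fun w => (sites G y w).Nodup ∧ Q w)).card : ℕ) : ℝ) =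
        ((((wd 2 n).filter (fun w => (sites G y w).Nodup ∧ Q w)).card : ℕ) : ℝ) * (1 + H) ^ θ *
          (1 + H) ^ (-θ) := by
      rw [mul_assoc, mul_comm ((1 + H) ^ θ), h3, mul_one]
    rw [h4]
    calc _ ≤ κ ^ n * VV θ y * (1 + H) ^ (-θ) :=
          mul_le_mul_of_nonneg_right (h2.trans h1) hHθ.le
      _ = _ := by
          rw [div_pow]
          push_cast
          field_simp
  refine (ENNReal.tsum_le_tsum hterm).trans (le_of_eq ?_)
  have hsum : Summable (fun n : ℕ => (κ / 2) ^ n * (VV θ y * (1 + H) ^ (-θ))) :=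
    (summable_geometric_of_lt_one (by positivity) (by linarith)).mul_right _
  rw [← ENNReal.ofReal_tsum_of_nonneg (fun n => by positivity) hsum, tsum_mul_right,
    tsum_geometric_of_lt_one (by positivity) (by linarith)]

/-- the probability that the window is crossed at all -/
theorem window_le {θ κ : ℝ} (hθ : 0 < θ) (hκ0 : 0 < κ) (hκ : κ < 2) (N : ℕ)
    (h : ∀ x : ℤ, (N : ℤ) < |x| → ∑ c : Fin 2, VV θ (tab 3 1 (x + ((c : ℕ) : ℤ))) ≤ κ * VV θ x)
    (W : Set ℤ) (X : ℕ) (H : ℝ) (hX : N < X) (hH : 0 < H)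
    (hW : ∀ x : ℤ, (X : ℝ) ≤ |(x : ℝ)| → |(x : ℝ)| ≤ H → x ∈ W) :
    P 2 {ω | ∃ y : ℤ, |y| ≤ 2 * X ∧ Crosses (Tn (GW W) ω) X H y} ≤
      ENNReal.ofReal ((1 - κ / 2)⁻¹ * (5 * X * (3 * (X : ℝ)) ^ θ * H ^ (-θ))) := by
  have hX1 : (1 : ℝ) ≤ X := by exact_mod_cast (show 1 ≤ X by omega)
  have hκ' : 0 < (1 - κ / 2)⁻¹ := inv_pos.2 (by linarith)
  have hcover : {ω | ∃ y : ℤ, |y| ≤ 2 * X ∧ Crosses (Tn (GW W) ω) X H y} ⊆
      ⋃ y ∈ ball (2 * X), {ω | Crosses (Tn (GW W) ω) X H y} := by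
    rintro ω ⟨y, h1, h2⟩
    simp only [Set.mem_iUnion]
    refine ⟨y, mem_ball.2 (by push_cast; exact h1), h2⟩
  refine (measure_mono hcover).trans ((measure_biUnion_finset_le _ _).trans ?_)
  have hcard : (ball (2 * X)).card = 4 * X + 1 := by
    rw [ball, Int.card_Icc]
    push_cast
    omega
  have hterm : ∀ y ∈ ball (2 * X), P 2 {ω | Crosses (Tn (GW W) ω) X H y} ≤
      ENNReal.ofReal ((1 - κ / 2)⁻¹ * ((3 * (X : ℝ)) ^ θ * H ^ (-θ))) := by
    intro y hy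
    refine (cross_le hθ hκ0 hκ N h W X H (by exact_mod_cast hX) hH.le hW y).trans ?_
    apply ENNReal.ofReal_le_ofReal
    apply mul_le_mul_of_nonneg_left _ hκ'.le
    apply mul_le_mul
    · unfold VV
      apply Real.rpow_le_rpow (by positivity) _ hθ.le
      rw [mem_ball] at hy
      have : ((|y| : ℤ) : ℝ) ≤ (((2 * X : ℕ) : ℤ) : ℝ) := by exact_mod_cast hy
      push_cast at this
      linarith
    · exact Real.rpow_le_rpow_of_nonpos hH (by linarith) (by linarith)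
    · positivity
    · positivity
  refine (Finset.sum_le_sum hterm).trans ?_
  rw [Finset.sum_const, hcard, nsmul_eq_mul, ← ENNReal.ofReal_natCast, ← ENNReal.ofReal_mul
    (Nat.cast_nonneg _)]
  apply ENNReal.ofReal_le_ofReal
  have h1 : ((4 * X + 1 : ℕ) : ℝ) ≤ 5 * X := by push_cast; linarith
  have h2 : 0 ≤ (1 - κ / 2)⁻¹ * ((3 * (X : ℝ)) ^ θ * H ^ (-θ)) := by positivity
  calc ((4 * X + 1 : ℕ) : ℝ) * ((1 - κ / 2)⁻¹ * ((3 * (X : ℝ)) ^ θ * H ^ (-θ)))
      ≤ 5 * X * ((1 - κ / 2)⁻¹ * ((3 * (X : ℝ)) ^ θ * H ^ (-θ))) :=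
        mul_le_mul_of_nonneg_right h1 h2
    _ = _ := by ring

/-- an uncrossed window confines all trajectories that start below it -/
theorem confined (W : Set ℤ) (ω : ℤ → Fin 2) (X : ℕ) (H : ℝ) (hX : 4 ≤ X) (hH : 2 * (X : ℝ) ≤ H)
    (h : ¬ ∃ y : ℤ, |y| ≤ 2 * X ∧ Crosses (Tn (GW W) ω) X H y) (x : ℤ) (hx : |x| < X) (n : ℕ) :
    |(((Tn (GW W) ω)^[n] x : ℤ) : ℝ)| ≤ H := by
  classical
  by_contra hcon
  rw [not_le] at hcon
  set f := Tn (GW W) ω with hf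
  have hex : ∃ n, H < |((f^[n] x : ℤ) : ℝ)| := ⟨n, hcon⟩
  set m := Nat.find hex with hm
  have hmH : H < |((f^[m] x : ℤ) : ℝ)| := Nat.find_spec hex
  have hmin : ∀ i < m, |((f^[i] x : ℤ) : ℝ)| ≤ H := fun i hi => by
    have := Nat.find_min hex hi
    rwa [not_lt] at this
  have hm0 : 0 < m := by
    rcases Nat.eq_zero_or_pos m with h0 | h0
    · rw [h0] at hmH
      simp only [Function.iterate_zero, id_eq] at hmH
      have : ((|x| : ℤ) : ℝ) < ((X : ℤ) : ℝ) := by exact_mod_cast hx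
      push_cast at this
      linarith
    · exact h0
  -- the last time below `X`
  obtain ⟨l, hl1, hl2, hl3⟩ : ∃ l, l < m ∧ |f^[l] x| < X ∧ ∀ i, l < i → i < m → (X : ℤ) ≤ |f^[i] x| := by
    have hne : ((Finset.range m).filter (fun l => |f^[l] x| < X)).Nonempty :=
      ⟨0, by simp [hm0, hx]⟩
    obtain ⟨l, hl, hlmax⟩ := Finset.exists_max_image _ id hne
    rw [mem_filter, Finset.mem_range] at hl
    refine ⟨l, hl.1, hl.2, fun i hi1 hi2 => ?_⟩
    by_contra hc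
    rw [not_le] at hc
    have := hlmax i (by rw [mem_filter, Finset.mem_range]; exact ⟨hi2, hc⟩)
    simp only [id] at this
    omega
  have hstep : 2 * |f^[l + 1] x| ≤ 3 * |f^[l] x| + 4 := by
    rw [Function.iterate_succ_apply']
    exact GW_le W _ _
  have hy2 : |f^[l + 1] x| ≤ 2 * X := by
    have : (X : ℤ) ≥ 4 := by exact_mod_cast hX
    omega
  have hlm : l + 1 < m := by
    by_contra hc
    have : l + 1 = m := by omega
    rw [this] at hy2
    have h1 : ((|f^[m] x| : ℤ) : ℝ) ≤ ((2 * X : ℤ) : ℝ) := by exact_mod_cast hy2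
    push_cast at h1
    linarith
  apply h
  refine ⟨f^[l + 1] x, hy2, m - (l + 1), fun i hi => ?_, ?_⟩
  · rw [← Function.iterate_add_apply]
    refine ⟨?_, hmin _ (by omega)⟩
    have h1 := hl3 (i + (l + 1)) (by omega) (by omega)
    have h2 : ((X : ℤ) : ℝ) ≤ ((|f^[i + (l + 1)] x| : ℤ) : ℝ) := by exact_mod_cast h1
    push_cast at h2
    exact h2
  · rw [← Function.iterate_add_apply, show m - (l + 1) + (l + 1) = m by omega]
    exact hmH

/-- **No divergent trajectories, with noise on windows only.** -/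
theorem window_ae (ε : ℝ) (hε : 0 < ε) (W : Set ℤ)
    (hW : ∀ M : ℕ, ∃ X : ℕ, M ≤ X ∧ ∀ x : ℤ, (X : ℝ) ≤ |(x : ℝ)| →
      |(x : ℝ)| ≤ (X : ℝ) ^ (2 + ε) → x ∈ W) :
    ∀ᵐ ω ∂P 2, ∀ x : ℤ, ∃ H : ℝ, ∀ n : ℕ, |(((Tn (GW W) ω)^[n] x : ℤ) : ℝ)| ≤ H := by
  classical
  -- the exponent
  obtain ⟨θ, hθ1, hθ2⟩ : ∃ θ : ℝ, 1 / (1 + ε) < θ ∧ θ < 1 :=
    exists_between (by rw [div_lt_one (by linarith)]; linarith)
  have hθ0 : 0 < θ := lt_trans (by positivity) hθ1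
  have hθε : 0 < (1 + ε) * θ - 1 := by
    rw [div_lt_iff₀ (by linarith)] at hθ1
    linarith
  -- the sum of the two powers is below 2
  have hconc : ∑ i : Fin 2, (|((![1, 3] : Fin 2 → ℤ) i : ℝ)| / 2) ^ θ < 2 := by
    rw [Fin.sum_univ_two]
    have e0 : |((![1, 3] : Fin 2 → ℤ) 0 : ℝ)| / 2 = 1 / 2 := by simp
    have e1 : |((![1, 3] : Fin 2 → ℤ) 1 : ℝ)| / 2 = 3 / 2 := by simp
    rw [e0, e1]
    have hsc := Real.strictConcaveOn_rpow hθ0 hθ2
    have h1 := hsc.2 (show (1 / 2 : ℝ) ∈ Set.Ici 0 by simp) (show (3 / 2 : ℝ) ∈ Set.Ici 0 by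
      norm_num [Set.mem_Ici]) (by norm_num) (show (0 : ℝ) < 1 / 2 by norm_num)
      (show (0 : ℝ) < 1 / 2 by norm_num) (by norm_num)
    simp only [smul_eq_mul] at h1
    norm_num at h1 ⊢
    linarith
  obtain ⟨κ, hκ1, hκ2⟩ := exists_between hconc
  have hκ0 : 0 < κ := lt_of_le_of_lt (Finset.sum_nonneg (fun i _ => by positivity)) hκ1
  have hG := lin_tab (a := 3) (b := 1) (by norm_num) (by norm_num)
  obtain ⟨N, hN⟩ := drift _ _ _ (slopes_of_lin (by norm_num) hG) (fun i => by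
    fin_cases i <;> simp) θ κ (by exact_mod_cast hκ1)
  -- the probabilities tend to zero
  have hlim : Tendsto (fun X : ℕ => (1 - κ / 2)⁻¹ * (5 * (3 : ℝ) ^ θ) *
      ((X : ℝ) ^ (-((1 + ε) * θ - 1)))) atTop (𝓝 ((1 - κ / 2)⁻¹ * (5 * (3 : ℝ) ^ θ) * 0)) := by
    apply Tendsto.const_mul
    exact (tendsto_rpow_neg_atTop hθε).comp tendsto_natCast_atTop_atTop
  rw [mul_zero] at hlim
  have hchoose : ∀ j : ℕ, ∃ X : ℕ, j ≤ X ∧ 4 ≤ X ∧
      P 2 {ω | ∃ y : ℤ, |y| ≤ 2 * X ∧ Crosses (Tn (GW W) ω) X ((X : ℝ) ^ (2 + ε)) y} ≤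
        ENNReal.ofReal ((1 / 2 : ℝ) ^ j) := by
    intro j
    have h1 := hlim.eventually (gt_mem_nhds (show (0 : ℝ) < (1 / 2) ^ j by positivity))
    obtain ⟨M, hM⟩ := eventually_atTop.1 h1
    obtain ⟨X, hX1, hX2⟩ := hW (max M (max j (max 4 (N + 1))))
    have hXM : M ≤ X := (le_max_left _ _).trans hX1
    have hXj : j ≤ X := (le_max_left _ _).trans ((le_max_right _ _).trans hX1)
    have hX4 : 4 ≤ X := (le_max_left _ _).trans ((le_max_right _ _).trans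
      ((le_max_right _ _).trans hX1))
    have hXN : N + 1 ≤ X := (le_max_right _ _).trans ((le_max_right _ _).trans
      ((le_max_right _ _).trans hX1))
    have hX0 : (0 : ℝ) < X := by exact_mod_cast (show 0 < X by omega)
    refine ⟨X, hXj, hX4, ?_⟩
    refine (window_le hθ0 hκ0 hκ2 N hN W X _ (by omega) (by positivity) hX2).trans ?_
    apply ENNReal.ofReal_le_ofReal
    refine le_trans (le_of_eq ?_) (hM X hXM).le
    rw [Real.mul_rpow (by norm_num) hX0.le, ← Real.rpow_mul hX0.le]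
    have h2 : (X : ℝ) * ((X : ℝ) ^ θ * (X : ℝ) ^ ((2 + ε) * -θ)) =
        (X : ℝ) ^ (-((1 + ε) * θ - 1)) := by
      nth_rewrite 1 [← Real.rpow_one (X : ℝ)]
      rw [← Real.rpow_add hX0, ← Real.rpow_add hX0]
      congr 1
      ring
    rw [← h2]
    ring
  choose X hXj hX4 hXP using hchoose
  have hbc := bc (μ := P 2) (fun j : ℕ => {ω | ∃ y : ℤ, |y| ≤ 2 * (X j : ℤ) ∧
    Crosses (Tn (GW W) ω) (X j) ((X j : ℝ) ^ (2 + ε)) y}) (fun j => (1 / 2 : ℝ) ^ j)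
    (summable_geometric_of_lt_one (by norm_num) (by norm_num)) hXP
  filter_upwards [hbc] with ω hω x
  obtain ⟨J, hJ⟩ := hω.bddAbove
  set j := max (J + 1) (x.natAbs + 1) with hj
  have hjJ : J < j := lt_of_lt_of_le (Nat.lt_succ_self J) (le_max_left _ _)
  have hnot : ¬ ∃ y : ℤ, |y| ≤ 2 * (X j : ℤ) ∧
      Crosses (Tn (GW W) ω) (X j) ((X j : ℝ) ^ (2 + ε)) y := by
    intro hc
    exact absurd (hJ hc) (not_le.2 hjJ)
  have hXx : |x| < X j := by
    have h1 : x.natAbs + 1 ≤ j := le_max_right _ _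
    have h2 := hXj j
    rw [Int.abs_eq_natAbs]
    exact_mod_cast (by omega : x.natAbs < X j)
  refine ⟨(X j : ℝ) ^ (2 + ε), confined W ω (X j) _ (hX4 j) ?_ hnot x hXx⟩
  have hX4' : (4 : ℝ) ≤ X j := by exact_mod_cast hX4 j
  have h1 : (X j : ℝ) ^ (2 : ℝ) ≤ (X j : ℝ) ^ (2 + ε) :=
    Real.rpow_le_rpow_of_exponent_le (by linarith) (by linarith)
  have h2 : (X j : ℝ) ^ (2 : ℝ) = (X j : ℝ) ^ 2 := by
    rw [← Real.rpow_natCast]
    norm_num
  rw [h2] at h1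
  nlinarith

end Pool.Agent.Q205.RP
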