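import Mathlib
import Pool.Agent.Q205.RP.Window

/-!
# Noise only on a sparse set of scales: generalized Collatz maps
-/

set_option autoImplicit false

open MeasureTheory Finset Filter Topology

namespace Pool.Agent.Q205.RP

variable {d : ℕ}

open Classical in
/-- the map `T`, with its argument perturbed at the places of `W` only -/
noncomputable def GWT (W : Set ℤ) (T : ℤ → ℤ) (x : ℤ) (c : Fin d) : ℤ :=
  if x ∈ W then T (x + ((c : ℕ) : ℤ)) else T x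

theorem GWT_le [NeZero d] {m : Fin d → ℤ} {R : ℝ} {T : ℤ → ℤ}
    (hG : Lin (fun (x : ℤ) (c : Fin d) => T (x + ((c : ℕ) : ℤ))) d m R) (W : Set ℤ)
    (x : ℤ) (c : Fin d) :
    |((GWT W T x c : ℤ) : ℝ)| ≤ (∑ i, |(m i : ℝ)|) * |(x : ℝ)| + R := by
  have hd : (1 : ℝ) ≤ d := by
    have := NeZero.pos d
    exact_mod_cast this
  have key : ∀ a : Fin d, |((T (x + ((a : ℕ) : ℤ)) : ℤ) : ℝ)| ≤
      (∑ i, |(m i : ℝ)|) * |(x : ℝ)| + R := by
    intro a
    obtain ⟨σ, hσ⟩ := hG x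
    obtain ⟨r, h1, h2⟩ := hσ a
    have h3 : (d : ℝ) * ((T (x + ((a : ℕ) : ℤ)) : ℤ) : ℝ) = m (σ a) * x + r := by
      exact_mod_cast h1
    have h4 : |((T (x + ((a : ℕ) : ℤ)) : ℤ) : ℝ)| ≤ d * |((T (x + ((a : ℕ) : ℤ)) : ℤ) : ℝ)| :=
      le_mul_of_one_le_left (abs_nonneg _) hd
    have h5 : (d : ℝ) * |((T (x + ((a : ℕ) : ℤ)) : ℤ) : ℝ)| = |(m (σ a) : ℝ) * x + r| := by
      rw [← h3, abs_mul, Nat.abs_cast]
    have h6 : |(m (σ a) : ℝ)| ≤ ∑ i, |(m i : ℝ)| :=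
      Finset.single_le_sum (f := fun i => |(m i : ℝ)|) (fun i _ => abs_nonneg _) (mem_univ _)
    have h7 : |(m (σ a) : ℝ) * x + r| ≤ (∑ i, |(m i : ℝ)|) * |(x : ℝ)| + R := by
      refine (abs_add_le _ _).trans ?_
      rw [abs_mul]
      have := mul_le_mul_of_nonneg_right h6 (abs_nonneg (x : ℝ))
      linarith
    linarith
  unfold GWT
  split_ifs with hx
  · exact key c
  · have := key 0
    simpa using this

/-- the probability of crossing from one point -/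
theorem cross_le' [NeZero d] {θ κ : ℝ} (hθ : 0 < θ) (hκ0 : 0 < κ) (hκ : κ < d) (N : ℕ) (T : ℤ → ℤ)
    (h : ∀ x : ℤ, (N : ℤ) < |x| → ∑ c : Fin d, VV θ (T (x + ((c : ℕ) : ℤ))) ≤ κ * VV θ x)
    (W : Set ℤ) (X H : ℝ) (hX : (N : ℝ) < X) (hH : 0 ≤ H)
    (hW : ∀ x : ℤ, X ≤ |(x : ℝ)| → |(x : ℝ)| ≤ H → x ∈ W) (y : ℤ) :
    P d {ω | Crosses (Tn (GWT (d := d) W T) ω) X H y} ≤
      ENNReal.ofReal ((1 - κ / d)⁻¹ * (VV θ y * (1 + H) ^ (-θ))) := by
  classical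
  set G := GWT (d := d) W T with hG
  set Q : List (Fin d) → Prop := fun w => (∀ s ∈ sites G y w, X ≤ |(s : ℝ)| ∧ |(s : ℝ)| ≤ H) ∧
    H < |(run G y w : ℝ)| with hQ
  have hcover : {ω | Crosses (Tn G ω) X H y} ⊆
      ⋃ n : ℕ, {ω | (sites G y (word G ω y n)).Nodup ∧ Q (word G ω y n)} := by
    rintro ω ⟨n, h1, h2⟩
    rw [Set.mem_iUnion]
    refine ⟨n, (nodup_iff G ω y n).2 (sub_iterate_inj _ H y n (fun i hi => (h1 i hi).2) h2), ?_, ?_⟩
    · intro s hs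
      rw [sites_word, List.mem_map] at hs
      obtain ⟨a, ha, rfl⟩ := hs
      exact h1 a (List.mem_range.1 ha)
    · rw [run_word]
      exact h2
  refine (measure_mono hcover).trans ((measure_iUnion_le _).trans ?_)
  have hV0 := VV_pos θ y
  have hd0 : (0 : ℝ) < d := by
    have := NeZero.pos d
    exact_mod_cast this
  have hκd : κ / d < 1 := by rwa [div_lt_one hd0]
  have hHθ : (0 : ℝ) < (1 + H) ^ (-θ) := by positivity
  have hterm : ∀ n : ℕ, P d {ω | (sites G y (word G ω y n)).Nodup ∧ Q (word G ω y n)} ≤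
      ENNReal.ofReal ((κ / d) ^ n * (VV θ y * (1 + H) ^ (-θ))) := by
    intro n
    apply meas_le_real
    have h1 := good_sum G (VV θ) hκ0 (VV_pos θ) (fun s => X ≤ |(s : ℝ)| ∧ |(s : ℝ)| ≤ H)
      (fun s hs => by
        have hsW : s ∈ W := hW s hs.1 hs.2
        have h2 : ∀ c : Fin d, G s c = T (s + ((c : ℕ) : ℤ)) := fun c => by
          rw [hG]
          unfold GWT
          rw [if_pos hsW]
        simp only [h2]
        apply h
        have h3 : ((N : ℤ) : ℝ) < ((|s| : ℤ) : ℝ) := by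
          push_cast
          linarith [hs.1]
        exact_mod_cast h3) n y
      (fun w => (sites G y w).Nodup ∧ Q w) (fun w hw => hw.2.1)
    have h2 : ((((wd d n).filter (fun w => (sites G y w).Nodup ∧ Q w)).card : ℕ) : ℝ) *
        (1 + H) ^ θ ≤
        ∑ w ∈ (wd d n).filter (fun w => (sites G y w).Nodup ∧ Q w), VV θ (run G y w) := by
      rw [← nsmul_eq_mul, ← Finset.sum_const]
      apply Finset.sum_le_sum
      intro w hw
      unfold VV
      apply Real.rpow_le_rpow (by positivity) _ hθ.le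
      linarith [(mem_filter.1 hw).2.2.2]
    have h3 : (1 + H) ^ (-θ) * (1 + H) ^ θ = 1 := by
      rw [← Real.rpow_add (by positivity)]
      simp
    have h4 : ((((wd d n).filter (fun w => (sites G y w).Nodup ∧ Q w)).card : ℕ) : ℝ) =
        ((((wd d n).filter (fun w => (sites G y w).Nodup ∧ Q w)).card : ℕ) : ℝ) * (1 + H) ^ θ *
          (1 + H) ^ (-θ) := by
      rw [mul_assoc, mul_comm ((1 + H) ^ θ), h3, mul_one]
    rw [h4]
    calc _ ≤ κ ^ n * VV θ y * (1 + H) ^ (-θ) :=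
          mul_le_mul_of_nonneg_right (h2.trans h1) hHθ.le
      _ = _ := by
          rw [div_pow]
          field_simp
  refine (ENNReal.tsum_le_tsum hterm).trans (le_of_eq ?_)
  have hsum : Summable (fun n : ℕ => (κ / d) ^ n * (VV θ y * (1 + H) ^ (-θ))) :=
    (summable_geometric_of_lt_one (by positivity) hκd).mul_right _
  rw [← ENNReal.ofReal_tsum_of_nonneg (fun n => by positivity) hsum, tsum_mul_right,
    tsum_geometric_of_lt_one (by positivity) hκd]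

/-- the probability that the window is crossed at all -/
theorem window_le' [NeZero d] {θ κ : ℝ} (hθ : 0 < θ) (hκ0 : 0 < κ) (hκ : κ < d) (N : ℕ) (T : ℤ → ℤ)
    (h : ∀ x : ℤ, (N : ℤ) < |x| → ∑ c : Fin d, VV θ (T (x + ((c : ℕ) : ℤ))) ≤ κ * VV θ x)
    (W : Set ℤ) (L : ℕ) (hL : 1 ≤ L) (X : ℕ) (H : ℝ) (hX : N < X) (hH : 0 < H)
    (hW : ∀ x : ℤ, (X : ℝ) ≤ |(x : ℝ)| → |(x : ℝ)| ≤ H → x ∈ W) :
    P d {ω | ∃ y : ℤ, |y| ≤ (L : ℤ) * X ∧ Crosses (Tn (GWT (d := d) W T) ω) X H y} ≤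
      ENNReal.ofReal ((1 - κ / d)⁻¹ * (3 * L * X * (2 * (L : ℝ) * X) ^ θ * H ^ (-θ))) := by
  have hX1 : (1 : ℝ) ≤ X := by exact_mod_cast (show 1 ≤ X by omega)
  have hL1 : (1 : ℝ) ≤ L := by exact_mod_cast hL
  have hLX : (1 : ℝ) ≤ (L : ℝ) * X := by nlinarith
  have hd0 : (0 : ℝ) < d := by
    have := NeZero.pos d
    exact_mod_cast this
  have hκd : κ / d < 1 := by rwa [div_lt_one hd0]
  have hκ' : 0 < (1 - κ / d)⁻¹ := inv_pos.2 (by linarith)
  have hcover : {ω | ∃ y : ℤ, |y| ≤ (L : ℤ) * X ∧ Crosses (Tn (GWT (d := d) W T) ω) X H y} ⊆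
      ⋃ y ∈ ball (L * X), {ω | Crosses (Tn (GWT (d := d) W T) ω) X H y} := by
    rintro ω ⟨y, h1, h2⟩
    simp only [Set.mem_iUnion]
    refine ⟨y, mem_ball.2 (by push_cast; exact h1), h2⟩
  refine (measure_mono hcover).trans ((measure_biUnion_finset_le _ _).trans ?_)
  have hcard : (ball (L * X)).card = 2 * (L * X) + 1 := by
    rw [ball, Int.card_Icc]
    omega
  have hterm : ∀ y ∈ ball (L * X), P d {ω | Crosses (Tn (GWT (d := d) W T) ω) X H y} ≤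
      ENNReal.ofReal ((1 - κ / d)⁻¹ * ((2 * (L : ℝ) * X) ^ θ * H ^ (-θ))) := by
    intro y hy
    refine (cross_le' hθ hκ0 hκ N T h W X H (by exact_mod_cast hX) hH.le hW y).trans ?_
    apply ENNReal.ofReal_le_ofReal
    apply mul_le_mul_of_nonneg_left _ hκ'.le
    apply mul_le_mul
    · unfold VV
      apply Real.rpow_le_rpow (by positivity) _ hθ.le
      rw [mem_ball] at hy
      have : ((|y| : ℤ) : ℝ) ≤ (((L * X : ℕ) : ℤ) : ℝ) := by exact_mod_cast hy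
      push_cast at this
      linarith
    · exact Real.rpow_le_rpow_of_nonpos hH (by linarith) (by linarith)
    · positivity
    · positivity
  refine (Finset.sum_le_sum hterm).trans ?_
  rw [Finset.sum_const, hcard, nsmul_eq_mul, ← ENNReal.ofReal_natCast, ← ENNReal.ofReal_mul
    (Nat.cast_nonneg _)]
  apply ENNReal.ofReal_le_ofReal
  have h1 : ((2 * (L * X) + 1 : ℕ) : ℝ) ≤ 3 * L * X := by push_cast; linarith
  have h2 : 0 ≤ (1 - κ / d)⁻¹ * ((2 * (L : ℝ) * X) ^ θ * H ^ (-θ)) := by positivity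
  calc ((2 * (L * X) + 1 : ℕ) : ℝ) * ((1 - κ / d)⁻¹ * ((2 * (L : ℝ) * X) ^ θ * H ^ (-θ)))
      ≤ 3 * L * X * ((1 - κ / d)⁻¹ * ((2 * (L : ℝ) * X) ^ θ * H ^ (-θ))) :=
        mul_le_mul_of_nonneg_right h1 h2
    _ = _ := by ring

/-- an uncrossed window confines all trajectories that start below it -/
theorem confined' (G : ℤ → Fin d → ℤ) (ω : ℤ → Fin d) (L X : ℕ) (H : ℝ) (hL : 1 ≤ L)
    (hstep : ∀ (x : ℤ) (c : Fin d), |(x : ℝ)| ≤ X → |((G x c : ℤ) : ℝ)| ≤ (L : ℝ) * X)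
    (hH : (L : ℝ) * (X : ℝ) ≤ H)
    (h : ¬ ∃ y : ℤ, |y| ≤ (L : ℤ) * X ∧ Crosses (Tn G ω) X H y) (x : ℤ) (hx : |x| < X) (n : ℕ) :
    |(((Tn G ω)^[n] x : ℤ) : ℝ)| ≤ H := by
  classical
  by_contra hcon
  rw [not_le] at hcon
  set f := Tn G ω with hf
  have hex : ∃ n, H < |((f^[n] x : ℤ) : ℝ)| := ⟨n, hcon⟩
  set m := Nat.find hex with hm
  have hmH : H < |((f^[m] x : ℤ) : ℝ)| := Nat.find_spec hex
  have hmin : ∀ i < m, |((f^[i] x : ℤ) : ℝ)| ≤ H := fun i hi => by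
    have := Nat.find_min hex hi
    rwa [not_lt] at this
  have hL1 : (1 : ℝ) ≤ L := by exact_mod_cast hL
  have hX0 : (0 : ℝ) ≤ X := Nat.cast_nonneg _
  have hm0 : 0 < m := by
    rcases Nat.eq_zero_or_pos m with h0 | h0
    · rw [h0] at hmH
      simp only [Function.iterate_zero, id_eq] at hmH
      have : ((|x| : ℤ) : ℝ) < ((X : ℤ) : ℝ) := by exact_mod_cast hx
      push_cast at this
      nlinarith
    · exact h0
  -- the last time below `X`
  obtain ⟨l, hl1, hl2, hl3⟩ : ∃ l, l < m ∧ |f^[l] x| < X ∧ ∀ i, l < i → i < m → (X : ℤ) ≤ |f^[i] x| := by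
    have hne : ((Finset.range m).filter (fun l => |f^[l] x| < X)).Nonempty :=
      ⟨0, by simp [hm0, hx]⟩
    obtain ⟨l, hl, hlmax⟩ := Finset.exists_max_image _ id hne
    rw [mem_filter, Finset.mem_range] at hl
    refine ⟨l, hl.1, hl.2, fun i hi1 hi2 => ?_⟩
    by_contra hc
    rw [not_le] at hc
    have := hlmax i (by rw [mem_filter, Finset.mem_range]; exact ⟨hi2, hc⟩)
    simp only [id] at this
    omega
  have hy2R : |((f^[l + 1] x : ℤ) : ℝ)| ≤ (L : ℝ) * X := by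
    rw [Function.iterate_succ_apply']
    apply hstep
    have : ((|f^[l] x| : ℤ) : ℝ) < ((X : ℤ) : ℝ) := by exact_mod_cast hl2
    push_cast at this
    exact this.le
  have hy2 : |f^[l + 1] x| ≤ (L : ℤ) * X := by
    have : ((|f^[l + 1] x| : ℤ) : ℝ) ≤ (((L : ℤ) * X : ℤ) : ℝ) := by
      push_cast
      exact hy2R
    exact_mod_cast this
  have hlm : l + 1 < m := by
    by_contra hc
    have : l + 1 = m := by omega
    rw [this] at hy2R
    linarith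
  apply h
  refine ⟨f^[l + 1] x, hy2, m - (l + 1), fun i hi => ?_, ?_⟩
  · rw [← Function.iterate_add_apply]
    refine ⟨?_, hmin _ (by omega)⟩
    have h1 := hl3 (i + (l + 1)) (by omega) (by omega)
    have h2 : ((X : ℤ) : ℝ) ≤ ((|f^[i + (l + 1)] x| : ℤ) : ℝ) := by exact_mod_cast h1
    push_cast at h2
    exact h2
  · rw [← Function.iterate_add_apply, show m - (l + 1) + (l + 1) = m by omega]
    exact hmH

/-- bounded trajectories are eventually periodic -/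
theorem cycles_of_bounded (f : ℤ → ℤ) (x : ℤ) (H : ℝ)
    (h : ∀ n : ℕ, |((f^[n] x : ℤ) : ℝ)| ≤ H) : ∃ k p : ℕ, 1 ≤ p ∧ f^[k + p] x = f^[k] x := by
  obtain ⟨B, hB⟩ := exists_nat_ge H
  have h1 : ∀ n : ℕ, f^[n] x ∈ ball B := by
    intro n
    rw [mem_ball]
    have h2 := (h n).trans hB
    have h3 : ((|f^[n] x| : ℤ) : ℝ) ≤ ((B : ℤ) : ℝ) := by
      push_cast
      exact h2
    exact_mod_cast h3
  obtain ⟨i, j, hij, hne⟩ : ∃ i j : ℕ, i < j ∧ f^[i] x = f^[j] x := by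
    have hnot : ¬ Function.Injective (fun n : ℕ => (⟨f^[n] x, h1 n⟩ : (ball B : Finset ℤ))) := by
      intro hinj
      exact not_injective_infinite_finite _ hinj
    simp only [Function.Injective, not_forall] at hnot
    obtain ⟨a, b, hab, hne⟩ := hnot
    have hab' : f^[a] x = f^[b] x := congrArg Subtype.val hab
    rcases lt_or_gt_of_ne hne with h2 | h2
    · exact ⟨a, b, h2, hab'⟩
    · exact ⟨b, a, h2, hab'.symm⟩
  exact ⟨i, j - i, by omega, by rw [show i + (j - i) = j by omega]; exact hne.symm⟩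

/-- **No divergent trajectories, with noise on windows only.** -/
theorem window_ae' [NeZero d] (T : ℤ → ℤ) {m : Fin d → ℤ} {R : ℝ}
    (hm : ∀ i, m i ≠ 0)
    (hG : Lin (fun (x : ℤ) (c : Fin d) => T (x + ((c : ℕ) : ℤ))) d m R)
    (θ β : ℝ) (hθ0 : 0 < θ) (hsum : ∑ i, (|(m i : ℝ)| / d) ^ θ < d) (hβ : 1 + 1 / θ < β)
    (W : Set ℤ)
    (hW : ∀ M : ℕ, ∃ X : ℕ, M ≤ X ∧ ∀ x : ℤ, (X : ℝ) ≤ |(x : ℝ)| →
      |(x : ℝ)| ≤ (X : ℝ) ^ β → x ∈ W) :
    ∀ᵐ ω ∂P d, ∀ x : ℤ, ∃ H : ℝ, ∀ n : ℕ, |(((Tn (GWT (d := d) W T) ω)^[n] x : ℤ) : ℝ)| ≤ H := by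
  classical
  have hd : (0 : ℝ) < d := by
    have := NeZero.pos d
    exact_mod_cast this
  have hδ : 0 < β * θ - θ - 1 := by
    have h1 : (1 + 1 / θ) * θ < β * θ := mul_lt_mul_of_pos_right hβ hθ0
    have h2 : (1 + 1 / θ) * θ = θ + 1 := by field_simp
    linarith
  have hβ1 : 0 < β - 1 := by
    have : 0 < 1 / θ := by positivity
    linarith
  have ha : ∀ i, (0 : ℝ) < |(m i : ℝ)| / d := fun i =>
    div_pos (abs_pos.2 (by exact_mod_cast hm i)) hd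
  obtain ⟨κ, hκ1, hκ2⟩ := exists_between hsum
  have hκ0 : 0 < κ := lt_of_le_of_lt (Finset.sum_nonneg (fun i _ => by
    exact Real.rpow_nonneg (ha i).le _)) hκ1
  obtain ⟨N, hN⟩ := drift _ _ _ (slopes_of_lin (NeZero.pos d) hG) ha θ κ hκ1
  -- the growth constant
  set M₀ : ℝ := ∑ i, |(m i : ℝ)| with hM₀
  obtain ⟨L, hL⟩ : ∃ L : ℕ, M₀ + 1 ≤ L := exists_nat_ge _
  have hM0 : 0 ≤ M₀ := Finset.sum_nonneg (fun i _ => abs_nonneg _)
  have hL1R : (1 : ℝ) ≤ L := by linarith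
  have hL1 : 1 ≤ L := by exact_mod_cast hL1R
  -- the probabilities tend to zero
  have hlim : Tendsto (fun X : ℕ => (1 - κ / d)⁻¹ * (3 * L * (2 * (L : ℝ)) ^ θ) *
      ((X : ℝ) ^ (-(β * θ - θ - 1)))) atTop
      (𝓝 ((1 - κ / d)⁻¹ * (3 * L * (2 * (L : ℝ)) ^ θ) * 0)) := by
    apply Tendsto.const_mul
    exact (tendsto_rpow_neg_atTop hδ).comp tendsto_natCast_atTop_atTop
  rw [mul_zero] at hlim
  have hlim2 : Tendsto (fun X : ℕ => (X : ℝ) ^ (β - 1)) atTop atTop :=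
    (tendsto_rpow_atTop hβ1).comp tendsto_natCast_atTop_atTop
  obtain ⟨M₂, hM₂⟩ := eventually_atTop.1 (hlim2.eventually_ge_atTop (L : ℝ))
  obtain ⟨M₃, hM₃⟩ := exists_nat_ge R
  have hchoose : ∀ j : ℕ, ∃ X : ℕ, (j ≤ X ∧ M₂ ≤ X ∧ M₃ ≤ X ∧ 1 ≤ X) ∧
      P d {ω | ∃ y : ℤ, |y| ≤ (L : ℤ) * X ∧
        Crosses (Tn (GWT (d := d) W T) ω) X ((X : ℝ) ^ β) y} ≤
        ENNReal.ofReal ((1 / 2 : ℝ) ^ j) := by
    intro j
    have h1 := hlim.eventually (gt_mem_nhds (show (0 : ℝ) < (1 / 2) ^ j by positivity))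
    obtain ⟨M, hM⟩ := eventually_atTop.1 h1
    obtain ⟨X, hX1, hX2⟩ := hW (max M (max j (max M₂ (max M₃ (N + 1)))))
    simp only [max_le_iff] at hX1
    obtain ⟨hXM, hXj, hX2', hX3', hXN⟩ := hX1
    have hX0 : (0 : ℝ) < X := by exact_mod_cast (show 0 < X by omega)
    refine ⟨X, ⟨hXj, hX2', hX3', by omega⟩, ?_⟩
    refine (window_le' hθ0 hκ0 hκ2 N T hN W L hL1 X _ (by omega) (by positivity) hX2).trans ?_
    apply ENNReal.ofReal_le_ofReal
    refine le_trans (le_of_eq ?_) (hM X hXM).le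
    rw [Real.mul_rpow (by positivity) hX0.le, ← Real.rpow_mul hX0.le]
    have h2 : (X : ℝ) * ((X : ℝ) ^ θ * (X : ℝ) ^ (β * -θ)) =
        (X : ℝ) ^ (-(β * θ - θ - 1)) := by
      nth_rewrite 1 [← Real.rpow_one (X : ℝ)]
      rw [← Real.rpow_add hX0, ← Real.rpow_add hX0]
      congr 1
      ring
    rw [← h2]
    ring
  choose X hXj hXP using hchoose
  have hbc := bc (μ := P d) (fun j : ℕ => {ω | ∃ y : ℤ, |y| ≤ (L : ℤ) * (X j : ℤ) ∧
    Crosses (Tn (GWT (d := d) W T) ω) (X j) ((X j : ℝ) ^ β) y}) (fun j => (1 / 2 : ℝ) ^ j)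
    (summable_geometric_of_lt_one (by norm_num) (by norm_num)) hXP
  filter_upwards [hbc] with ω hω x
  obtain ⟨J, hJ⟩ := hω.bddAbove
  set j := max (J + 1) (x.natAbs + 1) with hj
  have hjJ : J < j := lt_of_lt_of_le (Nat.lt_succ_self J) (le_max_left _ _)
  have hnot : ¬ ∃ y : ℤ, |y| ≤ (L : ℤ) * (X j : ℤ) ∧
      Crosses (Tn (GWT (d := d) W T) ω) (X j) ((X j : ℝ) ^ β) y := by
    intro hc
    exact absurd (hJ hc) (not_le.2 hjJ)
  obtain ⟨hX1, hX2, hX3, hX4⟩ := hXj j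
  have hXx : |x| < X j := by
    have h1 : x.natAbs + 1 ≤ j := le_max_right _ _
    rw [Int.abs_eq_natAbs]
    exact_mod_cast (by omega : x.natAbs < X j)
  have hX0 : (0 : ℝ) < X j := by exact_mod_cast (show 0 < X j by omega)
  have hRX : R ≤ X j := hM₃.trans (by exact_mod_cast hX3)
  refine ⟨(X j : ℝ) ^ β, confined' _ ω L (X j) _ hL1 ?_ ?_ hnot x hXx⟩
  · intro y c hy
    refine (GWT_le hG W y c).trans ?_
    have h1 : M₀ * |(y : ℝ)| ≤ M₀ * X j := mul_le_mul_of_nonneg_left hy hM0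
    have h2 : (M₀ + 1) * (X j : ℝ) ≤ L * X j := mul_le_mul_of_nonneg_right hL hX0.le
    rw [← hM₀]
    linarith
  · have h1 := hM₂ (X j) hX2
    have h2 : (X j : ℝ) ^ β = (X j : ℝ) ^ (β - 1) * X j := by
      nth_rewrite 3 [← Real.rpow_one (X j : ℝ)]
      rw [← Real.rpow_add hX0]
      congr 1
      ring
    rw [h2]
    exact mul_le_mul_of_nonneg_right h1 hX0.le

end Pool.Agent.Q205.RP
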